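import Pool.Agent.Lib.MP_c41363_gt.Defs

section

set_option autoImplicit false

namespace GT
open Finset

variable {n : ℕ}

theorem d3_rot (a b c : V3) : d3 b c a = d3 a b c := by unfold d3; ring
theorem d3_swap12 (a b c : V3) : d3 b a c = - d3 a b c := by unfold d3; ring
theorem d3_swap23 (a b c : V3) : d3 a c b = - d3 a b c := by unfold d3; ring
theorem d3_self12 (a b : V3) : d3 a a b = 0 := by unfold d3; ring
theorem d3_self23 (a b : V3) : d3 a b b = 0 := by unfold d3; ring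
theorem d3_self13 (a b : V3) : d3 a b a = 0 := by unfold d3; ring
theorem d3_add1 (a a' b c : V3) : d3 (a + a') b c = d3 a b c + d3 a' b c := by
  simp only [d3, Pi.add_apply]; ring
theorem d3_add2 (a b b' c : V3) : d3 a (b + b') c = d3 a b c + d3 a b' c := by
  simp only [d3, Pi.add_apply]; ring
theorem d3_add3 (a b c c' : V3) : d3 a b (c + c') = d3 a b c + d3 a b c' := by
  simp only [d3, Pi.add_apply]; ring
theorem d3_smul1 (r : ℝ) (a b c : V3) : d3 (r • a) b c = r * d3 a b c := by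
  simp only [d3, Pi.smul_apply, smul_eq_mul]; ring
theorem d3_smul2 (r : ℝ) (a b c : V3) : d3 a (r • b) c = r * d3 a b c := by
  simp only [d3, Pi.smul_apply, smul_eq_mul]; ring
theorem d3_smul3 (r : ℝ) (a b c : V3) : d3 a b (r • c) = r * d3 a b c := by
  simp only [d3, Pi.smul_apply, smul_eq_mul]; ring
theorem cramer (a b c y : V3) :
    d3 a b c • y = d3 y b c • a + d3 a y c • b + d3 a b y • c := by
  ext m
  fin_cases m <;> simp [d3] <;> ring
theorem plucker (a b c y y' : V3) :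
    d3 a b c * d3 a y y' = d3 a y c * d3 a b y' - d3 a b y * d3 a y' c := by
  unfold d3; ring
theorem indep {a b c : V3} (h : 0 < d3 a b c) {α β γ α' β' γ' : ℝ}
    (he : α • a + β • b + γ • c = α' • a + β' • b + γ' • c) :
    α = α' ∧ β = β' ∧ γ = γ' := by
  have e1 := congrArg (fun v => d3 v b c) he
  have e2 := congrArg (fun v => d3 a v c) he
  have e3 := congrArg (fun v => d3 a b v) he
  simp only [d3_add1, d3_add2, d3_add3, d3_smul1, d3_smul2, d3_smul3, d3_self12, d3_self23,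
    d3_self13, mul_zero, add_zero, zero_add] at e1 e2 e3
  exact ⟨mul_right_cancel₀ h.ne' e1, mul_right_cancel₀ h.ne' e2, mul_right_cancel₀ h.ne' e3⟩
theorem inC_iff {x : Fin n → V3} {i j k : Fin n} (h : 0 < d3 (x i) (x j) (x k)) (y : V3) :
    inC x (i, j, k) y ↔ ∃ α β γ : ℝ, 0 < α ∧ 0 < β ∧ 0 < γ ∧
      y = α • x i + β • x j + γ • x k := by
  constructor
  · rintro ⟨h1, h2, h3⟩
    simp only at h1 h2 h3
    refine ⟨d3 y (x j) (x k) / d3 (x i) (x j) (x k), d3 (x i) y (x k) / d3 (x i) (x j) (x k),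
      d3 (x i) (x j) y / d3 (x i) (x j) (x k), by positivity, by positivity, by positivity, ?_⟩
    have hc := cramer (x i) (x j) (x k) y
    calc y = (d3 (x i) (x j) (x k))⁻¹ • (d3 (x i) (x j) (x k) • y) := by
          rw [smul_smul, inv_mul_cancel₀ h.ne', one_smul]
      _ = (d3 (x i) (x j) (x k))⁻¹ • (d3 y (x j) (x k) • x i + d3 (x i) y (x k) • x j +
            d3 (x i) (x j) y • x k) := by rw [hc]
      _ = _ := by simp only [smul_add, smul_smul, div_eq_inv_mul]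
  · rintro ⟨α, β, γ, ha, hb, hc, rfl⟩
    refine ⟨?_, ?_, ?_⟩ <;>
    simp only [d3_add1, d3_add2, d3_add3, d3_smul1, d3_smul2, d3_smul3, d3_self12, d3_self23,
      d3_self13, mul_zero, add_zero, zero_add] <;> positivity
theorem inC_rot3 (x : Fin n → V3) (τ : Tri n) (y : V3) : inC x (rot3 τ) y ↔ inC x τ y := by
  unfold inC rot3
  simp only
  rw [d3_rot (x τ.1) y (x τ.2.2), ← d3_rot y (x τ.2.1) (x τ.2.2)]
  have : d3 (x τ.2.1) y (x τ.1) = d3 (x τ.1) (x τ.2.1) y := by unfold d3; ring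
  rw [this]
  have : d3 (x τ.1) y (x τ.2.2) = d3 (x τ.1) y (x τ.2.2) := rfl
  constructor
  · rintro ⟨h1, h2, h3⟩
    exact ⟨h3, h1, h2⟩
  · rintro ⟨h1, h2, h3⟩
    exact ⟨h2, h3, h1⟩
theorem d3_continuous {X : Type} [TopologicalSpace X] {f g h : X → V3} (hf : Continuous f)
    (hg : Continuous g) (hh : Continuous h) : Continuous (fun t => d3 (f t) (g t) (h t)) := by
  unfold d3
  have F : ∀ m, Continuous fun t => f t m := fun m => (continuous_apply m).comp hf
  have G : ∀ m, Continuous fun t => g t m := fun m => (continuous_apply m).comp hg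
  have H : ∀ m, Continuous fun t => h t m := fun m => (continuous_apply m).comp hh
  have := F 0; have := F 1; have := F 2; have := G 0; have := G 1; have := G 2
  have := H 0; have := H 1; have := H 2
  fun_prop
theorem d3_mv (x : Fin n → V3) (N : Fin n) (t : Fin n → ℝ) (i j k : Fin n) (hi : i ≠ N)
    (hj : j ≠ N) (hk : k ≠ N) :
    d3 (mv N x t i) (mv N x t j) (mv N x t k) = d3 (x i) (x j) (x k) +
      (t i * d3 (x N) (x j) (x k) + t j * d3 (x N) (x k) (x i) +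
        t k * d3 (x N) (x i) (x j)) := by
  simp only [mv, if_neg hi, if_neg hj, if_neg hk, d3, Pi.add_apply, Pi.smul_apply, smul_eq_mul]
  ring
theorem d3_mvN (x : Fin n → V3) (N : Fin n) (t : Fin n → ℝ) (i j : Fin n) :
    d3 (mv N x t N) (mv N x t i) (mv N x t j) = d3 (x N) (x i) (x j) := by
  by_cases hi : i = N <;> by_cases hj : j = N <;>
  simp only [mv, if_pos, if_neg, hi, hj, d3, Pi.add_apply, Pi.smul_apply, smul_eq_mul,
    not_false_eq_true] <;> ring
theorem exists_planar (u : V3) (hu : u ≠ 0) (x : Fin n → V3) :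
    ∃ p : Fin n → ℝ × ℝ, (∀ i j, br p i j = d3 u (x i) (x j)) ∧
      (∀ i, p i = 0 ↔ ∃ c : ℝ, x i = c • u) := by
  have : u 0 ≠ 0 ∨ u 1 ≠ 0 ∨ u 2 ≠ 0 := by
    by_contra h
    push Not at h
    apply hu
    ext m
    fin_cases m
    · exact h.1
    · exact h.2.1
    · exact h.2.2
  rcases this with h | h | h
  · refine ⟨fun i => (x i 1 - x i 0 * u 1 / u 0, u 0 * (x i 2 - x i 0 * u 2 / u 0)), ?_, ?_⟩
    · intro i j
      simp only [br, d3]
      field_simp
      ring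
    · intro i
      constructor
      · intro hi
        have h1 := congrArg Prod.fst hi
        have h2 := congrArg Prod.snd hi
        simp only [Prod.fst_zero, Prod.snd_zero] at h1 h2
        have h2' : x i 2 - x i 0 * u 2 / u 0 = 0 := by
          rcases mul_eq_zero.1 h2 with h' | h'
          · exact absurd h' h
          · exact h'
        refine ⟨x i 0 / u 0, ?_⟩
        ext m
        fin_cases m <;> simp
        · field_simp
        · field_simp at h1 ⊢; linarith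
        · field_simp at h2' ⊢; linarith
      · rintro ⟨c, hc⟩
        ext <;> simp only [hc, Pi.smul_apply, smul_eq_mul, Prod.fst_zero, Prod.snd_zero] <;>
          field_simp <;> ring
  · refine ⟨fun i => (x i 2 - x i 1 * u 2 / u 1, u 1 * (x i 0 - x i 1 * u 0 / u 1)), ?_, ?_⟩
    · intro i j
      simp only [br, d3]
      field_simp
      ring
    · intro i
      constructor
      · intro hi
        have h1 := congrArg Prod.fst hi
        have h2 := congrArg Prod.snd hi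
        simp only [Prod.fst_zero, Prod.snd_zero] at h1 h2
        have h2' : x i 0 - x i 1 * u 0 / u 1 = 0 := by
          rcases mul_eq_zero.1 h2 with h' | h'
          · exact absurd h' h
          · exact h'
        refine ⟨x i 1 / u 1, ?_⟩
        ext m
        fin_cases m <;> simp
        · field_simp at h2' ⊢; linarith
        · field_simp
        · field_simp at h1 ⊢; linarith
      · rintro ⟨c, hc⟩
        ext <;> simp only [hc, Pi.smul_apply, smul_eq_mul, Prod.fst_zero, Prod.snd_zero] <;>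
          field_simp <;> ring
  · refine ⟨fun i => (x i 0 - x i 2 * u 0 / u 2, u 2 * (x i 1 - x i 2 * u 1 / u 2)), ?_, ?_⟩
    · intro i j
      simp only [br, d3]
      field_simp
      ring
    · intro i
      constructor
      · intro hi
        have h1 := congrArg Prod.fst hi
        have h2 := congrArg Prod.snd hi
        simp only [Prod.fst_zero, Prod.snd_zero] at h1 h2
        have h2' : x i 1 - x i 2 * u 1 / u 2 = 0 := by
          rcases mul_eq_zero.1 h2 with h' | h'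
          · exact absurd h' h
          · exact h'
        refine ⟨x i 2 / u 2, ?_⟩
        ext m
        fin_cases m <;> simp
        · field_simp at h1 ⊢; linarith
        · field_simp at h2' ⊢; linarith
        · field_simp
      · rintro ⟨c, hc⟩
        ext <;> simp only [hc, Pi.smul_apply, smul_eq_mul, Prod.fst_zero, Prod.snd_zero] <;>
          field_simp <;> ring
theorem exists_height (u : V3) (hu : u ≠ 0) (x : Fin n → V3) :
    ∃ z : Fin n → ℝ, ∀ i j k, d3 (x i) (x j) (x k) =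
      z i * d3 u (x j) (x k) + z j * d3 u (x k) (x i) + z k * d3 u (x i) (x j) := by
  have : u 0 ≠ 0 ∨ u 1 ≠ 0 ∨ u 2 ≠ 0 := by
    by_contra h
    push Not at h
    apply hu
    ext m
    fin_cases m
    · exact h.1
    · exact h.2.1
    · exact h.2.2
  rcases this with h | h | h
  · refine ⟨fun i => x i 0 / u 0, fun i j k => ?_⟩
    simp only [d3]
    field_simp
    ring
  · refine ⟨fun i => x i 1 / u 1, fun i j k => ?_⟩
    simp only [d3]
    field_simp
    ring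
  · refine ⟨fun i => x i 2 / u 2, fun i j k => ?_⟩
    simp only [d3]
    field_simp
    ring

end GT
end

section

set_option autoImplicit false

namespace GT

open Finset

variable {n : ℕ}

/-! ### the opposite dart -/

open Classical in
/-- the triple on the other side of the dart `(τ.1, τ.2.1)` -/
noncomputable def cc_opp (T : Finset (Tri n)) (τ : Tri n) : Tri n :=
  if h : ∃ l, (τ.2.1, τ.1, l) ∈ T then (τ.2.1, τ.1, h.choose) else τ

theorem cc_opp_eq {T : Finset (Tri n)} (hT : Cx T) {i j k l : Fin n}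
    (h' : (j, i, l) ∈ T) : cc_opp T (i, j, k) = (j, i, l) := by
  unfold cc_opp
  have hex : ∃ l, (((i, j, k) : Tri n).2.1, ((i, j, k) : Tri n).1, l) ∈ T := ⟨l, h'⟩
  rw [dif_pos hex]
  have := hT.uniq j i _ _ hex.choose_spec h'
  simp only [Prod.mk.injEq, true_and]
  exact this

theorem cc_opp_mem {T : Finset (Tri n)} (hT : Cx T) {τ : Tri n} (h : τ ∈ T) : cc_opp T τ ∈ T := by
  obtain ⟨i, j, k⟩ := τ
  obtain ⟨l, hl⟩ := hT.sym i j k h
  rw [cc_opp_eq hT hl]; exact hl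

theorem cc_opp_fst {T : Finset (Tri n)} (hT : Cx T) {τ : Tri n} (h : τ ∈ T) :
    (cc_opp T τ).1 = τ.2.1 := by
  obtain ⟨i, j, k⟩ := τ
  obtain ⟨l, hl⟩ := hT.sym i j k h
  rw [cc_opp_eq hT hl]

theorem cc_opp_snd {T : Finset (Tri n)} (hT : Cx T) {τ : Tri n} (h : τ ∈ T) :
    (cc_opp T τ).2.1 = τ.1 := by
  obtain ⟨i, j, k⟩ := τ
  obtain ⟨l, hl⟩ := hT.sym i j k h
  rw [cc_opp_eq hT hl]

theorem cc_opp_opp {T : Finset (Tri n)} (hT : Cx T) {τ : Tri n} (h : τ ∈ T) :
    cc_opp T (cc_opp T τ) = τ := by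
  obtain ⟨i, j, k⟩ := τ
  obtain ⟨l, hl⟩ := hT.sym i j k h
  rw [cc_opp_eq hT hl, cc_opp_eq hT h]

theorem cc_rot_mem {T : Finset (Tri n)} (hT : Cx T) {τ : Tri n} (h : τ ∈ T) : rot3 τ ∈ T :=
  hT.rot _ _ _ h

theorem cc_rot_rot_rot (τ : Tri n) : rot3 (rot3 (rot3 τ)) = τ := rfl

/-! ### the canonical rotation -/

/-- the rotation with smallest first entry -/
def cc_rep (τ : Tri n) : Tri n :=
  if τ.1 < τ.2.1 ∧ τ.1 < τ.2.2 then τ
  else if τ.2.1 < τ.2.2 ∧ τ.2.1 < τ.1 then rot3 τ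
  else rot3 (rot3 τ)

theorem cc_rep_rot {τ : Tri n} (h12 : τ.1 ≠ τ.2.1) (h13 : τ.1 ≠ τ.2.2) (h23 : τ.2.1 ≠ τ.2.2) :
    cc_rep (rot3 τ) = cc_rep τ := by
  obtain ⟨i, j, k⟩ := τ
  simp only [cc_rep, rot3]
  simp only at h12 h13 h23
  rcases lt_or_gt_of_ne h12 with h1 | h1 <;> rcases lt_or_gt_of_ne h13 with h2 | h2 <;>
    rcases lt_or_gt_of_ne h23 with h3 | h3 <;>
    simp [h1, h2, h3, not_lt.mpr h1.le, not_lt.mpr h2.le, not_lt.mpr h3.le] <;>
    omega

theorem cc_rep_cases (τ : Tri n) :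
    cc_rep τ = τ ∨ cc_rep τ = rot3 τ ∨ cc_rep τ = rot3 (rot3 τ) := by
  unfold cc_rep
  split_ifs
  · exact Or.inl rfl
  · exact Or.inr (Or.inl rfl)
  · exact Or.inr (Or.inr rfl)

theorem cc_rep_lt {τ : Tri n} (h12 : τ.1 ≠ τ.2.1) (h13 : τ.1 ≠ τ.2.2) (h23 : τ.2.1 ≠ τ.2.2) :
    (cc_rep τ).1 < (cc_rep τ).2.1 ∧ (cc_rep τ).1 < (cc_rep τ).2.2 := by
  obtain ⟨i, j, k⟩ := τ
  simp only [cc_rep, rot3]
  simp only at h12 h13 h23
  rcases lt_or_gt_of_ne h12 with h1 | h1 <;> rcases lt_or_gt_of_ne h13 with h2 | h2 <;>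
    rcases lt_or_gt_of_ne h23 with h3 | h3 <;>
    simp [h1, h2, h3, not_lt.mpr h1.le, not_lt.mpr h2.le, not_lt.mpr h3.le] <;>
    omega

theorem cc_ne {T : Finset (Tri n)} (hT : Cx T) {τ : Tri n} (h : τ ∈ T) :
    τ.1 ≠ τ.2.1 ∧ τ.1 ≠ τ.2.2 ∧ τ.2.1 ≠ τ.2.2 := by
  obtain ⟨i, j, k⟩ := τ
  have h2 := hT.rot _ _ _ h
  have h3 := hT.rot _ _ _ h2
  exact ⟨hT.ne _ _ _ h, (hT.ne _ _ _ h3).symm, hT.ne _ _ _ h2⟩

/-- darts inside `P` -/
def cc_D (T : Finset (Tri n)) (P : Finset (Fin n)) : Finset (Tri n) :=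
  T.filter (fun τ => τ.1 ∈ P ∧ τ.2.1 ∈ P)

/-- ordered faces inside `P` -/
def cc_F (T : Finset (Tri n)) (P : Finset (Fin n)) : Finset (Tri n) :=
  T.filter (fun τ => τ.1 ∈ P ∧ τ.2.1 ∈ P ∧ τ.2.2 ∈ P)

/-- one dart per edge -/
def cc_Ed (T : Finset (Tri n)) (P : Finset (Fin n)) : Finset (Tri n) :=
  (cc_D T P).filter (fun τ => τ.1 < τ.2.1)

/-- one triple per face -/
def cc_Fa (T : Finset (Tri n)) (P : Finset (Fin n)) : Finset (Tri n) :=
  (cc_F T P).filter (fun τ => τ.1 < τ.2.1 ∧ τ.1 < τ.2.2)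

theorem cc_mem_D {T : Finset (Tri n)} {P : Finset (Fin n)} {τ : Tri n} :
    τ ∈ cc_D T P ↔ τ ∈ T ∧ τ.1 ∈ P ∧ τ.2.1 ∈ P := by simp [cc_D]

theorem cc_mem_F {T : Finset (Tri n)} {P : Finset (Fin n)} {τ : Tri n} :
    τ ∈ cc_F T P ↔ τ ∈ T ∧ τ.1 ∈ P ∧ τ.2.1 ∈ P ∧ τ.2.2 ∈ P := by simp [cc_F]

theorem cc_mem_Ed {T : Finset (Tri n)} {P : Finset (Fin n)} {τ : Tri n} :
    τ ∈ cc_Ed T P ↔ τ ∈ cc_D T P ∧ τ.1 < τ.2.1 := by simp [cc_Ed]

theorem cc_mem_Fa {T : Finset (Tri n)} {P : Finset (Fin n)} {τ : Tri n} :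
    τ ∈ cc_Fa T P ↔ τ ∈ cc_F T P ∧ τ.1 < τ.2.1 ∧ τ.1 < τ.2.2 := by simp [cc_Fa]

theorem cc_opp_D {T : Finset (Tri n)} (hT : Cx T) {P : Finset (Fin n)} {τ : Tri n}
    (h : τ ∈ cc_D T P) : cc_opp T τ ∈ cc_D T P := by
  rw [cc_mem_D] at h ⊢
  exact ⟨cc_opp_mem hT h.1, by rw [cc_opp_fst hT h.1]; exact h.2.2,
    by rw [cc_opp_snd hT h.1]; exact h.2.1⟩

theorem cc_rot_F {T : Finset (Tri n)} (hT : Cx T) {P : Finset (Fin n)} {τ : Tri n}
    (h : τ ∈ cc_F T P) : rot3 τ ∈ cc_F T P := by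
  rw [cc_mem_F] at h ⊢
  exact ⟨cc_rot_mem hT h.1, h.2.2.1, h.2.2.2, h.2.1⟩

theorem cc_card_D {T : Finset (Tri n)} (hT : Cx T) (P : Finset (Fin n)) :
    (cc_D T P).card = 2 * (cc_Ed T P).card := by
  have h1 : (cc_D T P).card = ((cc_D T P).filter (fun τ => τ.1 < τ.2.1)).card +
      ((cc_D T P).filter (fun τ => ¬ τ.1 < τ.2.1)).card :=
    (Finset.card_filter_add_card_filter_not _).symm
  have h2 : ((cc_D T P).filter (fun τ => ¬ τ.1 < τ.2.1)).card = (cc_Ed T P).card := by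
    refine Finset.card_nbij' (cc_opp T) (cc_opp T) ?_ ?_ ?_ ?_
    · intro τ hτ
      simp only [coe_filter, Set.mem_ofPred_eq] at hτ
      have hm := (cc_mem_D.1 hτ.1).1
      have hne := (cc_ne hT hm).1
      simp only [mem_coe, cc_mem_Ed]
      refine ⟨cc_opp_D hT hτ.1, ?_⟩
      rw [cc_opp_fst hT hm, cc_opp_snd hT hm]
      omega
    · intro τ hτ
      simp only [mem_coe, cc_mem_Ed] at hτ
      have hm := (cc_mem_D.1 hτ.1).1
      simp only [coe_filter, Set.mem_ofPred_eq]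
      refine ⟨cc_opp_D hT hτ.1, ?_⟩
      rw [cc_opp_fst hT hm, cc_opp_snd hT hm]
      exact not_lt.mpr hτ.2.le
    · intro τ hτ
      simp only [coe_filter, Set.mem_ofPred_eq] at hτ
      exact cc_opp_opp hT (cc_mem_D.1 hτ.1).1
    · intro τ hτ
      simp only [mem_coe, cc_mem_Ed] at hτ
      exact cc_opp_opp hT (cc_mem_D.1 hτ.1).1
  rw [h1, h2]
  change (cc_Ed T P).card + _ = _
  ring

theorem cc_card_F {T : Finset (Tri n)} (hT : Cx T) (P : Finset (Fin n)) :
    (cc_F T P).card = 3 * (cc_Fa T P).card := by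
  have h1 : (cc_F T P).card = ((cc_F T P).filter (fun τ => τ.1 < τ.2.1 ∧ τ.1 < τ.2.2)).card +
      ((cc_F T P).filter (fun τ => ¬ (τ.1 < τ.2.1 ∧ τ.1 < τ.2.2))).card :=
    (Finset.card_filter_add_card_filter_not _).symm
  have h2 : ((cc_F T P).filter (fun τ => ¬ (τ.1 < τ.2.1 ∧ τ.1 < τ.2.2))).card =
      (((cc_F T P).filter (fun τ => ¬ (τ.1 < τ.2.1 ∧ τ.1 < τ.2.2))).filter
        (fun τ => τ.2.1 < τ.2.2 ∧ τ.2.1 < τ.1)).card +
      (((cc_F T P).filter (fun τ => ¬ (τ.1 < τ.2.1 ∧ τ.1 < τ.2.2))).filter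
        (fun τ => ¬ (τ.2.1 < τ.2.2 ∧ τ.2.1 < τ.1))).card :=
    (Finset.card_filter_add_card_filter_not _).symm
  have h3 : (((cc_F T P).filter (fun τ => ¬ (τ.1 < τ.2.1 ∧ τ.1 < τ.2.2))).filter
        (fun τ => τ.2.1 < τ.2.2 ∧ τ.2.1 < τ.1)).card = (cc_Fa T P).card := by
    refine Finset.card_nbij' rot3 (fun τ => rot3 (rot3 τ)) ?_ ?_ ?_ ?_
    · intro τ hτ
      simp only [coe_filter, mem_filter, Set.mem_ofPred_eq] at hτ
      simp only [mem_coe, cc_mem_Fa]
      exact ⟨cc_rot_F hT hτ.1.1, hτ.2.1, hτ.2.2⟩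
    · intro τ hτ
      simp only [mem_coe, cc_mem_Fa] at hτ
      simp only [coe_filter, mem_filter, Set.mem_ofPred_eq]
      refine ⟨⟨cc_rot_F hT (cc_rot_F hT hτ.1), ?_⟩, hτ.2.1, hτ.2.2⟩
      simp only [rot3]
      have := hτ.2.2
      omega
    · intro τ _; rfl
    · intro τ _; rfl
  have h4 : (((cc_F T P).filter (fun τ => ¬ (τ.1 < τ.2.1 ∧ τ.1 < τ.2.2))).filter
        (fun τ => ¬ (τ.2.1 < τ.2.2 ∧ τ.2.1 < τ.1))).card = (cc_Fa T P).card := by
    refine Finset.card_nbij' (fun τ => rot3 (rot3 τ)) rot3 ?_ ?_ ?_ ?_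
    · intro τ hτ
      simp only [coe_filter, mem_filter, Set.mem_ofPred_eq] at hτ
      obtain ⟨⟨hF, ha⟩, hb⟩ := hτ
      obtain ⟨h12, h13, h23⟩ := cc_ne hT (cc_mem_F.1 hF).1
      simp only [mem_coe, cc_mem_Fa]
      refine ⟨cc_rot_F hT (cc_rot_F hT hF), ?_⟩
      simp only [rot3]
      omega
    · intro τ hτ
      simp only [mem_coe, cc_mem_Fa] at hτ
      obtain ⟨hF, ha, hb⟩ := hτ
      simp only [coe_filter, mem_filter, Set.mem_ofPred_eq]
      refine ⟨⟨cc_rot_F hT hF, ?_⟩, ?_⟩ <;> simp only [rot3] <;> omega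
    · intro τ _; rfl
    · intro τ _; rfl
  rw [h1, h2, h3, h4]
  change (cc_Fa T P).card + _ = _
  ring

theorem cc_chi6 {T : Finset (Tri n)} (hT : Cx T) (P : Finset (Fin n)) :
    chi6 T P = 6 * ((P.card : ℤ) - (cc_Ed T P).card + (cc_Fa T P).card) := by
  have h1 := cc_card_D hT P
  have h2 := cc_card_F hT P
  have e : chi6 T P = 6 * (P.card : ℤ) - 3 * ((cc_D T P).card : ℤ) + 2 * ((cc_F T P).card : ℤ) := rfl
  rw [e, h1, h2]
  push_cast
  ring

/-! ### orthogonality of face functions and gradients -/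

theorem cc_sum_opp {T : Finset (Tri n)} (hT : Cx T) (P : Finset (Fin n)) (f : Tri n → ℝ) :
    ∑ τ ∈ cc_D T P, f (cc_opp T τ) = ∑ τ ∈ cc_D T P, f τ := by
  refine Finset.sum_nbij' (cc_opp T) (cc_opp T) ?_ ?_ ?_ ?_ ?_
  · intro τ hτ; exact cc_opp_D hT hτ
  · intro τ hτ; exact cc_opp_D hT hτ
  · intro τ hτ; exact cc_opp_opp hT (cc_mem_D.1 hτ).1
  · intro τ hτ; exact cc_opp_opp hT (cc_mem_D.1 hτ).1
  · intro τ _; rfl

theorem cc_sum_rot {T : Finset (Tri n)} (hT : Cx T) (P : Finset (Fin n)) (f : Tri n → ℝ) :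
    ∑ τ ∈ cc_F T P, f (rot3 τ) = ∑ τ ∈ cc_F T P, f τ := by
  refine Finset.sum_nbij' rot3 (fun τ => rot3 (rot3 τ)) ?_ ?_ ?_ ?_ ?_
  · intro τ hτ; exact cc_rot_F hT hτ
  · intro τ hτ; exact cc_rot_F hT (cc_rot_F hT hτ)
  · intro τ _; rfl
  · intro τ _; rfl
  · intro τ _; rfl

theorem cc_key {T : Finset (Tri n)} (hT : Cx T) (P : Finset (Fin n)) (g : Tri n → ℝ)
    (Ψ : Fin n → ℝ) (hg : ∀ τ ∈ T, g (rot3 τ) = g τ)
    (hgP : ∀ τ ∈ T, g τ ≠ 0 → τ.1 ∈ P ∧ τ.2.1 ∈ P ∧ τ.2.2 ∈ P) :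
    ∑ τ ∈ cc_D T P, (g τ - g (cc_opp T τ)) * (Ψ τ.2.1 - Ψ τ.1) = 0 := by
  have h1 : ∑ τ ∈ cc_D T P, g (cc_opp T τ) * (Ψ τ.2.1 - Ψ τ.1) =
      ∑ τ ∈ cc_D T P, g τ * (Ψ τ.1 - Ψ τ.2.1) := by
    rw [← cc_sum_opp hT P (fun τ => g τ * (Ψ τ.1 - Ψ τ.2.1))]
    refine Finset.sum_congr rfl fun τ hτ => ?_
    have hm := (cc_mem_D.1 hτ).1
    rw [cc_opp_fst hT hm, cc_opp_snd hT hm]
  have h2 : ∑ τ ∈ cc_D T P, g τ * (Ψ τ.2.1 - Ψ τ.1) = ∑ τ ∈ cc_F T P, g τ * (Ψ τ.2.1 - Ψ τ.1) := by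
    symm
    refine Finset.sum_subset ?_ ?_
    · intro τ hτ
      rw [cc_mem_F] at hτ
      rw [cc_mem_D]
      exact ⟨hτ.1, hτ.2.1, hτ.2.2.1⟩
    · intro τ hτ hτ'
      rw [cc_mem_D] at hτ
      rw [cc_mem_F] at hτ'
      by_cases h0 : g τ = 0
      · rw [h0, zero_mul]
      · exact absurd ⟨hτ.1, hgP τ hτ.1 h0⟩ hτ'
  have h3 : ∑ τ ∈ cc_F T P, g τ * (Ψ τ.2.1 - Ψ τ.1) = 0 := by
    have e1 := cc_sum_rot hT P (fun τ => g τ * (Ψ τ.2.1 - Ψ τ.1))
    have e2 := cc_sum_rot hT P (fun τ => g (rot3 τ) * (Ψ (rot3 τ).2.1 - Ψ (rot3 τ).1))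
    have e3 : ∑ τ ∈ cc_F T P, (g τ * (Ψ τ.2.1 - Ψ τ.1) +
        g (rot3 τ) * (Ψ (rot3 τ).2.1 - Ψ (rot3 τ).1) +
        g (rot3 (rot3 τ)) * (Ψ (rot3 (rot3 τ)).2.1 - Ψ (rot3 (rot3 τ)).1)) = 0 := by
      refine Finset.sum_eq_zero fun τ hτ => ?_
      have hm := (cc_mem_F.1 hτ).1
      rw [hg _ (cc_rot_mem hT hm), hg _ hm]
      simp only [rot3]
      ring
    rw [Finset.sum_add_distrib, Finset.sum_add_distrib] at e3
    linarith
  have h4 : ∑ τ ∈ cc_D T P, (g τ - g (cc_opp T τ)) * (Ψ τ.2.1 - Ψ τ.1) =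
      ∑ τ ∈ cc_D T P, g τ * (Ψ τ.2.1 - Ψ τ.1) -
        ∑ τ ∈ cc_D T P, g (cc_opp T τ) * (Ψ τ.2.1 - Ψ τ.1) := by
    rw [← Finset.sum_sub_distrib]
    refine Finset.sum_congr rfl fun τ _ => by ring
  have h5 : ∑ τ ∈ cc_D T P, g τ * (Ψ τ.1 - Ψ τ.2.1) =
      -∑ τ ∈ cc_D T P, g τ * (Ψ τ.2.1 - Ψ τ.1) := by
    rw [← Finset.sum_neg_distrib]
    refine Finset.sum_congr rfl fun τ _ => by ring
  rw [h4, h1, h5, h2, h3]
  ring

/-! ### the linear map -/

section lin

variable (T : Finset (Tri n))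

/-- extension by zero from a finset of faces to all triples, through the canonical rotation -/
def cc_G (Fs : Finset (Tri n)) : (Fs → ℝ) →ₗ[ℝ] (Tri n → ℝ) where
  toFun φ := fun τ => if h : cc_rep τ ∈ Fs then φ ⟨cc_rep τ, h⟩ else 0
  map_add' φ ψ := by
    funext τ
    by_cases h : cc_rep τ ∈ Fs <;> simp [h]
  map_smul' c φ := by
    funext τ
    by_cases h : cc_rep τ ∈ Fs <;> simp [h]

/-- extension by zero from a finset of vertices -/
def cc_X (Vs : Finset (Fin n)) : (Vs → ℝ) →ₗ[ℝ] (Fin n → ℝ) where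
  toFun φ := fun i => if h : i ∈ Vs then φ ⟨i, h⟩ else 0
  map_add' φ ψ := by
    funext τ
    by_cases h : τ ∈ Vs <;> simp [h]
  map_smul' c φ := by
    funext τ
    by_cases h : τ ∈ Vs <;> simp [h]

/-- the linear map of the counting argument -/
noncomputable def cc_Phi (Fs : Finset (Tri n)) (Vs : Finset (Fin n)) (Es : Finset (Tri n)) :
    ((Fs → ℝ) × (Vs → ℝ)) →ₗ[ℝ] (Es → ℝ) where
  toFun x := fun τ => cc_G Fs x.1 τ.1 - cc_G Fs x.1 (cc_opp T τ.1) +
    (cc_X Vs x.2 τ.1.2.1 - cc_X Vs x.2 τ.1.1)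
  map_add' x y := by
    funext τ
    simp only [Prod.fst_add, Prod.snd_add, map_add, Pi.add_apply]
    ring
  map_smul' c x := by
    funext τ
    simp only [Prod.smul_fst, Prod.smul_snd, map_smul, Pi.smul_apply, RingHom.id_apply, smul_eq_mul]
    ring

end lin

theorem cc_G_rot {T : Finset (Tri n)} (hT : Cx T) (Fs : Finset (Tri n)) (φ : Fs → ℝ) :
    ∀ τ ∈ T, cc_G Fs φ (rot3 τ) = cc_G Fs φ τ := by
  intro τ hτ
  obtain ⟨h12, h13, h23⟩ := cc_ne hT hτ
  change (if h : cc_rep (rot3 τ) ∈ Fs then φ ⟨cc_rep (rot3 τ), h⟩ else 0) =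
    (if h : cc_rep τ ∈ Fs then φ ⟨cc_rep τ, h⟩ else 0)
  simp only [cc_rep_rot h12 h13 h23]

theorem cc_G_P {T : Finset (Tri n)} {P : Finset (Fin n)} {Fs : Finset (Tri n)}
    (hF : Fs ⊆ cc_Fa T P) (φ : Fs → ℝ) :
    ∀ τ ∈ T, cc_G Fs φ τ ≠ 0 → τ.1 ∈ P ∧ τ.2.1 ∈ P ∧ τ.2.2 ∈ P := by
  intro τ _ h
  have hmem : cc_rep τ ∈ Fs := by
    by_contra hc
    apply h
    change (if h : cc_rep τ ∈ Fs then φ ⟨cc_rep τ, h⟩ else 0) = 0
    rw [dif_neg hc]
  have h2 := (cc_mem_F.1 (cc_mem_Fa.1 (hF hmem)).1).2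
  rcases cc_rep_cases τ with e | e | e
  · rw [e] at h2; exact h2
  · rw [e] at h2
    simp only [rot3] at h2
    exact ⟨h2.2.2, h2.1, h2.2.1⟩
  · rw [e] at h2
    simp only [rot3] at h2
    exact ⟨h2.2.1, h2.2.2, h2.1⟩

theorem cc_G_self {Fs : Finset (Tri n)} (φ : Fs → ℝ) (τ : Fs) (h : τ.1.1 < τ.1.2.1 ∧ τ.1.1 < τ.1.2.2) :
    cc_G Fs φ τ.1 = φ τ := by
  have e : cc_rep τ.1 = τ.1 := by
    unfold cc_rep
    rw [if_pos h]
  change (if h : cc_rep τ.1 ∈ Fs then φ ⟨cc_rep τ.1, h⟩ else 0) = φ τ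
  simp only [e, τ.2, dite_true]

theorem cc_X_self {Vs : Finset (Fin n)} (φ : Vs → ℝ) (i : Vs) : cc_X Vs φ i.1 = φ i := by
  change (if h : i.1 ∈ Vs then φ ⟨i.1, h⟩ else 0) = φ i
  simp only [i.2, dite_true]

theorem cc_X_not {Vs : Finset (Fin n)} (φ : Vs → ℝ) {i : Fin n} (h : i ∉ Vs) : cc_X Vs φ i = 0 := by
  change (if h : i ∈ Vs then φ ⟨i, h⟩ else 0) = 0
  rw [dif_neg h]

/-- if `Φ x` is the restriction of an antisymmetric function then the formula holds for all darts -/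
theorem cc_Phi_all {T : Finset (Tri n)} (hT : Cx T) {P : Finset (Fin n)} {Fs : Finset (Tri n)}
    {Vs : Finset (Fin n)} (x : (Fs → ℝ) × (Vs → ℝ)) (η : Tri n → ℝ)
    (hη : ∀ τ ∈ cc_D T P, η (cc_opp T τ) = - η τ)
    (hx : ∀ τ : (cc_Ed T P : Finset (Tri n)), cc_Phi T Fs Vs (cc_Ed T P) x τ = η τ.1) :
    ∀ τ ∈ cc_D T P, cc_G Fs x.1 τ - cc_G Fs x.1 (cc_opp T τ) +
      (cc_X Vs x.2 τ.2.1 - cc_X Vs x.2 τ.1) = η τ := by
  intro τ hτ
  have hm := (cc_mem_D.1 hτ).1
  by_cases hlt : τ.1 < τ.2.1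
  · exact hx ⟨τ, cc_mem_Ed.2 ⟨hτ, hlt⟩⟩
  · have hne := (cc_ne hT hm).1
    have hmem : cc_opp T τ ∈ cc_Ed T P := by
      rw [cc_mem_Ed]
      refine ⟨cc_opp_D hT hτ, ?_⟩
      rw [cc_opp_fst hT hm, cc_opp_snd hT hm]
      omega
    have h := hx ⟨cc_opp T τ, hmem⟩
    change cc_G Fs x.1 (cc_opp T τ) - cc_G Fs x.1 (cc_opp T (cc_opp T τ)) +
      (cc_X Vs x.2 (cc_opp T τ).2.1 - cc_X Vs x.2 (cc_opp T τ).1) = η (cc_opp T τ) at h
    rw [cc_opp_opp hT hm, cc_opp_fst hT hm, cc_opp_snd hT hm, hη τ hτ] at h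
    linarith

/-- the gradient part vanishes -/
theorem cc_grad_zero {T : Finset (Tri n)} (hT : Cx T) {P : Finset (Fin n)} {Fs : Finset (Tri n)}
    (hF : Fs ⊆ cc_Fa T P) {Vs : Finset (Fin n)} (x : (Fs → ℝ) × (Vs → ℝ)) (η : Tri n → ℝ)
    (hη : ∀ τ ∈ cc_D T P, cc_G Fs x.1 τ - cc_G Fs x.1 (cc_opp T τ) +
      (cc_X Vs x.2 τ.2.1 - cc_X Vs x.2 τ.1) = η τ)
    (h0 : ∑ τ ∈ cc_D T P, η τ * (cc_X Vs x.2 τ.2.1 - cc_X Vs x.2 τ.1) = 0) :
    ∀ τ ∈ cc_D T P, cc_X Vs x.2 τ.2.1 = cc_X Vs x.2 τ.1 := by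
  have hkey := cc_key hT P (cc_G Fs x.1) (cc_X Vs x.2) (cc_G_rot hT Fs x.1) (cc_G_P hF x.1)
  have h1 : ∑ τ ∈ cc_D T P, (cc_X Vs x.2 τ.2.1 - cc_X Vs x.2 τ.1) ^ 2 = 0 := by
    have h2 : ∑ τ ∈ cc_D T P, η τ * (cc_X Vs x.2 τ.2.1 - cc_X Vs x.2 τ.1) =
        ∑ τ ∈ cc_D T P, (cc_G Fs x.1 τ - cc_G Fs x.1 (cc_opp T τ)) *
          (cc_X Vs x.2 τ.2.1 - cc_X Vs x.2 τ.1) +
        ∑ τ ∈ cc_D T P, (cc_X Vs x.2 τ.2.1 - cc_X Vs x.2 τ.1) ^ 2 := by
      rw [← Finset.sum_add_distrib]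
      refine Finset.sum_congr rfl fun τ hτ => ?_
      rw [← hη τ hτ]
      ring
    rw [h0, hkey] at h2
    linarith
  intro τ hτ
  have h3 := (Finset.sum_eq_zero_iff_of_nonneg (fun τ _ => sq_nonneg _)).1 h1 τ hτ
  have h4 := pow_eq_zero_iff (two_ne_zero) |>.1 h3
  linarith

theorem cc_const {T : Finset (Tri n)} {P : Finset (Fin n)} (hc : Conn T P) (Ψ : Fin n → ℝ)
    {i0 : Fin n} (hi0 : i0 ∈ P) (h : ∀ τ ∈ cc_D T P, Ψ τ.2.1 = Ψ τ.1) :
    ∀ i ∈ P, Ψ i = Ψ i0 := by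
  classical
  have hQ := hc (P.filter (fun i => Ψ i = Ψ i0)) (Finset.filter_subset _ _)
    ⟨i0, by simp [hi0]⟩ (by
      intro i hi j hj hij
      obtain ⟨k, hk⟩ := hij
      rw [Finset.mem_filter] at hi ⊢
      have := h (i, j, k) (cc_mem_D.2 ⟨hk, hi.1, hj⟩)
      simp only at this
      exact ⟨hj, by rw [this, hi.2]⟩)
  intro i hi
  rw [← hQ, Finset.mem_filter] at hi
  exact hi.2

theorem chi6_conn {T : Finset (Tri n)} (hT : Cx T) (hs : Strong T) (P : Finset (Fin n))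
    (hP : P.Nonempty) (hPV : P ⊆ verts T) (hne : P ≠ verts T) (hc : Conn T P) :
    chi6 T P ≤ 6 := by
  classical
  obtain ⟨i0, hi0⟩ := hP
  have hinj : Function.Injective (cc_Phi T (cc_Fa T P) (P.erase i0) (cc_Ed T P)) := by
    rw [← LinearMap.ker_eq_bot, LinearMap.ker_eq_bot']
    intro x hx
    have hall := cc_Phi_all hT (P := P) x (fun _ => 0) (fun _ _ => by simp)
      (fun τ => by rw [hx]; rfl)
    have hgr := cc_grad_zero hT (subset_refl _) x (fun _ => 0) hall (by simp)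
    have hΨ := cc_const hc (cc_X (P.erase i0) x.2) hi0 hgr
    have hΨ0 : cc_X (P.erase i0) x.2 i0 = 0 := cc_X_not _ (by simp)
    have hψ : x.2 = 0 := by
      funext i
      have := hΨ i.1 (Finset.mem_of_mem_erase i.2)
      rw [cc_X_self, hΨ0] at this
      exact this
    have hg : ∀ τ ∈ cc_D T P, cc_G (cc_Fa T P) x.1 (cc_opp T τ) = cc_G (cc_Fa T P) x.1 τ := by
      intro τ hτ
      have h1 := hall τ hτ
      have h2 := hgr τ hτ
      linarith
    have hφ : x.1 = 0 := by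
      by_contra hcon
      obtain ⟨τ0, hτ0⟩ := Function.ne_iff.1 hcon
      have hlt := (cc_mem_Fa.1 τ0.2).2
      have hT0 : τ0.1 ∈ T := (cc_mem_F.1 (cc_mem_Fa.1 τ0.2).1).1
      have hST := hs (T.filter (fun τ => cc_G (cc_Fa T P) x.1 τ ≠ 0)) (Finset.filter_subset _ _)
        ⟨τ0.1, by
          rw [Finset.mem_filter]
          refine ⟨hT0, ?_⟩
          rw [cc_G_self x.1 τ0 hlt]
          exact hτ0⟩
        (by
          intro i j k h
          rw [Finset.mem_filter] at h ⊢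
          refine ⟨hT.rot _ _ _ h.1, ?_⟩
          have := cc_G_rot hT (cc_Fa T P) x.1 (i, j, k) h.1
          simp only [rot3] at this
          rw [this]
          exact h.2)
        (by
          intro i j k l h hl
          rw [Finset.mem_filter] at h ⊢
          refine ⟨hl, ?_⟩
          have hp := cc_G_P (subset_refl _) x.1 (i, j, k) h.1 h.2
          have := hg (i, j, k) (cc_mem_D.2 ⟨h.1, hp.1, hp.2.1⟩)
          rw [cc_opp_eq hT hl] at this
          rw [this]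
          exact h.2)
      apply hne
      refine Finset.Subset.antisymm hPV ?_
      intro i hi
      unfold verts at hi
      rw [Finset.mem_image] at hi
      obtain ⟨τ, hτ, rfl⟩ := hi
      have h1 := hτ
      rw [← hST, Finset.mem_filter] at h1
      exact (cc_G_P (subset_refl _) x.1 τ hτ h1.2).1
    exact Prod.ext hφ hψ
  have hrank := LinearMap.finrank_le_finrank_of_injective hinj
  rw [Module.finrank_prod, Module.finrank_fintype_fun_eq_card, Module.finrank_fintype_fun_eq_card,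
    Module.finrank_fintype_fun_eq_card, Fintype.card_coe, Fintype.card_coe, Fintype.card_coe,
    Finset.card_erase_of_mem hi0] at hrank
  have hpos : 0 < P.card := Finset.card_pos.2 ⟨i0, hi0⟩
  rw [cc_chi6 hT P]
  omega

end GT
end

section

set_option autoImplicit false

namespace GT

open Finset

variable {n : ℕ}

theorem adj_symm {T : Finset (Tri n)} (hT : Cx T) {i j : Fin n} (h : Adj T i j) : Adj T j i := by
  obtain ⟨k, hk⟩ := h
  exact hT.sym i j k hk

theorem adj_verts {T : Finset (Tri n)} (hT : Cx T) {i j : Fin n} (h : Adj T i j) :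
    i ∈ verts T ∧ j ∈ verts T := by
  obtain ⟨k, hk⟩ := h
  unfold verts
  simp only [Finset.mem_image]
  exact ⟨⟨(i, j, k), hk, rfl⟩, ⟨(j, k, i), hT.rot _ _ _ hk, rfl⟩⟩

theorem mem_link {T : Finset (Tri n)} {i j : Fin n} : j ∈ link T i ↔ Adj T i j := by
  unfold link Adj
  simp only [Finset.mem_image, Finset.mem_filter]
  constructor
  · rintro ⟨⟨a, b, c⟩, ⟨h1, h2⟩, h3⟩
    simp only at h2 h3
    subst h2 h3
    exact ⟨c, h1⟩
  · rintro ⟨k, hk⟩
    exact ⟨(i, j, k), ⟨hk, rfl⟩, rfl⟩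

theorem gr_mem_verts {T : Finset (Tri n)} {i : Fin n} : i ∈ verts T ↔ ∃ j, Adj T i j := by
  unfold verts Adj
  simp only [Finset.mem_image]
  constructor
  · rintro ⟨⟨a, b, c⟩, h1, h2⟩
    simp only at h2
    subst h2
    exact ⟨b, c, h1⟩
  · rintro ⟨j, k, hk⟩
    exact ⟨(i, j, k), hk, rfl⟩

theorem gr_next {T : Finset (Tri n)} (hT : Cx T) {i j k : Fin n} (h : (i, j, k) ∈ T) :
    Adj T i k :=
  hT.sym k i j (hT.rot _ _ _ (hT.rot _ _ _ h))

theorem gr_ne {T : Finset (Tri n)} (hT : Cx T) {i j : Fin n} (h : Adj T i j) : i ≠ j := by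
  obtain ⟨k, hk⟩ := h
  exact hT.ne _ _ _ hk

theorem conn_verts {T : Finset (Tri n)} (hT : Cx T) (hs : Strong T) : Conn T (verts T) := by
  intro Q hQ hQn hcl
  have hS := hs (T.filter (fun τ => τ.1 ∈ Q)) (Finset.filter_subset _ _)
    (by
      obtain ⟨i, hi⟩ := hQn
      obtain ⟨j, k, hk⟩ := gr_mem_verts.1 (hQ hi)
      exact ⟨(i, j, k), by rw [Finset.mem_filter]; exact ⟨hk, hi⟩⟩)
    (by
      intro i j k h
      rw [Finset.mem_filter] at h ⊢
      exact ⟨hT.rot _ _ _ h.1, hcl i h.2 j (adj_verts hT ⟨k, h.1⟩).2 ⟨k, h.1⟩⟩)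
    (by
      intro i j k l h hl
      rw [Finset.mem_filter] at h ⊢
      exact ⟨hl, hcl i h.2 j (adj_verts hT ⟨k, h.1⟩).2 ⟨k, h.1⟩⟩)
  refine Finset.Subset.antisymm hQ ?_
  intro i hi
  obtain ⟨j, k, hk⟩ := gr_mem_verts.1 hi
  rw [← hS, Finset.mem_filter] at hk
  exact hk.2

theorem conn_link {T : Finset (Tri n)} (hT : Cx T) (hl : LinkCyc T) (N : Fin n)
    (hN : N ∈ verts T) : Conn T (link T N) := by
  intro Q hQ hQn hcl
  obtain ⟨j0, hj0⟩ := hQn
  refine Finset.Subset.antisymm hQ ?_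
  intro j hj
  refine hl N Q ⟨j0, hj0, mem_link.1 (hQ hj0)⟩ ?_ j (mem_link.1 hj)
  intro j k h hjQ
  exact hcl j hjQ k (mem_link.2 (gr_next hT h)) ⟨N, hT.rot _ _ _ h⟩

theorem conn_erase {T : Finset (Tri n)} (hT : Cx T) (hs : Strong T) (hl : LinkCyc T) (N : Fin n)
    (hN : N ∈ verts T) : Conn T ((verts T).erase N) := by
  classical
  intro Q hQ hQn hcl
  have hNQ : N ∉ Q := fun h => (Finset.mem_erase.1 (hQ h)).1 rfl
  have hQV : Q ⊆ verts T := hQ.trans (Finset.erase_subset _ _)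
  by_cases hne : (Q ∩ link T N).Nonempty
  · have h1 := conn_link hT hl N hN (Q ∩ link T N) Finset.inter_subset_right hne (by
      intro i hi j hj hij
      rw [Finset.mem_inter] at hi ⊢
      refine ⟨hcl i hi.1 j ?_ hij, hj⟩
      rw [Finset.mem_erase]
      exact ⟨(gr_ne hT (mem_link.1 hj)).symm, (adj_verts hT hij).2⟩)
    have hsub : link T N ⊆ Q := by
      rw [← h1]
      exact Finset.inter_subset_left
    have h2 := conn_verts hT hs (insert N Q) (by
        intro i hi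
        rw [Finset.mem_insert] at hi
        rcases hi with rfl | hi
        · exact hN
        · exact hQV hi) ⟨N, Finset.mem_insert_self _ _⟩ (by
      intro i hi j hj hij
      rw [Finset.mem_insert] at hi ⊢
      by_cases hjN : j = N
      · exact Or.inl hjN
      · right
        rcases hi with rfl | hi
        · exact hsub (mem_link.2 hij)
        · exact hcl i hi j (Finset.mem_erase.2 ⟨hjN, hj⟩) hij)
    refine Finset.Subset.antisymm hQ ?_
    intro i hi
    rw [Finset.mem_erase, ← h2, Finset.mem_insert] at hi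
    rcases hi.2 with h | h
    · exact absurd h hi.1
    · exact h
  · exfalso
    have h2 := conn_verts hT hs Q hQV hQn (by
      intro i hi j hj hij
      refine hcl i hi j (Finset.mem_erase.2 ⟨?_, hj⟩) hij
      rintro rfl
      apply hne
      exact ⟨i, Finset.mem_inter.2 ⟨hi, mem_link.2 (adj_symm hT hij)⟩⟩)
    rw [h2] at hNQ
    exact hNQ hN

theorem conn_insert {T : Finset (Tri n)} (hT : Cx T) (N : Fin n) (W : Finset (Fin n))
    (hW : Conn T W) (h : ∃ j ∈ W, Adj T N j) : Conn T (insert N W) := by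
  classical
  intro Q hQ hQn hcl
  obtain ⟨j, hj, hNj⟩ := h
  by_cases hne : (Q ∩ W).Nonempty
  · have h1 := hW (Q ∩ W) Finset.inter_subset_right hne (by
      intro a ha b hb hab
      rw [Finset.mem_inter] at ha ⊢
      exact ⟨hcl a ha.1 b (Finset.mem_insert_of_mem hb) hab, hb⟩)
    have hsub : W ⊆ Q := by
      rw [← h1]
      exact Finset.inter_subset_left
    refine Finset.Subset.antisymm hQ ?_
    intro i hi
    rw [Finset.mem_insert] at hi
    rcases hi with rfl | hi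
    · exact hcl j (hsub hj) i (Finset.mem_insert_self _ _) (adj_symm hT hNj)
    · exact hsub hi
  · exfalso
    obtain ⟨q, hq⟩ := hQn
    have hqN : q = N := by
      rcases Finset.mem_insert.1 (hQ hq) with h | h
      · exact h
      · exact absurd ⟨q, Finset.mem_inter.2 ⟨hq, h⟩⟩ hne
    subst hqN
    exact hne ⟨j, Finset.mem_inter.2 ⟨hcl q hq j (Finset.mem_insert_of_mem hj) hNj, hj⟩⟩

/-- components: `R` connected inside `A` extends to a maximal connected subset of `A` -/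
theorem exists_comp {T : Finset (Tri n)} (hT : Cx T) (A R : Finset (Fin n)) (hR : R ⊆ A)
    (hRn : R.Nonempty) (hRc : Conn T R) : ∃ W ⊆ A, R ⊆ W ∧ Conn T W ∧
      ∀ i ∈ W, ∀ j ∈ A, Adj T i j → j ∈ W := by
  classical
  obtain ⟨W, hW, hmax⟩ := Finset.exists_max_image
    (A.powerset.filter (fun W => R ⊆ W ∧ Conn T W)) Finset.card
    ⟨R, by rw [Finset.mem_filter, Finset.mem_powerset]; exact ⟨hR, subset_refl _, hRc⟩⟩
  rw [Finset.mem_filter, Finset.mem_powerset] at hW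
  refine ⟨W, hW.1, hW.2.1, hW.2.2, ?_⟩
  intro i hi j hj hij
  by_contra hjW
  have h1 := conn_insert hT j W hW.2.2 ⟨i, hi, adj_symm hT hij⟩
  have h2 := hmax (insert j W) (by
    rw [Finset.mem_filter, Finset.mem_powerset]
    refine ⟨?_, hW.2.1.trans (Finset.subset_insert _ _), h1⟩
    intro a ha
    rw [Finset.mem_insert] at ha
    rcases ha with rfl | ha
    · exact hj
    · exact hW.1 ha)
  rw [Finset.card_insert_of_notMem hjW] at h2
  omega

end GT
end

section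

section

set_option autoImplicit false

namespace GT
open Finset

variable {n : ℕ}

theorem oc_bool (A B C a b c m1 m2 m3 : Bool) :
    (B = c → C = (!b) → m1 = true) → (B = (!c) → C = b → m1 = false) →
    (C = a → A = (!c) → m2 = true) → (C = (!a) → A = c → m2 = false) →
    (A = b → B = (!a) → m3 = true) → (A = (!b) → B = a → m3 = false) →
    ¬ (A = m1 ∧ B = m2 ∧ C = m3) → ¬ (A = (!m1) ∧ B = (!m2) ∧ C = (!m3)) →
    ¬ (a = m1 ∧ b = m2 ∧ c = m3) → ¬ (a = (!m1) ∧ b = (!m2) ∧ c = (!m3)) →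
    (if A = true ∧ B = true ∧ C = true then (1 : ℤ) else 0) -
      (if a = true ∧ b = true ∧ c = true then 1 else 0) =
      ((if m2 = true ∧ m1 = false ∧ c = false ∧ C = true then 1 else 0) -
        (if m2 = false ∧ m1 = true ∧ c = true ∧ C = false then 1 else 0)) +
      ((if m3 = true ∧ m2 = false ∧ a = false ∧ A = true then 1 else 0) -
        (if m3 = false ∧ m2 = true ∧ a = true ∧ A = false then 1 else 0)) +
      ((if m1 = true ∧ m3 = false ∧ b = false ∧ B = true then 1 else 0) -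
        (if m1 = false ∧ m3 = true ∧ b = true ∧ B = false then 1 else 0)) := by
  cases A <;> cases B <;> cases C <;> cases a <;> cases b <;> cases c <;> cases m1 <;>
    cases m2 <;> cases m3 <;> simp

theorem oc_neg {x : ℝ} (hx : x ≠ 0) : (x < 0) = (decide (0 < x) = false) := by
  simp only [decide_eq_false_iff_not, not_lt, eq_iff_iff]
  exact ⟨le_of_lt, fun h => lt_of_le_of_ne h hx⟩

theorem oc_pos (x : ℝ) : (0 < x) = (decide (0 < x) = true) := by
  simp only [decide_eq_true_eq]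

theorem oc_eq {x y : ℝ} (hx : x ≠ 0) (hy : y ≠ 0) (h : decide (0 < x) = decide (0 < y)) :
    0 < x * y := by
  rcases lt_or_gt_of_ne hx with h1 | h1
  · have : ¬ 0 < y := by
      intro h2
      rw [decide_eq_decide] at h
      exact absurd (h.2 h2) (not_lt.2 h1.le)
    exact mul_pos_of_neg_of_neg h1 (lt_of_le_of_ne (not_lt.1 this) hy)
  · rw [decide_eq_decide] at h
    exact mul_pos h1 (h.1 h1)

theorem oc_ne {x y : ℝ} (hx : x ≠ 0) (hy : y ≠ 0) (h : decide (0 < x) = !decide (0 < y)) :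
    x * y < 0 := by
  have h' : decide (0 < x) = decide (0 < -y) := by
    rw [h, ← decide_not, decide_eq_decide]
    constructor
    · intro h3
      have := lt_of_le_of_ne (not_lt.1 h3) hy
      linarith
    · intro h3 h4
      linarith
  have := oc_eq hx (neg_ne_zero.2 hy) h'
  linarith

/-- signed crossing of the open cone of `a b` with the open sector from `y` to `y'` -/
theorem octant {A B C A' B' C' : ℝ} (hA : A ≠ 0) (hB : B ≠ 0) (hC : C ≠ 0) (hA' : A' ≠ 0)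
    (hB' : B' ≠ 0) (hC' : C' ≠ 0) (h1 : B * C' - C * B' ≠ 0) (h2 : C * A' - A * C' ≠ 0)
    (h3 : A * B' - B * A' ≠ 0) :
    (if 0 < A ∧ 0 < B ∧ 0 < C then (1 : ℤ) else 0) - (if 0 < A' ∧ 0 < B' ∧ 0 < C' then 1 else 0) =
      ((if 0 < C * A' - A * C' ∧ B * C' - C * B' < 0 ∧ C' < 0 ∧ 0 < C then 1 else 0) -
        (if C * A' - A * C' < 0 ∧ 0 < B * C' - C * B' ∧ 0 < C' ∧ C < 0 then 1 else 0)) +
      ((if 0 < A * B' - B * A' ∧ C * A' - A * C' < 0 ∧ A' < 0 ∧ 0 < A then 1 else 0) -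
        (if A * B' - B * A' < 0 ∧ 0 < C * A' - A * C' ∧ 0 < A' ∧ A < 0 then 1 else 0)) +
      ((if 0 < B * C' - C * B' ∧ A * B' - B * A' < 0 ∧ B' < 0 ∧ 0 < B then 1 else 0) -
        (if B * C' - C * B' < 0 ∧ 0 < A * B' - B * A' ∧ 0 < B' ∧ B < 0 then 1 else 0)) := by
  have i1 : A * (B * C' - C * B') + B * (C * A' - A * C') + C * (A * B' - B * A') = 0 := by ring
  have i2 : A' * (B * C' - C * B') + B' * (C * A' - A * C') + C' * (A * B' - B * A') = 0 := by ring
  have key := oc_bool (decide (0 < A)) (decide (0 < B)) (decide (0 < C)) (decide (0 < A'))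
    (decide (0 < B')) (decide (0 < C')) (decide (0 < B * C' - C * B'))
    (decide (0 < C * A' - A * C')) (decide (0 < A * B' - B * A'))
    (fun u v => by
      have u := oc_eq hB hC' u; have v := oc_ne hC hB' v
      simp only [decide_eq_true_eq]; linarith)
    (fun u v => by
      have u := oc_ne hB hC' u; have v := oc_eq hC hB' v
      simp only [decide_eq_false_iff_not, not_lt]; linarith)
    (fun u v => by
      have u := oc_eq hC hA' u; have v := oc_ne hA hC' v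
      simp only [decide_eq_true_eq]; linarith)
    (fun u v => by
      have u := oc_ne hC hA' u; have v := oc_eq hA hC' v
      simp only [decide_eq_false_iff_not, not_lt]; linarith)
    (fun u v => by
      have u := oc_eq hA hB' u; have v := oc_ne hB hA' v
      simp only [decide_eq_true_eq]; linarith)
    (fun u v => by
      have u := oc_ne hA hB' u; have v := oc_eq hB hA' v
      simp only [decide_eq_false_iff_not, not_lt]; linarith)
    (fun ⟨u, v, w⟩ => by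
      have u := oc_eq hA h1 u; have v := oc_eq hB h2 v; have w := oc_eq hC h3 w
      linarith)
    (fun ⟨u, v, w⟩ => by
      have u := oc_ne hA h1 u; have v := oc_ne hB h2 v; have w := oc_ne hC h3 w
      linarith)
    (fun ⟨u, v, w⟩ => by
      have u := oc_eq hA' h1 u; have v := oc_eq hB' h2 v; have w := oc_eq hC' h3 w
      linarith)
    (fun ⟨u, v, w⟩ => by
      have u := oc_ne hA' h1 u; have v := oc_ne hB' h2 v; have w := oc_ne hC' h3 w
      linarith)
  simp only [← oc_pos, ← oc_neg hA, ← oc_neg hB, ← oc_neg hC, ← oc_neg hA', ← oc_neg hB',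
    ← oc_neg hC', ← oc_neg h1, ← oc_neg h2, ← oc_neg h3] at key
  convert key using 1

end GT
end

section

set_option autoImplicit false

namespace GT
open Finset

variable {n : ℕ}

/-- an affine function that does not vanish identically vanishes at most once; finitely many of
them avoid zero at small positive times -/
theorem av_small {α : Type} (S : Finset α) (f : α → ℝ → ℝ) (hf : ∀ q ∈ S, Continuous (f q))
    (hz : ∀ q ∈ S, {t : ℝ | f q t = 0}.Finite) (δ : ℝ) (hδ : 0 < δ) :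
    ∃ t : ℝ, 0 < t ∧ t < δ ∧ ∀ q ∈ S, f q t ≠ 0 := by
  have hfin : (⋃ q ∈ S, {t : ℝ | f q t = 0}).Finite :=
    Set.Finite.biUnion S.finite_toSet (fun q hq => hz q hq)
  have hinf : (Set.Ioo 0 δ).Infinite := Set.Ioo_infinite hδ
  obtain ⟨t, ht, hn⟩ := hinf.exists_notMem_finite hfin
  refine ⟨t, ht.1, ht.2, fun q hq h0 => hn ?_⟩
  simp only [Set.mem_iUnion]
  exact ⟨q, hq, h0⟩

theorem avoid_d3 (S : Finset (V3 × V3)) (hS : ∀ q ∈ S, ∃ c, d3 q.1 q.2 c ≠ 0) (y0 : V3) (ε : ℝ)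
    (hε : 0 < ε) : ∃ y : V3, (∀ a, |y a - y0 a| < ε) ∧ ∀ q ∈ S, d3 q.1 q.2 y ≠ 0 := by
  classical
  induction S using Finset.induction_on generalizing y0 ε with
  | empty => exact ⟨y0, by simpa using hε, by simp⟩
  | insert q S hq ih =>
    obtain ⟨y1, hy1, hy1'⟩ := ih (fun r hr => hS r (Finset.mem_insert_of_mem hr)) y0 (ε / 2)
      (by linarith)
    obtain ⟨c, hc⟩ := hS q (Finset.mem_insert_self _ _)
    -- size of c
    set C := |c 0| + |c 1| + |c 2| + 1 with hC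
    have hCpos : 0 < C := by positivity
    have hca : ∀ a, |c a| ≤ C := by
      intro a
      have := abs_nonneg (c 0); have := abs_nonneg (c 1); have := abs_nonneg (c 2)
      fin_cases a <;> simp [hC] <;> linarith
    have hlin : ∀ r : V3 × V3, ∀ t : ℝ, d3 r.1 r.2 (y1 + t • c) = d3 r.1 r.2 y1 +
        t * d3 r.1 r.2 c := fun r t => by rw [d3_add3, d3_smul3]
    obtain ⟨t, ht0, ht1, ht2⟩ := av_small (insert q S) (fun r t => d3 r.1 r.2 (y1 + t • c))
      (fun r _ => by simp only [hlin]; fun_prop)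
      (by
        intro r hr
        by_cases hrc : d3 r.1 r.2 c = 0
        · have : {t : ℝ | d3 r.1 r.2 (y1 + t • c) = 0} = ∅ := by
            ext t
            simp only [hlin, hrc, mul_zero, add_zero, Set.mem_setOf_eq, Set.mem_empty_iff_false,
              iff_false]
            rcases Finset.mem_insert.1 hr with h | h
            · exact absurd hrc (h ▸ hc)
            · exact hy1' r h
          rw [this]
          exact Set.finite_empty
        · apply Set.Finite.subset (Set.finite_singleton (-(d3 r.1 r.2 y1) / d3 r.1 r.2 c))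
          intro t ht
          simp only [hlin, Set.mem_setOf_eq] at ht
          simp only [Set.mem_singleton_iff]
          field_simp
          linarith) (ε / 2 / C) (by positivity)
    refine ⟨y1 + t • c, fun a => ?_, fun r hr => ht2 r hr⟩
    have h1 := hy1 a
    have h2 : |t * c a| < ε / 2 := by
      rw [abs_mul, abs_of_pos ht0]
      calc t * |c a| ≤ t * C := by
            apply mul_le_mul_of_nonneg_left (hca a) ht0.le
        _ < ε / 2 / C * C := by apply mul_lt_mul_of_pos_right ht1 hCpos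
        _ = ε / 2 := by field_simp
    have h3 : (y1 + t • c) a - y0 a = (y1 a - y0 a) + t * c a := by
      simp only [Pi.add_apply, Pi.smul_apply, smul_eq_mul]; ring
    rw [h3]
    calc |(y1 a - y0 a) + t * c a| ≤ |y1 a - y0 a| + |t * c a| := abs_add_le _ _
      _ < ε := by linarith

theorem av_two (u : V3) (hu : u ≠ 0) : ∃ u1 u2 : V3, d3 u u1 u2 ≠ 0 := by
  have : u 0 ≠ 0 ∨ u 1 ≠ 0 ∨ u 2 ≠ 0 := by
    by_contra h
    push Not at h
    apply hu
    ext m
    fin_cases m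
    · exact h.1
    · exact h.2.1
    · exact h.2.2
  rcases this with h | h | h
  · exact ⟨![0, 1, 0], ![0, 0, 1], by simpa [d3] using h⟩
  · exact ⟨![0, 0, 1], ![1, 0, 0], by simpa [d3] using h⟩
  · exact ⟨![1, 0, 0], ![0, 1, 0], by simpa [d3] using h⟩

theorem avoid_config (x : Fin n → V3) (N : Fin n) (hN : x N ≠ 0) (ε : ℝ) (hε : 0 < ε) :
    ∃ x' : Fin n → V3, x' N = x N ∧ (∀ i a, |x' i a - x i a| < ε) ∧
      (∀ i j, i ≠ j → i ≠ N → j ≠ N → d3 (x' N) (x' i) (x' j) ≠ 0) ∧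
      (∀ i j, 0 < d3 (x N) (x i) (x j) → 0 < d3 (x' N) (x' i) (x' j)) ∧
      (∀ i j, d3 (x N) (x i) (x j) < 0 → d3 (x' N) (x' i) (x' j) < 0) := by
  classical
  obtain ⟨u1, u2, hκ⟩ := av_two (x N) hN
  -- the perturbation
  let e : Fin n → V3 := fun i => if i = N then 0 else u1 + (i : ℝ) • u2
  let X : ℝ → Fin n → V3 := fun t i => x i + t • e i
  have hXN : ∀ t, X t N = x N := by intro t; simp [X, e]
  have hXc : ∀ i, Continuous (fun t => X t i) := by
    intro i; simp only [X]; fun_prop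
  have hquad : ∀ i j t, d3 (x N) (X t i) (X t j) = d3 (x N) (x i) (x j) +
      t * (d3 (x N) (e i) (x j) + d3 (x N) (x i) (e j)) + t ^ 2 * d3 (x N) (e i) (e j) := by
    intro i j t
    simp only [X, d3_add2, d3_add3, d3_smul2, d3_smul3]
    ring
  have hee : ∀ i j, i ≠ j → i ≠ N → j ≠ N → d3 (x N) (e i) (e j) ≠ 0 := by
    intro i j hij hi hj
    have : d3 (x N) (e i) (e j) = ((j : ℝ) - (i : ℝ)) * d3 (x N) u1 u2 := by
      simp only [e, if_neg hi, if_neg hj, d3_add2, d3_add3, d3_smul2, d3_smul3, d3_self23,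
        d3_swap23 (x N) u1 u2]
      ring
    rw [this]
    apply mul_ne_zero _ hκ
    rw [sub_ne_zero]
    intro h
    apply hij
    have : (j : ℕ) = (i : ℕ) := by exact_mod_cast h
    exact (Fin.ext this).symm
  -- eventually small conditions
  have ev1 : ∀ᶠ t in nhds (0 : ℝ), ∀ i a, |X t i a - x i a| < ε := by
    rw [Filter.eventually_all]; intro i
    rw [Filter.eventually_all]; intro a
    have hc : Continuous (fun t : ℝ => |X t i a - x i a|) := by
      have : Continuous (fun t => X t i a) := (continuous_apply a).comp (hXc i)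
      fun_prop
    have h0 : |X 0 i a - x i a| < ε := by simp [X, hε]
    exact hc.continuousAt.eventually (gt_mem_nhds h0)
  have ev2 : ∀ᶠ t in nhds (0 : ℝ), ∀ i j, 0 < d3 (x N) (x i) (x j) →
      0 < d3 (x N) (X t i) (X t j) := by
    rw [Filter.eventually_all]; intro i
    rw [Filter.eventually_all]; intro j
    by_cases h : 0 < d3 (x N) (x i) (x j)
    · have hc : Continuous (fun t : ℝ => d3 (x N) (X t i) (X t j)) :=
        d3_continuous continuous_const (hXc i) (hXc j)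
      have h0 : 0 < d3 (x N) (X 0 i) (X 0 j) := by simpa [X] using h
      filter_upwards [hc.continuousAt.eventually (lt_mem_nhds h0)] with t ht _ using ht
    · exact Filter.Eventually.of_forall fun t h' => absurd h' h
  have ev3 : ∀ᶠ t in nhds (0 : ℝ), ∀ i j, d3 (x N) (x i) (x j) < 0 →
      d3 (x N) (X t i) (X t j) < 0 := by
    rw [Filter.eventually_all]; intro i
    rw [Filter.eventually_all]; intro j
    by_cases h : d3 (x N) (x i) (x j) < 0
    · have hc : Continuous (fun t : ℝ => d3 (x N) (X t i) (X t j)) :=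
        d3_continuous continuous_const (hXc i) (hXc j)
      have h0 : d3 (x N) (X 0 i) (X 0 j) < 0 := by simpa [X] using h
      filter_upwards [hc.continuousAt.eventually (gt_mem_nhds h0)] with t ht _ using ht
    · exact Filter.Eventually.of_forall fun t h' => absurd h' h
  obtain ⟨δ, hδ, hball⟩ := Metric.eventually_nhds_iff.1 (ev1.and (ev2.and ev3))
  obtain ⟨t, ht0, ht1, ht2⟩ := av_small
    ((Finset.univ : Finset (Fin n × Fin n)).filter (fun q => q.1 ≠ q.2 ∧ q.1 ≠ N ∧ q.2 ≠ N))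
    (fun q t => d3 (x N) (X t q.1) (X t q.2))
    (fun q _ => d3_continuous continuous_const (hXc q.1) (hXc q.2))
    (by
      intro q hq
      simp only [Finset.mem_filter, Finset.mem_univ, true_and] at hq
      have hne := hee q.1 q.2 hq.1 hq.2.1 hq.2.2
      -- roots of a nonzero quadratic
      let P : Polynomial ℝ := Polynomial.C (d3 (x N) (x q.1) (x q.2)) +
        Polynomial.C (d3 (x N) (e q.1) (x q.2) + d3 (x N) (x q.1) (e q.2)) * Polynomial.X +
        Polynomial.C (d3 (x N) (e q.1) (e q.2)) * Polynomial.X ^ 2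
      have hP : P ≠ 0 := by
        intro h0
        have := congrArg (fun Q => Polynomial.coeff Q 2) h0
        simp [P, Polynomial.coeff_X, Polynomial.coeff_C] at this
        exact hne this
      apply Set.Finite.subset (P.rootSet_finite ℝ)
      intro t ht
      rw [Polynomial.mem_rootSet]
      refine ⟨hP, ?_⟩
      simp only [Set.mem_setOf_eq, hquad] at ht
      simp only [P, Polynomial.coe_aeval_eq_eval, Polynomial.eval_add, Polynomial.eval_mul,
        Polynomial.eval_C, Polynomial.eval_X, Polynomial.eval_pow]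
      linarith) δ hδ
  have hd : dist t 0 < δ := by rw [Real.dist_eq, sub_zero, abs_of_pos ht0]; exact ht1
  obtain ⟨h1, h2, h3⟩ := hball hd
  refine ⟨X t, hXN t, h1, ?_, ?_, ?_⟩
  · intro i j hij hi hj
    rw [hXN]
    exact ht2 (i, j) (by simp [hij, hi, hj])
  · intro i j h; rw [hXN]; exact h2 i j h
  · intro i j h; rw [hXN]; exact h3 i j h

end GT
end

section

/-!
# MP_c41363_gt, GT-3b: the number of open cones containing a generic point is constant
-/

set_option autoImplicit false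

namespace GT
open Finset

variable {n : ℕ}

/-- signed crossing number of the sector `y y'` with the cone of `x i`, `x j` -/
private noncomputable def cn_g (x : Fin n → V3) (y y' : V3) (i j : Fin n) : ℤ :=
  (if 0 < d3 (x j) y y' ∧ d3 (x i) y y' < 0 ∧ d3 (x i) (x j) y' < 0 ∧ 0 < d3 (x i) (x j) y
    then 1 else 0) -
  (if d3 (x j) y y' < 0 ∧ 0 < d3 (x i) y y' ∧ 0 < d3 (x i) (x j) y' ∧ d3 (x i) (x j) y < 0
    then 1 else 0)

private theorem cn_g_anti (x : Fin n → V3) (y y' : V3) (i j : Fin n) :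
    cn_g x y y' i j + cn_g x y y' j i = 0 := by
  unfold cn_g
  rw [d3_swap12 (x i) (x j) y, d3_swap12 (x i) (x j) y']
  simp only [Left.neg_neg_iff, Left.neg_pos_iff]
  have e1 : (0 < d3 (x j) y y' ∧ d3 (x i) y y' < 0 ∧ d3 (x i) (x j) y' < 0 ∧
      0 < d3 (x i) (x j) y) ↔ (d3 (x i) y y' < 0 ∧ 0 < d3 (x j) y y' ∧ d3 (x i) (x j) y' < 0 ∧
      0 < d3 (x i) (x j) y) := by tauto
  have e2 : (d3 (x j) y y' < 0 ∧ 0 < d3 (x i) y y' ∧ 0 < d3 (x i) (x j) y' ∧
      d3 (x i) (x j) y < 0) ↔ (0 < d3 (x i) y y' ∧ d3 (x j) y y' < 0 ∧ 0 < d3 (x i) (x j) y' ∧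
      d3 (x i) (x j) y < 0) := by tauto
  simp only [e1, e2]
  ring

private theorem cn_pos_mul {D u : ℝ} (hD : 0 < D) : 0 < D * u ↔ 0 < u :=
  mul_pos_iff_of_pos_left hD

private theorem cn_neg_mul {D u : ℝ} (hD : 0 < D) : D * u < 0 ↔ u < 0 := by
  constructor
  · intro h
    by_contra hh
    push Not at hh
    have := mul_nonneg hD.le hh
    linarith
  · intro h
    exact mul_neg_of_pos_of_neg hD h

open Classical in
private theorem cn_face {x : Fin n → V3} {y y' : V3} {i j k : Fin n}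
    (hD : 0 < d3 (x i) (x j) (x k))
    (h1 : d3 (x i) (x j) y ≠ 0) (h2 : d3 (x j) (x k) y ≠ 0) (h3 : d3 (x k) (x i) y ≠ 0)
    (h1' : d3 (x i) (x j) y' ≠ 0) (h2' : d3 (x j) (x k) y' ≠ 0) (h3' : d3 (x k) (x i) y' ≠ 0)
    (ki : d3 (x i) y y' ≠ 0) (kj : d3 (x j) y y' ≠ 0) (kk : d3 (x k) y y' ≠ 0) :
    (if inC x (i, j, k) y then (1 : ℤ) else 0) - (if inC x (i, j, k) y' then (1 : ℤ) else 0) =
      cn_g x y y' i j + cn_g x y y' j k + cn_g x y y' k i := by
  have eA : d3 y (x j) (x k) = d3 (x j) (x k) y := (d3_rot y (x j) (x k)).symm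
  have eA' : d3 y' (x j) (x k) = d3 (x j) (x k) y' := (d3_rot y' (x j) (x k)).symm
  have eB : d3 (x i) y (x k) = d3 (x k) (x i) y := d3_rot (x k) (x i) y
  have eB' : d3 (x i) y' (x k) = d3 (x k) (x i) y' := d3_rot (x k) (x i) y'
  set A := d3 (x j) (x k) y with hA
  set A' := d3 (x j) (x k) y' with hA'
  set B := d3 (x k) (x i) y with hB
  set B' := d3 (x k) (x i) y' with hB'
  set C := d3 (x i) (x j) y with hC
  set C' := d3 (x i) (x j) y' with hC'
  have p1 : B * C' - C * B' = d3 (x i) (x j) (x k) * d3 (x i) y y' := by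
    rw [plucker, hB, hB', hC, hC', ← d3_rot (x k) (x i) y, ← d3_rot (x k) (x i) y']
  have p2 : C * A' - A * C' = d3 (x i) (x j) (x k) * d3 (x j) y y' := by
    rw [← d3_rot (x i) (x j) (x k), plucker, hA, hA', hC, hC', ← d3_rot (x i) (x j) y,
      ← d3_rot (x i) (x j) y']
  have p3 : A * B' - B * A' = d3 (x i) (x j) (x k) * d3 (x k) y y' := by
    rw [← d3_rot (x i) (x j) (x k), ← d3_rot (x j) (x k) (x i), plucker, hA, hA', hB, hB',
      ← d3_rot (x j) (x k) y, ← d3_rot (x j) (x k) y']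
  have key := octant (A := A) (B := B) (C := C) (A' := A') (B' := B') (C' := C') h2 h3 h1
    h2' h3' h1' (by rw [p1]; exact mul_ne_zero hD.ne' ki) (by rw [p2]; exact mul_ne_zero hD.ne' kj)
    (by rw [p3]; exact mul_ne_zero hD.ne' kk)
  have i1 : inC x (i, j, k) y ↔ (0 < A ∧ 0 < B ∧ 0 < C) := by
    unfold inC
    simp only []
    rw [eA, eB]
  have i2 : inC x (i, j, k) y' ↔ (0 < A' ∧ 0 < B' ∧ 0 < C') := by
    unfold inC
    simp only []
    rw [eA', eB']
  rw [p1, p2, p3] at key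
  simp only [cn_pos_mul hD, cn_neg_mul hD] at key
  unfold cn_g
  simp only [i1, i2]
  rw [← hA, ← hA', ← hB, ← hB', ← hC, ← hC']
  convert key using 3

private theorem cn_sum_rot {T : Finset (Tri n)} (hT : Cx T) (f : Tri n → ℤ) :
    ∑ τ ∈ T, f (rot3 τ) = ∑ τ ∈ T, f τ := by
  refine Finset.sum_nbij' (fun τ => rot3 τ) (fun τ => rot3 (rot3 τ)) ?_ ?_ ?_ ?_ ?_
  · rintro ⟨i, j, k⟩ h; exact hT.rot i j k h
  · rintro ⟨i, j, k⟩ h; exact hT.rot _ _ _ (hT.rot i j k h)
  · rintro ⟨i, j, k⟩ _; rfl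
  · rintro ⟨i, j, k⟩ _; rfl
  · intro τ _; rfl

private theorem cn_sum_g {T : Finset (Tri n)} (hT : Cx T) (x : Fin n → V3) (y y' : V3) :
    ∑ τ ∈ T, cn_g x y y' τ.1 τ.2.1 = 0 := by
  classical
  have hsym : ∀ a ∈ T, ∃ l, (a.2.1, a.1, l) ∈ T := by
    rintro ⟨i, j, k⟩ h; exact hT.sym i j k h
  refine Finset.sum_involution (fun a ha => (a.2.1, a.1, (hsym a ha).choose)) ?_ ?_ ?_ ?_
  · intro a ha
    exact cn_g_anti x y y' a.1 a.2.1
  · intro a ha _ he
    have h1 : a.2.1 = a.1 := congrArg Prod.fst he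
    exact hT.ne a.1 a.2.1 a.2.2 ha h1.symm
  · intro a ha
    exact (hsym a ha).choose_spec
  · rintro ⟨i, j, k⟩ ha
    have h1 := (hsym (i, j, k) ha).choose_spec
    have h2 := (hsym _ h1).choose_spec
    have h3 := hT.uniq i j _ _ h2 ha
    simp only at h3 ⊢
    rw [h3]

open Classical in
private theorem cn_cast {T : Finset (Tri n)} (x : Fin n → V3) (y : V3) :
    ((cnt T x y : ℕ) : ℤ) = ∑ τ ∈ T, (if inC x τ y then (1 : ℤ) else 0) := by
  unfold cnt
  rw [Finset.sum_boole]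

private theorem cn_step1 {T : Finset (Tri n)} (hT : Cx T) {x : Fin n → V3} (hx : Pos T x)
    {y y' : V3} (hy : Gy T x y) (hy' : Gy T x y') (h : ∀ τ ∈ T, d3 (x τ.1) y y' ≠ 0) :
    cnt T x y = cnt T x y' := by
  classical
  have h1 : ((cnt T x y : ℕ) : ℤ) - ((cnt T x y' : ℕ) : ℤ) = 0 := by
    rw [cn_cast, cn_cast, ← Finset.sum_sub_distrib]
    have h2 : ∀ τ ∈ T, ((if inC x τ y then (1 : ℤ) else 0) - (if inC x τ y' then (1 : ℤ) else 0))
        = cn_g x y y' τ.1 τ.2.1 + cn_g x y y' (rot3 τ).1 (rot3 τ).2.1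
          + cn_g x y y' (rot3 (rot3 τ)).1 (rot3 (rot3 τ)).2.1 := by
      rintro ⟨i, j, k⟩ hτ
      have hr := hT.rot i j k hτ
      have hr2 := hT.rot _ _ _ hr
      exact cn_face (hx i j k hτ) (hy _ hτ) (hy _ hr) (hy _ hr2) (hy' _ hτ) (hy' _ hr) (hy' _ hr2)
        (h _ hτ) (h _ hr) (h _ hr2)
    rw [Finset.sum_congr rfl h2, Finset.sum_add_distrib, Finset.sum_add_distrib]
    rw [cn_sum_rot hT (fun τ => cn_g x y y' τ.1 τ.2.1)]
    rw [cn_sum_rot hT (fun τ => cn_g x y y' (rot3 τ).1 (rot3 τ).2.1)]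
    rw [cn_sum_rot hT (fun τ => cn_g x y y' τ.1 τ.2.1)]
    rw [cn_sum_g hT]
    ring
  have h2 : ((cnt T x y : ℕ) : ℤ) = ((cnt T x y' : ℕ) : ℤ) := by linarith
  exact_mod_cast h2

theorem cnt_const {T : Finset (Tri n)} (hT : Cx T) {x : Fin n → V3} (hx : Pos T x) {y y' : V3}
    (hy : Gy T x y) (hy' : Gy T x y') : cnt T x y = cnt T x y' := by
  classical
  obtain ⟨y'', -, hS⟩ := avoid_d3
    ((T.image (fun τ => (x τ.1, x τ.2.1))) ∪ ((T.image (fun τ => (x τ.1, y))) ∪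
      (T.image (fun τ => (x τ.1, y'))))) (by
      intro q hq
      rcases Finset.mem_union.mp hq with hq | hq
      · obtain ⟨⟨i, j, k⟩, hτ, rfl⟩ := Finset.mem_image.mp hq
        exact ⟨x k, (hx i j k hτ).ne'⟩
      · rcases Finset.mem_union.mp hq with hq | hq
        · obtain ⟨⟨i, j, k⟩, hτ, rfl⟩ := Finset.mem_image.mp hq
          refine ⟨x j, ?_⟩
          have h1 := hy _ hτ
          simp only at h1 ⊢
          rw [d3_swap23]
          exact neg_ne_zero.mpr h1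
        · obtain ⟨⟨i, j, k⟩, hτ, rfl⟩ := Finset.mem_image.mp hq
          refine ⟨x j, ?_⟩
          have h1 := hy' _ hτ
          simp only at h1 ⊢
          rw [d3_swap23]
          exact neg_ne_zero.mpr h1) 0 1 one_pos
  have hy'' : Gy T x y'' := fun τ hτ =>
    hS (x τ.1, x τ.2.1) (Finset.mem_union_left _ (Finset.mem_image.mpr ⟨τ, hτ, rfl⟩))
  rw [cn_step1 hT hx hy hy'' (fun τ hτ => hS (x τ.1, y)
      (Finset.mem_union_right _ (Finset.mem_union_left _ (Finset.mem_image.mpr ⟨τ, hτ, rfl⟩)))),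
    cn_step1 hT hx hy' hy'' (fun τ hτ => hS (x τ.1, y')
      (Finset.mem_union_right _ (Finset.mem_union_right _ (Finset.mem_image.mpr ⟨τ, hτ, rfl⟩))))]

private theorem cn_open (x : Fin n → V3) (τ : Tri n) : IsOpen {y : V3 | inC x τ y} := by
  unfold inC
  have h1 : Continuous (fun y : V3 => d3 y (x τ.2.1) (x τ.2.2)) := by
    unfold d3; fun_prop
  have h2 : Continuous (fun y : V3 => d3 (x τ.1) y (x τ.2.2)) := by
    unfold d3; fun_prop
  have h3 : Continuous (fun y : V3 => d3 (x τ.1) (x τ.2.1) y) := by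
    unfold d3; fun_prop
  exact (isOpen_lt continuous_const h1).inter
    ((isOpen_lt continuous_const h2).inter (isOpen_lt continuous_const h3))

theorem cnt_pos {T : Finset (Tri n)} (hT : Cx T) {x : Fin n → V3} (hx : Pos T x) {y : V3}
    (hy : Gy T x y) : ∃ τ ∈ T, inC x τ y := by
  classical
  obtain ⟨⟨i, j, k⟩, hτ⟩ := hT.nonempty
  have hD := hx i j k hτ
  have hin : inC x (i, j, k) (x i + x j + x k) := by
    rw [inC_iff hD]
    exact ⟨1, 1, 1, one_pos, one_pos, one_pos, by simp⟩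
  obtain ⟨ε, hε, hball⟩ := Metric.isOpen_iff.mp (cn_open x (i, j, k)) _ hin
  obtain ⟨y₁, hy₁, hS⟩ := avoid_d3 (T.image (fun τ => (x τ.1, x τ.2.1))) (by
      intro q hq
      obtain ⟨⟨i, j, k⟩, hτ, rfl⟩ := Finset.mem_image.mp hq
      exact ⟨x k, (hx i j k hτ).ne'⟩) (x i + x j + x k) ε hε
  have hg : Gy T x y₁ := fun τ hτ => hS (x τ.1, x τ.2.1) (Finset.mem_image.mpr ⟨τ, hτ, rfl⟩)
  have hin₁ : inC x (i, j, k) y₁ := by
    apply hball
    rw [Metric.mem_ball, dist_pi_lt_iff hε]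
    intro a
    rw [Real.dist_eq]
    exact hy₁ a
  have h1 : 0 < cnt T x y₁ := by
    unfold cnt
    rw [Finset.card_pos]
    exact ⟨(i, j, k), Finset.mem_filter.mpr ⟨hτ, hin₁⟩⟩
  rw [cnt_const hT hx hg hy] at h1
  unfold cnt at h1
  rw [Finset.card_pos] at h1
  obtain ⟨τ, hτ⟩ := h1
  exact ⟨τ, (Finset.mem_filter.mp hτ).1, (Finset.mem_filter.mp hτ).2⟩

end GT
end
end
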