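import Pool.Agent.Lib.MP_c41363_gt.Defs
import Pool.Agent.Lib.MP_c41363_gt.Cnt

section

set_option autoImplicit false

namespace GT

open Finset

variable {n : ℕ}

open Classical in
/-- the next triple around the first vertex -/
noncomputable def te_nx (T : Finset (Tri n)) (τ : Tri n) : Tri n :=
  if h : ∃ l, (τ.1, τ.2.2, l) ∈ T then (τ.1, τ.2.2, h.choose) else τ

theorem te_nx_eq {T : Finset (Tri n)} (hT : Cx T) {i j k l : Fin n}
    (h' : (i, k, l) ∈ T) : te_nx T (i, j, k) = (i, k, l) := by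
  unfold te_nx
  have hex : ∃ l, (((i, j, k) : Tri n).1, ((i, j, k) : Tri n).2.2, l) ∈ T := ⟨l, h'⟩
  rw [dif_pos hex]
  have := hT.uniq i k _ _ hex.choose_spec h'
  simp only [Prod.mk.injEq, true_and]
  exact this

theorem te_next {T : Finset (Tri n)} (hT : Cx T) {i j k : Fin n} (h : (i, j, k) ∈ T) :
    ∃ l, (i, k, l) ∈ T :=
  hT.sym k i j (hT.rot _ _ _ (hT.rot _ _ _ h))

theorem te_prev {T : Finset (Tri n)} (hT : Cx T) {i j k : Fin n} (h : (i, j, k) ∈ T) :
    ∃ l, (i, l, j) ∈ T := by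
  obtain ⟨l, hl⟩ := hT.sym i j k h
  exact ⟨l, hT.rot _ _ _ hl⟩

theorem te_mid {T : Finset (Tri n)} (hT : Cx T) {i j j' k : Fin n} (h : (i, j, k) ∈ T)
    (h' : (i, j', k) ∈ T) : j = j' :=
  hT.uniq k i j j' (hT.rot _ _ _ (hT.rot _ _ _ h)) (hT.rot _ _ _ (hT.rot _ _ _ h'))

/-- reindexing: the sum over the third vertices is the sum over the second vertices -/
theorem te_sum {T : Finset (Tri n)} (hT : Cx T) (i : Fin n) (g : Fin n → ℝ) :
    ∑ τ ∈ T.filter (fun τ => τ.1 = i), g τ.2.2 = ∑ τ ∈ T.filter (fun τ => τ.1 = i), g τ.2.1 := by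
  refine Finset.sum_bij (fun τ _ => te_nx T τ) ?_ ?_ ?_ ?_
  · rintro ⟨a, b, c⟩ h
    rw [Finset.mem_filter] at h ⊢
    obtain ⟨l, hl⟩ := te_next hT h.1
    rw [te_nx_eq hT hl]
    exact ⟨hl, h.2⟩
  · rintro ⟨a, b, c⟩ h ⟨a', b', c'⟩ h' he
    rw [Finset.mem_filter] at h h'
    obtain ⟨l, hl⟩ := te_next hT h.1
    obtain ⟨l', hl'⟩ := te_next hT h'.1
    rw [te_nx_eq hT hl, te_nx_eq hT hl'] at he
    simp only [Prod.mk.injEq] at he
    obtain ⟨rfl, rfl, -⟩ := he
    rw [te_mid hT h.1 h'.1]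
  · rintro ⟨a, b, c⟩ h
    rw [Finset.mem_filter] at h
    obtain ⟨l, hl⟩ := te_prev hT h.1
    refine ⟨(a, l, b), ?_, ?_⟩
    · rw [Finset.mem_filter]; exact ⟨hl, h.2⟩
    · exact te_nx_eq hT h.1
  · rintro ⟨a, b, c⟩ h
    rw [Finset.mem_filter] at h
    obtain ⟨l, hl⟩ := te_next hT h.1
    rw [te_nx_eq hT hl]

theorem tel {T : Finset (Tri n)} (hT : Cx T) (i : Fin n) (g : Fin n → ℝ) :
    ∑ τ ∈ T.filter (fun τ => τ.1 = i), (g τ.2.2 - g τ.2.1) = 0 := by
  rw [Finset.sum_sub_distrib, te_sum hT i g, sub_self]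

theorem tel_DD {T : Finset (Tri n)} (hT : Cx T) {i N : Fin n} (hi : i ≠ N) (h : ¬ Adj T i N)
    (g : Fin n → ℝ) : ∑ τ ∈ (DD T N).filter (fun τ => τ.1 = i), (g τ.2.2 - g τ.2.1) = 0 := by
  rw [← tel hT i g]
  congr 1
  ext ⟨a, b, c⟩
  simp only [DD, Finset.mem_filter]
  constructor
  · rintro ⟨⟨h1, -⟩, h2⟩
    exact ⟨h1, h2⟩
  · rintro ⟨h1, h2⟩
    subst h2
    refine ⟨⟨h1, hi, ?_, ?_⟩, rfl⟩
    · rintro rfl
      exact h ⟨c, h1⟩
    · rintro rfl
      exact h (te_next hT h1)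

theorem tel_DD' {T : Finset (Tri n)} (hT : Cx T) {i N j k : Fin n} (hi : i ≠ N)
    (hj : (i, j, N) ∈ T) (hk : (i, N, k) ∈ T) (g : Fin n → ℝ) :
    ∑ τ ∈ (DD T N).filter (fun τ => τ.1 = i), (g τ.2.2 - g τ.2.1) = g j - g k := by
  have hjN : j ≠ N := hT.ne _ _ _ (hT.rot _ _ _ hj)
  have hkN : k ≠ N := (hT.ne _ _ _ (hT.rot _ _ _ hk)).symm
  have e : T.filter (fun τ => τ.1 = i) =
      insert (i, j, N) (insert (i, N, k) ((DD T N).filter (fun τ => τ.1 = i))) := by
    ext ⟨a, b, c⟩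
    simp only [DD, Finset.mem_insert, Finset.mem_filter, Prod.mk.injEq]
    constructor
    · rintro ⟨h1, h2⟩
      subst h2
      by_cases hb : b = N
      · subst hb
        right; left
        exact ⟨rfl, rfl, hT.uniq _ _ _ _ h1 hk⟩
      · by_cases hc : c = N
        · subst hc
          left
          exact ⟨rfl, te_mid hT h1 hj, rfl⟩
        · right; right
          exact ⟨⟨h1, hi, hb, hc⟩, rfl⟩
    · rintro (⟨rfl, rfl, rfl⟩ | ⟨rfl, rfl, rfl⟩ | ⟨⟨h1, -⟩, h2⟩)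
      · exact ⟨hj, rfl⟩
      · exact ⟨hk, rfl⟩
      · exact ⟨h1, h2⟩
  have h0 := tel hT i g
  rw [e, Finset.sum_insert, Finset.sum_insert] at h0
  · simp only at h0
    linarith
  · simp only [DD, Finset.mem_filter]
    rintro ⟨⟨-, -, h, -⟩, -⟩
    exact h rfl
  · simp only [DD, Finset.mem_insert, Finset.mem_filter, Prod.mk.injEq]
    rintro (⟨-, h, -⟩ | ⟨⟨-, -, -, h⟩, -⟩)
    · exact hjN h
    · exact h rfl

theorem parity {T : Finset (Tri n)} (hT : Cx T) (i : Fin n) (P : Finset (Fin n))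
    (h : ∃ j k, (i, j, k) ∈ T ∧ j ∈ P ∧ k ∉ P) : ∃ j k, (i, j, k) ∈ T ∧ j ∉ P ∧ k ∈ P := by
  classical
  by_contra hcon
  push Not at hcon
  obtain ⟨j, k, h1, h2, h3⟩ := h
  have h0 := tel hT i (fun a => if a ∈ P then 1 else 0)
  have hle : ∀ τ ∈ T.filter (fun τ => τ.1 = i),
      ((if τ.2.2 ∈ P then (1 : ℝ) else 0) - (if τ.2.1 ∈ P then 1 else 0)) ≤ 0 := by
    rintro ⟨a, b, c⟩ hτ
    rw [Finset.mem_filter] at hτ
    obtain ⟨hτ, rfl⟩ := hτ
    simp only
    by_cases hb : b ∈ P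
    · by_cases hc : c ∈ P <;> simp [hb, hc]
    · have := hcon b c hτ hb
      simp [hb, this]
  have hlt : ∑ τ ∈ T.filter (fun τ => τ.1 = i),
      ((if τ.2.2 ∈ P then (1 : ℝ) else 0) - (if τ.2.1 ∈ P then 1 else 0)) < 0 := by
    refine Finset.sum_neg' hle ⟨(i, j, k), by rw [Finset.mem_filter]; exact ⟨h1, rfl⟩, ?_⟩
    simp [h2, h3]
  exact absurd h0 hlt.ne

theorem parity' {T : Finset (Tri n)} (hT : Cx T) (i : Fin n) (P : Finset (Fin n))
    (h : ∃ j k, (i, j, k) ∈ T ∧ j ∉ P ∧ k ∈ P) : ∃ j k, (i, j, k) ∈ T ∧ j ∈ P ∧ k ∉ P := by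
  classical
  obtain ⟨j, k, h1, h2, h3⟩ := h
  obtain ⟨j', k', h1', h2', h3'⟩ := parity hT i Pᶜ ⟨j, k, h1, by simpa using h2, by simpa using h3⟩
  exact ⟨j', k', h1', by simpa using h2', by simpa using h3'⟩

end GT
end

section

/-!
# MP_c41363_gt : elementary counting for the Euler characteristic `chi6`
-/

set_option autoImplicit false

namespace GT
open Finset

variable {n : ℕ}

private theorem ch_sum_rot {T : Finset (Tri n)} (hT : Cx T) (F : Tri n → ℤ) :
    ∑ τ ∈ T, F (rot3 τ) = ∑ τ ∈ T, F τ := by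
  refine Finset.sum_nbij' (fun τ => rot3 τ) (fun τ => rot3 (rot3 τ)) ?_ ?_ ?_ ?_ ?_
  · rintro ⟨i, j, k⟩ h
    exact hT.rot _ _ _ h
  · rintro ⟨i, j, k⟩ h
    exact hT.rot _ _ _ (hT.rot _ _ _ h)
  · rintro ⟨i, j, k⟩ _
    rfl
  · rintro ⟨i, j, k⟩ _
    rfl
  · rintro ⟨i, j, k⟩ _
    rfl

/-- the indicator function -/
private def chU (P : Finset (Fin n)) (i : Fin n) : ℤ := if i ∈ P then 1 else 0

private theorem ch_chi6 (T : Finset (Tri n)) (P : Finset (Fin n)) :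
    chi6 T P = 6 * (P.card : ℤ) + ∑ τ ∈ T, (-3 * (chU P τ.1 * chU P τ.2.1) +
      2 * (chU P τ.1 * chU P τ.2.1 * chU P τ.2.2)) := by
  have h1 : ((T.filter (fun τ => τ.1 ∈ P ∧ τ.2.1 ∈ P)).card : ℤ) =
      ∑ τ ∈ T, chU P τ.1 * chU P τ.2.1 := by
    rw [Finset.card_filter]
    push_cast
    refine Finset.sum_congr rfl fun τ _ => ?_
    by_cases h1 : τ.1 ∈ P <;> by_cases h2 : τ.2.1 ∈ P <;> simp [chU, h1, h2]
  have h2 : ((T.filter (fun τ => τ.1 ∈ P ∧ τ.2.1 ∈ P ∧ τ.2.2 ∈ P)).card : ℤ) =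
      ∑ τ ∈ T, chU P τ.1 * chU P τ.2.1 * chU P τ.2.2 := by
    rw [Finset.card_filter]
    push_cast
    refine Finset.sum_congr rfl fun τ _ => ?_
    by_cases h1 : τ.1 ∈ P <;> by_cases h2 : τ.2.1 ∈ P <;> by_cases h3 : τ.2.2 ∈ P <;>
      simp [chU, h1, h2, h3]
  rw [chi6, h1, h2, Finset.sum_add_distrib, ← Finset.mul_sum, ← Finset.mul_sum]
  ring

private theorem ch_rot1 {T : Finset (Tri n)} (hT : Cx T) (f : Fin n → ℤ) :
    ∑ τ ∈ T, f τ.2.1 = ∑ τ ∈ T, f τ.1 :=
  ch_sum_rot hT (fun τ => f τ.1)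

private theorem ch_rot2 {T : Finset (Tri n)} (hT : Cx T) (f : Fin n → ℤ) :
    ∑ τ ∈ T, f τ.2.2 = ∑ τ ∈ T, f τ.1 := by
  rw [← ch_rot1 hT f]
  exact ch_sum_rot hT (fun τ => f τ.2.1)

theorem chi6_insert {T : Finset (Tri n)} (hT : Cx T) (N : Fin n) (hN : N ∈ verts T)
    (P : Finset (Fin n)) (hNP : N ∉ P) (hl : link T N ⊆ P) :
    chi6 T (insert N P) = chi6 T P + 6 := by
  have hadj : ∀ i j k, (i, j, k) ∈ T → i = N → j ∈ P ∧ k ∈ P := by
    rintro i j k h rfl
    refine ⟨hl (GT.mem_link.mpr ⟨k, h⟩), hl (GT.mem_link.mpr ?_)⟩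
    exact hT.sym _ _ _ (hT.rot _ _ _ (hT.rot _ _ _ h))
  have hU : ∀ i, chU (insert N P) i = chU P i + (if i = N then 1 else 0) := by
    intro i
    by_cases hi : i = N
    · subst hi
      simp [chU, hNP]
    · simp [chU, hi]
  have key : ∀ τ ∈ T, (-3 * (chU (insert N P) τ.1 * chU (insert N P) τ.2.1) +
      2 * (chU (insert N P) τ.1 * chU (insert N P) τ.2.1 * chU (insert N P) τ.2.2)) =
      (-3 * (chU P τ.1 * chU P τ.2.1) + 2 * (chU P τ.1 * chU P τ.2.1 * chU P τ.2.2)) +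
      (-(if τ.1 = N then 1 else 0) - (if τ.2.1 = N then 1 else 0) +
        2 * (if τ.2.2 = N then 1 else 0)) := by
    rintro ⟨i, j, k⟩ hτ
    simp only [hU]
    have e2 := hT.rot _ _ _ hτ
    have e3 := hT.rot _ _ _ e2
    by_cases hi : i = N
    · obtain ⟨hj, hk⟩ := hadj _ _ _ hτ hi
      subst hi
      have hj' : j ≠ i := fun h => hNP (h ▸ hj)
      have hk' : k ≠ i := fun h => hNP (h ▸ hk)
      simp [chU, hNP, hj, hk, hj', hk']
    · by_cases hj : j = N
      · obtain ⟨hk, hi'⟩ := hadj _ _ _ e2 hj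
        subst hj
        have hk' : k ≠ j := fun h => hNP (h ▸ hk)
        simp [chU, hNP, hi', hk, hi, hk']
      · by_cases hk : k = N
        · obtain ⟨hi', hj'⟩ := hadj _ _ _ e3 hk
          subst hk
          simp [chU, hNP, hi', hj', hi, hj]
        · simp [hi, hj, hk]
  rw [ch_chi6, ch_chi6, Finset.card_insert_of_notMem hNP, Finset.sum_congr rfl key,
    Finset.sum_add_distrib]
  have h0 : ∑ τ ∈ T, (-(if τ.1 = N then (1 : ℤ) else 0) - (if τ.2.1 = N then 1 else 0) +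
        2 * (if τ.2.2 = N then 1 else 0)) = 0 := by
    rw [Finset.sum_add_distrib, Finset.sum_sub_distrib, Finset.sum_neg_distrib, ← Finset.mul_sum,
      ch_rot1 hT (fun i => if i = N then (1 : ℤ) else 0),
      ch_rot2 hT (fun i => if i = N then (1 : ℤ) else 0)]
    ring
  rw [h0]
  push_cast
  ring

theorem chi6_compl {T : Finset (Tri n)} (hT : Cx T) (P : Finset (Fin n)) (hP : P ⊆ verts T) :
    chi6 T P + chi6 T (verts T \ P) = chi6 T (verts T) := by
  have hv : ∀ i j k, (i, j, k) ∈ T → i ∈ verts T := by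
    intro i j k h
    rw [verts, Finset.mem_image]
    exact ⟨_, h, rfl⟩
  have hV : ∀ i, i ∈ verts T → chU (verts T) i = 1 := fun i hi => by simp [chU, hi]
  have hC : ∀ i, i ∈ verts T → chU (verts T \ P) i = 1 - chU P i := by
    intro i hi
    by_cases h : i ∈ P <;> simp [chU, hi, h]
  have hcard : ((verts T \ P).card : ℤ) = (verts T).card - P.card := by
    have h := Finset.card_sdiff_add_card_eq_card hP
    have h' : (((verts T \ P).card + P.card : ℕ) : ℤ) = (verts T).card := by exact_mod_cast h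
    push_cast at h'
    linarith
  rw [ch_chi6, ch_chi6, ch_chi6, hcard]
  have h1 : ∑ τ ∈ T, (-3 * (chU (verts T \ P) τ.1 * chU (verts T \ P) τ.2.1) +
      2 * (chU (verts T \ P) τ.1 * chU (verts T \ P) τ.2.1 * chU (verts T \ P) τ.2.2)) =
      ∑ τ ∈ T, (-3 * ((1 - chU P τ.1) * (1 - chU P τ.2.1)) +
        2 * ((1 - chU P τ.1) * (1 - chU P τ.2.1) * (1 - chU P τ.2.2))) := by
    refine Finset.sum_congr rfl ?_
    rintro ⟨i, j, k⟩ hτ
    have e2 := hT.rot _ _ _ hτ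
    have e3 := hT.rot _ _ _ e2
    simp only
    rw [hC i (hv _ _ _ hτ), hC j (hv _ _ _ e2), hC k (hv _ _ _ e3)]
  have h2 : ∑ τ ∈ T, (-3 * (chU (verts T) τ.1 * chU (verts T) τ.2.1) +
      2 * (chU (verts T) τ.1 * chU (verts T) τ.2.1 * chU (verts T) τ.2.2)) =
      ∑ τ ∈ T, (-1 : ℤ) := by
    refine Finset.sum_congr rfl ?_
    rintro ⟨i, j, k⟩ hτ
    have e2 := hT.rot _ _ _ hτ
    have e3 := hT.rot _ _ _ e2
    simp only
    rw [hV i (hv _ _ _ hτ), hV j (hv _ _ _ e2), hV k (hv _ _ _ e3)]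
    norm_num
  -- rotation invariance
  have r1 := ch_rot1 hT (chU P)
  have r2 := ch_rot2 hT (chU P)
  have r3 : ∑ τ ∈ T, chU P τ.2.1 * chU P τ.2.2 = ∑ τ ∈ T, chU P τ.1 * chU P τ.2.1 :=
    ch_sum_rot hT (fun τ => chU P τ.1 * chU P τ.2.1)
  have r4 : ∑ τ ∈ T, chU P τ.2.2 * chU P τ.1 = ∑ τ ∈ T, chU P τ.1 * chU P τ.2.1 := by
    rw [← r3]
    exact ch_sum_rot hT (fun τ => chU P τ.2.1 * chU P τ.2.2)
  have h3 : ∑ τ ∈ T, (-3 * (chU P τ.1 * chU P τ.2.1) +
      2 * (chU P τ.1 * chU P τ.2.1 * chU P τ.2.2)) +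
      ∑ τ ∈ T, (-3 * ((1 - chU P τ.1) * (1 - chU P τ.2.1)) +
        2 * ((1 - chU P τ.1) * (1 - chU P τ.2.1) * (1 - chU P τ.2.2))) =
      ∑ τ ∈ T, (-1 : ℤ) + (∑ τ ∈ T, chU P τ.1 + ∑ τ ∈ T, chU P τ.2.1 - 2 * ∑ τ ∈ T, chU P τ.2.2) +
        (2 * ∑ τ ∈ T, chU P τ.2.1 * chU P τ.2.2 + 2 * ∑ τ ∈ T, chU P τ.2.2 * chU P τ.1 -
          4 * ∑ τ ∈ T, chU P τ.1 * chU P τ.2.1) := by
    simp only [Finset.mul_sum]
    rw [← Finset.sum_add_distrib, ← Finset.sum_add_distrib, ← Finset.sum_sub_distrib,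
      ← Finset.sum_add_distrib, ← Finset.sum_add_distrib, ← Finset.sum_sub_distrib,
      ← Finset.sum_add_distrib]
    refine Finset.sum_congr rfl fun τ _ => ?_
    ring
  rw [h1, h2]
  rw [r1, r2, r3, r4] at h3
  linarith

theorem chi6_union {T : Finset (Tri n)} (hT : Cx T) (P Q : Finset (Fin n)) (hd : Disjoint P Q)
    (h : ∀ i ∈ P, ∀ j ∈ Q, ¬ Adj T i j ∧ ¬ Adj T j i) :
    chi6 T (P ∪ Q) = chi6 T P + chi6 T Q := by
  have hU : ∀ i, chU (P ∪ Q) i = chU P i + chU Q i := by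
    intro i
    by_cases hp : i ∈ P
    · have hq : i ∉ Q := Finset.disjoint_left.mp hd hp
      simp [chU, hp, hq]
    · by_cases hq : i ∈ Q <;> simp [chU, hp, hq]
  have hz : ∀ i j k, (i, j, k) ∈ T → chU P i * chU Q j = 0 ∧ chU Q i * chU P j = 0 := by
    intro i j k hτ
    constructor
    · by_cases hp : i ∈ P
      · by_cases hq : j ∈ Q
        · exact absurd ⟨k, hτ⟩ (h i hp j hq).1
        · simp [chU, hq]
      · simp [chU, hp]
    · by_cases hp : j ∈ P
      · by_cases hq : i ∈ Q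
        · exact absurd ⟨k, hτ⟩ (h j hp i hq).2
        · simp [chU, hq]
      · simp [chU, hp]
  rw [ch_chi6, ch_chi6, ch_chi6, Finset.card_union_of_disjoint hd]
  have key : ∑ τ ∈ T, (-3 * (chU (P ∪ Q) τ.1 * chU (P ∪ Q) τ.2.1) +
      2 * (chU (P ∪ Q) τ.1 * chU (P ∪ Q) τ.2.1 * chU (P ∪ Q) τ.2.2)) =
      ∑ τ ∈ T, (-3 * (chU P τ.1 * chU P τ.2.1) + 2 * (chU P τ.1 * chU P τ.2.1 * chU P τ.2.2)) +
      ∑ τ ∈ T, (-3 * (chU Q τ.1 * chU Q τ.2.1) +
        2 * (chU Q τ.1 * chU Q τ.2.1 * chU Q τ.2.2)) := by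
    rw [← Finset.sum_add_distrib]
    refine Finset.sum_congr rfl ?_
    rintro ⟨i, j, k⟩ hτ
    have e2 := hT.rot _ _ _ hτ
    have e3 := hT.rot _ _ _ e2
    obtain ⟨a1, a2⟩ := hz _ _ _ hτ
    obtain ⟨b1, b2⟩ := hz _ _ _ e2
    simp only [hU]
    linear_combination (-3 + 2 * chU P k + 2 * chU Q k) * (a1 + a2) +
      (2 * chU P i) * b1 + (2 * chU Q i) * b2
  rw [key]
  push_cast
  ring

end GT
end

section

set_option autoImplicit false

namespace GT
open Finset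

variable {n : ℕ}

/-- no strictly increasing walk inside a finite set -/
theorem ls_nomax (R : Finset (Fin n)) (hR : R.Nonempty) (r : Fin n → ℝ)
    (h : ∀ j ∈ R, ∃ k ∈ R, r j < r k) : False := by
  obtain ⟨j, hj, hmax⟩ := R.exists_max_image r hR
  obtain ⟨k, hk, hlt⟩ := h j hj
  exact absurd (hmax k hk) (not_le.2 hlt)

/-- the three term relation in the quotient by `u` -/
theorem ls_three (u a b c d : V3) :
    d3 u a b * d3 u c d = d3 u a c * d3 u b d - d3 u a d * d3 u b c := by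
  unfold d3; ring

/-- neighbours continue around a vertex -/
theorem ls_next {T : Finset (Tri n)} (hT : Cx T) {i j k : Fin n} (h : (i, j, k) ∈ T) :
    Adj T i k := by
  obtain ⟨l, hl⟩ := hT.sym k i j (hT.rot _ _ _ (hT.rot _ _ _ h))
  exact ⟨l, hl⟩

theorem ls_ne13 {T : Finset (Tri n)} (hT : Cx T) {i j k : Fin n} (h : (i, j, k) ∈ T) :
    k ≠ i := hT.ne k i j (hT.rot _ _ _ (hT.rot _ _ _ h))

/-- generic points in open sets -/
theorem ls_near (S : Finset (V3 × V3)) (hS : ∀ q ∈ S, ∃ c, d3 q.1 q.2 c ≠ 0) (y0 : V3)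
    (U : Set V3) (hU : IsOpen U) (h0 : y0 ∈ U) : ∃ y ∈ U, ∀ q ∈ S, d3 q.1 q.2 y ≠ 0 := by
  obtain ⟨ε, hε, hb⟩ := Metric.isOpen_iff.1 hU y0 h0
  obtain ⟨y, hy, hq⟩ := avoid_d3 S hS y0 ε hε
  refine ⟨y, hb ?_, hq⟩
  rw [Metric.mem_ball, dist_pi_lt_iff hε]
  intro a
  rw [Real.dist_eq]
  exact hy a

theorem cov {T : Finset (Tri n)} (hT : Cx T) {x : Fin n → V3} (hx : Pos T x) (i : Fin n)
    (Q : Finset (Fin n)) (hQ : ∃ j ∈ Q, Adj T i j) (hc : ∀ j k, (i, j, k) ∈ T → j ∈ Q → k ∈ Q)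
    (y : V3) (hy : ∀ j, Adj T i j → d3 (x i) (x j) y ≠ 0) :
    ∃ j k, (i, j, k) ∈ T ∧ j ∈ Q ∧ 0 < d3 (x i) (x j) y ∧ 0 < d3 (x i) y (x k) := by
  classical
  by_contra hcon
  push Not at hcon
  obtain ⟨j0, hj0, hj0a⟩ := hQ
  -- an auxiliary vector
  obtain ⟨y', hy'⟩ : ∃ y', 0 < d3 (x i) y y' := by
    rcases lt_or_gt_of_ne (hy j0 hj0a) with h | h
    · exact ⟨x j0, by rw [d3_swap23]; linarith⟩
    · refine ⟨(-1 : ℝ) • x j0, ?_⟩
      rw [d3_smul3, d3_swap23]; linarith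
  set r : Fin n → ℝ := fun j => d3 (x i) (x j) y' / d3 (x i) (x j) y with hr
  -- the comparison
  have hcmp : ∀ j k, (i, j, k) ∈ T → 0 < d3 (x i) (x j) y * d3 (x i) (x k) y → r j < r k := by
    intro j k hjk hprod
    have hj : d3 (x i) (x j) y ≠ 0 := fun h => by rw [h, zero_mul] at hprod; exact lt_irrefl _ hprod
    have hk : d3 (x i) (x k) y ≠ 0 := fun h => by rw [h, mul_zero] at hprod; exact lt_irrefl _ hprod
    have hD := hx i j k hjk
    have h3 := ls_three (x i) (x j) (x k) y y'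
    have hpos : 0 < d3 (x i) (x j) (x k) * d3 (x i) y y' := mul_pos hD hy'
    have hdiff : r k - r j = (d3 (x i) (x j) (x k) * d3 (x i) y y') /
        (d3 (x i) (x j) y * d3 (x i) (x k) y) := by
      rw [h3, hr]
      field_simp
    have : 0 < r k - r j := by rw [hdiff]; exact div_pos hpos hprod
    linarith
  set Q0 : Finset (Fin n) := Q.filter (fun j => Adj T i j) with hQ0
  have hnext : ∀ j ∈ Q0, ∃ k ∈ Q0, (i, j, k) ∈ T := by
    intro j hj
    obtain ⟨hjQ, k, hk⟩ := Finset.mem_filter.1 hj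
    exact ⟨k, Finset.mem_filter.2 ⟨hc j k hk hjQ, ls_next hT hk⟩, hk⟩
  by_cases hne : (Q0.filter (fun j => 0 < d3 (x i) (x j) y)).Nonempty
  · refine ls_nomax _ hne r ?_
    intro j hj
    obtain ⟨hjQ0, hjp⟩ := Finset.mem_filter.1 hj
    obtain ⟨k, hk, hjk⟩ := hnext j hjQ0
    have h1 := hcon j k hjk (Finset.mem_filter.1 hjQ0).1 hjp
    have h2 := hy k (Finset.mem_filter.1 hk).2
    have h3 : 0 < d3 (x i) (x k) y := by
      rw [d3_swap23] at h1
      rcases lt_or_gt_of_ne h2 with h | h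
      · linarith
      · exact h
    exact ⟨k, Finset.mem_filter.2 ⟨hk, h3⟩, hcmp j k hjk (mul_pos hjp h3)⟩
  · rw [Finset.not_nonempty_iff_eq_empty, Finset.filter_eq_empty_iff] at hne
    refine ls_nomax Q0 ⟨j0, Finset.mem_filter.2 ⟨hj0, hj0a⟩⟩ r ?_
    intro j hj
    obtain ⟨k, hk, hjk⟩ := hnext j hj
    have hneg : ∀ l ∈ Q0, d3 (x i) (x l) y < 0 := by
      intro l hl
      rcases lt_or_gt_of_ne (hy l (Finset.mem_filter.1 hl).2) with h | h
      · exact h
      · exact absurd h (hne hl)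
    exact ⟨k, hk, hcmp j k hjk (mul_pos_of_neg_of_neg (hneg j hj) (hneg k hk))⟩

/-- large multiples -/
theorem ls_large {D₁ D₂ c₁ c₂ : ℝ} (h₁ : 0 < D₁) (h₂ : 0 < D₂) :
    ∃ s : ℝ, 0 < s * D₁ + c₁ ∧ 0 < s * D₂ + c₂ := by
  refine ⟨|c₁| / D₁ + |c₂| / D₂ + 1, ?_, ?_⟩
  · have e : (|c₁| / D₁ + |c₂| / D₂ + 1) * D₁ = |c₁| + |c₂| / D₂ * D₁ + D₁ := by
      field_simp
    have : 0 ≤ |c₂| / D₂ * D₁ := by positivity
    have := neg_abs_le c₁
    rw [e]; linarith
  · have e : (|c₁| / D₁ + |c₂| / D₂ + 1) * D₂ = |c₁| / D₁ * D₂ + |c₂| + D₂ := by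
      field_simp
    have : 0 ≤ |c₁| / D₁ * D₂ := by positivity
    have := neg_abs_le c₂
    rw [e]; linarith

/-- points near the ray of `x i` -/
theorem ls_inC (x : Fin n → V3) (i j k : Fin n) (y : V3) (s : ℝ)
    (h1 : 0 < s * d3 (x i) (x j) (x k) + d3 y (x j) (x k)) (h2 : 0 < d3 (x i) y (x k))
    (h3 : 0 < d3 (x i) (x j) y) : inC x (i, j, k) (s • x i + y) := by
  refine ⟨?_, ?_, ?_⟩
  · show 0 < d3 (s • x i + y) (x j) (x k)
    rw [d3_add1, d3_smul1]; exact h1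
  · show 0 < d3 (x i) (s • x i + y) (x k)
    rw [d3_add2, d3_smul2, d3_self12]; simpa using h2
  · show 0 < d3 (x i) (x j) (s • x i + y)
    rw [d3_add3, d3_smul3, d3_self13]; simpa using h3

theorem linkCyc_of {T : Finset (Tri n)} (hT : Cx T) {x : Fin n → V3} (hx : x ∈ RSp T) :
    LinkCyc T := by
  classical
  obtain ⟨hpos, hemb⟩ := hx
  intro i Q hQ hc j0 hj0
  by_contra hjQ
  obtain ⟨k0, hk0⟩ := hj0
  have hD0 := hpos _ _ _ hk0
  -- a generic point in the open sector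
  obtain ⟨y, ⟨hy1, hy2⟩, hyg⟩ := ls_near ((Finset.univ.filter (fun j => Adj T i j)).image
      (fun j => (x i, x j))) (by
        intro q hq
        obtain ⟨j, hj, rfl⟩ := Finset.mem_image.1 hq
        obtain ⟨k, hk⟩ := (Finset.mem_filter.1 hj).2
        exact ⟨x k, (hpos _ _ _ hk).ne'⟩) (x j0 + x k0)
      {y | 0 < d3 (x i) (x j0) y ∧ 0 < d3 (x i) y (x k0)}
      (by
        apply IsOpen.and
        · exact isOpen_lt continuous_const
            (d3_continuous continuous_const continuous_const continuous_id)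
        · exact isOpen_lt continuous_const
            (d3_continuous continuous_const continuous_id continuous_const))
      (by
        constructor
        · show 0 < d3 (x i) (x j0) (x j0 + x k0)
          rw [d3_add3, d3_self23]; simpa using hD0
        · show 0 < d3 (x i) (x j0 + x k0) (x k0)
          rw [d3_add2, d3_self23]; simpa using hD0)
  obtain ⟨j, k, hjk, hjQ', hf1, hf2⟩ := cov hT hpos i Q hQ hc y (by
    intro j hj
    exact hyg (x i, x j) (Finset.mem_image.2 ⟨j, Finset.mem_filter.2 ⟨Finset.mem_univ _, hj⟩, rfl⟩))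
  obtain ⟨s, hs1, hs2⟩ := ls_large (c₁ := d3 y (x j) (x k)) (c₂ := d3 y (x j0) (x k0))
    (hpos _ _ _ hjk) hD0
  have e1 := ls_inC x i j k y s hs1 hf2 hf1
  have e2 := ls_inC x i j0 k0 y s hs2 hy2 hy1
  rcases hemb _ hjk _ hk0 _ e1 e2 with h | h | h
  · have : j0 = j := congrArg (fun τ : Tri n => τ.2.1) h
    exact hjQ (this ▸ hjQ')
  · have : i = j := congrArg (fun τ : Tri n => τ.1) h
    exact hT.ne _ _ _ hjk this
  · have : i = k := congrArg (fun τ : Tri n => τ.1) h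
    exact ls_ne13 hT hjk this.symm

theorem strong_of {T : Finset (Tri n)} (hT : Cx T) {x : Fin n → V3} (hx : x ∈ RSp T) :
    Strong T := by
  classical
  obtain ⟨hpos, hemb⟩ := hx
  intro S hS hne hrot hadj
  have hCx : Cx S :=
    { nonempty := hne
      rot := hrot
      ne := fun i j k h => hT.ne i j k (hS h)
      uniq := fun i j k l h h' => hT.uniq i j k l (hS h) (hS h')
      sym := fun i j k h => by
        obtain ⟨l, hl⟩ := hT.sym i j k (hS h)
        exact ⟨l, hadj i j k l h hl⟩ }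
  have hPos : Pos S x := fun i j k h => hpos i j k (hS h)
  refine Finset.Subset.antisymm hS ?_
  intro τ hτ
  by_contra hτS
  obtain ⟨i, j, k⟩ := τ
  have hD := hpos _ _ _ hτ
  obtain ⟨y, ⟨hy1, hy2, hy3⟩, hyg⟩ := ls_near (T.image (fun τ => (x τ.1, x τ.2.1))) (by
        intro q hq
        obtain ⟨⟨a, b, c⟩, hj, rfl⟩ := Finset.mem_image.1 hq
        exact ⟨x c, (hpos _ _ _ hj).ne'⟩) (x i + x j + x k)
      {y | 0 < d3 y (x j) (x k) ∧ 0 < d3 (x i) y (x k) ∧ 0 < d3 (x i) (x j) y}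
      (by
        apply IsOpen.and
        · exact isOpen_lt continuous_const
            (d3_continuous continuous_id continuous_const continuous_const)
        · apply IsOpen.and
          · exact isOpen_lt continuous_const
              (d3_continuous continuous_const continuous_id continuous_const)
          · exact isOpen_lt continuous_const
              (d3_continuous continuous_const continuous_const continuous_id))
      (by
        refine ⟨?_, ?_, ?_⟩
        · show 0 < d3 (x i + x j + x k) (x j) (x k)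
          rw [d3_add1, d3_add1, d3_self12, d3_self13]; simpa using hD
        · show 0 < d3 (x i) (x i + x j + x k) (x k)
          rw [d3_add2, d3_add2, d3_self12, d3_self23]; simpa using hD
        · show 0 < d3 (x i) (x j) (x i + x j + x k)
          rw [d3_add3, d3_add3, d3_self13, d3_self23]; simpa using hD)
  have hGy : Gy S x y := by
    intro σ hσ
    exact hyg (x σ.1, x σ.2.1) (Finset.mem_image.2 ⟨σ, hS hσ, rfl⟩)
  obtain ⟨σ, hσ, hin⟩ := GT.cnt_pos hCx hPos hGy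
  have hrot3 : ∀ σ ∈ S, rot3 σ ∈ S := fun σ h => hrot σ.1 σ.2.1 σ.2.2 h
  rcases hemb σ (hS hσ) (i, j, k) hτ y hin ⟨hy1, hy2, hy3⟩ with h | h | h
  · exact hτS (h ▸ hσ)
  · exact hτS (h ▸ hrot3 σ hσ)
  · exact hτS (h ▸ hrot3 _ (hrot3 σ hσ))

end GT
end

section

section

/-!
# MP_c41363_gt : elementary facts on moment functions (GT-8b)
-/

set_option autoImplicit false

namespace GT

open Finset

variable {n : ℕ}

private theorem mb_DD {T : Finset (Tri n)} {N i j k : Fin n} (h : (i, j, k) ∈ DD T N) :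
    (i, j, k) ∈ T ∧ i ≠ N ∧ j ≠ N ∧ k ≠ N := by
  unfold DD at h
  rw [Finset.mem_filter] at h
  exact h

private theorem mb_mem {T : Finset (Tri n)} {N i j k : Fin n} (h : (i, j, k) ∈ T) (hi : i ≠ N)
    (hj : j ≠ N) (hk : k ≠ N) : (i, j, k) ∈ DD T N := by
  unfold DD
  rw [Finset.mem_filter]
  exact ⟨h, hi, hj, hk⟩

private theorem mb_rot {T : Finset (Tri n)} (hT : Cx T) {N : Fin n} {τ : Tri n}
    (h : τ ∈ DD T N) : rot3 τ ∈ DD T N := by
  obtain ⟨i, j, k⟩ := τ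
  obtain ⟨h1, h2, h3, h4⟩ := mb_DD h
  exact mb_mem (hT.rot _ _ _ h1) h3 h4 h2

theorem mom_face {T : Finset (Tri n)} {N : Fin n} {p : Fin n → ℝ × ℝ} {z : Fin n → ℝ}
    (hS : Setting T N p z) {μ : Tri n → ℝ} {v : Fin n → Fin n → ℝ × ℝ} {M : Fin n → ℝ}
    (hM : Mom T N p μ v M) : ∀ τ ∈ DD T N,
      M τ.1 * br p τ.2.1 τ.2.2 + M τ.2.1 * br p τ.2.2 τ.1 + M τ.2.2 * br p τ.1 τ.2.1 =
        μ τ * (br p τ.1 τ.2.1 * br p τ.2.1 τ.2.2 * br p τ.2.2 τ.1) := by
  rintro ⟨i, j, k⟩ hτ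
  obtain ⟨h1, hi, hj, hk⟩ := mb_DD hτ
  have h2 := hS.cx.rot _ _ _ h1
  have h3 := hS.cx.rot _ _ _ h2
  have hMi : M i = dt (v i j) (p i) := hM.hM i j ⟨k, h1⟩ hi hj
  have hMj : M j = dt (v i j) (p j) := by
    rw [hM.vs i j]
    exact hM.hM j i (hS.cx.sym _ _ _ h1) hj hi
  have hMk : M k = dt (v i k) (p k) := by
    rw [hM.vs i k]
    exact hM.hM k i ⟨j, h3⟩ hk hi
  have hvc : v i k - v i j = -(μ (i, j, k) * br p j k) • J (p i) := hM.vc _ hτ
  have hv1 : (v i k).1 = (v i j).1 + μ (i, j, k) * br p j k * (p i).2 := by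
    have := congrArg Prod.fst hvc
    simp only [Prod.fst_sub, Prod.smul_fst, J, smul_eq_mul] at this
    linear_combination this
  have hv2 : (v i k).2 = (v i j).2 - μ (i, j, k) * br p j k * (p i).1 := by
    have := congrArg Prod.snd hvc
    simp only [Prod.snd_sub, Prod.smul_snd, J, smul_eq_mul] at this
    linear_combination this
  show M i * br p j k + M j * br p k i + M k * br p i j =
    μ (i, j, k) * (br p i j * br p j k * br p k i)
  rw [hMi, hMj, hMk]
  unfold dt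
  rw [hv1, hv2]
  unfold br
  ring

theorem mom_par {T : Finset (Tri n)} {N : Fin n} {p : Fin n → ℝ × ℝ} {z : Fin n → ℝ}
    (hS : Setting T N p z) {μ : Tri n → ℝ} {v : Fin n → Fin n → ℝ × ℝ} {M : Fin n → ℝ}
    (hM : Mom T N p μ v M) : ∀ i j, Adj T i j → i ≠ N → j ≠ N → br p i j = 0 →
      M j • p i = M i • p j := by
  rintro i j ⟨k, h1⟩ hi hj hb
  have hMi : M i = dt (v i j) (p i) := hM.hM i j ⟨k, h1⟩ hi hj
  have hMj : M j = dt (v i j) (p j) := by
    rw [hM.vs i j]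
    exact hM.hM j i (hS.cx.sym _ _ _ h1) hj hi
  unfold br at hb
  rw [hMi, hMj]
  unfold dt
  apply Prod.ext
  · simp only [Prod.smul_fst, smul_eq_mul]
    linear_combination (v i j).2 * hb
  · simp only [Prod.smul_snd, smul_eq_mul]
    linear_combination -(v i j).1 * hb

/-- (P4): a parallel edge `i j` with `M i = 0`, and `M ≥ 0` at the two opposite vertices -/
theorem mom_vert {T : Finset (Tri n)} {N : Fin n} {p : Fin n → ℝ × ℝ} {z : Fin n → ℝ}
    (hS : Setting T N p z) {μ : Tri n → ℝ} {v : Fin n → Fin n → ℝ × ℝ} {M : Fin n → ℝ}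
    (hM : Mom T N p μ v M) {i j k l : Fin n} (h1 : (i, j, k) ∈ DD T N) (h2 : (j, i, l) ∈ DD T N)
    {κ : ℝ} (hκ : 0 < κ) (hp : p j = κ • p i) (hi : M i = 0) (hk : 0 ≤ M k) (hl : 0 ≤ M l) :
    M k = 0 := by
  obtain ⟨h1T, hiN, hjN, hkN⟩ := mb_DD h1
  obtain ⟨h2T, -, -, hlN⟩ := mb_DD h2
  have h3 : (i, l, j) ∈ DD T N := mb_mem (hS.cx.rot _ _ _ h2T) hiN hlN hjN
  have h3T := (mb_DD h3).1
  have hMi : M i = dt (v i j) (p i) := hM.hM i j ⟨k, h1T⟩ hiN hjN
  have hMk : M k = dt (v i k) (p k) := by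
    rw [hM.vs i k]
    exact hM.hM k i ⟨j, hS.cx.rot _ _ _ (hS.cx.rot _ _ _ h1T)⟩ hkN hiN
  have hMl : M l = dt (v i l) (p l) := by
    rw [hM.vs i l]
    exact hM.hM l i (hS.cx.sym _ _ _ h3T) hlN hiN
  have hvc1 : v i k - v i j = -(μ (i, j, k) * br p j k) • J (p i) := hM.vc _ h1
  have hvc2 : v i j - v i l = -(μ (i, l, j) * br p l j) • J (p i) := hM.vc _ h3
  have hz1 : 0 < z i * br p j k + z j * br p k i + z k * br p i j := hS.hz _ h1
  have hz2 : 0 < z j * br p i l + z i * br p l j + z l * br p j i := hS.hz _ h2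
  have hμ1 : 0 ≤ μ (i, j, k) := hM.nn _ h1
  have hμ2 : 0 ≤ μ (i, l, j) := hM.nn _ h3
  have hpi := hS.pnz i hiN
  have hp1 : (p j).1 = κ * (p i).1 := by rw [hp]; rfl
  have hp2 : (p j).2 = κ * (p i).2 := by rw [hp]; rfl
  -- notation
  obtain ⟨A, hA⟩ : ∃ A, A = br p k i := ⟨_, rfl⟩
  obtain ⟨B, hB⟩ : ∃ B, B = br p i l := ⟨_, rfl⟩
  have hjk : br p j k = -κ * A := by rw [hA]; unfold br; rw [hp1, hp2]; ring
  have hij : br p i j = 0 := by unfold br; rw [hp1, hp2]; ring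
  have hji : br p j i = 0 := by unfold br; rw [hp1, hp2]; ring
  have hlj : br p l j = -κ * B := by rw [hB]; unfold br; rw [hp1, hp2]; ring
  -- `v i j` is a multiple of `J (p i)`
  have hq : 0 < (p i).1 ^ 2 + (p i).2 ^ 2 := by
    rcases eq_or_ne (p i).1 0 with h0 | h0
    · rcases eq_or_ne (p i).2 0 with h0' | h0'
      · exact absurd (Prod.ext h0 h0') hpi
      · positivity
    · positivity
  obtain ⟨s0, hs0⟩ : ∃ s0, s0 = ((v i j).2 * (p i).1 - (v i j).1 * (p i).2) /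
      ((p i).1 ^ 2 + (p i).2 ^ 2) := ⟨_, rfl⟩
  have hdot : (v i j).1 * (p i).1 + (v i j).2 * (p i).2 = 0 := by
    rw [← hi, hMi]; rfl
  have hvij1 : (v i j).1 = -s0 * (p i).2 := by
    rw [hs0]
    field_simp
    linear_combination (p i).1 * hdot
  have hvij2 : (v i j).2 = s0 * (p i).1 := by
    rw [hs0]
    field_simp
    linear_combination (p i).2 * hdot
  have hk' : M k = -((s0 + μ (i, j, k) * κ * A) * A) := by
    have e1 : (v i k).1 = (v i j).1 + μ (i, j, k) * br p j k * (p i).2 := by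
      have := congrArg Prod.fst hvc1
      simp only [Prod.fst_sub, Prod.smul_fst, J, smul_eq_mul] at this
      linear_combination this
    have e2 : (v i k).2 = (v i j).2 - μ (i, j, k) * br p j k * (p i).1 := by
      have := congrArg Prod.snd hvc1
      simp only [Prod.snd_sub, Prod.smul_snd, J, smul_eq_mul] at this
      linear_combination this
    rw [hMk]
    unfold dt
    rw [e1, e2, hvij1, hvij2, hjk, hA]
    unfold br
    ring
  have hl' : M l = (s0 - μ (i, l, j) * κ * B) * B := by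
    have e1 : (v i l).1 = (v i j).1 - μ (i, l, j) * br p l j * (p i).2 := by
      have := congrArg Prod.fst hvc2
      simp only [Prod.fst_sub, Prod.smul_fst, J, smul_eq_mul] at this
      linear_combination -this
    have e2 : (v i l).2 = (v i j).2 + μ (i, l, j) * br p l j * (p i).1 := by
      have := congrArg Prod.snd hvc2
      simp only [Prod.snd_sub, Prod.smul_snd, J, smul_eq_mul] at this
      linear_combination -this
    rw [hMl]
    unfold dt
    rw [e1, e2, hvij1, hvij2, hlj, hB]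
    unfold br
    ring
  rw [hjk, hij, ← hA] at hz1
  rw [hji, hlj, ← hB] at hz2
  have hz1' : 0 < (z j - κ * z i) * A := by linarith
  have hz2' : 0 < (z j - κ * z i) * B := by linarith
  rw [hk'] at hk ⊢
  rw [hl'] at hl
  have hm1 : 0 ≤ μ (i, j, k) * κ := by positivity
  have hm2 : 0 ≤ μ (i, l, j) * κ := by positivity
  rcases pos_and_pos_or_neg_and_neg_of_mul_pos hz1' with ⟨ht, hA0⟩ | ⟨ht, hA0⟩
  · have hB0 : 0 < B := by
      rcases pos_and_pos_or_neg_and_neg_of_mul_pos hz2' with ⟨_, h⟩ | ⟨h, _⟩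
      · exact h
      · linarith
    have a1 : s0 + μ (i, j, k) * κ * A ≤ 0 := by
      by_contra hc
      push Not at hc
      nlinarith [mul_pos hc hA0]
    have a2 : 0 ≤ s0 - μ (i, l, j) * κ * B := by
      by_contra hc
      push Not at hc
      nlinarith [mul_neg_of_neg_of_pos hc hB0]
    have a3 := mul_nonneg hm1 hA0.le
    have a4 := mul_nonneg hm2 hB0.le
    have a5 : s0 + μ (i, j, k) * κ * A = 0 := by linarith
    rw [a5]; ring
  · have hB0 : B < 0 := by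
      rcases pos_and_pos_or_neg_and_neg_of_mul_pos hz2' with ⟨h, _⟩ | ⟨_, h⟩
      · linarith
      · exact h
    have a1 : 0 ≤ s0 + μ (i, j, k) * κ * A := by
      by_contra hc
      push Not at hc
      nlinarith [mul_pos_of_neg_of_neg hc hA0]
    have a2 : s0 - μ (i, l, j) * κ * B ≤ 0 := by
      by_contra hc
      push Not at hc
      nlinarith [mul_neg_of_pos_of_neg hc hB0]
    have a3 := mul_nonpos_of_nonneg_of_nonpos hm1 hA0.le
    have a4 := mul_nonpos_of_nonneg_of_nonpos hm2 hB0.le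
    have a5 : s0 + μ (i, j, k) * κ * A = 0 := by linarith
    rw [a5]; ring

/-- pairing a balanced nonnegative stress with the heights -/
theorem stress_zero {T : Finset (Tri n)} {N : Fin n} {p : Fin n → ℝ × ℝ} {z : Fin n → ℝ}
    (hS : Setting T N p z) (μ : Tri n → ℝ) (hμ : ∀ τ ∈ DD T N, 0 ≤ μ τ)
    (hr : ∀ τ ∈ DD T N, μ (rot3 τ) = μ τ) (hbal : Bal T N (br p) μ (fun _ => 0)) :
    ∀ τ ∈ DD T N, μ τ = 0 := by
  have hrot : ∀ f : Tri n → ℝ, ∑ τ ∈ DD T N, f (rot3 τ) = ∑ τ ∈ DD T N, f τ := by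
    intro f
    refine Finset.sum_nbij' rot3 (fun τ => rot3 (rot3 τ)) ?_ ?_ ?_ ?_ ?_
    · intro τ hτ; exact mb_rot hS.cx hτ
    · intro τ hτ; exact mb_rot hS.cx (mb_rot hS.cx hτ)
    · intro τ _; rfl
    · intro τ _; rfl
    · intro τ _; rfl
  have h0 : ∑ τ ∈ DD T N, μ τ * (z τ.1 * br p τ.2.1 τ.2.2) = 0 := by
    rw [← Finset.sum_fiberwise (DD T N) (fun τ => τ.1)]
    apply Finset.sum_eq_zero
    intro i _
    by_cases hi : i = N
    · apply Finset.sum_eq_zero
      intro τ hτ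
      rw [Finset.mem_filter] at hτ
      unfold DD at hτ
      rw [Finset.mem_filter] at hτ
      exact absurd (hτ.2.trans hi) hτ.1.2.1
    · have h1 := hbal i hi
      rw [add_zero] at h1
      have h2 : ∑ τ ∈ (DD T N).filter (fun τ => τ.1 = i), μ τ * (z τ.1 * br p τ.2.1 τ.2.2) =
          z i * ∑ τ ∈ (DD T N).filter (fun τ => τ.1 = i), μ τ * br p τ.2.1 τ.2.2 := by
        rw [Finset.mul_sum]
        apply Finset.sum_congr rfl
        intro τ hτ
        rw [(Finset.mem_filter.1 hτ).2]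
        ring
      rw [h2, h1, mul_zero]
  have h1 : ∑ τ ∈ DD T N, μ τ * (z τ.2.1 * br p τ.2.2 τ.1) = 0 := by
    rw [← h0, ← hrot (fun τ => μ τ * (z τ.1 * br p τ.2.1 τ.2.2))]
    apply Finset.sum_congr rfl
    intro τ hτ
    rw [hr τ hτ]
    rfl
  have h2 : ∑ τ ∈ DD T N, μ τ * (z τ.2.2 * br p τ.1 τ.2.1) = 0 := by
    rw [← h1, ← hrot (fun τ => μ τ * (z τ.2.1 * br p τ.2.2 τ.1))]
    apply Finset.sum_congr rfl
    intro τ hτ
    rw [hr τ hτ]
    rfl
  have h3 : ∑ τ ∈ DD T N, μ τ * (z τ.1 * br p τ.2.1 τ.2.2 + z τ.2.1 * br p τ.2.2 τ.1 +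
      z τ.2.2 * br p τ.1 τ.2.1) = 0 := by
    have : ∀ τ : Tri n, μ τ * (z τ.1 * br p τ.2.1 τ.2.2 + z τ.2.1 * br p τ.2.2 τ.1 +
      z τ.2.2 * br p τ.1 τ.2.1) = μ τ * (z τ.1 * br p τ.2.1 τ.2.2) +
        μ τ * (z τ.2.1 * br p τ.2.2 τ.1) + μ τ * (z τ.2.2 * br p τ.1 τ.2.1) := fun τ => by ring
    rw [Finset.sum_congr rfl (fun τ _ => this τ), Finset.sum_add_distrib, Finset.sum_add_distrib,
      h0, h1, h2]
    ring
  rw [Finset.sum_eq_zero_iff_of_nonneg (fun τ hτ => mul_nonneg (hμ τ hτ) (hS.hz τ hτ).le)] at h3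
  intro τ hτ
  exact (mul_eq_zero.1 (h3 τ hτ)).resolve_right (hS.hz τ hτ).ne'

end GT
end

section

set_option autoImplicit false

namespace GT
open Finset

variable {n : ℕ}

theorem tc_br_anti (p : Fin n → ℝ × ℝ) (i j : Fin n) : br p j i = - br p i j := by
  unfold br; ring

theorem tc_DD_mem {T : Finset (Tri n)} {N i j k : Fin n} :
    (i, j, k) ∈ DD T N ↔ (i, j, k) ∈ T ∧ i ≠ N ∧ j ≠ N ∧ k ≠ N := by
  simp [DD]

theorem tc_DD_rot {T : Finset (Tri n)} (hT : Cx T) {N i j k : Fin n} (h : (i, j, k) ∈ DD T N) :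
    (j, k, i) ∈ DD T N := by
  rw [tc_DD_mem] at *
  exact ⟨hT.rot _ _ _ h.1, h.2.2.1, h.2.2.2, h.2.1⟩

/-- intersection point formula -/
theorem tc_inter {T : Finset (Tri n)} {N : Fin n} {p : Fin n → ℝ × ℝ} {μ : Tri n → ℝ}
    {v : Fin n → Fin n → ℝ × ℝ} {M : Fin n → ℝ} (hT : Cx T) (hM : Mom T N p μ v M)
    {i j : Fin n} (hij : Adj T i j) (hi : i ≠ N) (hj : j ≠ N) (hb : br p i j ≠ 0) :
    v i j = (M j / br p i j) • J (p i) - (M i / br p i j) • J (p j) := by
  have h1 := hM.hM i j hij hi hj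
  have h2 := hM.hM j i (GT.adj_symm hT hij) hj hi
  rw [hM.vs j i] at h2
  unfold dt at h1 h2
  have e1 : (v i j).1 * br p i j = M j * (-(p i).2) - M i * (-(p j).2) := by
    rw [h1, h2]; unfold br; ring
  have e2 : (v i j).2 * br p i j = M j * (p i).1 - M i * (p j).1 := by
    rw [h1, h2]; unfold br; ring
  ext
  · simp only [J, Prod.smul_mk, Prod.fst_sub, smul_eq_mul]
    field_simp
    linarith
  · simp only [J, Prod.smul_mk, Prod.snd_sub, smul_eq_mul]
    field_simp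
    linarith

/-- weights -/
noncomputable def tcW (p : Fin n → ℝ × ℝ) (M : Fin n → ℝ) (i j k : Fin n) : ℝ :=
  M i / (br p i j * br p k i)

/-- truncated stress -/
noncomputable def tcμ (p : Fin n → ℝ × ℝ) (μ : Tri n → ℝ) (M : Fin n → ℝ) (W : Finset (Fin n))
    (τ : Tri n) : ℝ :=
  if τ.1 ∈ W then
    if τ.2.1 ∈ W then
      if τ.2.2 ∈ W then 0 else tcW p M τ.2.2 τ.1 τ.2.1
    else
      if τ.2.2 ∈ W then tcW p M τ.2.1 τ.2.2 τ.1 else μ τ - tcW p M τ.1 τ.2.1 τ.2.2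
  else
    if τ.2.1 ∈ W then
      if τ.2.2 ∈ W then tcW p M τ.1 τ.2.1 τ.2.2 else μ τ - tcW p M τ.2.1 τ.2.2 τ.1
    else
      if τ.2.2 ∈ W then μ τ - tcW p M τ.2.2 τ.1 τ.2.1 else μ τ

/-- truncated potential -/
noncomputable def tcv (p : Fin n → ℝ × ℝ) (v : Fin n → Fin n → ℝ × ℝ) (M : Fin n → ℝ)
    (W : Finset (Fin n)) (i j : Fin n) : ℝ × ℝ :=
  if i ∈ W then
    if j ∈ W then 0 else (M j / br p i j) • J (p i)
  else
    if j ∈ W then (M i / br p j i) • J (p j) else v i j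

theorem tc_μ_rot {T : Finset (Tri n)} {N : Fin n} {p : Fin n → ℝ × ℝ} {μ : Tri n → ℝ}
    {v : Fin n → Fin n → ℝ × ℝ} {M : Fin n → ℝ} (hM : Mom T N p μ v M) (W : Finset (Fin n))
    {τ : Tri n} (hτ : τ ∈ DD T N) : tcμ p μ M W (rot3 τ) = tcμ p μ M W τ := by
  have h := hM.mr τ hτ
  obtain ⟨i, j, k⟩ := τ
  simp only [rot3] at h
  simp only [tcμ, rot3]
  by_cases hi : i ∈ W <;> by_cases hj : j ∈ W <;> by_cases hk : k ∈ W <;>
    simp [hi, hj, hk, h]

theorem tc_v_symm (p : Fin n → ℝ × ℝ) {v : Fin n → Fin n → ℝ × ℝ} (hv : ∀ i j, v i j = v j i)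
    (M : Fin n → ℝ) (W : Finset (Fin n)) (i j : Fin n) : tcv p v M W i j = tcv p v M W j i := by
  unfold tcv
  by_cases hi : i ∈ W <;> by_cases hj : j ∈ W <;> simp [hi, hj, hv i j]

section
variable {T : Finset (Tri n)} {N : Fin n} {p : Fin n → ℝ × ℝ} {z : Fin n → ℝ}
  {μ : Tri n → ℝ} {v : Fin n → Fin n → ℝ × ℝ} {M : Fin n → ℝ}

/-- mixed edges are not parallel -/
theorem tc_mixed (hS : Setting T N p z) (hM : Mom T N p μ v M) (W : Finset (Fin n))
    (hWV : W ⊆ (verts T).erase N) (hW1 : ∀ i ∈ W, 0 ≤ M i)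
    (hW2 : ∀ i ∈ W, ∀ j, j ≠ N → Adj T i j → j ∉ W → M j < 0)
    (hbot : ∀ τ ∈ DD T N, br p τ.1 τ.2.1 ≤ 0 → br p τ.2.1 τ.2.2 ≤ 0 → br p τ.2.2 τ.1 ≤ 0 →
      τ.1 ∉ W) {i j : Fin n} (hi : i ∈ W) (hjN : j ≠ N) (hj : j ∉ W) (hij : Adj T i j) :
    br p i j ≠ 0 := by
  intro h0
  have hiN : i ≠ N := (Finset.mem_erase.1 (hWV hi)).1
  have hMi := hW1 i hi
  have hMj := hW2 i hi j hjN hij hj
  have hpar := GT.mom_par hS hM i j hij hiN hjN h0
  have hpi := hS.pnz i hiN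
  have hMi' : 0 < M i := by
    rcases hMi.lt_or_eq with h | h
    · exact h
    · exfalso
      rw [← h, zero_smul] at hpar
      rcases smul_eq_zero.1 hpar with h' | h'
      · exact hMj.ne h'
      · exact hpi h'
  obtain ⟨k, hk⟩ := hij
  have hkN : k ≠ N := by
    rintro rfl
    have := hS.pole i j (hS.cx.rot _ _ _ (hS.cx.rot _ _ _ hk))
    linarith
  have hDD : (i, j, k) ∈ DD T N := tc_DD_mem.2 ⟨hk, hiN, hjN, hkN⟩
  have e1 : M j * (p i).1 = M i * (p j).1 := by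
    have := congrArg Prod.fst hpar; simpa using this
  have e2 : M j * (p i).2 = M i * (p j).2 := by
    have := congrArg Prod.snd hpar; simpa using this
  have hz := hS.hz _ hDD
  have hex := hS.excl _ hDD
  have hb := hbot _ hDD
  simp only at hz hex hb
  have hjk : M i * br p j k = - M j * br p k i := by
    unfold br
    linear_combination (- (p k).2) * e1 + (p k).1 * e2
  rw [h0] at hz hex hb
  have hcase : br p k i ≤ 0 ∧ br p j k ≤ 0 ∨ 0 ≤ br p k i ∧ 0 ≤ br p j k := by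
    rcases le_total (br p k i) 0 with h | h
    · left; refine ⟨h, ?_⟩
      by_contra hc; push Not at hc
      have : 0 < M i * br p j k := mul_pos hMi' hc
      nlinarith
    · right; refine ⟨h, ?_⟩
      by_contra hc; push Not at hc
      have : M i * br p j k < 0 := mul_neg_of_pos_of_neg hMi' hc
      nlinarith
  rcases hcase with ⟨h1, h2⟩ | ⟨h1, h2⟩
  · exact hb le_rfl h2 h1 hi
  · exact hex ⟨le_rfl, h2, h1⟩

/-- one vertex in `W` -/
theorem tc_one (hS : Setting T N p z) (hM : Mom T N p μ v M) (W : Finset (Fin n))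
    (hWV : W ⊆ (verts T).erase N) (hW1 : ∀ i ∈ W, 0 ≤ M i)
    (hW2 : ∀ i ∈ W, ∀ j, j ≠ N → Adj T i j → j ∉ W → M j < 0)
    (hbot : ∀ τ ∈ DD T N, br p τ.1 τ.2.1 ≤ 0 → br p τ.2.1 τ.2.2 ≤ 0 → br p τ.2.2 τ.1 ≤ 0 →
      τ.1 ∉ W) {i j k : Fin n} (hD : (i, j, k) ∈ DD T N) (hi : i ∈ W) (hj : j ∉ W)
    (hk : k ∉ W) : 0 ≤ μ (i, j, k) - tcW p M i j k := by
  have hT := hS.cx
  obtain ⟨hm, hiN, hjN, hkN⟩ := tc_DD_mem.1 hD
  have aij : Adj T i j := ⟨k, hm⟩
  have aik : Adj T i k := GT.adj_symm hT ⟨j, hT.rot _ _ _ (hT.rot _ _ _ hm)⟩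
  have bij := tc_mixed hS hM W hWV hW1 hW2 hbot hi hjN hj aij
  have bik := tc_mixed hS hM W hWV hW1 hW2 hbot hi hkN hk aik
  have bki : br p k i ≠ 0 := by rw [tc_br_anti]; exact neg_ne_zero.2 bik
  have hMi := hW1 i hi
  have hMj := hW2 i hi j hjN aij hj
  have hMk := hW2 i hi k hkN aik hk
  have hμ := hM.nn _ hD
  have hf := GT.mom_face hS hM _ hD
  have hex := hS.excl _ hD
  have hb := hbot _ hD
  simp only at hf hex hb
  unfold tcW
  rcases lt_or_gt_of_ne bij with h1 | h1 <;> rcases lt_or_gt_of_ne bki with h2 | h2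
  · -- both negative
    have h3 : 0 < br p j k := by
      by_contra hc; push Not at hc
      exact hb h1.le hc h2.le hi
    have hprod : 0 < br p i j * br p j k * br p k i := by nlinarith [mul_pos_of_neg_of_neg h1 h2]
    have hkey : (μ (i, j, k) - M i / (br p i j * br p k i)) * (br p i j * br p j k * br p k i) =
        M j * br p k i + M k * br p i j := by
      field_simp
      linear_combination -hf
    have hR : 0 < M j * br p k i + M k * br p i j := by
      have := mul_pos_of_neg_of_neg hMj h2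
      have := mul_pos_of_neg_of_neg hMk h1
      linarith
    by_contra hc; push Not at hc
    have := mul_neg_of_neg_of_pos hc hprod
    linarith
  · have : M i / (br p i j * br p k i) ≤ 0 :=
      div_nonpos_of_nonneg_of_nonpos hMi (mul_neg_of_neg_of_pos h1 h2).le
    linarith
  · have : M i / (br p i j * br p k i) ≤ 0 :=
      div_nonpos_of_nonneg_of_nonpos hMi (mul_neg_of_pos_of_neg h1 h2).le
    linarith
  · have h3 : br p j k < 0 := by
      by_contra hc; push Not at hc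
      exact hex ⟨h1.le, hc, h2.le⟩
    have hprod : br p i j * br p j k * br p k i < 0 := by
      have := mul_pos h1 h2
      nlinarith
    have hkey : (μ (i, j, k) - M i / (br p i j * br p k i)) * (br p i j * br p j k * br p k i) =
        M j * br p k i + M k * br p i j := by
      field_simp
      linear_combination -hf
    have hR : M j * br p k i + M k * br p i j < 0 := by
      have := mul_neg_of_neg_of_pos hMj h2
      have := mul_neg_of_neg_of_pos hMk h1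
      linarith
    by_contra hc; push Not at hc
    have := mul_pos_of_neg_of_neg hc hprod
    linarith

/-- two vertices in `W` -/
theorem tc_two (hS : Setting T N p z) (hM : Mom T N p μ v M) (W : Finset (Fin n))
    (hWV : W ⊆ (verts T).erase N) (hW1 : ∀ i ∈ W, 0 ≤ M i)
    (hW2 : ∀ i ∈ W, ∀ j, j ≠ N → Adj T i j → j ∉ W → M j < 0)
    (hbot : ∀ τ ∈ DD T N, br p τ.1 τ.2.1 ≤ 0 → br p τ.2.1 τ.2.2 ≤ 0 → br p τ.2.2 τ.1 ≤ 0 →
      τ.1 ∉ W) {i j k : Fin n} (hD : (i, j, k) ∈ DD T N) (hi : i ∉ W) (hj : j ∈ W)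
    (hk : k ∈ W) : 0 ≤ tcW p M i j k := by
  have hT := hS.cx
  obtain ⟨hm, hiN, hjN, hkN⟩ := tc_DD_mem.1 hD
  have aji : Adj T j i := GT.adj_symm hT ⟨k, hm⟩
  have aki : Adj T k i := ⟨j, hT.rot _ _ _ (hT.rot _ _ _ hm)⟩
  have bji := tc_mixed hS hM W hWV hW1 hW2 hbot hj hiN hi aji
  have bki := tc_mixed hS hM W hWV hW1 hW2 hbot hk hiN hi aki
  have bij : br p i j ≠ 0 := by rw [tc_br_anti]; exact neg_ne_zero.2 bji
  have hMi := hW2 j hj i hiN aji hi
  have hMj := hW1 j hj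
  have hMk := hW1 k hk
  have hμ := hM.nn _ hD
  have hf := GT.mom_face hS hM _ hD
  have hex := hS.excl _ hD
  have hb := hbot _ (tc_DD_rot hT hD)
  simp only at hf hex hb
  unfold tcW
  have hneg : br p i j * br p k i < 0 := by
    rcases lt_or_gt_of_ne bij with h1 | h1 <;> rcases lt_or_gt_of_ne bki with h2 | h2
    · exfalso
      have h3 : 0 < br p j k := by
        by_contra hc; push Not at hc
        exact hb hc h2.le h1.le hj
      have hprod : 0 < br p i j * br p j k * br p k i := by nlinarith [mul_pos_of_neg_of_neg h1 h2]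
      have e1 : M i * br p j k < 0 := mul_neg_of_neg_of_pos hMi h3
      have e2 : M j * br p k i ≤ 0 := mul_nonpos_of_nonneg_of_nonpos hMj h2.le
      have e3 : M k * br p i j ≤ 0 := mul_nonpos_of_nonneg_of_nonpos hMk h1.le
      have e4 : 0 ≤ μ (i, j, k) * (br p i j * br p j k * br p k i) := mul_nonneg hμ hprod.le
      linarith
    · exact mul_neg_of_neg_of_pos h1 h2
    · exact mul_neg_of_pos_of_neg h1 h2
    · exfalso
      have h3 : br p j k < 0 := by
        by_contra hc; push Not at hc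
        exact hex ⟨h1.le, hc, h2.le⟩
      have hprod : br p i j * br p j k * br p k i < 0 := by
        have := mul_pos h1 h2
        nlinarith
      have e1 : 0 < M i * br p j k := mul_pos_of_neg_of_neg hMi h3
      have e2 : 0 ≤ M j * br p k i := mul_nonneg hMj h2.le
      have e3 : 0 ≤ M k * br p i j := mul_nonneg hMk h1.le
      have e4 : μ (i, j, k) * (br p i j * br p j k * br p k i) ≤ 0 :=
        mul_nonpos_of_nonneg_of_nonpos hμ hprod.le
      linarith
  exact (div_pos_of_neg_of_neg hMi hneg).le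

theorem tc_nonneg (hS : Setting T N p z) (hM : Mom T N p μ v M) (W : Finset (Fin n))
    (hWV : W ⊆ (verts T).erase N) (hW1 : ∀ i ∈ W, 0 ≤ M i)
    (hW2 : ∀ i ∈ W, ∀ j, j ≠ N → Adj T i j → j ∉ W → M j < 0)
    (hbot : ∀ τ ∈ DD T N, br p τ.1 τ.2.1 ≤ 0 → br p τ.2.1 τ.2.2 ≤ 0 → br p τ.2.2 τ.1 ≤ 0 →
      τ.1 ∉ W) : ∀ τ ∈ DD T N, 0 ≤ tcμ p μ M W τ := by
  rintro ⟨i, j, k⟩ hD
  have hT := hS.cx
  have hD2 := tc_DD_rot hT hD
  have hD3 := tc_DD_rot hT hD2
  have m1 : μ (j, k, i) = μ (i, j, k) := hM.mr _ hD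
  have m2 : μ (k, i, j) = μ (i, j, k) := by rw [← m1]; exact hM.mr _ hD2
  simp only [tcμ]
  by_cases hi : i ∈ W <;> by_cases hj : j ∈ W <;> by_cases hk : k ∈ W <;> simp only [hi, hj, hk,
    if_true, if_false]
  · exact le_rfl
  · exact tc_two hS hM W hWV hW1 hW2 hbot hD3 hk hi hj
  · exact tc_two hS hM W hWV hW1 hW2 hbot hD2 hj hk hi
  · exact tc_one hS hM W hWV hW1 hW2 hbot hD hi hj hk
  · exact tc_two hS hM W hWV hW1 hW2 hbot hD hi hj hk
  · rw [← m1]; exact tc_one hS hM W hWV hW1 hW2 hbot hD2 hj hk hi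
  · rw [← m2]; exact tc_one hS hM W hWV hW1 hW2 hbot hD3 hk hi hj
  · exact hM.nn _ hD

theorem tc_corner (hS : Setting T N p z) (hM : Mom T N p μ v M) (W : Finset (Fin n))
    (hWV : W ⊆ (verts T).erase N) (hW1 : ∀ i ∈ W, 0 ≤ M i)
    (hW2 : ∀ i ∈ W, ∀ j, j ≠ N → Adj T i j → j ∉ W → M j < 0)
    (hbot : ∀ τ ∈ DD T N, br p τ.1 τ.2.1 ≤ 0 → br p τ.2.1 τ.2.2 ≤ 0 → br p τ.2.2 τ.1 ≤ 0 →
      τ.1 ∉ W) {i j k : Fin n} (hD : (i, j, k) ∈ DD T N) :
    tcv p v M W i k - tcv p v M W i j = -(tcμ p μ M W (i, j, k) * br p j k) • J (p i) := by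
  have hT := hS.cx
  obtain ⟨hm, hiN, hjN, hkN⟩ := tc_DD_mem.1 hD
  have aij : Adj T i j := ⟨k, hm⟩
  have aji : Adj T j i := GT.adj_symm hT aij
  have ajk : Adj T j k := ⟨i, hT.rot _ _ _ hm⟩
  have akj : Adj T k j := GT.adj_symm hT ajk
  have aki : Adj T k i := ⟨j, hT.rot _ _ _ (hT.rot _ _ _ hm)⟩
  have aik : Adj T i k := GT.adj_symm hT aki
  have hf := GT.mom_face hS hM _ hD
  have hvc := hM.vc _ hD
  simp only at hf hvc
  have mix := fun {x y : Fin n} (hx : x ∈ W) (hyN : y ≠ N) (hy : y ∉ W) (hxy : Adj T x y) =>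
    tc_mixed hS hM W hWV hW1 hW2 hbot hx hyN hy hxy
  have aji' := tc_br_anti p i j
  have aki' := tc_br_anti p i k
  have akj' := tc_br_anti p j k
  simp only [tcv, tcμ, tcW]
  by_cases hi : i ∈ W <;> by_cases hj : j ∈ W <;> by_cases hk : k ∈ W <;> simp only [hi, hj, hk,
    if_true, if_false]
  · simp
  · -- i,j in W, k not
    have bik := mix hi hkN hk aik
    have bjk := mix hj hkN hk ajk
    have : -(M k / (br p k i * br p j k) * br p j k) = M k / br p i k := by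
      rw [aki']; field_simp
    rw [this, sub_zero]
  · have bij := mix hi hjN hj aij
    have bkj := mix hk hjN hj akj
    have bjk : br p j k ≠ 0 := by
      intro h; rw [akj', h] at bkj; simp at bkj
    have : -(M j / (br p j k * br p i j) * br p j k) = -(M j / br p i j) := by
      field_simp
    rw [this, zero_sub, neg_smul]
  · -- i in W only
    have bij := mix hi hjN hj aij
    have bik := mix hi hkN hk aik
    rw [← sub_smul]
    congr 1
    rw [aki'] at hf ⊢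
    field_simp
    linear_combination hf
  · -- j,k in W, i not
    have bji := mix hj hiN hi aji
    have bki := mix hk hiN hi aki
    have bij : br p i j ≠ 0 := by
      intro h; rw [aji', h] at bji; simp at bji
    rw [aji']
    have hb1 : (p i).1 * (p j).2 - (p i).2 * (p j).1 ≠ 0 := bij
    have hb2 : (p k).1 * (p i).2 - (p k).2 * (p i).1 ≠ 0 := bki
    ext
    · simp only [J, Prod.smul_mk, Prod.fst_sub, smul_eq_mul, br]
      field_simp
      ring
    · simp only [J, Prod.smul_mk, Prod.snd_sub, smul_eq_mul, br]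
      field_simp
      ring
  · -- j in W only
    have bji := mix hj hiN hi aji
    have bjk := mix hj hkN hk ajk
    have bij : br p i j ≠ 0 := by
      intro h; rw [aji', h] at bji; simp at bji
    have hint := tc_inter hT hM aij hiN hjN bij
    have hv : v i k = v i j - (μ (i, j, k) * br p j k) • J (p i) := by
      rw [neg_smul] at hvc
      have := sub_eq_iff_eq_add.1 hvc
      rw [this]; abel
    rw [hv, hint, aji']
    have e1 : M i / -br p i j = -(M i / br p i j) := by rw [div_neg]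
    have e2 : -((μ (i, j, k) - M j / (br p j k * br p i j)) * br p j k) =
        M j / br p i j - μ (i, j, k) * br p j k := by
      field_simp
      ring
    rw [e1, e2, sub_smul, neg_smul]
    abel
  · -- k in W only
    have bki := mix hk hiN hi aki
    have bkj := mix hk hjN hj akj
    have bik : br p i k ≠ 0 := by
      intro h; rw [aki', h] at bki; simp at bki
    have bjk : br p j k ≠ 0 := by
      intro h; rw [akj', h] at bkj; simp at bkj
    have hint := tc_inter hT hM aik hiN hkN bik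
    have hv : v i j = v i k + (μ (i, j, k) * br p j k) • J (p i) := by
      rw [neg_smul] at hvc
      have := sub_eq_iff_eq_add.1 hvc
      rw [this]; abel
    rw [hv, hint, aki']
    have e1 : M i / -br p i k = -(M i / br p i k) := by rw [div_neg]
    have e2 : -((μ (i, j, k) - M k / (-br p i k * br p j k)) * br p j k) =
        -(M k / br p i k) - μ (i, j, k) * br p j k := by
      field_simp
      ring
    rw [e1, e2, sub_smul, neg_smul, neg_smul]
    abel
  · exact hvc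


theorem tc_bal (hS : Setting T N p z) (hM : Mom T N p μ v M) (W : Finset (Fin n))
    (hWV : W ⊆ (verts T).erase N) (hLN : link T N ⊆ W) (hW1 : ∀ i ∈ W, 0 ≤ M i)
    (hW2 : ∀ i ∈ W, ∀ j, j ≠ N → Adj T i j → j ∉ W → M j < 0)
    (hbot : ∀ τ ∈ DD T N, br p τ.1 τ.2.1 ≤ 0 → br p τ.2.1 τ.2.2 ≤ 0 → br p τ.2.2 τ.1 ≤ 0 →
      τ.1 ∉ W) : Bal T N (br p) (tcμ p μ M W) (fun _ => 0) := by
  intro i hiN
  have hT := hS.cx
  set S := ∑ τ ∈ (DD T N).filter (fun τ => τ.1 = i), tcμ p μ M W τ * br p τ.2.1 τ.2.2 with hSdef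
  have hzero : ∀ g : Fin n → ℝ, (∀ j, Adj T i N → Adj T i j → j ∈ link T N → g j = 0) →
      ∑ τ ∈ (DD T N).filter (fun τ => τ.1 = i), (g τ.2.2 - g τ.2.1) = 0 := by
    intro g hg
    by_cases hA : Adj T i N
    · obtain ⟨k, hk⟩ := hA
      obtain ⟨l, hl⟩ := hT.sym _ _ _ hk
      have hl' : (i, l, N) ∈ T := hT.rot _ _ _ hl
      rw [GT.tel_DD' hT hiN hl' hk g]
      have hA : Adj T i N := ⟨k, hk⟩
      have h1 : l ∈ link T N := GT.mem_link.2 (GT.adj_symm hT ⟨i, hT.rot _ _ _ hl'⟩)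
      have h2 : k ∈ link T N := GT.mem_link.2 ⟨i, hT.rot _ _ _ hk⟩
      have h3 : Adj T i k := GT.adj_symm hT ⟨N, hT.rot _ _ _ (hT.rot _ _ _ hk)⟩
      rw [hg l hA ⟨N, hl'⟩ h1, hg k hA h3 h2, sub_zero]
    · exact GT.tel_DD hT hiN hA g
  have hv0 : ∀ j, Adj T i N → Adj T i j → j ∈ link T N → tcv p v M W i j = 0 := by
    intro j hA _ hj
    have hi : i ∈ W := hLN (GT.mem_link.2 (GT.adj_symm hT hA))
    have hj' : j ∈ W := hLN hj
    simp [tcv, hi, hj']
  have hc : ∀ τ ∈ (DD T N).filter (fun τ => τ.1 = i),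
      tcv p v M W i τ.2.2 - tcv p v M W i τ.2.1 =
        -(tcμ p μ M W τ * br p τ.2.1 τ.2.2) • J (p i) := by
    rintro ⟨a, j, k⟩ hτ
    rw [Finset.mem_filter] at hτ
    obtain ⟨h1, h2⟩ := hτ
    simp only at h2
    subst h2
    exact tc_corner hS hM W hWV hW1 hW2 hbot h1
  have E1 : S * (p i).2 = 0 := by
    have h := hzero (fun j => (tcv p v M W i j).1) (fun j a b c => by rw [hv0 j a b c]; rfl)
    rw [hSdef, Finset.sum_mul, ← h]
    refine Finset.sum_congr rfl fun τ hτ => ?_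
    have := congrArg Prod.fst (hc τ hτ)
    simp only [J, Prod.smul_mk, Prod.fst_sub, smul_eq_mul] at this
    rw [this]; ring
  have E2 : S * (p i).1 = 0 := by
    have h := hzero (fun j => (tcv p v M W i j).2) (fun j a b c => by rw [hv0 j a b c]; rfl)
    have h' : -(S * (p i).1) = 0 := by
      rw [hSdef, Finset.sum_mul, ← Finset.sum_neg_distrib, ← h]
      refine Finset.sum_congr rfl fun τ hτ => ?_
      have := congrArg Prod.snd (hc τ hτ)
      simp only [J, Prod.smul_mk, Prod.snd_sub, smul_eq_mul] at this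
      rw [this]; ring
    linarith
  have hp := hS.pnz i hiN
  have : S = 0 := by
    by_contra hne
    apply hp
    ext
    · simpa [hne] using E2
    · simpa [hne] using E1
  rw [this, add_zero]

theorem truncate (hS : Setting T N p z) (hM : Mom T N p μ v M) (W : Finset (Fin n))
    (hWV : W ⊆ (verts T).erase N) (hLN : link T N ⊆ W) (hW1 : ∀ i ∈ W, 0 ≤ M i)
    (hW2 : ∀ i ∈ W, ∀ j, j ≠ N → Adj T i j → j ∉ W → M j < 0)
    (hbot : ∀ τ ∈ DD T N, br p τ.1 τ.2.1 ≤ 0 → br p τ.2.1 τ.2.2 ≤ 0 → br p τ.2.2 τ.1 ≤ 0 →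
      τ.1 ∉ W) : W = (verts T).erase N := by
  classical
  by_contra hne
  have hT := hS.cx
  have hμ' : ∀ τ ∈ DD T N, tcμ p μ M W τ = 0 :=
    GT.stress_zero hS _ (tc_nonneg hS hM W hWV hW1 hW2 hbot)
      (fun τ hτ => tc_μ_rot hM W hτ) (tc_bal hS hM W hWV hLN hW1 hW2 hbot)
  have hcor : ∀ i j k, (i, j, k) ∈ DD T N → tcv p v M W i k = tcv p v M W i j := by
    intro i j k h
    have h1 := tc_corner hS hM W hWV hW1 hW2 hbot h
    rw [hμ' _ h, zero_mul, neg_zero, zero_smul] at h1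
    exact sub_eq_zero.1 h1
  have hlink : ∀ i j, i ∈ link T N → j ∈ link T N → tcv p v M W i j = 0 := by
    intro i j hi hj
    simp [tcv, hLN hi, hLN hj]
  -- propagation in a link
  have hprop : ∀ i, i ≠ N → (∃ j, Adj T i j ∧ j ≠ N ∧ tcv p v M W i j = 0) →
      ∀ j, Adj T i j → j ≠ N → tcv p v M W i j = 0 := by
    intro i hiN ⟨j0, hj0, hj0N, hj00⟩ j hj hjN
    have := hS.lc i ((link T i).filter (fun j => j = N ∨ tcv p v M W i j = 0))
      ⟨j0, by rw [Finset.mem_filter]; exact ⟨GT.mem_link.2 hj0, Or.inr hj00⟩, hj0⟩ ?_ j hj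
    · rw [Finset.mem_filter] at this
      rcases this.2 with h | h
      · exact absurd h hjN
      · exact h
    · intro a b hab ha
      rw [Finset.mem_filter] at ha ⊢
      have hib : Adj T i b := GT.adj_symm hT ⟨a, hT.rot _ _ _ (hT.rot _ _ _ hab)⟩
      refine ⟨GT.mem_link.2 hib, ?_⟩
      by_cases hbN : b = N
      · exact Or.inl hbN
      · right
        by_cases haN : a = N
        · subst haN
          have h1 : i ∈ link T a := GT.mem_link.2 (GT.adj_symm hT ⟨b, hab⟩)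
          have h2 : b ∈ link T a := GT.mem_link.2 ⟨i, hT.rot _ _ _ hab⟩
          exact hlink i b h1 h2
        · rcases ha.2 with h | h
          · exact absurd h haN
          · rw [hcor i a b (tc_DD_mem.2 ⟨hab, hiN, haN, hbN⟩)]; exact h
  have hVN : Conn T ((verts T).erase N) := GT.conn_erase hT hS.strong hS.lc N hS.mem
  -- a link vertex
  obtain ⟨⟨N', j0, k0⟩, hτ, hN'⟩ := Finset.mem_image.1 hS.mem
  simp only at hN'
  subst hN'
  have hj0 : j0 ∈ link T N' := GT.mem_link.2 ⟨k0, hτ⟩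
  have hZ : ((verts T).erase N').filter (fun i => ∀ j, Adj T i j → j ≠ N' →
      tcv p v M W i j = 0) = (verts T).erase N' := by
    apply hVN _ (Finset.filter_subset _ _)
    · refine ⟨j0, ?_⟩
      rw [Finset.mem_filter]
      refine ⟨hWV (hLN hj0), ?_⟩
      have hj0N : j0 ≠ N' := (Finset.mem_erase.1 (hWV (hLN hj0))).1
      apply hprop j0 hj0N
      have hk0 : k0 ∈ link T N' := GT.mem_link.2
        (GT.adj_symm hT ⟨j0, hT.rot _ _ _ (hT.rot _ _ _ hτ)⟩)
      exact ⟨k0, ⟨N', hT.rot _ _ _ hτ⟩, (Finset.mem_erase.1 (hWV (hLN hk0))).1,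
        hlink j0 k0 hj0 hk0⟩
    · intro i hi j hj hij
      rw [Finset.mem_filter] at hi ⊢
      refine ⟨hj, ?_⟩
      have hjN : j ≠ N' := (Finset.mem_erase.1 hj).1
      have hiN : i ≠ N' := (Finset.mem_erase.1 hi.1).1
      apply hprop j hjN
      refine ⟨i, GT.adj_symm hT hij, hiN, ?_⟩
      rw [tc_v_symm p hM.vs]
      exact hi.2 j hij hjN
  -- W is closed
  apply hne
  apply hVN W hWV ⟨j0, hLN hj0⟩
  intro i hi j hj hij
  by_contra hjW
  have hjN : j ≠ N' := (Finset.mem_erase.1 hj).1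
  have hMj := hW2 i hi j hjN hij hjW
  have hb := tc_mixed hS hM W hWV hW1 hW2 hbot hi hjN hjW hij
  have hiZ : i ∈ ((verts T).erase N').filter (fun i => ∀ j, Adj T i j → j ≠ N' →
      tcv p v M W i j = 0) := by rw [hZ]; exact hWV hi
  have h0 := (Finset.mem_filter.1 hiZ).2 j hij hjN
  simp only [tcv, hi, hjW, if_true, if_false] at h0
  rcases smul_eq_zero.1 h0 with h | h
  · rcases div_eq_zero_iff.1 h with h | h
    · exact hMj.ne h
    · exact hb h
  · apply hS.pnz i (Finset.mem_erase.1 (hWV hi)).1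
    have h1 := congrArg Prod.fst h
    have h2 := congrArg Prod.snd h
    simp only [J, Prod.fst_zero, Prod.snd_zero, neg_eq_zero] at h1 h2
    ext
    · exact h2
    · exact h1

end

end GT
end

section

set_option autoImplicit false

namespace GT

open Finset

variable {n : ℕ}

theorem cy_mem_verts {T : Finset (Tri n)} (hT : Cx T) {τ : Tri n} (h : τ ∈ T) :
    τ.1 ∈ verts T ∧ τ.2.1 ∈ verts T ∧ τ.2.2 ∈ verts T := by
  have h2 := cc_rot_mem hT h
  have h3 := cc_rot_mem hT h2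
  unfold verts
  simp only [Finset.mem_image]
  exact ⟨⟨τ, h, rfl⟩, ⟨rot3 τ, h2, rfl⟩, ⟨rot3 (rot3 τ), h3, rfl⟩⟩

theorem cy_D {T : Finset (Tri n)} (hT : Cx T) : cc_D T (verts T) = T := by
  ext τ
  rw [cc_mem_D]
  exact ⟨fun h => h.1, fun h => ⟨h, (cy_mem_verts hT h).1, (cy_mem_verts hT h).2.1⟩⟩

theorem cy_rep_mem {T : Finset (Tri n)} (hT : Cx T) {τ : Tri n} (h : τ ∈ T) :
    cc_rep τ ∈ cc_Fa T (verts T) := by
  obtain ⟨h12, h13, h23⟩ := cc_ne hT h
  have hm : cc_rep τ ∈ T := by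
    rcases cc_rep_cases τ with e | e | e <;> rw [e]
    · exact h
    · exact cc_rot_mem hT h
    · exact cc_rot_mem hT (cc_rot_mem hT h)
  rw [cc_mem_Fa, cc_mem_F]
  exact ⟨⟨hm, cy_mem_verts hT hm⟩, cc_rep_lt h12 h13 h23⟩

theorem cycles_bound {T : Finset (Tri n)} (hT : Cx T) (hs : Strong T)
    (h12 : 12 ≤ chi6 T (verts T)) (η : Fin n → Fin n → ℝ)
    (ha : ∀ i j k, (i, j, k) ∈ T → η j i = - η i j)
    (hd : ∀ i, ∑ τ ∈ T.filter (fun τ => τ.1 = i), η i τ.2.1 = 0) :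
    ∃ c : Fin n → Fin n → ℝ, (∀ i j k, (i, j, k) ∈ T → c j k = c i j) ∧
      ∀ i j k, (i, j, k) ∈ T → η i j = c i j - c j i := by
  classical
  obtain ⟨τ1, hτ1⟩ := hT.nonempty
  set f0 : Tri n := cc_rep τ1 with hf0
  have hf0m : f0 ∈ cc_Fa T (verts T) := cy_rep_mem hT hτ1
  have hf0T : f0 ∈ T := (cc_mem_F.1 (cc_mem_Fa.1 hf0m).1).1
  set i0 : Fin n := f0.1 with hi0d
  have hi0 : i0 ∈ verts T := (cy_mem_verts hT hf0T).1
  set P : Finset (Fin n) := verts T with hP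
  have hc : Conn T P := conn_verts hT hs
  have hDT : cc_D T P = T := cy_D hT
  set Fs : Finset (Tri n) := (cc_Fa T P).erase f0 with hFs
  set Vs : Finset (Fin n) := P.erase i0 with hVs
  have hFsub : Fs ⊆ cc_Fa T P := Finset.erase_subset _ _
  have hG0 : ∀ φ : Fs → ℝ, cc_G Fs φ f0 = 0 := by
    intro φ
    have e : cc_rep f0 = f0 := by
      unfold cc_rep
      rw [if_pos (cc_mem_Fa.1 hf0m).2]
    change (if h : cc_rep f0 ∈ Fs then φ ⟨cc_rep f0, h⟩ else 0) = 0
    rw [dif_neg]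
    rw [e, hFs]
    exact Finset.notMem_erase _ _
  have hinj : Function.Injective (cc_Phi T Fs Vs (cc_Ed T P)) := by
    rw [← LinearMap.ker_eq_bot, LinearMap.ker_eq_bot']
    intro x hx
    have hall := cc_Phi_all hT (P := P) x (fun _ => 0) (fun _ _ => by simp)
      (fun τ => by rw [hx]; rfl)
    have hgr := cc_grad_zero hT hFsub x (fun _ => 0) hall (by simp)
    have hΨ := cc_const hc (cc_X Vs x.2) hi0 hgr
    have hΨ0 : cc_X Vs x.2 i0 = 0 := cc_X_not _ (by rw [hVs]; exact Finset.notMem_erase _ _)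
    have hψ : x.2 = 0 := by
      funext i
      have := hΨ i.1 (Finset.mem_of_mem_erase i.2)
      rw [cc_X_self, hΨ0] at this
      exact this
    have hg : ∀ τ ∈ T, cc_G Fs x.1 (cc_opp T τ) = cc_G Fs x.1 τ := by
      intro τ hτ
      have hτ' : τ ∈ cc_D T P := by rw [hDT]; exact hτ
      have h1 := hall τ hτ'
      have h2 := hgr τ hτ'
      linarith
    have hST := hs (T.filter (fun τ => cc_G Fs x.1 τ = 0)) (Finset.filter_subset _ _)
      ⟨f0, by rw [Finset.mem_filter]; exact ⟨hf0T, hG0 x.1⟩⟩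
      (by
        intro i j k h
        rw [Finset.mem_filter] at h ⊢
        refine ⟨hT.rot _ _ _ h.1, ?_⟩
        have := cc_G_rot hT Fs x.1 (i, j, k) h.1
        simp only [rot3] at this
        rw [this]
        exact h.2)
      (by
        intro i j k l h hl
        rw [Finset.mem_filter] at h ⊢
        refine ⟨hl, ?_⟩
        have := hg (i, j, k) h.1
        rw [cc_opp_eq hT hl] at this
        rw [this]
        exact h.2)
    have hφ : x.1 = 0 := by
      funext τ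
      have hFa := hFsub τ.2
      have hτT : τ.1 ∈ T := (cc_mem_F.1 (cc_mem_Fa.1 hFa).1).1
      have h1 := hτT
      rw [← hST, Finset.mem_filter] at h1
      rw [cc_G_self x.1 τ (cc_mem_Fa.1 hFa).2] at h1
      exact h1.2
    exact Prod.ext hφ hψ
  have hpos : 0 < P.card := Finset.card_pos.2 ⟨i0, hi0⟩
  have hposF : 0 < (cc_Fa T P).card := Finset.card_pos.2 ⟨f0, hf0m⟩
  have hdim : Module.finrank ℝ ((Fs → ℝ) × (Vs → ℝ)) = Module.finrank ℝ (↥(cc_Ed T P) → ℝ) := by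
    have hrank := LinearMap.finrank_le_finrank_of_injective hinj
    rw [Module.finrank_prod, Module.finrank_fintype_fun_eq_card, Module.finrank_fintype_fun_eq_card,
      Module.finrank_fintype_fun_eq_card, Fintype.card_coe, Fintype.card_coe, Fintype.card_coe,
      Finset.card_erase_of_mem hi0, Finset.card_erase_of_mem hf0m] at hrank ⊢
    rw [cc_chi6 hT P] at h12
    omega
  have hsurj : Function.Surjective (cc_Phi T Fs Vs (cc_Ed T P)) :=
    (LinearMap.injective_iff_surjective_of_finrank_eq_finrank hdim).1 hinj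
  obtain ⟨x, hx⟩ := hsurj (fun τ => η τ.1.1 τ.1.2.1)
  have hall := cc_Phi_all hT (P := P) x (fun τ => η τ.1 τ.2.1) (by
      intro τ hτ
      have hm := (cc_mem_D.1 hτ).1
      rw [cc_opp_fst hT hm, cc_opp_snd hT hm]
      exact ha _ _ _ hm)
    (fun τ => by rw [hx])
  -- orthogonality of η to gradients
  have horth : ∑ τ ∈ cc_D T P, η τ.1 τ.2.1 * (cc_X Vs x.2 τ.2.1 - cc_X Vs x.2 τ.1) = 0 := by
    set Ψ : Fin n → ℝ := cc_X Vs x.2 with hΨd
    have e1 : ∑ τ ∈ cc_D T P, η τ.1 τ.2.1 * Ψ τ.1 = 0 := by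
      rw [hDT, ← Finset.sum_fiberwise T (fun τ => τ.1)]
      refine Finset.sum_eq_zero fun i _ => ?_
      have : ∑ τ ∈ T.filter (fun τ => τ.1 = i), η τ.1 τ.2.1 * Ψ τ.1 =
          (∑ τ ∈ T.filter (fun τ => τ.1 = i), η i τ.2.1) * Ψ i := by
        rw [Finset.sum_mul]
        refine Finset.sum_congr rfl fun τ hτ => ?_
        rw [Finset.mem_filter] at hτ
        rw [hτ.2]
      rw [this, hd i, zero_mul]
    have e2 : ∑ τ ∈ cc_D T P, η τ.1 τ.2.1 * Ψ τ.2.1 = - ∑ τ ∈ cc_D T P, η τ.1 τ.2.1 * Ψ τ.1 := by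
      rw [← cc_sum_opp hT P (fun τ => η τ.1 τ.2.1 * Ψ τ.2.1), ← Finset.sum_neg_distrib]
      refine Finset.sum_congr rfl fun τ hτ => ?_
      have hm := (cc_mem_D.1 hτ).1
      rw [cc_opp_fst hT hm, cc_opp_snd hT hm, ha _ _ _ hm]
      ring
    have e3 : ∑ τ ∈ cc_D T P, η τ.1 τ.2.1 * (Ψ τ.2.1 - Ψ τ.1) =
        ∑ τ ∈ cc_D T P, η τ.1 τ.2.1 * Ψ τ.2.1 - ∑ τ ∈ cc_D T P, η τ.1 τ.2.1 * Ψ τ.1 := by
      rw [← Finset.sum_sub_distrib]
      refine Finset.sum_congr rfl fun τ _ => by ring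
    rw [e3, e2, e1]
    ring
  have hgr := cc_grad_zero hT hFsub x (fun τ => η τ.1 τ.2.1) hall horth
  have hfin : ∀ τ ∈ T, η τ.1 τ.2.1 = cc_G Fs x.1 τ - cc_G Fs x.1 (cc_opp T τ) := by
    intro τ hτ
    have hτ' : τ ∈ cc_D T P := by rw [hDT]; exact hτ
    have h1 := hall τ hτ'
    have h2 := hgr τ hτ'
    linarith
  refine ⟨fun i j => if h : ∃ k, (i, j, k) ∈ T then cc_G Fs x.1 (i, j, h.choose) else 0, ?_, ?_⟩
  · have hval : ∀ i j k, (i, j, k) ∈ T →
        (if h : ∃ k, (i, j, k) ∈ T then cc_G Fs x.1 (i, j, h.choose) else 0) =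
          cc_G Fs x.1 (i, j, k) := by
      intro i j k h
      have hex : ∃ k, (i, j, k) ∈ T := ⟨k, h⟩
      rw [dif_pos hex, hT.uniq i j _ _ hex.choose_spec h]
    intro i j k h
    simp only
    rw [hval i j k h, hval j k i (hT.rot _ _ _ h)]
    exact cc_G_rot hT Fs x.1 (i, j, k) h
  · have hval : ∀ i j k, (i, j, k) ∈ T →
        (if h : ∃ k, (i, j, k) ∈ T then cc_G Fs x.1 (i, j, h.choose) else 0) =
          cc_G Fs x.1 (i, j, k) := by
      intro i j k h
      have hex : ∃ k, (i, j, k) ∈ T := ⟨k, h⟩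
      rw [dif_pos hex, hT.uniq i j _ _ hex.choose_spec h]
    intro i j k h
    simp only
    obtain ⟨l, hl⟩ := hT.sym i j k h
    rw [hval i j k h, hval j i l hl]
    have := hfin (i, j, k) h
    rw [cc_opp_eq hT hl] at this
    exact this

end GT
end
end
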