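import Mathlib

/-!
# MP_c41363_gt : spaces of geodesic triangulations of the sphere (definitions)

`T : Finset (Tri n)` is an oriented triangulated surface given by its ordered triples (each oriented
face appears as its three rotations).  `RSp T` is the space of its realizations as complete fans:
all determinants positive and the open cones of different faces disjoint.
-/

set_option autoImplicit false

namespace GT

/-- vectors of space -/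
abbrev V3 := Fin 3 → ℝ

/-- the determinant of three vectors -/
def d3 (a b c : V3) : ℝ :=
  a 0 * (b 1 * c 2 - b 2 * c 1) - a 1 * (b 0 * c 2 - b 2 * c 0) + a 2 * (b 0 * c 1 - b 1 * c 0)

/-- ordered triples of vertices -/
abbrev Tri (n : ℕ) := Fin n × Fin n × Fin n

variable {n : ℕ}

/-- rotation of a triple -/
def rot3 (τ : Tri n) : Tri n := (τ.2.1, τ.2.2, τ.1)

/-- oriented closed surface complexes, given by the set of all ordered (oriented) triples -/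
structure Cx (T : Finset (Tri n)) : Prop where
  nonempty : T.Nonempty
  rot : ∀ i j k, (i, j, k) ∈ T → (j, k, i) ∈ T
  ne : ∀ i j k, (i, j, k) ∈ T → i ≠ j
  uniq : ∀ i j k l, (i, j, k) ∈ T → (i, j, l) ∈ T → k = l
  sym : ∀ i j k, (i, j, k) ∈ T → ∃ l, (j, i, l) ∈ T

/-- all faces are positively oriented -/
def Pos (T : Finset (Tri n)) (x : Fin n → V3) : Prop :=
  ∀ i j k, (i, j, k) ∈ T → 0 < d3 (x i) (x j) (x k)

/-- `y` is in the open cone of the face `τ` (meaningful when the face has positive determinant) -/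
def inC (x : Fin n → V3) (τ : Tri n) (y : V3) : Prop :=
  0 < d3 y (x τ.2.1) (x τ.2.2) ∧ 0 < d3 (x τ.1) y (x τ.2.2) ∧ 0 < d3 (x τ.1) (x τ.2.1) y

/-- open cones of different faces are disjoint -/
def Emb (T : Finset (Tri n)) (x : Fin n → V3) : Prop :=
  ∀ τ ∈ T, ∀ τ' ∈ T, ∀ y, inC x τ y → inC x τ' y → τ' = τ ∨ τ' = rot3 τ ∨ τ' = rot3 (rot3 τ)

/-- the realization space -/
def RSp (T : Finset (Tri n)) : Set (Fin n → V3) := {x | Pos T x ∧ Emb T x}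

/-- adjacency of vertices -/
def Adj (T : Finset (Tri n)) (i j : Fin n) : Prop := ∃ k, (i, j, k) ∈ T

/-- the vertices -/
def verts (T : Finset (Tri n)) : Finset (Fin n) := T.image (fun τ => τ.1)

/-- the neighbours of a vertex -/
def link (T : Finset (Tri n)) (i : Fin n) : Finset (Fin n) :=
  (T.filter (fun τ => τ.1 = i)).image (fun τ => τ.2.1)

/-- six times the Euler characteristic of the full subcomplex on `P` -/
def chi6 (T : Finset (Tri n)) (P : Finset (Fin n)) : ℤ :=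
  6 * (P.card : ℤ) - 3 * ((T.filter (fun τ => τ.1 ∈ P ∧ τ.2.1 ∈ P)).card : ℤ)
    + 2 * ((T.filter (fun τ => τ.1 ∈ P ∧ τ.2.1 ∈ P ∧ τ.2.2 ∈ P)).card : ℤ)

/-- connectedness of the full subgraph on `P` (by cuts) -/
def Conn (T : Finset (Tri n)) (P : Finset (Fin n)) : Prop :=
  ∀ Q ⊆ P, Q.Nonempty → (∀ i ∈ Q, ∀ j ∈ P, Adj T i j → j ∈ Q) → Q = P

/-- strong connectedness: a nonempty set of faces closed under rotation and adjacency is everything -/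
def Strong (T : Finset (Tri n)) : Prop :=
  ∀ S ⊆ T, S.Nonempty → (∀ i j k, (i, j, k) ∈ S → (j, k, i) ∈ S) →
    (∀ i j k l, (i, j, k) ∈ S → (j, i, l) ∈ T → (j, i, l) ∈ S) → S = T

/-- all links are single cycles -/
def LinkCyc (T : Finset (Tri n)) : Prop :=
  ∀ (i : Fin n) (Q : Finset (Fin n)), (∃ j ∈ Q, Adj T i j) →
    (∀ j k, (i, j, k) ∈ T → j ∈ Q → k ∈ Q) → ∀ j, Adj T i j → j ∈ Q

/-- genericity of a point with respect to all walls -/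
def Gy (T : Finset (Tri n)) (x : Fin n → V3) (y : V3) : Prop :=
  ∀ τ ∈ T, d3 (x τ.1) (x τ.2.1) y ≠ 0

open Classical in
/-- number of ordered triples whose open cone contains `y` -/
noncomputable def cnt (T : Finset (Tri n)) (x : Fin n → V3) (y : V3) : ℕ :=
  (T.filter (fun τ => inC x τ y)).card

/-! ## Planar data -/

/-- planar bracket -/
def br (p : Fin n → ℝ × ℝ) (i j : Fin n) : ℝ := (p i).1 * (p j).2 - (p i).2 * (p j).1

/-- planar dot product -/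
def dt (u v : ℝ × ℝ) : ℝ := u.1 * v.1 + u.2 * v.2

/-- rotation of the plane by a quarter turn: `dt (J u) v = u.1 * v.2 - u.2 * v.1` -/
def J (u : ℝ × ℝ) : ℝ × ℝ := (-u.2, u.1)

/-- the triples that avoid the pole `N` -/
def DD (T : Finset (Tri n)) (N : Fin n) : Finset (Tri n) :=
  T.filter (fun τ => τ.1 ≠ N ∧ τ.2.1 ≠ N ∧ τ.2.2 ≠ N)

/-- `τ` is a D-triple (the middle vertex is above the chord of the two others): signs `-,-,+` -/
def isD (b : Fin n → Fin n → ℝ) (τ : Tri n) : Prop :=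
  b τ.1 τ.2.1 < 0 ∧ b τ.2.1 τ.2.2 < 0 ∧ 0 < b τ.2.2 τ.1

/-- `τ` is a U-triple (the middle vertex is below the chord of the two others): signs `+,+,-` -/
def isU (b : Fin n → Fin n → ℝ) (τ : Tri n) : Prop :=
  0 < b τ.1 τ.2.1 ∧ 0 < b τ.2.1 τ.2.2 ∧ b τ.2.2 τ.1 < 0

/-- `τ` is an S-triple (the face contains the south pole): signs `-,-,-` -/
def isS (b : Fin n → Fin n → ℝ) (τ : Tri n) : Prop :=
  b τ.1 τ.2.1 < 0 ∧ b τ.2.1 τ.2.2 < 0 ∧ b τ.2.2 τ.1 < 0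

/-- genericity of the brackets at the pole `N` -/
def GenN (T : Finset (Tri n)) (N : Fin n) (b : Fin n → Fin n → ℝ) : Prop :=
  ∀ τ ∈ T, τ.1 ≠ N → τ.2.1 ≠ N → b τ.1 τ.2.1 ≠ 0

/-- balanced: `e` is the external load -/
def Bal (T : Finset (Tri n)) (N : Fin n) (b : Fin n → Fin n → ℝ) (μ : Tri n → ℝ) (e : Fin n → ℝ) :
    Prop :=
  ∀ i, i ≠ N → (∑ τ ∈ (DD T N).filter (fun τ => τ.1 = i), μ τ * b τ.2.1 τ.2.2) + e i = 0

/-- the load of the triangle `a w c` -/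
def load (b : Fin n → Fin n → ℝ) (a w c : Fin n) (μ0 : ℝ) (i : Fin n) : ℝ :=
  (if i = a then μ0 * b w c else 0) + (if i = w then μ0 * b c a else 0)
    + (if i = c then μ0 * b a w else 0)

/-- the setting of the core argument: pole `N`, projected vertices `p`, heights `z` -/
structure Setting (T : Finset (Tri n)) (N : Fin n) (p : Fin n → ℝ × ℝ) (z : Fin n → ℝ) : Prop where
  cx : Cx T
  strong : Strong T
  lc : LinkCyc T
  mem : N ∈ verts T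
  pole : ∀ i j, (N, i, j) ∈ T → 0 < br p i j
  pnz : ∀ i, i ≠ N → p i ≠ 0
  hz : ∀ τ ∈ DD T N, 0 < z τ.1 * br p τ.2.1 τ.2.2 + z τ.2.1 * br p τ.2.2 τ.1 +
    z τ.2.2 * br p τ.1 τ.2.1
  excl : ∀ τ ∈ DD T N, ¬ (0 ≤ br p τ.1 τ.2.1 ∧ 0 ≤ br p τ.2.1 τ.2.2 ∧ 0 ≤ br p τ.2.2 τ.1)

/-- a generic bracket `b` compatible with `p`, with the counting inequalities -/
structure GenB (T : Finset (Tri n)) (N : Fin n) (p : Fin n → ℝ × ℝ) (b : Fin n → Fin n → ℝ) :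
    Prop where
  anti : ∀ i j, b i j = - b j i
  gen : GenN T N b
  pos : ∀ i j, 0 < br p i j → 0 < b i j
  neg : ∀ i j, br p i j < 0 → b i j < 0
  noP : ∀ τ ∈ DD T N, ¬ (0 < b τ.1 τ.2.1 ∧ 0 < b τ.2.1 τ.2.2 ∧ 0 < b τ.2.2 τ.1)
  sEx : ∃ τ ∈ DD T N, isS b τ
  sUn : ∀ τ ∈ DD T N, ∀ τ' ∈ DD T N, isS b τ → isS b τ' →
    τ' = τ ∨ τ' = rot3 τ ∨ τ' = rot3 (rot3 τ)
  bot : ∀ τ ∈ DD T N, br p τ.1 τ.2.1 = 0 → br p τ.2.1 τ.2.2 ≤ 0 → br p τ.2.2 τ.1 ≤ 0 →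
    ∀ τ' ∈ DD T N, isS b τ' → (τ.1 = τ'.1 ∨ τ.1 = τ'.2.1 ∨ τ.1 = τ'.2.2) ∧
      (τ.2.1 = τ'.1 ∨ τ.2.1 = τ'.2.1 ∨ τ.2.1 = τ'.2.2)
  dc : ∀ P ⊆ verts T, N ∉ P →
    (∀ τ ∈ DD T N, isU b τ → τ.1 ∈ P → τ.2.2 ∈ P → τ.2.1 ∈ P) →
    ∀ Dp ⊆ DD T N, (∀ τ ∈ Dp, isD b τ ∧ τ.2.1 ∈ P ∧ τ.1 ∉ P ∧ τ.2.2 ∉ P) →
      6 * (Dp.card : ℤ) ≤ chi6 T P ∧
      ((∃ τ ∈ DD T N, isS b τ ∧ τ.1 ∈ P) → 6 * (Dp.card : ℤ) + 6 ≤ chi6 T P)
  uc : ∀ P ⊆ verts T, N ∉ P → ∀ w ∈ link T N, w ∈ P → (∀ j ∈ link T N, j ∈ P → j = w) →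
    (∀ τ ∈ DD T N, isD b τ → τ.1 ∈ P → τ.2.2 ∈ P → τ.2.1 ∈ P) →
    ∀ Up ⊆ DD T N, (∀ τ ∈ Up, isU b τ ∧ τ.2.1 ∈ P ∧ τ.1 ∉ P ∧ τ.2.2 ∉ P) →
      6 * (Up.card : ℤ) + 6 ≤ chi6 T P

/-- moment functions: `v` on edges, `M` on vertices, stress `μ` -/
structure Mom (T : Finset (Tri n)) (N : Fin n) (p : Fin n → ℝ × ℝ) (μ : Tri n → ℝ)
    (v : Fin n → Fin n → ℝ × ℝ) (M : Fin n → ℝ) : Prop where
  nn : ∀ τ ∈ DD T N, 0 ≤ μ τ
  mr : ∀ τ ∈ DD T N, μ (rot3 τ) = μ τ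
  vs : ∀ i j, v i j = v j i
  vc : ∀ τ ∈ DD T N, v τ.1 τ.2.2 - v τ.1 τ.2.1 = -(μ τ * br p τ.2.1 τ.2.2) • J (p τ.1)
  hM : ∀ i j, Adj T i j → i ≠ N → j ≠ N → M i = dt (v i j) (p i)

/-- moves along the vertex `N` -/
def mv (N : Fin n) (x : Fin n → V3) (t : Fin n → ℝ) : Fin n → V3 :=
  fun i => if i = N then x N else x i + t i • x N

/-! ## The frozen conditions -/

/-- barycentric coordinates supported on a simplex of `K` -/
def Simp (K : Finset (Tri n)) (t : Fin n → ℝ) : Prop :=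
  (∀ i, 0 ≤ t i) ∧ (∑ i, t i) = 1 ∧
    ∃ τ ∈ K, ∀ i, t i ≠ 0 → (i = τ.1 ∨ i = τ.2.1 ∨ i = τ.2.2)

/-- the frozen realization conditions -/
def Frz (K : Finset (Tri n)) (v : Fin n → V3) : Prop :=
  (∀ i, (∑ a, v i a ^ 2) = 1) ∧
  (∀ t : Fin n → ℝ, Simp K t → (∑ i, t i • v i) ≠ 0) ∧
  (∀ t s : Fin n → ℝ, Simp K t → Simp K s →
    ∀ c : ℝ, 0 < c → (∑ i, t i • v i) = c • (∑ i, s i • v i) → t = s) ∧
  (∀ x : V3, x ≠ 0 → ∃ t : Fin n → ℝ, Simp K t ∧ ∃ c : ℝ, 0 < c ∧ (∑ i, t i • v i) = c • x)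

open Classical in
/-- the oriented complex of a realization `v` of `K` -/
noncomputable def TK (K : Finset (Tri n)) (v : Fin n → V3) : Finset (Tri n) :=
  Finset.univ.filter (fun τ => 0 < d3 (v τ.1) (v τ.2.1) (v τ.2.2) ∧
    ∃ σ ∈ K, ({τ.1, τ.2.1, τ.2.2} : Finset (Fin n)) = {σ.1, σ.2.1, σ.2.2})

/-- the flip of the edge `N w` with opposite vertices `a`, `c` -/
def flip (T : Finset (Tri n)) (N a w c : Fin n) : Finset (Tri n) :=
  (T \ {(N, a, w), (a, w, N), (w, N, a), (N, w, c), (w, c, N), (c, N, w)}) ∪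
    {(N, a, c), (a, c, N), (c, N, a), (a, w, c), (w, c, a), (c, a, w)}

/-- removal of the vertex `N` of degree three with link `a w c` -/
def rmv (T : Finset (Tri n)) (N a w c : Fin n) : Finset (Tri n) :=
  (T \ {(N, a, w), (a, w, N), (w, N, a), (N, w, c), (w, c, N), (c, N, w),
      (N, c, a), (c, a, N), (a, N, c)}) ∪ {(a, w, c), (w, c, a), (c, a, w)}

end GT
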