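import Pool.Agent.Lib.MP_c41363_gt.Defs
import Pool.Agent.Lib.MP_c41363_gt.Cycles
import Pool.Agent.Lib.MP_c41363_gt.Cnt

section

set_option autoImplicit false

namespace GT

open Finset

variable {n : ℕ}

theorem integrate {T : Finset (Tri n)} (hT : Cx T) (hs : Strong T)
    (h12 : 12 ≤ chi6 T (verts T)) (ω : Tri n → ℝ)
    (hf : ∀ τ ∈ T, ω τ + ω (rot3 τ) + ω (rot3 (rot3 τ)) = 0)
    (hv : ∀ i, ∑ τ ∈ T.filter (fun τ => τ.1 = i), ω τ = 0) :
    ∃ v : Fin n → Fin n → ℝ, (∀ i j, v i j = v j i) ∧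
      ∀ i j k, (i, j, k) ∈ T → v i k - v i j = ω (i, j, k) := by
  classical
  -- the potential of a dart
  obtain ⟨d, hd⟩ : ∃ d : Fin n → Fin n → ℝ, ∀ i j k, (i, j, k) ∈ T →
      d i j = (ω (j, k, i) - ω (i, j, k)) / 3 := by
    refine ⟨fun i j => if h : ∃ k, (i, j, k) ∈ T then
      (ω (j, h.choose, i) - ω (i, j, h.choose)) / 3 else 0, ?_⟩
    intro i j k h
    have hex : ∃ k, (i, j, k) ∈ T := ⟨k, h⟩
    simp only
    rw [dif_pos hex, hT.uniq i j _ _ hex.choose_spec h]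
  have hdd : ∀ i j k, (i, j, k) ∈ T → d k i - d i j = ω (i, j, k) := by
    intro i j k h
    have h2 := hT.rot _ _ _ h
    have h3 := hT.rot _ _ _ h2
    have h4 := hf _ h
    simp only [rot3] at h4
    rw [hd _ _ _ h, hd _ _ _ h3]
    linarith
  obtain ⟨c, hc1, hc2⟩ := cycles_bound hT hs h12 (fun i j => d j i - d i j)
    (by intro i j k _; ring)
    (by
      intro i
      have e1 : ∑ τ ∈ T.filter (fun τ => τ.1 = i), (d τ.2.1 i - d i τ.2.1) =
          ∑ τ ∈ T.filter (fun τ => τ.1 = i), d τ.2.1 i -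
            ∑ τ ∈ T.filter (fun τ => τ.1 = i), d i τ.2.1 := Finset.sum_sub_distrib _ _
      have e2 : ∑ τ ∈ T.filter (fun τ => τ.1 = i), d τ.2.1 i =
          ∑ τ ∈ T.filter (fun τ => τ.1 = i), d τ.2.2 i := (te_sum hT i (fun j => d j i)).symm
      rw [e1, e2, ← Finset.sum_sub_distrib, ← hv i]
      refine Finset.sum_congr rfl ?_
      rintro ⟨a, b, e⟩ hτ
      rw [Finset.mem_filter] at hτ
      obtain ⟨hτ, rfl⟩ := hτ
      exact hdd _ _ _ hτ)
  refine ⟨fun i j => if Adj T i j then c i j + d i j else 0, ?_, ?_⟩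
  · intro i j
    by_cases h : Adj T i j
    · have h' : Adj T j i := by
        obtain ⟨k, hk⟩ := h
        exact hT.sym _ _ _ hk
      simp only [h, h', if_true]
      obtain ⟨k, hk⟩ := h
      have := hc2 i j k hk
      linarith
    · have h' : ¬ Adj T j i := by
        rintro ⟨k, hk⟩
        exact h (hT.sym _ _ _ hk)
      simp only [h, h', if_false]
  · intro i j k h
    have h2 := hT.rot _ _ _ h
    have h3 := hT.rot _ _ _ h2
    have hij : Adj T i j := ⟨k, h⟩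
    have hik : Adj T i k := te_next hT h
    simp only [hij, hik, if_true]
    obtain ⟨l, hl⟩ := hik
    have e1 := hc2 i k l hl
    have e2 : c i j = c k i := hc1 k i j h3
    have e3 := hdd i j k h
    linarith

end GT
end

section

/-!
# MP_c41363_gt GT-8a : existence of the potential
-/

set_option autoImplicit false

namespace GT
open Finset

variable {n : ℕ}

/-- one entry -/
private def pt_E (t : Tri n) (x : ℝ × ℝ) (τ : Tri n) : ℝ × ℝ := if τ = t then x else 0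

private lemma pt_rot_inj (σ t : Tri n) : rot3 σ = rot3 t ↔ σ = t := by
  obtain ⟨a, b, c⟩ := σ
  obtain ⟨a', b', c'⟩ := t
  simp only [rot3, Prod.mk.injEq]
  tauto

private lemma pt_E_rot (t : Tri n) (x : ℝ × ℝ) (τ : Tri n) :
    pt_E (rot3 t) x (rot3 τ) = pt_E t x τ := by
  unfold pt_E
  simp only [pt_rot_inj]

/-- a pair of opposite entries has zero face sums -/
private lemma pt_pair_face (t : Tri n) (x : ℝ × ℝ) (τ : Tri n) :
    (pt_E t x τ + pt_E (rot3 t) (-x) τ) + (pt_E t x (rot3 τ) + pt_E (rot3 t) (-x) (rot3 τ)) +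
      (pt_E t x (rot3 (rot3 τ)) + pt_E (rot3 t) (-x) (rot3 (rot3 τ))) = 0 := by
  have h1 : pt_E (rot3 t) (-x) τ = pt_E t (-x) (rot3 (rot3 τ)) := pt_E_rot t (-x) (rot3 (rot3 τ))
  rw [h1, pt_E_rot, pt_E_rot]
  have h2 : ∀ σ : Tri n, pt_E t (-x) σ = - pt_E t x σ := by
    intro σ
    unfold pt_E
    split_ifs
    · rfl
    · rw [neg_zero]
  rw [h2, h2, h2]
  abel

private lemma pt_E_vert {T : Finset (Tri n)} {t : Tri n} (ht : t ∈ T) (x : ℝ × ℝ) (i : Fin n) :
    ∑ τ ∈ T.filter (fun τ => τ.1 = i), pt_E t x τ = if t.1 = i then x else 0 := by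
  unfold pt_E
  rw [Finset.sum_ite_eq' (T.filter (fun τ => τ.1 = i)) t (fun _ => x)]
  simp only [Finset.mem_filter, ht, true_and]

private def pt_W0 (N : Fin n) (p : Fin n → ℝ × ℝ) (μ : Tri n → ℝ) (τ : Tri n) : ℝ × ℝ :=
  if τ.1 ≠ N ∧ τ.2.1 ≠ N ∧ τ.2.2 ≠ N then -(μ τ * br p τ.2.1 τ.2.2) • J (p τ.1) else 0

private lemma pt_ident (p : Fin n → ℝ × ℝ) (i j k : Fin n) :
    br p j k • J (p i) + br p k i • J (p j) + br p i j • J (p k) = 0 := by
  unfold br J
  apply Prod.ext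
  · simp
    ring
  · simp
    ring

private lemma pt_W0_face {T : Finset (Tri n)} {N : Fin n} (p : Fin n → ℝ × ℝ) (μ : Tri n → ℝ)
    (hT : Cx T) (hr : ∀ τ ∈ DD T N, μ (rot3 τ) = μ τ) (τ : Tri n) (hτ : τ ∈ T) :
    pt_W0 N p μ τ + pt_W0 N p μ (rot3 τ) + pt_W0 N p μ (rot3 (rot3 τ)) = 0 := by
  obtain ⟨i, j, k⟩ := τ
  have h1 := hT.rot i j k hτ
  have h2 := hT.rot j k i h1
  by_cases h : i ≠ N ∧ j ≠ N ∧ k ≠ N
  · obtain ⟨hi, hj, hk⟩ := h
    have e1 : μ (j, k, i) = μ (i, j, k) := hr (i, j, k) (by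
      unfold DD
      rw [Finset.mem_filter]
      exact ⟨hτ, hi, hj, hk⟩)
    have e2 : μ (k, i, j) = μ (j, k, i) := hr (j, k, i) (by
      unfold DD
      rw [Finset.mem_filter]
      exact ⟨h1, hj, hk, hi⟩)
    unfold pt_W0 rot3
    simp only [hi, hj, hk, ne_eq, not_false_eq_true, and_self, if_true]
    rw [e2, e1]
    have := pt_ident p i j k
    have h3 : -(μ (i, j, k) * br p j k) • J (p i) + -(μ (i, j, k) * br p k i) • J (p j) +
        -(μ (i, j, k) * br p i j) • J (p k) =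
        (-μ (i, j, k)) • (br p j k • J (p i) + br p k i • J (p j) + br p i j • J (p k)) := by
      module
    rw [h3, this, smul_zero]
  · unfold pt_W0 rot3
    have h' : ¬ (j ≠ N ∧ k ≠ N ∧ i ≠ N) := by tauto
    have h'' : ¬ (k ≠ N ∧ i ≠ N ∧ j ≠ N) := by tauto
    simp only [if_neg h, if_neg h', if_neg h'']
    simp

private lemma pt_W0_vert {T : Finset (Tri n)} {N : Fin n} (p : Fin n → ℝ × ℝ) (μ : Tri n → ℝ)
    (i : Fin n) :
    ∑ τ ∈ T.filter (fun τ => τ.1 = i), pt_W0 N p μ τ =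
      (-∑ τ ∈ (DD T N).filter (fun τ => τ.1 = i), μ τ * br p τ.2.1 τ.2.2) • J (p i) := by
  rw [← Finset.sum_neg_distrib, Finset.sum_smul]
  unfold pt_W0 DD
  rw [← Finset.sum_filter, Finset.filter_filter, Finset.filter_filter]
  have : T.filter (fun τ => τ.1 = i ∧ τ.1 ≠ N ∧ τ.2.1 ≠ N ∧ τ.2.2 ≠ N) =
      T.filter (fun τ => (τ.1 ≠ N ∧ τ.2.1 ≠ N ∧ τ.2.2 ≠ N) ∧ τ.1 = i) := by
    apply Finset.filter_congr
    intro τ _
    tauto
  rw [this]
  refine Finset.sum_congr rfl fun τ hτ => ?_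
  rw [Finset.mem_filter] at hτ
  rw [hτ.2.2]

private lemma pt_dt_J_self (u : ℝ × ℝ) : dt (J u) u = 0 := by
  unfold dt J
  ring

private lemma pt_dt_smul (r : ℝ) (u v : ℝ × ℝ) : dt (r • u) v = r * dt u v := by
  unfold dt
  simp only [Prod.smul_fst, Prod.smul_snd, smul_eq_mul]
  ring

private lemma pt_dt_sub (u u' v : ℝ × ℝ) : dt (u - u') v = dt u v - dt u' v := by
  unfold dt
  simp only [Prod.fst_sub, Prod.snd_sub]
  ring

theorem exists_pot {T : Finset (Tri n)} {N : Fin n} {p : Fin n → ℝ × ℝ} {z : Fin n → ℝ}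
    (hS : Setting T N p z) (h12 : 12 ≤ chi6 T (verts T)) (μ : Tri n → ℝ)
    (hμ : ∀ τ ∈ DD T N, 0 ≤ μ τ) (hr : ∀ τ ∈ DD T N, μ (rot3 τ) = μ τ) (μ0 : ℝ)
    {a w c : Fin n} (h1 : (N, a, w) ∈ T) (h2 : (N, w, c) ∈ T)
    (hbal : Bal T N (br p) μ (load (br p) a w c μ0)) :
    ∃ v M, Mom T N p μ v M ∧ (∀ i ∈ link T N, i ≠ w → M i = 0) ∧
      M w = μ0 * (br p a w * br p w c) ∧
      (∀ i j, (N, i, j) ∈ T → i ≠ w → j ≠ w → v i j = 0) ∧
      v a w = (μ0 * br p w c) • J (p a) ∧ v w c = -(μ0 * br p a w) • J (p c) := by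
  have hT := hS.cx
  -- combinatorics
  have hNa : N ≠ a := hT.ne _ _ _ h1
  have hNw : N ≠ w := hT.ne _ _ _ h2
  have haw : a ≠ w := hT.ne _ _ _ (hT.rot _ _ _ h1)
  have hwc : w ≠ c := hT.ne _ _ _ (hT.rot _ _ _ h2)
  have hcN : c ≠ N := hT.ne _ _ _ (hT.rot _ _ _ (hT.rot _ _ _ h2))
  have hnext : ∀ i j k, (i, j, k) ∈ T → ∃ l, (i, k, l) ∈ T := fun i j k h =>
    hT.sym _ _ _ (hT.rot _ _ _ (hT.rot _ _ _ h))
  have hac : a ≠ c := by
    intro h
    have e1 := hS.pole _ _ h1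
    have e2 := hS.pole _ _ h2
    rw [← h] at e2
    unfold br at e1 e2
    linarith
  have t1 : (a, w, N) ∈ T := hT.rot _ _ _ h1
  have t2 : (w, N, a) ∈ T := hT.rot _ _ _ t1
  have t3 : (w, c, N) ∈ T := hT.rot _ _ _ h2
  have t4 : (c, N, w) ∈ T := hT.rot _ _ _ t3
  set A : ℝ × ℝ := (μ0 * br p w c) • J (p a) with hA
  set C : ℝ × ℝ := (μ0 * br p a w) • J (p c) with hC
  set W1 : Tri n → ℝ × ℝ := fun τ => (pt_E (a, w, N) (-A) τ + pt_E (rot3 (a, w, N)) (-(-A)) τ) +
    (pt_E (w, c, N) C τ + pt_E (rot3 (w, c, N)) (-C) τ) with hW1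
  set W : Tri n → ℝ × ℝ := fun τ => pt_W0 N p μ τ + W1 τ with hW
  have hface : ∀ τ ∈ T, W τ + W (rot3 τ) + W (rot3 (rot3 τ)) = 0 := by
    intro τ hτ
    have e0 := pt_W0_face p μ hT hr τ hτ
    have e1 := pt_pair_face (a, w, N) (-A) τ
    have e2 := pt_pair_face (w, c, N) C τ
    simp only [hW, hW1]
    calc _ = (pt_W0 N p μ τ + pt_W0 N p μ (rot3 τ) + pt_W0 N p μ (rot3 (rot3 τ))) +
        ((pt_E (a, w, N) (-A) τ + pt_E (rot3 (a, w, N)) (-(-A)) τ) +
          (pt_E (a, w, N) (-A) (rot3 τ) + pt_E (rot3 (a, w, N)) (-(-A)) (rot3 τ)) +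
          (pt_E (a, w, N) (-A) (rot3 (rot3 τ)) + pt_E (rot3 (a, w, N)) (-(-A)) (rot3 (rot3 τ)))) +
        ((pt_E (w, c, N) C τ + pt_E (rot3 (w, c, N)) (-C) τ) +
          (pt_E (w, c, N) C (rot3 τ) + pt_E (rot3 (w, c, N)) (-C) (rot3 τ)) +
          (pt_E (w, c, N) C (rot3 (rot3 τ)) + pt_E (rot3 (w, c, N)) (-C) (rot3 (rot3 τ)))) := by
          abel
      _ = 0 := by rw [e0, e1, e2]; simp
  have t2' : rot3 (a, w, N) ∈ T := t2
  have t4' : rot3 (w, c, N) ∈ T := t4
  have hvert : ∀ i, ∑ τ ∈ T.filter (fun τ => τ.1 = i), W τ = 0 := by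
    intro i
    simp only [hW, hW1]
    rw [Finset.sum_add_distrib, Finset.sum_add_distrib, Finset.sum_add_distrib,
      Finset.sum_add_distrib, pt_W0_vert, pt_E_vert t1, pt_E_vert t2', pt_E_vert t3,
      pt_E_vert t4']
    by_cases hi : i = N
    · subst hi
      have e : (DD T i).filter (fun τ => τ.1 = i) = ∅ := by
        rw [Finset.filter_eq_empty_iff]
        intro τ hτ
        unfold DD at hτ
        rw [Finset.mem_filter] at hτ
        exact hτ.2.1
      have e0 : ¬ ((a, w, i) : Tri n).1 = i := hNa.symm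
      have e1 : ¬ ((rot3 (a, w, i)).1 = i) := hNw.symm
      have e2 : ¬ ((w, c, i) : Tri n).1 = i := hNw.symm
      have e3 : ¬ ((rot3 (w, c, i)).1 = i) := hcN
      rw [e, Finset.sum_empty, neg_zero, zero_smul, if_neg e0, if_neg e1, if_neg e2, if_neg e3]
      simp
    · have e := hbal i hi
      have e' : -∑ τ ∈ (DD T N).filter (fun τ => τ.1 = i), μ τ * br p τ.2.1 τ.2.2 =
          load (br p) a w c μ0 i := by linarith
      rw [e']
      have f1 : load (br p) a w c μ0 i • J (p i) = (if a = i then A else 0) +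
          (if w = i then (μ0 * br p c a) • J (p w) else 0) + (if c = i then C else 0) := by
        unfold load
        rw [add_smul, add_smul]
        congr 1
        · congr 1
          · by_cases h : i = a
            · subst h
              rw [if_pos rfl, if_pos rfl]
            · rw [if_neg h, if_neg (Ne.symm h), zero_smul]
          · by_cases h : i = w
            · subst h
              rw [if_pos rfl, if_pos rfl]
            · rw [if_neg h, if_neg (Ne.symm h), zero_smul]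
        · by_cases h : i = c
          · subst h
            rw [if_pos rfl, if_pos rfl]
          · rw [if_neg h, if_neg (Ne.symm h), zero_smul]
      rw [f1]
      have f2 : A + C + (μ0 * br p c a) • J (p w) = 0 := by
        have := pt_ident p a w c
        have g : A + C + (μ0 * br p c a) • J (p w) =
            μ0 • (br p w c • J (p a) + br p c a • J (p w) + br p a w • J (p c)) := by
          rw [hA, hC]
          module
        rw [g, this, smul_zero]
      have f3 : (if w = i then (μ0 * br p c a) • J (p w) else 0) =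
          -(if w = i then A else 0) - (if w = i then C else 0) := by
        by_cases h : w = i
        · rw [if_pos h, if_pos h, if_pos h, ← sub_eq_zero]
          rw [← f2]
          abel
        · rw [if_neg h, if_neg h, if_neg h]
          simp
      rw [f3]
      have g1 : (if ((a, w, N) : Tri n).1 = i then -A else 0) = -(if a = i then A else 0) := by
        show (if a = i then -A else 0) = -(if a = i then A else 0)
        split_ifs
        · rfl
        · rw [neg_zero]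
      have g2 : (if (rot3 (a, w, N)).1 = i then - -A else 0) = (if w = i then A else 0) := by
        show (if w = i then - -A else 0) = (if w = i then A else 0)
        rw [neg_neg]
      have g3 : (if ((w, c, N) : Tri n).1 = i then C else 0) = (if w = i then C else 0) := rfl
      have g4 : (if (rot3 (w, c, N)).1 = i then -C else 0) = -(if c = i then C else 0) := by
        show (if c = i then -C else 0) = -(if c = i then C else 0)
        split_ifs
        · rfl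
        · rw [neg_zero]
      rw [g1, g2, g3, g4]
      abel
  -- integration
  obtain ⟨u1, s1, c1⟩ := GT.integrate hT hS.strong h12 (fun τ => (W τ).1) (fun τ hτ => by
    have := congrArg Prod.fst (hface τ hτ)
    simpa using this) (fun i => by
    have := congrArg Prod.fst (hvert i)
    rw [Prod.fst_sum] at this
    simpa using this)
  obtain ⟨u2, s2, c2⟩ := GT.integrate hT hS.strong h12 (fun τ => (W τ).2) (fun τ hτ => by
    have := congrArg Prod.snd (hface τ hτ)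
    simpa using this) (fun i => by
    have := congrArg Prod.snd (hvert i)
    rw [Prod.snd_sum] at this
    simpa using this)
  set v : Fin n → Fin n → ℝ × ℝ := fun i j => (u1 i j, u2 i j) - (u1 N a, u2 N a) with hv
  have vs : ∀ i j, v i j = v j i := by
    intro i j
    simp only [hv]
    rw [s1 i j, s2 i j]
  have vc : ∀ i j k, (i, j, k) ∈ T → v i k - v i j = W (i, j, k) := by
    intro i j k h
    simp only [hv]
    apply Prod.ext
    · rw [← c1 i j k h]
      simp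
    · rw [← c2 i j k h]
      simp
  have vNa : v N a = 0 := sub_self _
  clear_value v
  -- values of W
  have hEN : ∀ (t : Tri n) (x : ℝ × ℝ) (τ : Tri n), τ ≠ t → pt_E t x τ = 0 := by
    intro t x τ h
    unfold pt_E
    rw [if_neg h]
  have WN : ∀ j k, (N, j, k) ∈ T → W (N, j, k) = 0 := by
    intro j k _
    simp only [hW, hW1]
    rw [hEN, hEN, hEN, hEN]
    · unfold pt_W0
      rw [if_neg (fun h => h.1 rfl)]
      simp
    · intro h
      exact hcN (congrArg Prod.fst h).symm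
    · intro h
      exact hNw (congrArg Prod.fst h)
    · intro h
      exact hNw (congrArg Prod.fst h)
    · intro h
      exact hNa (congrArg Prod.fst h)
  have WDD : ∀ i j k, i ≠ N → j ≠ N → k ≠ N → W (i, j, k) = -(μ (i, j, k) * br p j k) • J (p i) := by
    intro i j k hi hj hk
    simp only [hW, hW1]
    rw [hEN, hEN, hEN, hEN]
    · unfold pt_W0
      rw [if_pos ⟨hi, hj, hk⟩]
      simp
    · intro h
      exact hj (congrArg (fun τ => τ.2.1) h)
    · intro h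
      exact hk (congrArg (fun τ => τ.2.2) h)
    · intro h
      exact hj (congrArg (fun τ => τ.2.1) h)
    · intro h
      exact hk (congrArg (fun τ => τ.2.2) h)
  have WJ : ∀ i j, i ≠ N → W (i, j, N) = pt_E (a, w, N) (-A) (i, j, N) + pt_E (w, c, N) C (i, j, N) := by
    intro i j hi
    simp only [hW, hW1]
    rw [hEN (rot3 (a, w, N)), hEN (rot3 (w, c, N))]
    · unfold pt_W0
      rw [if_neg (fun h => h.2.2 rfl)]
      simp
    · intro h
      exact hNw (congrArg (fun τ => τ.2.2) h)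
    · intro h
      exact hNa (congrArg (fun τ => τ.2.2) h)
  have lN : ∀ i, Adj T N i → v N i = 0 := by
    classical
    intro i hi
    have := hS.lc N (Finset.univ.filter (fun i => v N i = 0))
      ⟨a, by rw [Finset.mem_filter]; exact ⟨Finset.mem_univ _, vNa⟩, w, h1⟩ (by
        intro j k h hj
        rw [Finset.mem_filter] at hj ⊢
        refine ⟨Finset.mem_univ _, ?_⟩
        have e := vc N j k h
        rw [WN j k h, hj.2, sub_zero] at e
        exact e) i hi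
    rw [Finset.mem_filter] at this
    exact this.2
  have lv : ∀ i j, (N, i, j) ∈ T → v i j = pt_E (a, w, N) A (i, j, N) - pt_E (w, c, N) C (i, j, N) := by
    intro i j h
    have e := vc i j N (hT.rot _ _ _ h)
    rw [vs i N, lN i ⟨j, h⟩, WJ i j (hT.ne _ _ _ h).symm, zero_sub] at e
    have e' : pt_E (a, w, N) (-A) (i, j, N) = - pt_E (a, w, N) A (i, j, N) := by
      unfold pt_E
      split_ifs
      · rfl
      · rw [neg_zero]
    rw [e'] at e
    rw [← neg_neg (v i j), e]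
    abel
  have vaw : v a w = A := by
    rw [lv a w h1, hEN (w, c, N)]
    · unfold pt_E
      rw [if_pos rfl, sub_zero]
    · intro h
      exact haw (congrArg Prod.fst h)
  have vwc : v w c = -C := by
    rw [lv w c h2, hEN (a, w, N)]
    · unfold pt_E
      rw [if_pos rfl, zero_sub]
    · intro h
      exact haw (congrArg Prod.fst h).symm
  have v0 : ∀ i j, (N, i, j) ∈ T → i ≠ w → j ≠ w → v i j = 0 := by
    intro i j h hi hj
    rw [lv i j h, hEN, hEN, sub_zero]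
    · intro h
      exact hi (congrArg Prod.fst h)
    · intro h
      exact hj (congrArg (fun τ => τ.2.1) h)
  -- the moment function
  have key : ∀ i, i ≠ N → ∀ j j', Adj T i j → Adj T i j' → j ≠ N → j' ≠ N →
      dt (v i j) (p i) = dt (v i j') (p i) := by
    classical
    intro i hi j j' hj hj' hjN hjN'
    have base : ∃ b, Adj T i b ∧ b ≠ N ∧ ∀ k, (i, N, k) ∈ T → k = b := by
      by_cases h : Adj T i N
      · obtain ⟨b, hb⟩ := h
        refine ⟨b, hnext _ _ _ hb, ?_, fun k hk => hT.uniq _ _ _ _ hk hb⟩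
        intro h
        exact hT.ne _ _ _ (hT.rot _ _ _ hb) h.symm
      · exact ⟨j, hj, hjN, fun k hk => absurd ⟨k, hk⟩ h⟩
    obtain ⟨b, hb, hbN, hbu⟩ := base
    have hall : ∀ l, Adj T i l → l = N ∨ dt (v i l) (p i) = dt (v i b) (p i) := by
      intro l hl
      have := hS.lc i (Finset.univ.filter (fun l => l = N ∨ dt (v i l) (p i) = dt (v i b) (p i)))
        ⟨b, by rw [Finset.mem_filter]; exact ⟨Finset.mem_univ _, Or.inr rfl⟩, hb⟩ (by
          intro l k h hl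
          rw [Finset.mem_filter] at hl ⊢
          refine ⟨Finset.mem_univ _, ?_⟩
          by_cases hlN : l = N
          · right
            subst hlN
            rw [hbu k h]
          · rcases hl.2 with h' | h'
            · exact absurd h' hlN
            · by_cases hkN : k = N
              · left
                exact hkN
              · right
                have e := vc i l k h
                rw [WDD i l k hi hlN hkN] at e
                have e2 := congrArg (fun u => dt u (p i)) e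
                simp only [pt_dt_sub, pt_dt_smul, pt_dt_J_self, mul_zero] at e2
                rw [← h']
                linarith) l hl
      rw [Finset.mem_filter] at this
      exact this.2
    rcases hall j hj with h | h
    · exact absurd h hjN
    · rcases hall j' hj' with h' | h'
      · exact absurd h' hjN'
      · rw [h, h']
  classical
  set M : Fin n → ℝ := fun i => if h : ∃ j, Adj T i j ∧ j ≠ N then dt (v i h.choose) (p i) else 0
    with hM
  have hM' : ∀ i j, Adj T i j → i ≠ N → j ≠ N → M i = dt (v i j) (p i) := by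
    intro i j hij hi hj
    have hex : ∃ j, Adj T i j ∧ j ≠ N := ⟨j, hij, hj⟩
    simp only [hM]
    rw [dif_pos hex]
    exact key i hi _ _ hex.choose_spec.1 hij hex.choose_spec.2 hj
  have Ma : M a = 0 := by
    rw [hM' a w ⟨N, t1⟩ hNa.symm hNw.symm, vaw, hA, pt_dt_smul, pt_dt_J_self, mul_zero]
  refine ⟨v, M, ⟨hμ, hr, vs, ?_, hM'⟩, ?_, ?_, v0, ?_, ?_⟩
  · rintro ⟨i, j, k⟩ hτ
    unfold DD at hτ
    rw [Finset.mem_filter] at hτ
    obtain ⟨hτ, hi, hj, hk⟩ := hτ
    show v i k - v i j = -(μ (i, j, k) * br p j k) • J (p i)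
    rw [vc i j k hτ, WDD i j k hi hj hk]
  · intro i hi hiw
    unfold link at hi
    rw [Finset.mem_image] at hi
    obtain ⟨⟨x, y, j⟩, hτ, hτ'⟩ := hi
    rw [Finset.mem_filter] at hτ
    obtain ⟨hτ, hx⟩ := hτ
    change x = N at hx
    change y = i at hτ'
    subst hx hτ'
    have hyN : y ≠ x := (hT.ne _ _ _ hτ).symm
    have hjN : j ≠ x := hT.ne _ _ _ (hT.rot _ _ _ (hT.rot _ _ _ hτ))
    by_cases hjw : j = w
    · subst hjw
      have : y = a := hT.uniq _ _ _ _ (hT.rot _ _ _ (hT.rot _ _ _ hτ)) t2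
      rw [this]
      exact Ma
    · rw [hM' y j ⟨x, hT.rot _ _ _ hτ⟩ hyN hjN, v0 y j hτ hiw hjw]
      unfold dt
      simp
  · rw [hM' w c ⟨N, t3⟩ hNw.symm hcN, vwc, hC]
    unfold dt J br
    simp
    ring
  · rw [vaw]
  · rw [vwc, hC, neg_smul]

end GT
end

section

/-!
# GT-8d: `bottom_free` and `mom_nonneg`
-/

set_option autoImplicit false

namespace GT
open Finset

variable {n : ℕ}

theorem bf_mem_DD {T : Finset (Tri n)} {N i j k : Fin n} :
    (i, j, k) ∈ DD T N ↔ (i, j, k) ∈ T ∧ i ≠ N ∧ j ≠ N ∧ k ≠ N := by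
  simp [DD, Finset.mem_filter]

theorem bf_DD_rot {T : Finset (Tri n)} (hT : Cx T) {N i j k : Fin n} (h : (i, j, k) ∈ DD T N) :
    (j, k, i) ∈ DD T N := by
  rw [bf_mem_DD] at h ⊢
  exact ⟨hT.rot _ _ _ h.1, h.2.2.1, h.2.2.2, h.2.1⟩

theorem bf_isS_rot {b : Fin n → Fin n → ℝ} {i j k : Fin n} (h : isS b (i, j, k)) :
    isS b (j, k, i) :=
  ⟨h.2.1, h.2.2, h.1⟩

theorem bf_nonpos {T : Finset (Tri n)} {N : Fin n} {p : Fin n → ℝ × ℝ}
    {b : Fin n → Fin n → ℝ} (hb : GenB T N p b) {i j : Fin n} (h : b i j < 0) : br p i j ≤ 0 := by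
  by_contra hc
  have := hb.pos i j (lt_of_not_ge hc)
  linarith

theorem bf_nonneg {T : Finset (Tri n)} {N : Fin n} {p : Fin n → ℝ × ℝ}
    {b : Fin n → Fin n → ℝ} (hb : GenB T N p b) {i j : Fin n} (h : 0 < b i j) : 0 ≤ br p i j := by
  by_contra hc
  have := hb.neg i j (lt_of_not_ge hc)
  linarith

/-- two zero brackets sharing a vertex are impossible -/
theorem bf_two_zero {T : Finset (Tri n)} {N : Fin n} {p : Fin n → ℝ × ℝ} {z : Fin n → ℝ}
    (hS : Setting T N p z) {i j k : Fin n} (h : (i, j, k) ∈ DD T N) (h1 : br p i j = 0)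
    (h2 : br p j k = 0) : False := by
  have hz := hS.hz _ h
  have hj : p j ≠ 0 := hS.pnz j (bf_mem_DD.1 h).2.2.1
  simp only at hz
  have e1 : br p k i * (p j).1 = - (br p j k * (p i).1 + br p i j * (p k).1) := by
    unfold br; ring
  have e2 : br p k i * (p j).2 = - (br p j k * (p i).2 + br p i j * (p k).2) := by
    unfold br; ring
  rw [h1, h2] at e1 e2
  have h3 : br p k i = 0 := by
    by_contra hne
    apply hj
    have a1 : (p j).1 = 0 := by
      have : br p k i * (p j).1 = 0 := by linarith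
      rcases mul_eq_zero.1 this with h | h
      · exact absurd h hne
      · exact h
    have a2 : (p j).2 = 0 := by
      have : br p k i * (p j).2 = 0 := by linarith
      rcases mul_eq_zero.1 this with h | h
      · exact absurd h hne
      · exact h
    exact Prod.ext a1 a2
  rw [h1, h2, h3] at hz
  simp at hz

theorem bottom_free {T : Finset (Tri n)} {N : Fin n} {p : Fin n → ℝ × ℝ} {z : Fin n → ℝ}
    (hS : Setting T N p z) {b : Fin n → Fin n → ℝ} (hb : GenB T N p b)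
    {μ : Tri n → ℝ} {v : Fin n → Fin n → ℝ × ℝ} {M : Fin n → ℝ}
    (hM : Mom T N p μ v M) (W : Finset (Fin n)) (hWV : W ⊆ (verts T).erase N)
    (hLN : link T N ⊆ W) (hW1 : ∀ i ∈ W, 0 ≤ M i)
    (hW2 : ∀ i ∈ W, ∀ j, j ≠ N → Adj T i j → j ∉ W → M j < 0)
    (hWc : Conn T W) (hne : W ≠ (verts T).erase N) :
    ∀ τ ∈ DD T N, br p τ.1 τ.2.1 ≤ 0 → br p τ.2.1 τ.2.2 ≤ 0 → br p τ.2.2 τ.1 ≤ 0 →
      τ.1 ∉ W := by
  classical
  have hT := hS.cx
  have hNW : N ∉ W := fun h => (Finset.mem_erase.1 (hWV h)).1 rfl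
  have hWV' : W ⊆ verts T := fun i hi => (Finset.mem_erase.1 (hWV hi)).2
  -- a neighbour of `N`
  have hNadj : ∃ j ∈ W, Adj T N j := by
    have hN := hS.mem
    unfold verts at hN
    obtain ⟨⟨i, j, k⟩, hτ, he⟩ := Finset.mem_image.1 hN
    simp only at he
    subst he
    exact ⟨j, hLN (GT.mem_link.2 ⟨k, hτ⟩), ⟨k, hτ⟩⟩
  have hchi : chi6 T W ≤ 0 := by
    have hc : Conn T (insert N W) := GT.conn_insert hT N W hWc hNadj
    have hsub : insert N W ⊆ verts T := by
      intro i hi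
      rcases Finset.mem_insert.1 hi with h | h
      · rw [h]; exact hS.mem
      · exact hWV' h
    have hne' : insert N W ≠ verts T := by
      intro h
      apply hne
      rw [← h, Finset.erase_insert hNW]
    have h1 := GT.chi6_conn hT hS.strong (insert N W) (Finset.insert_nonempty _ _) hsub hne' hc
    rw [GT.chi6_insert hT N hS.mem W hNW hLN] at h1
    linarith
  -- no U-antipeaks
  have hU : ∀ τ ∈ DD T N, isU b τ → τ.1 ∈ W → τ.2.2 ∈ W → τ.2.1 ∈ W := by
    rintro ⟨i, j, k⟩ hτ ⟨s1, s2, s3⟩ hi hk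
    simp only at hi hk s1 s2 s3 ⊢
    by_contra hj
    obtain ⟨hijk, hiN, hjN, hkN⟩ := bf_mem_DD.1 hτ
    have hMj : M j < 0 := hW2 i hi j hjN ⟨k, hijk⟩ hj
    have b1 := bf_nonneg hb s1
    have b2 := bf_nonneg hb s2
    have b3 := bf_nonpos hb s3
    have hex := hS.excl _ hτ
    simp only at hex
    have b3' : br p k i < 0 := by
      rcases lt_or_eq_of_le b3 with h | h
      · exact h
      · exact absurd ⟨b1, b2, h.ge⟩ hex
    have hf := GT.mom_face hS hM _ hτ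
    simp only at hf
    have hμ : 0 ≤ μ (i, j, k) := hM.nn _ hτ
    have c1 : 0 ≤ M i * br p j k := mul_nonneg (hW1 i hi) b2
    have c2 : 0 ≤ M k * br p i j := mul_nonneg (hW1 k hk) b1
    have c3 : 0 < M j * br p k i := mul_pos_of_neg_of_neg hMj b3'
    have c4 : μ (i, j, k) * (br p i j * br p j k * br p k i) ≤ 0 :=
      mul_nonpos_of_nonneg_of_nonpos hμ
        (mul_nonpos_of_nonneg_of_nonpos (mul_nonneg b1 b2) b3)
    linarith
  have hdc := hb.dc W hWV' hNW hU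
  -- no S-triple meets `W`
  have hnoS : ∀ τ ∈ DD T N, isS b τ → τ.1 ∉ W := by
    intro τ hτ hs h
    have := (hdc ∅ (by simp) (by simp)).2 ⟨τ, hτ, hs, h⟩
    simp at this
    linarith
  have hnoS' : ∀ i j k : Fin n, (i, j, k) ∈ DD T N → isS b (i, j, k) → i ∉ W ∧ j ∉ W ∧ k ∉ W := by
    intro i j k hτ hs
    exact ⟨hnoS _ hτ hs, hnoS _ (bf_DD_rot hT hτ) (bf_isS_rot hs),
      hnoS _ (bf_DD_rot hT (bf_DD_rot hT hτ)) (bf_isS_rot (bf_isS_rot hs))⟩
  -- no D-peak in `W`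
  have hnoD : ∀ τ ∈ DD T N, isD b τ → τ.2.1 ∈ W → τ.1 ∉ W → τ.2.2 ∉ W → False := by
    intro τ hτ hd q1 q2 q3
    have := (hdc {τ}
      (by intro σ hσ; rw [Finset.mem_singleton] at hσ; rw [hσ]; exact hτ)
      (by intro σ hσ; rw [Finset.mem_singleton] at hσ; rw [hσ]; exact ⟨hd, q1, q2, q3⟩)).1
    rw [Finset.card_singleton] at this
    push_cast at this
    linarith
  -- the key case: the dart `i j` is parallel
  have hkey : ∀ i j k : Fin n, (i, j, k) ∈ DD T N → 0 < b i j → br p i j ≤ 0 → br p j k ≤ 0 →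
      br p k i ≤ 0 → i ∉ W ∧ j ∉ W ∧ k ∉ W := by
    intro i j k hτ hbij h1 h2 h3
    have hij : br p i j = 0 := le_antisymm h1 (bf_nonneg hb hbij)
    have h2' : br p j k < 0 := by
      rcases lt_or_eq_of_le h2 with h | h
      · exact h
      · exact (bf_two_zero hS hτ hij h).elim
    have h3' : br p k i < 0 := by
      rcases lt_or_eq_of_le h3 with h | h
      · exact h
      · exact (bf_two_zero hS (bf_DD_rot hT (bf_DD_rot hT hτ)) h hij).elim
    have e2 := hb.neg _ _ h2'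
    have e3 := hb.neg _ _ h3'
    obtain ⟨⟨i', j', k'⟩, hτ', hs'⟩ := hb.sEx
    have hbot := hb.bot _ hτ hij h2 h3 _ hτ' hs'
    have hn := hnoS' _ _ _ hτ' hs'
    simp only at hbot
    have hi : i ∉ W := by
      rcases hbot.1 with h | h | h
      · rw [h]; exact hn.1
      · rw [h]; exact hn.2.1
      · rw [h]; exact hn.2.2
    have hj : j ∉ W := by
      rcases hbot.2 with h | h | h
      · rw [h]; exact hn.1
      · rw [h]; exact hn.2.1
      · rw [h]; exact hn.2.2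
    refine ⟨hi, hj, ?_⟩
    intro hk
    exact hnoD (j, k, i) (bf_DD_rot hT hτ) ⟨e2, e3, hbij⟩ hk hj hi
  rintro ⟨i, j, k⟩ hτ h1 h2 h3 hi
  simp only at h1 h2 h3 hi
  obtain ⟨hijk, hiN, hjN, hkN⟩ := bf_mem_DD.1 hτ
  have hτ2 := bf_DD_rot hT hτ
  have hτ3 := bf_DD_rot hT hτ2
  have g1 : b i j ≠ 0 := hb.gen _ hijk hiN hjN
  have g2 : b j k ≠ 0 := hb.gen _ (bf_mem_DD.1 hτ2).1 hjN hkN
  have g3 : b k i ≠ 0 := hb.gen _ (bf_mem_DD.1 hτ3).1 hkN hiN
  rcases lt_or_gt_of_ne g1 with s1 | s1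
  · rcases lt_or_gt_of_ne g2 with s2 | s2
    · rcases lt_or_gt_of_ne g3 with s3 | s3
      · exact hnoS _ hτ ⟨s1, s2, s3⟩ hi
      · exact (hkey k i j hτ3 s3 h3 h1 h2).2.1 hi
    · exact (hkey j k i hτ2 s2 h2 h3 h1).2.2 hi
  · exact (hkey i j k hτ s1 h1 h2 h3).1 hi

theorem mom_nonneg {T : Finset (Tri n)} {N : Fin n} {p : Fin n → ℝ × ℝ} {z : Fin n → ℝ}
    (hS : Setting T N p z) {b : Fin n → Fin n → ℝ} (hb : GenB T N p b)
    {μ : Tri n → ℝ} {v : Fin n → Fin n → ℝ × ℝ} {M : Fin n → ℝ}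
    (hM : Mom T N p μ v M) (h0 : ∀ i ∈ link T N, 0 ≤ M i) :
    ∀ i ∈ verts T, i ≠ N → 0 ≤ M i := by
  classical
  have hT := hS.cx
  have hadjs : ∀ {i j : Fin n}, Adj T i j → Adj T j i := fun h => GT.adj_symm hT h
  have hlink : link T N ⊆ ((verts T).erase N).filter (fun i => 0 ≤ M i) := by
    intro i hi
    have hadj := GT.mem_link.1 hi
    have hiN : i ≠ N := by
      obtain ⟨k, hk⟩ := hadj
      exact (hT.ne _ _ _ hk).symm
    exact Finset.mem_filter.2 ⟨Finset.mem_erase.2 ⟨hiN, (GT.adj_verts hT hadj).2⟩, h0 i hi⟩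
  have hlne : (link T N).Nonempty := by
    have hN := hS.mem
    unfold verts at hN
    obtain ⟨⟨i, j, k⟩, hτ, he⟩ := Finset.mem_image.1 hN
    simp only at he
    subst he
    exact ⟨j, GT.mem_link.2 ⟨k, hτ⟩⟩
  obtain ⟨W, hWA, hRW, hWc, hWcl⟩ := GT.exists_comp hT
    (((verts T).erase N).filter (fun i => 0 ≤ M i)) (link T N) hlink hlne
    (GT.conn_link hT hS.lc N hS.mem)
  have hWV : W ⊆ (verts T).erase N := fun i hi => (Finset.mem_filter.1 (hWA hi)).1
  have hW1 : ∀ i ∈ W, 0 ≤ M i := fun i hi => (Finset.mem_filter.1 (hWA hi)).2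
  have hW2 : ∀ i ∈ W, ∀ j, j ≠ N → Adj T i j → j ∉ W → M j < 0 := by
    intro i hi j hj hadj hjW
    by_contra hc
    apply hjW
    apply hWcl i hi j ?_ hadj
    exact Finset.mem_filter.2 ⟨Finset.mem_erase.2 ⟨hj, (GT.adj_verts hT hadj).2⟩,
      le_of_not_gt hc⟩
  have hW : W = (verts T).erase N := by
    by_contra hne
    exact hne (GT.truncate hS hM W hWV hRW hW1 hW2
      (bottom_free hS hb hM W hWV hRW hW1 hW2 hWc hne))
  intro i hi hiN
  exact hW1 i (by rw [hW]; exact Finset.mem_erase.2 ⟨hiN, hi⟩)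

end GT
end

section

/-!
# GT-8e: `fstar` and `core`
-/

set_option autoImplicit false

namespace GT
open Finset

variable {n : ℕ}

theorem fs_br_anti (p : Fin n → ℝ × ℝ) (i j : Fin n) : br p i j = - br p j i := by
  unfold br; ring

theorem fs_mem_DD {T : Finset (Tri n)} {N i j k : Fin n} :
    (i, j, k) ∈ DD T N ↔ (i, j, k) ∈ T ∧ i ≠ N ∧ j ≠ N ∧ k ≠ N := by
  simp [DD, Finset.mem_filter]

theorem fs_DD_rot {T : Finset (Tri n)} (hT : Cx T) {N i j k : Fin n} (h : (i, j, k) ∈ DD T N) :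
    (j, k, i) ∈ DD T N := by
  rw [fs_mem_DD] at h ⊢
  exact ⟨hT.rot _ _ _ h.1, h.2.2.1, h.2.2.2, h.2.1⟩

/-- two zero brackets sharing a vertex are impossible -/
theorem fs_two_zero {T : Finset (Tri n)} {N : Fin n} {p : Fin n → ℝ × ℝ} {z : Fin n → ℝ}
    (hS : Setting T N p z) {i j k : Fin n} (h : (i, j, k) ∈ DD T N) (h1 : br p i j = 0)
    (h2 : br p j k = 0) : False := by
  have hz := hS.hz _ h
  have hj : p j ≠ 0 := hS.pnz j (fs_mem_DD.1 h).2.2.1
  simp only at hz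
  have e1 : br p k i * (p j).1 = - (br p j k * (p i).1 + br p i j * (p k).1) := by
    unfold br; ring
  have e2 : br p k i * (p j).2 = - (br p j k * (p i).2 + br p i j * (p k).2) := by
    unfold br; ring
  rw [h1, h2] at e1 e2
  have h3 : br p k i = 0 := by
    by_contra hne
    apply hj
    have a1 : (p j).1 = 0 := by
      have : br p k i * (p j).1 = 0 := by linarith
      rcases mul_eq_zero.1 this with h | h
      · exact absurd h hne
      · exact h
    have a2 : (p j).2 = 0 := by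
      have : br p k i * (p j).2 = 0 := by linarith
      rcases mul_eq_zero.1 this with h | h
      · exact absurd h hne
      · exact h
    exact Prod.ext a1 a2
  rw [h1, h2, h3] at hz
  simp at hz

theorem fs_nonpos {T : Finset (Tri n)} {N : Fin n} {p : Fin n → ℝ × ℝ}
    {b : Fin n → Fin n → ℝ} (hb : GenB T N p b) {i j : Fin n} (h : b i j < 0) : br p i j ≤ 0 := by
  by_contra hc
  have := hb.pos i j (lt_of_not_ge hc)
  linarith

theorem fs_nonneg {T : Finset (Tri n)} {N : Fin n} {p : Fin n → ℝ × ℝ}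
    {b : Fin n → Fin n → ℝ} (hb : GenB T N p b) {i j : Fin n} (h : 0 < b i j) : 0 ≤ br p i j := by
  by_contra hc
  have := hb.neg i j (lt_of_not_ge hc)
  linarith

/-- parallel nonzero planar vectors -/
theorem fs_par {u v : ℝ × ℝ} (hu : u ≠ 0) (hv : v ≠ 0) (h : u.1 * v.2 - u.2 * v.1 = 0) :
    ∃ κ : ℝ, κ ≠ 0 ∧ v = κ • u := by
  have hn : u.1 ^ 2 + u.2 ^ 2 ≠ 0 := by
    intro h0
    apply hu
    have a1 : u.1 = 0 := by nlinarith [sq_nonneg u.1, sq_nonneg u.2]
    have a2 : u.2 = 0 := by nlinarith [sq_nonneg u.1, sq_nonneg u.2]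
    exact Prod.ext a1 a2
  refine ⟨(u.1 * v.1 + u.2 * v.2) / (u.1 ^ 2 + u.2 ^ 2), ?_, ?_⟩
  · intro h0
    rw [div_eq_zero_iff] at h0
    rcases h0 with h0 | h0
    · apply hv
      have e1 : (u.1 ^ 2 + u.2 ^ 2) * v.1 = 0 := by linear_combination u.1 * h0 - u.2 * h
      have e2 : (u.1 ^ 2 + u.2 ^ 2) * v.2 = 0 := by linear_combination u.2 * h0 + u.1 * h
      have a1 : v.1 = 0 := by
        rcases mul_eq_zero.1 e1 with h | h
        · exact absurd h hn
        · exact h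
      have a2 : v.2 = 0 := by
        rcases mul_eq_zero.1 e2 with h | h
        · exact absurd h hn
        · exact h
      exact Prod.ext a1 a2
    · exact hn h0
  · have b1 : v.1 = (u.1 * v.1 + u.2 * v.2) / (u.1 ^ 2 + u.2 ^ 2) * u.1 := by
      field_simp
      linear_combination (-u.2) * h
    have b2 : v.2 = (u.1 * v.1 + u.2 * v.2) / (u.1 ^ 2 + u.2 ^ 2) * u.2 := by
      field_simp
      linear_combination u.1 * h
    exact Prod.ext b1 b2

/-- the end vertex `i` of a D- or U-triple `(i, j, k)` cannot be the only positive one -/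
theorem fs_end1 {T : Finset (Tri n)} {N : Fin n} {p : Fin n → ℝ × ℝ} {z : Fin n → ℝ}
    (hS : Setting T N p z) {μ : Tri n → ℝ} {v : Fin n → Fin n → ℝ × ℝ} {M : Fin n → ℝ}
    (hM : Mom T N p μ v M) (h0 : ∀ i ∈ verts T, i ≠ N → 0 ≤ M i) {i j k : Fin n}
    (h : (i, j, k) ∈ DD T N) (hi : 0 < M i) (hj : M j = 0) (hk : M k = 0)
    (hs : (br p i j ≤ 0 ∧ 0 ≤ br p k i) ∨ (0 ≤ br p i j ∧ br p k i ≤ 0)) : False := by
  have hf := GT.mom_face hS hM _ h
  simp only at hf
  rw [hj, hk] at hf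
  have hμ : 0 ≤ μ (i, j, k) := hM.nn _ h
  have hcx := hS.cx
  obtain ⟨hT, hiN, hjN, hkN⟩ := fs_mem_DD.1 h
  by_cases hz : br p j k = 0
  · obtain ⟨κ, hκ0, hκ⟩ := fs_par (hS.pnz j hjN) (hS.pnz k hkN) (by simpa [br] using hz)
    rcases lt_or_gt_of_ne hκ0 with hneg | hpos
    · -- opposite directions
      have e : br p k i = -κ * br p i j := by
        unfold br; rw [hκ]; simp [Prod.smul_fst, Prod.smul_snd]; ring
      have h1 : br p i j = 0 := by
        rcases hs with ⟨ha, hb⟩ | ⟨ha, hb⟩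
        · nlinarith
        · nlinarith
      exact fs_two_zero hS h h1 hz
    · -- same direction
      have hjk : (j, k, i) ∈ DD T N := fs_DD_rot hcx h
      obtain ⟨l, hl⟩ := hcx.sym _ _ _ (fs_mem_DD.1 hjk).1
      have hlN : l ≠ N := by
        intro hlN
        subst hlN
        have : (l, k, j) ∈ T := hcx.rot _ _ _ (hcx.rot _ _ _ hl)
        have := hS.pole _ _ this
        rw [fs_br_anti] at this
        linarith
      have hkl : (k, j, l) ∈ DD T N := fs_mem_DD.2 ⟨hl, hkN, hjN, hlN⟩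
      have hlv : l ∈ verts T := by
        have : (l, k, j) ∈ T := hcx.rot _ _ _ (hcx.rot _ _ _ hl)
        exact Finset.mem_image.2 ⟨_, this, rfl⟩
      have := GT.mom_vert hS hM hjk hkl hpos hκ hj hi.le (h0 l hlv hlN)
      linarith
  · have : M i = μ (i, j, k) * (br p i j * br p k i) := by
      have e : br p j k * (M i - μ (i, j, k) * (br p i j * br p k i)) = 0 := by
        linear_combination hf
      rcases mul_eq_zero.1 e with h | h
      · exact absurd h hz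
      · linarith
    have h2 : br p i j * br p k i ≤ 0 := by
      rcases hs with ⟨ha, hb⟩ | ⟨ha, hb⟩
      · exact mul_nonpos_of_nonpos_of_nonneg ha hb
      · exact mul_nonpos_of_nonneg_of_nonpos ha hb
    nlinarith

/-- the end vertex `k` of a D- or U-triple `(i, j, k)` cannot be the only positive one -/
theorem fs_end2 {T : Finset (Tri n)} {N : Fin n} {p : Fin n → ℝ × ℝ} {z : Fin n → ℝ}
    (hS : Setting T N p z) {μ : Tri n → ℝ} {v : Fin n → Fin n → ℝ × ℝ} {M : Fin n → ℝ}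
    (hM : Mom T N p μ v M) (h0 : ∀ i ∈ verts T, i ≠ N → 0 ≤ M i) {i j k : Fin n}
    (h : (i, j, k) ∈ DD T N) (hk : 0 < M k) (hi : M i = 0) (hj : M j = 0)
    (hs : (br p j k ≤ 0 ∧ 0 ≤ br p k i) ∨ (0 ≤ br p j k ∧ br p k i ≤ 0)) : False := by
  have hf := GT.mom_face hS hM _ h
  simp only at hf
  rw [hj, hi] at hf
  have hμ : 0 ≤ μ (i, j, k) := hM.nn _ h
  have hcx := hS.cx
  obtain ⟨hT, hiN, hjN, hkN⟩ := fs_mem_DD.1 h
  by_cases hz : br p i j = 0
  · obtain ⟨κ, hκ0, hκ⟩ := fs_par (hS.pnz i hiN) (hS.pnz j hjN) (by simpa [br] using hz)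
    rcases lt_or_gt_of_ne hκ0 with hneg | hpos
    · have e : br p j k = -κ * br p k i := by
        unfold br; rw [hκ]; simp [Prod.smul_fst, Prod.smul_snd]; ring
      have h1 : br p k i = 0 := by
        rcases hs with ⟨ha, hb⟩ | ⟨ha, hb⟩
        · nlinarith
        · nlinarith
      have h2 : br p j k = 0 := by rw [e, h1]; ring
      exact fs_two_zero hS h hz h2
    · obtain ⟨l, hl⟩ := hcx.sym _ _ _ hT
      have hlN : l ≠ N := by
        intro hlN
        subst hlN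
        have : (l, j, i) ∈ T := hcx.rot _ _ _ (hcx.rot _ _ _ hl)
        have := hS.pole _ _ this
        rw [fs_br_anti] at this
        linarith
      have hkl : (j, i, l) ∈ DD T N := fs_mem_DD.2 ⟨hl, hjN, hiN, hlN⟩
      have hlv : l ∈ verts T := by
        have : (l, j, i) ∈ T := hcx.rot _ _ _ (hcx.rot _ _ _ hl)
        exact Finset.mem_image.2 ⟨_, this, rfl⟩
      have := GT.mom_vert hS hM h hkl hpos hκ hi hk.le (h0 l hlv hlN)
      linarith
  · have : M k = μ (i, j, k) * (br p j k * br p k i) := by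
      have e : br p i j * (M k - μ (i, j, k) * (br p j k * br p k i)) = 0 := by
        linear_combination hf
      rcases mul_eq_zero.1 e with h | h
      · exact absurd h hz
      · linarith
    have h2 : br p j k * br p k i ≤ 0 := by
      rcases hs with ⟨ha, hb⟩ | ⟨ha, hb⟩
      · exact mul_nonpos_of_nonpos_of_nonneg ha hb
      · exact mul_nonpos_of_nonneg_of_nonpos ha hb
    nlinarith

/-- antipeaks -/
theorem fs_anti {T : Finset (Tri n)} {N : Fin n} {p : Fin n → ℝ × ℝ} {z : Fin n → ℝ}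
    (hS : Setting T N p z) {μ : Tri n → ℝ} {v : Fin n → Fin n → ℝ × ℝ} {M : Fin n → ℝ}
    (hM : Mom T N p μ v M) {i j k : Fin n}
    (h : (i, j, k) ∈ DD T N) (hi : 0 < M i) (hk : 0 < M k) (hj : M j = 0)
    (hs : (br p i j ≤ 0 ∧ br p j k ≤ 0 ∧ 0 ≤ br p k i) ∨
      (0 ≤ br p i j ∧ 0 ≤ br p j k ∧ br p k i ≤ 0)) : False := by
  have hf := GT.mom_face hS hM _ h
  simp only at hf
  rw [hj] at hf
  have hμ : 0 ≤ μ (i, j, k) := hM.nn _ h
  rcases hs with ⟨h1, h2, h3⟩ | ⟨h1, h2, h3⟩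
  · have a1 : M i * br p j k ≤ 0 := mul_nonpos_of_nonneg_of_nonpos hi.le h2
    have a2 : M k * br p i j ≤ 0 := mul_nonpos_of_nonneg_of_nonpos hk.le h1
    have a3 : 0 ≤ μ (i, j, k) * (br p i j * br p j k * br p k i) :=
      mul_nonneg hμ (mul_nonneg (mul_nonneg_of_nonpos_of_nonpos h1 h2) h3)
    have b1 : M i * br p j k = 0 := by linarith
    have b2 : M k * br p i j = 0 := by linarith
    have c1 : br p j k = 0 := by
      rcases mul_eq_zero.1 b1 with h | h
      · linarith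
      · exact h
    have c2 : br p i j = 0 := by
      rcases mul_eq_zero.1 b2 with h | h
      · linarith
      · exact h
    exact fs_two_zero hS h c2 c1
  · have a1 : 0 ≤ M i * br p j k := mul_nonneg hi.le h2
    have a2 : 0 ≤ M k * br p i j := mul_nonneg hk.le h1
    have a3 : μ (i, j, k) * (br p i j * br p j k * br p k i) ≤ 0 :=
      mul_nonpos_of_nonneg_of_nonpos hμ
        (mul_nonpos_of_nonneg_of_nonpos (mul_nonneg h1 h2) h3)
    have b1 : M i * br p j k = 0 := by linarith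
    have b2 : M k * br p i j = 0 := by linarith
    have c1 : br p j k = 0 := by
      rcases mul_eq_zero.1 b1 with h | h
      · linarith
      · exact h
    have c2 : br p i j = 0 := by
      rcases mul_eq_zero.1 b2 with h | h
      · linarith
      · exact h
    exact fs_two_zero hS h c2 c1

/-- one of the three rotations has a sign type -/
theorem fs_type {T : Finset (Tri n)} {N : Fin n} {p : Fin n → ℝ × ℝ}
    {b : Fin n → Fin n → ℝ} (hT : Cx T) (hb : GenB T N p b) {i j k : Fin n}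
    (h : (i, j, k) ∈ DD T N) :
    isS b (i, j, k) ∨ (isD b (i, j, k) ∨ isU b (i, j, k)) ∨
      (isD b (j, k, i) ∨ isU b (j, k, i)) ∨ (isD b (k, i, j) ∨ isU b (k, i, j)) := by
  have h2 := fs_DD_rot hT h
  have h3 := fs_DD_rot hT h2
  obtain ⟨a1, a2, a3, a4⟩ := fs_mem_DD.1 h
  have g1 : b i j ≠ 0 := hb.gen _ a1 a2 a3
  have g2 : b j k ≠ 0 := hb.gen _ (fs_mem_DD.1 h2).1 a3 a4
  have g3 : b k i ≠ 0 := hb.gen _ (fs_mem_DD.1 h3).1 a4 a2
  have hno := hb.noP _ h
  simp only [isS, isD, isU] at *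
  rcases lt_or_gt_of_ne g1 with s1 | s1 <;> rcases lt_or_gt_of_ne g2 with s2 | s2 <;>
    rcases lt_or_gt_of_ne g3 with s3 | s3
  · exact Or.inl ⟨s1, s2, s3⟩
  · exact Or.inr (Or.inl (Or.inl ⟨s1, s2, s3⟩))
  · exact Or.inr (Or.inr (Or.inr (Or.inl ⟨s3, s1, s2⟩)))
  · exact Or.inr (Or.inr (Or.inl (Or.inr ⟨s2, s3, s1⟩)))
  · exact Or.inr (Or.inr (Or.inl (Or.inl ⟨s2, s3, s1⟩)))
  · exact Or.inr (Or.inr (Or.inr (Or.inr ⟨s3, s1, s2⟩)))
  · exact Or.inr (Or.inl (Or.inr ⟨s1, s2, s3⟩))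
  · exact absurd ⟨s1, s2, s3⟩ hno

/-- the local data of the positive component `P` -/
structure FsP (T : Finset (Tri n)) (N : Fin n) (M : Fin n → ℝ) (P : Finset (Fin n)) : Prop where
  nN : N ∉ P
  pos : ∀ i ∈ P, 0 < M i
  zero : ∀ i ∈ P, ∀ j, j ≠ N → Adj T i j → j ∉ P → M j = 0

theorem fs_adj {T : Finset (Tri n)} {i j k : Fin n} (h : (i, j, k) ∈ T) : Adj T i j := ⟨k, h⟩

theorem fs_adj' {T : Finset (Tri n)} (hT : Cx T) {i j k : Fin n} (h : (i, j, k) ∈ T) :
    Adj T j i := by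
  obtain ⟨l, hl⟩ := hT.sym _ _ _ h
  exact ⟨l, hl⟩

/-- a D- or U-triple with exactly one entry in `P`: it is the middle one -/
theorem fs_mid {T : Finset (Tri n)} {N : Fin n} {p : Fin n → ℝ × ℝ} {z : Fin n → ℝ}
    (hS : Setting T N p z) {b : Fin n → Fin n → ℝ} (hb : GenB T N p b)
    {μ : Tri n → ℝ} {v : Fin n → Fin n → ℝ × ℝ} {M : Fin n → ℝ}
    (hM : Mom T N p μ v M) (h0 : ∀ i ∈ verts T, i ≠ N → 0 ≤ M i) {P : Finset (Fin n)}
    (hP : FsP T N M P) {i j k : Fin n} (h : (i, j, k) ∈ DD T N)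
    (hs : isD b (i, j, k) ∨ isU b (i, j, k))
    (hone : (i ∈ P ∧ j ∉ P ∧ k ∉ P) ∨ (i ∉ P ∧ j ∈ P ∧ k ∉ P) ∨ (i ∉ P ∧ j ∉ P ∧ k ∈ P)) :
    i ∉ P ∧ j ∈ P ∧ k ∉ P := by
  have hT := hS.cx
  obtain ⟨hijk, hiN, hjN, hkN⟩ := fs_mem_DD.1 h
  have hjki := hT.rot _ _ _ hijk
  have hkij := hT.rot _ _ _ hjki
  rcases hone with ⟨hi, hj, hk⟩ | hone | ⟨hi, hj, hk⟩
  · exfalso
    have e1 : M j = 0 := hP.zero i hi j hjN (fs_adj hijk) hj
    have e2 : M k = 0 := hP.zero i hi k hkN (fs_adj' hT hkij) hk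
    refine fs_end1 hS hM h0 h (hP.pos i hi) e1 e2 ?_
    rcases hs with ⟨s1, s2, s3⟩ | ⟨s1, s2, s3⟩
    · exact Or.inl ⟨fs_nonpos hb s1, fs_nonneg hb s3⟩
    · exact Or.inr ⟨fs_nonneg hb s1, fs_nonpos hb s3⟩
  · exact hone
  · exfalso
    have e1 : M i = 0 := hP.zero k hk i hiN (fs_adj hkij) hi
    have e2 : M j = 0 := hP.zero k hk j hjN (fs_adj' hT hjki) hj
    refine fs_end2 hS hM h0 h (hP.pos k hk) e1 e2 ?_
    rcases hs with ⟨s1, s2, s3⟩ | ⟨s1, s2, s3⟩
    · exact Or.inl ⟨fs_nonpos hb s2, fs_nonneg hb s3⟩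
    · exact Or.inr ⟨fs_nonneg hb s2, fs_nonpos hb s3⟩

/-- the ONE-PLUS lemma -/
theorem fs_oneplus {T : Finset (Tri n)} {N : Fin n} {p : Fin n → ℝ × ℝ} {z : Fin n → ℝ}
    (hS : Setting T N p z) {b : Fin n → Fin n → ℝ} (hb : GenB T N p b)
    {μ : Tri n → ℝ} {v : Fin n → Fin n → ℝ × ℝ} {M : Fin n → ℝ}
    (hM : Mom T N p μ v M) (h0 : ∀ i ∈ verts T, i ≠ N → 0 ≤ M i) {P : Finset (Fin n)}
    (hP : FsP T N M P) {i j k : Fin n} (h : (i, j, k) ∈ DD T N)
    (hone : (i ∈ P ∧ j ∉ P ∧ k ∉ P) ∨ (i ∉ P ∧ j ∈ P ∧ k ∉ P) ∨ (i ∉ P ∧ j ∉ P ∧ k ∈ P)) :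
    ∃ σ ∈ DD T N, (σ = (i, j, k) ∨ σ = (j, k, i) ∨ σ = (k, i, j)) ∧
      (isS b σ ∨ ((isD b σ ∨ isU b σ) ∧ σ.1 ∉ P ∧ σ.2.1 ∈ P ∧ σ.2.2 ∉ P)) := by
  have hT := hS.cx
  have h2 := fs_DD_rot hT h
  have h3 := fs_DD_rot hT h2
  rcases fs_type hT hb h with s | s | s | s
  · exact ⟨_, h, Or.inl rfl, Or.inl s⟩
  · exact ⟨_, h, Or.inl rfl, Or.inr ⟨s, fs_mid hS hb hM h0 hP h s hone⟩⟩
  · exact ⟨_, h2, Or.inr (Or.inl rfl), Or.inr ⟨s, fs_mid hS hb hM h0 hP h2 s (by tauto)⟩⟩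
  · exact ⟨_, h3, Or.inr (Or.inr rfl), Or.inr ⟨s, fs_mid hS hb hM h0 hP h3 s (by tauto)⟩⟩

theorem fs_isS_rot {b : Fin n → Fin n → ℝ} {τ : Tri n} (h : isS b τ) : isS b (rot3 τ) :=
  ⟨h.2.1, h.2.2, h.1⟩

theorem fs_ent {x : Fin n} {τ σ : Tri n} (h : σ = τ ∨ σ = rot3 τ ∨ σ = rot3 (rot3 τ))
    (hx : x = σ.1 ∨ x = σ.2.1 ∨ x = σ.2.2) : x = τ.1 ∨ x = τ.2.1 ∨ x = τ.2.2 := by
  obtain ⟨i, j, k⟩ := τ
  rcases h with h | h | h <;> subst h <;> rcases hx with hx | hx | hx
  · exact Or.inl hx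
  · exact Or.inr (Or.inl hx)
  · exact Or.inr (Or.inr hx)
  · exact Or.inr (Or.inl hx)
  · exact Or.inr (Or.inr hx)
  · exact Or.inl hx
  · exact Or.inr (Or.inr hx)
  · exact Or.inl hx
  · exact Or.inr (Or.inl hx)

theorem fstar {T : Finset (Tri n)} {N : Fin n} {p : Fin n → ℝ × ℝ} {z : Fin n → ℝ}
    (hS : Setting T N p z) {b : Fin n → Fin n → ℝ} (hb : GenB T N p b)
    {μ : Tri n → ℝ} {v : Fin n → Fin n → ℝ × ℝ} {M : Fin n → ℝ}
    (hM : Mom T N p μ v M) {a w c : Fin n} (h1 : (N, a, w) ∈ T) (h2 : (N, w, c) ∈ T)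
    (h0 : ∀ i ∈ verts T, i ≠ N → 0 ≤ M i) (hl : ∀ i ∈ link T N, i ≠ w → M i = 0)
    (hw : 0 < M w) :
    ∃ τ ∈ DD T N, (isS b τ ∨ (isD b τ ∧ τ.2.1 ≠ a ∧ τ.2.1 ≠ c)) ∧
      (a = τ.1 ∨ a = τ.2.1 ∨ a = τ.2.2) ∧ (c = τ.1 ∨ c = τ.2.1 ∨ c = τ.2.2) := by
  classical
  have hT := hS.cx
  -- basic facts
  have hNa : N ≠ a := hT.ne _ _ _ h1
  have haw : a ≠ w := hT.ne _ _ _ (hT.rot _ _ _ h1)
  have hNw : N ≠ w := hT.ne _ _ _ h2
  have hwc : w ≠ c := hT.ne _ _ _ (hT.rot _ _ _ h2)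
  have hcN : c ≠ N := hT.ne _ _ _ (hT.rot _ _ _ (hT.rot _ _ _ h2))
  have hwV : w ∈ verts T := (GT.adj_verts hT (fs_adj h2)).2
  have haV : a ∈ verts T := (GT.adj_verts hT (fs_adj h1)).2
  have hcV : c ∈ verts T := (GT.adj_verts hT (fs_adj (hT.rot _ _ _ h2))).2
  have haL : a ∈ link T N := GT.mem_link.2 (fs_adj h1)
  have hwL : w ∈ link T N := GT.mem_link.2 (fs_adj h2)
  have hcL : c ∈ link T N := GT.mem_link.2 (fs_adj' hT (hT.rot _ _ _ (hT.rot _ _ _ h2)))
  have hbaw : 0 < br p a w := hS.pole _ _ h1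
  have hbwc : 0 < br p w c := hS.pole _ _ h2
  -- the component of `w` in the positive set
  obtain ⟨P, hPA, hwP', hPc, hPcl⟩ := GT.exists_comp hT
    (((verts T).erase N).filter (fun i => 0 < M i)) {w}
    (by
      intro i hi
      rw [Finset.mem_singleton] at hi
      subst hi
      exact Finset.mem_filter.2 ⟨Finset.mem_erase.2 ⟨hNw.symm, hwV⟩, hw⟩)
    (Finset.singleton_nonempty w)
    (by
      intro Q hQ hQn _
      rcases Finset.subset_singleton_iff.1 hQ with h | h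
      · rw [h] at hQn; exact absurd hQn (by simp)
      · exact h)
  have hwP : w ∈ P := hwP' (Finset.mem_singleton_self w)
  have hPm : ∀ i ∈ P, i ∈ verts T ∧ i ≠ N ∧ 0 < M i := by
    intro i hi
    have := hPA hi
    rw [Finset.mem_filter, Finset.mem_erase] at this
    exact ⟨this.1.2, this.1.1, this.2⟩
  have hNP : N ∉ P := fun h => (hPm N h).2.1 rfl
  have hPV : P ⊆ verts T := fun i hi => (hPm i hi).1
  have hP : FsP T N M P := by
    refine ⟨hNP, fun i hi => (hPm i hi).2.2, ?_⟩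
    intro i hi j hj hadj hjP
    have hjV : j ∈ verts T := (GT.adj_verts hT hadj).2
    by_contra hne
    apply hjP
    apply hPcl i hi j ?_ hadj
    exact Finset.mem_filter.2 ⟨Finset.mem_erase.2 ⟨hj, hjV⟩, lt_of_le_of_ne (h0 j hjV hj)
      (Ne.symm hne)⟩
  have hlink : ∀ j ∈ link T N, j ∈ P → j = w := by
    intro j hj hjP
    by_contra hne
    have := hl j hj hne
    have := (hPm j hjP).2.2
    linarith
  have haP : a ∉ P := fun h => haw (hlink a haL h)
  have hcP : c ∉ P := fun h => hwc (hlink c hcL h).symm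
  have hchi : chi6 T P ≤ 6 := GT.chi6_conn hT hS.strong P ⟨w, hwP⟩ hPV
    (fun h => hNP (h ▸ hS.mem)) hPc
  -- no antipeaks
  have hantiD : ∀ τ ∈ DD T N, isD b τ → τ.1 ∈ P → τ.2.2 ∈ P → τ.2.1 ∈ P := by
    rintro ⟨i, j, k⟩ hτ ⟨s1, s2, s3⟩ hi hk
    by_contra hj
    obtain ⟨hijk, hiN, hjN, hkN⟩ := fs_mem_DD.1 hτ
    simp only at hi hk hj s1 s2 s3
    exact fs_anti hS hM hτ (hPm i hi).2.2 (hPm k hk).2.2
      (hP.zero i hi j hjN (fs_adj hijk) hj)
      (Or.inl ⟨fs_nonpos hb s1, fs_nonpos hb s2, fs_nonneg hb s3⟩)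
  have hantiU : ∀ τ ∈ DD T N, isU b τ → τ.1 ∈ P → τ.2.2 ∈ P → τ.2.1 ∈ P := by
    rintro ⟨i, j, k⟩ hτ ⟨s1, s2, s3⟩ hi hk
    by_contra hj
    obtain ⟨hijk, hiN, hjN, hkN⟩ := fs_mem_DD.1 hτ
    simp only at hi hk hj s1 s2 s3
    exact fs_anti hS hM hτ (hPm i hi).2.2 (hPm k hk).2.2
      (hP.zero i hi j hjN (fs_adj hijk) hj)
      (Or.inr ⟨fs_nonneg hb s1, fs_nonneg hb s2, fs_nonpos hb s3⟩)
  -- no U-peaks
  have hnoU : ∀ σ ∈ DD T N, isU b σ → σ.1 ∉ P → σ.2.1 ∈ P → σ.2.2 ∉ P → False := by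
    intro σ hσ hu q1 q2 q3
    have := hb.uc P hPV hNP w hwL hwP hlink hantiD {σ}
      (by intro τ hτ; rw [Finset.mem_singleton] at hτ; rw [hτ]; exact hσ)
      (by intro τ hτ; rw [Finset.mem_singleton] at hτ; rw [hτ]; exact ⟨hu, q2, q1, q3⟩)
    rw [Finset.card_singleton] at this
    push_cast at this
    linarith
  have hdc := hb.dc P hPV hNP hantiU
  -- rotated triples have the same entries
  have hent : ∀ {i j k : Fin n} {σ : Tri n}, (σ = (i, j, k) ∨ σ = (j, k, i) ∨ σ = (k, i, j)) →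
      (i = σ.1 ∨ i = σ.2.1 ∨ i = σ.2.2) ∧ (j = σ.1 ∨ j = σ.2.1 ∨ j = σ.2.2) ∧
      (k = σ.1 ∨ k = σ.2.1 ∨ k = σ.2.2) := by
    intro i j k σ h
    rcases h with h | h | h <;> subst h <;> simp
  -- an S-triple with an entry in `P`
  have hSin : ∀ σ ∈ DD T N, isS b σ → (∃ y ∈ P, y = σ.1 ∨ y = σ.2.1 ∨ y = σ.2.2) →
      ∀ ρ ∈ DD T N, isD b ρ → ρ.1 ∉ P → ρ.2.1 ∈ P → ρ.2.2 ∉ P → False := by
    rintro ⟨i, j, k⟩ hσ hs ⟨y, hy, hyy⟩ ρ hρ hd q1 q2 q3
    have hex : ∃ τ ∈ DD T N, isS b τ ∧ τ.1 ∈ P := by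
      simp only at hyy
      rcases hyy with h | h | h
      · exact ⟨_, hσ, hs, h ▸ hy⟩
      · exact ⟨_, fs_DD_rot hT hσ, fs_isS_rot hs, h ▸ hy⟩
      · exact ⟨_, fs_DD_rot hT (fs_DD_rot hT hσ), fs_isS_rot (fs_isS_rot hs), h ▸ hy⟩
    have := (hdc {ρ}
      (by intro τ hτ; rw [Finset.mem_singleton] at hτ; rw [hτ]; exact hρ)
      (by intro τ hτ; rw [Finset.mem_singleton] at hτ; rw [hτ]; exact ⟨hd, q2, q1, q3⟩)).2 hex
    rw [Finset.card_singleton] at this
    push_cast at this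
    linarith
  -- the face at `a`
  have hA : ∃ j k, (a, j, k) ∈ DD T N ∧ a ∉ P ∧ j ∉ P ∧ k ∈ P := by
    obtain ⟨j, k, hjk, hj, hk⟩ := GT.parity hT a P
      ⟨w, N, hT.rot _ _ _ h1, hwP, hNP⟩
    have hkN : k ≠ N := fun h => hNP (h ▸ hk)
    have hjN : j ≠ N := by
      intro h
      subst h
      have e1 : (j, k, a) ∈ T := hT.rot _ _ _ hjk
      have e2 : k = w := hlink k (GT.mem_link.2 (fs_adj e1)) hk
      subst e2
      have := hS.pole _ _ e1
      rw [fs_br_anti] at this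
      linarith
    exact ⟨j, k, fs_mem_DD.2 ⟨hjk, hNa.symm, hjN, hkN⟩, haP, hj, hk⟩
  have hC : ∃ j k, (c, j, k) ∈ DD T N ∧ c ∉ P ∧ j ∈ P ∧ k ∉ P := by
    obtain ⟨j, k, hjk, hj, hk⟩ := GT.parity' hT c P
      ⟨N, w, hT.rot _ _ _ (hT.rot _ _ _ h2), hNP, hwP⟩
    have hjN : j ≠ N := fun h => hNP (h ▸ hj)
    have hkN : k ≠ N := by
      intro h
      subst h
      have e1 : (k, c, j) ∈ T := hT.rot _ _ _ (hT.rot _ _ _ hjk)
      have e2 : j = w := by
        refine hlink j (GT.mem_link.2 ?_) hj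
        exact fs_adj' hT (hT.rot _ _ _ (hT.rot _ _ _ e1))
      subst e2
      have := hS.pole _ _ e1
      rw [fs_br_anti] at this
      linarith
    exact ⟨j, k, fs_mem_DD.2 ⟨hjk, hcN, hjN, hkN⟩, hcP, hj, hk⟩
  obtain ⟨ja, ka, hta, _, hja, hka⟩ := hA
  obtain ⟨jc, kc, htc, _, hjc, hkc⟩ := hC
  obtain ⟨σa, hσa, hra, hta'⟩ := fs_oneplus hS hb hM h0 hP hta (Or.inr (Or.inr ⟨haP, hja, hka⟩))
  obtain ⟨σc, hσc, hrc, htc'⟩ := fs_oneplus hS hb hM h0 hP htc
    (Or.inr (Or.inl ⟨hcP, hjc, hkc⟩))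
  have hea := hent hra
  have hec := hent hrc
  rcases hta' with hsa | ⟨hda, qa1, qa2, qa3⟩
  · -- `σa` is the S-face
    have hmeet : ∃ y ∈ P, y = σa.1 ∨ y = σa.2.1 ∨ y = σa.2.2 := ⟨ka, hka, hea.2.2⟩
    rcases htc' with hsc | ⟨hdc', qc1, qc2, qc3⟩
    · refine ⟨σa, hσa, Or.inl hsa, hea.1, ?_⟩
      exact fs_ent (hb.sUn σa hσa σc hσc hsa hsc) hec.1
    · rcases hdc' with hd | hu
      · exact (hSin σa hσa hsa hmeet σc hσc hd qc1 qc2 qc3).elim
      · exact (hnoU σc hσc hu qc1 qc2 qc3).elim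
  · rcases hda with hd | hu
    · rcases htc' with hsc | ⟨hdc', qc1, qc2, qc3⟩
      · have hmeet : ∃ y ∈ P, y = σc.1 ∨ y = σc.2.1 ∨ y = σc.2.2 := ⟨jc, hjc, hec.2.1⟩
        exact (hSin σc hσc hsc hmeet σa hσa hd qa1 qa2 qa3).elim
      · rcases hdc' with hd' | hu'
        · have hcard := (hdc {σa, σc}
            (by
              intro τ hτ
              rw [Finset.mem_insert, Finset.mem_singleton] at hτ
              rcases hτ with h | h <;> rw [h] <;> assumption)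
            (by
              intro τ hτ
              rw [Finset.mem_insert, Finset.mem_singleton] at hτ
              rcases hτ with h | h
              · rw [h]; exact ⟨hd, qa2, qa1, qa3⟩
              · rw [h]; exact ⟨hd', qc2, qc1, qc3⟩)).1
          have heq : σa = σc := by
            by_contra hne
            rw [Finset.card_pair hne] at hcard
            push_cast at hcard
            linarith
          refine ⟨σa, hσa, Or.inr ⟨hd, ?_, ?_⟩, hea.1, ?_⟩
          · intro h; exact haP (h ▸ qa2)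
          · intro h; exact hcP (h ▸ qa2)
          · rw [heq]; exact hec.1
        · exact (hnoU σc hσc hu' qc1 qc2 qc3).elim
    · exact (hnoU σa hσa hu qa1 qa2 qa3).elim

theorem core {T : Finset (Tri n)} {N : Fin n} {p : Fin n → ℝ × ℝ} {z : Fin n → ℝ}
    (hS : Setting T N p z) {b : Fin n → Fin n → ℝ} (hb : GenB T N p b)
    (h12 : 12 ≤ chi6 T (verts T)) (μ : Tri n → ℝ)
    (hμ : ∀ τ ∈ DD T N, 0 ≤ μ τ) (hr : ∀ τ ∈ DD T N, μ (rot3 τ) = μ τ) (μ0 : ℝ) (hμ0 : 0 ≤ μ0)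
    (hnz : μ0 ≠ 0 ∨ ∃ τ ∈ DD T N, μ τ ≠ 0)
    {a w c : Fin n} (h1 : (N, a, w) ∈ T) (h2 : (N, w, c) ∈ T)
    (hbal : Bal T N (br p) μ (load (br p) a w c μ0)) :
    ∃ τ ∈ DD T N, (isS b τ ∨ (isD b τ ∧ τ.2.1 ≠ a ∧ τ.2.1 ≠ c)) ∧
      (a = τ.1 ∨ a = τ.2.1 ∨ a = τ.2.2) ∧ (c = τ.1 ∨ c = τ.2.1 ∨ c = τ.2.2) := by
  classical
  have hT := hS.cx
  obtain ⟨v, M, hM, hMl, hMw, -, -, -⟩ := GT.exists_pot hS h12 μ hμ hr μ0 h1 h2 hbal
  have hne : μ0 ≠ 0 := by
    intro h
    rcases hnz with h' | ⟨τ, hτ, hτ'⟩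
    · exact h' h
    · apply hτ'
      refine GT.stress_zero hS μ hμ hr ?_ τ hτ
      intro i hi
      have := hbal i hi
      rw [h] at this
      simpa [load] using this
  have hpos : 0 < μ0 := lt_of_le_of_ne hμ0 (Ne.symm hne)
  have hw : 0 < M w := by
    rw [hMw]
    exact mul_pos hpos (mul_pos (hS.pole _ _ h1) (hS.pole _ _ h2))
  have hlk : ∀ i ∈ link T N, 0 ≤ M i := by
    intro i hi
    by_cases h : i = w
    · rw [h]; exact hw.le
    · rw [hMl i hi h]
  exact fstar hS hb hM h1 h2 (GT.mom_nonneg hS hb hM hlk) hMl hw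

end GT
end
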