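import Pool.Agent.Lib.MP_c41363_gt.Defs
import Pool.Agent.Lib.MP_c41363_gt.Cnt
import Pool.Agent.Lib.MP_c41363_gt.Cycles

section

/-!
# GT-4b : the fan of a realization
-/

set_option autoImplicit false

namespace GT
open Finset Filter Topology

variable {n : ℕ}

theorem fp_ne {T : Finset (Tri n)} (hT : Cx T) {i j k : Fin n} (h : (i, j, k) ∈ T) :
    i ≠ j ∧ j ≠ k ∧ k ≠ i := by
  have h1 := hT.rot _ _ _ h
  have h2 := hT.rot _ _ _ h1
  exact ⟨hT.ne _ _ _ h, hT.ne _ _ _ h1, hT.ne _ _ _ h2⟩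

theorem fp_sum (x : Fin n → V3) {i j k : Fin n} (hij : i ≠ j) (hjk : j ≠ k) (hki : k ≠ i)
    (α : Fin n → ℝ) (h : ∀ m, α m ≠ 0 → m = i ∨ m = j ∨ m = k) :
    ∑ m, α m • x m = α i • x i + α j • x j + α k • x k := by
  rw [← Finset.sum_subset (Finset.subset_univ ({i, j, k} : Finset (Fin n)))]
  · rw [Finset.sum_insert, Finset.sum_insert, Finset.sum_singleton, add_assoc]
    · simpa using hjk
    · simp only [Finset.mem_insert, Finset.mem_singleton, not_or]
      exact ⟨hij, hki.symm⟩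
  · intro m _ hm
    have : α m = 0 := by
      by_contra h0
      apply hm
      simpa only [Finset.mem_insert, Finset.mem_singleton] using h m h0
    rw [this, zero_smul]

theorem fp_det1 (u v w : V3) (a b c : ℝ) :
    d3 (a • u + b • v + c • w) v w = a * d3 u v w := by
  simp only [d3, Pi.add_apply, Pi.smul_apply, smul_eq_mul]
  ring

theorem fp_det2 (u v w : V3) (a b c : ℝ) :
    d3 u (a • u + b • v + c • w) w = b * d3 u v w := by
  simp only [d3, Pi.add_apply, Pi.smul_apply, smul_eq_mul]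
  ring

theorem fp_det3 (u v w : V3) (a b c : ℝ) :
    d3 u v (a • u + b • v + c • w) = c * d3 u v w := by
  simp only [d3, Pi.add_apply, Pi.smul_apply, smul_eq_mul]
  ring

theorem fp_c1 (u v : V3) : Continuous (fun y => d3 y u v) :=
  d3_continuous continuous_id continuous_const continuous_const

theorem fp_c2 (u v : V3) : Continuous (fun y => d3 u y v) :=
  d3_continuous continuous_const continuous_id continuous_const

theorem fp_c3 (u v : V3) : Continuous (fun y => d3 u v y) :=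
  d3_continuous continuous_const continuous_const continuous_id

/-- generic points are dense -/
theorem fp_freq {T : Finset (Tri n)} {x : Fin n → V3} (hx : Pos T x) (y : V3) :
    ∃ᶠ y' in 𝓝 y, Gy T x y' := by
  classical
  rw [Filter.frequently_iff]
  intro U hU
  obtain ⟨ε, hε, hb⟩ := Metric.mem_nhds_iff.1 hU
  obtain ⟨y', h1, h2⟩ := avoid_d3 (T.image (fun τ => (x τ.1, x τ.2.1))) (by
    intro q hq
    obtain ⟨⟨i, j, k⟩, hτ, rfl⟩ := Finset.mem_image.1 hq
    exact ⟨x k, (hx i j k hτ).ne'⟩) y ε hε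
  refine ⟨y', hb ?_, ?_⟩
  · rw [Metric.mem_ball, dist_pi_lt_iff hε]
    intro a
    rw [Real.dist_eq]
    exact h1 a
  · intro τ hτ
    exact h2 _ (Finset.mem_image_of_mem _ hτ)

theorem fp_L1 {T : Finset (Tri n)} {x : Fin n → V3} (hx : Pos T x) {i j k : Fin n}
    (h : (i, j, k) ∈ T) {a b c : ℝ} (ha : 0 < a) (hb : 0 < b) (hc : 0 < c) :
    ∀ᶠ y' in 𝓝 (a • x i + b • x j + c • x k), inC x (i, j, k) y' := by
  have hD := hx i j k h
  have e1 := ((fp_c1 (x j) (x k)).tendsto (a • x i + b • x j + c • x k)).eventually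
    (lt_mem_nhds (a := 0) (by rw [fp_det1]; positivity))
  have e2 := ((fp_c2 (x i) (x k)).tendsto (a • x i + b • x j + c • x k)).eventually
    (lt_mem_nhds (a := 0) (by rw [fp_det2]; positivity))
  have e3 := ((fp_c3 (x i) (x j)).tendsto (a • x i + b • x j + c • x k)).eventually
    (lt_mem_nhds (a := 0) (by rw [fp_det3]; positivity))
  filter_upwards [e1, e2, e3] with y' h1 h2 h3
  exact ⟨h1, h2, h3⟩

theorem fp_L2 {T : Finset (Tri n)} (hT : Cx T) {x : Fin n → V3} (hx : Pos T x) {i j k : Fin n}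
    (h : (i, j, k) ∈ T) {a b : ℝ} (ha : 0 < a) (hb : 0 < b) :
    ∀ᶠ y' in 𝓝 (a • x i + b • x j), Gy T x y' → ∃ σ ∈ T,
      (i = σ.1 ∨ i = σ.2.1 ∨ i = σ.2.2) ∧ (j = σ.1 ∨ j = σ.2.1 ∨ j = σ.2.2) ∧ inC x σ y' := by
  obtain ⟨l, hl⟩ := hT.sym _ _ _ h
  have hD := hx i j k h
  have hD' := hx j i l hl
  have hy1 : a • x i + b • x j = a • x i + b • x j + (0 : ℝ) • x k := by simp
  have hy2 : a • x i + b • x j = b • x j + a • x i + (0 : ℝ) • x l := by
    rw [zero_smul, add_zero, add_comm]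
  have e1 := ((fp_c1 (x j) (x k)).tendsto (a • x i + b • x j)).eventually
    (lt_mem_nhds (a := 0) (by rw [hy1, fp_det1]; positivity))
  have e2 := ((fp_c2 (x i) (x k)).tendsto (a • x i + b • x j)).eventually
    (lt_mem_nhds (a := 0) (by rw [hy1, fp_det2]; positivity))
  have e3 := ((fp_c1 (x i) (x l)).tendsto (a • x i + b • x j)).eventually
    (lt_mem_nhds (a := 0) (by rw [hy2, fp_det1]; positivity))
  have e4 := ((fp_c2 (x j) (x l)).tendsto (a • x i + b • x j)).eventually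
    (lt_mem_nhds (a := 0) (by rw [hy2, fp_det2]; positivity))
  filter_upwards [e1, e2, e3, e4] with y' h1 h2 h3 h4 hg
  have h5 := hg _ h
  simp only at h5
  rcases lt_or_gt_of_ne h5 with h6 | h6
  · refine ⟨(j, i, l), hl, Or.inr (Or.inl rfl), Or.inl rfl, h3, h4, ?_⟩
    simp only
    rw [d3_swap12]
    linarith
  · exact ⟨(i, j, k), h, Or.inl rfl, Or.inr (Or.inl rfl), h1, h2, h6⟩

theorem fp_L3 {T : Finset (Tri n)} (hT : Cx T) {x : Fin n → V3} (hx : Pos T x) {i j k : Fin n}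
    (h : (i, j, k) ∈ T) {a : ℝ} (ha : 0 < a) :
    ∀ᶠ y' in 𝓝 (a • x i), Gy T x y' → ∃ σ ∈ T,
      (i = σ.1 ∨ i = σ.2.1 ∨ i = σ.2.2) ∧ inC x σ y' := by
  have e1 : ∀ᶠ y' in 𝓝 (a • x i), ∀ τ ∈ T.filter (fun τ => τ.1 = i),
      0 < d3 y' (x τ.2.1) (x τ.2.2) := by
    rw [Filter.eventually_all_finset]
    rintro ⟨i', j', k'⟩ hτ
    obtain ⟨hm, hi⟩ := Finset.mem_filter.1 hτ
    simp only at hi
    subst hi
    have hD := hx i' j' k' hm
    have hy1 : a • x i' = a • x i' + (0 : ℝ) • x j' + (0 : ℝ) • x k' := by simp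
    exact ((fp_c1 (x j') (x k')).tendsto (a • x i')).eventually
      (lt_mem_nhds (a := 0) (by rw [hy1, fp_det1]; positivity))
  filter_upwards [e1] with y' h1 hg
  obtain ⟨j', k', hm, -, h2, h3⟩ := GT.cov hT hx i Finset.univ ⟨j, Finset.mem_univ _, k, h⟩
    (fun _ _ _ _ => Finset.mem_univ _) y' (by
      rintro j' ⟨k', hm⟩
      exact hg _ hm)
  exact ⟨(i, j', k'), hm, Or.inl rfl, h1 _ (Finset.mem_filter.2 ⟨hm, rfl⟩), h3, h2⟩

/-- near `y`, every generic point is in the open cone of a face containing the support of `y` -/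
theorem fp_L {T : Finset (Tri n)} (hT : Cx T) {x : Fin n → V3} (hx : Pos T x) {i j k : Fin n}
    (h : (i, j, k) ∈ T) {α : Fin n → ℝ} (hα : ∀ m, 0 ≤ α m)
    (hs : ∀ m, α m ≠ 0 → m = i ∨ m = j ∨ m = k) (hy : ∑ m, α m • x m ≠ 0) :
    ∀ᶠ y' in 𝓝 (∑ m, α m • x m), Gy T x y' → ∃ σ ∈ T,
      (∀ m, α m ≠ 0 → (m = σ.1 ∨ m = σ.2.1 ∨ m = σ.2.2)) ∧ inC x σ y' := by
  obtain ⟨hij, hjk, hki⟩ := fp_ne hT h
  have hr1 := hT.rot _ _ _ h
  have hr2 := hT.rot _ _ _ hr1
  rw [fp_sum x hij hjk hki α hs] at hy ⊢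
  rcases (hα i).eq_or_lt with hi | hi <;> rcases (hα j).eq_or_lt with hj | hj <;>
    rcases (hα k).eq_or_lt with hk | hk
  · rw [← hi, ← hj, ← hk] at hy
    simp at hy
  · have hz : α i • x i + α j • x j + α k • x k = α k • x k := by rw [← hi, ← hj]; simp
    rw [hz]
    filter_upwards [fp_L3 hT hx hr2 hk] with y' h1 hg
    obtain ⟨σ, hσ, h2, h3⟩ := h1 hg
    refine ⟨σ, hσ, ?_, h3⟩
    intro m hm
    rcases hs m hm with rfl | rfl | rfl
    · exact absurd hi.symm hm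
    · exact absurd hj.symm hm
    · exact h2
  · have hz : α i • x i + α j • x j + α k • x k = α j • x j := by rw [← hi, ← hk]; simp
    rw [hz]
    filter_upwards [fp_L3 hT hx hr1 hj] with y' h1 hg
    obtain ⟨σ, hσ, h2, h3⟩ := h1 hg
    refine ⟨σ, hσ, ?_, h3⟩
    intro m hm
    rcases hs m hm with rfl | rfl | rfl
    · exact absurd hi.symm hm
    · exact h2
    · exact absurd hk.symm hm
  · have hz : α i • x i + α j • x j + α k • x k = α j • x j + α k • x k := by rw [← hi]; simp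
    rw [hz]
    filter_upwards [fp_L2 hT hx hr1 hj hk] with y' h1 hg
    obtain ⟨σ, hσ, h2, h3, h4⟩ := h1 hg
    refine ⟨σ, hσ, ?_, h4⟩
    intro m hm
    rcases hs m hm with rfl | rfl | rfl
    · exact absurd hi.symm hm
    · exact h2
    · exact h3
  · have hz : α i • x i + α j • x j + α k • x k = α i • x i := by rw [← hj, ← hk]; simp
    rw [hz]
    filter_upwards [fp_L3 hT hx h hi] with y' h1 hg
    obtain ⟨σ, hσ, h2, h3⟩ := h1 hg
    refine ⟨σ, hσ, ?_, h3⟩
    intro m hm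
    rcases hs m hm with rfl | rfl | rfl
    · exact h2
    · exact absurd hj.symm hm
    · exact absurd hk.symm hm
  · have hz : α i • x i + α j • x j + α k • x k = α k • x k + α i • x i := by
      rw [← hj, zero_smul, add_zero, add_comm]
    rw [hz]
    filter_upwards [fp_L2 hT hx hr2 hk hi] with y' h1 hg
    obtain ⟨σ, hσ, h2, h3, h4⟩ := h1 hg
    refine ⟨σ, hσ, ?_, h4⟩
    intro m hm
    rcases hs m hm with rfl | rfl | rfl
    · exact h3
    · exact absurd hj.symm hm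
    · exact h2
  · have hz : α i • x i + α j • x j + α k • x k = α i • x i + α j • x j := by rw [← hk]; simp
    rw [hz]
    filter_upwards [fp_L2 hT hx h hi hj] with y' h1 hg
    obtain ⟨σ, hσ, h2, h3, h4⟩ := h1 hg
    refine ⟨σ, hσ, ?_, h4⟩
    intro m hm
    rcases hs m hm with rfl | rfl | rfl
    · exact h2
    · exact h3
    · exact absurd hk.symm hm
  · filter_upwards [fp_L1 hx h hi hj hk] with y' h1 _
    exact ⟨(i, j, k), h, hs, h1⟩

/-- generic points of the open cone of a face accumulate at every point of its closed cone -/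
theorem fp_near {T : Finset (Tri n)} {x : Fin n → V3} (hx : Pos T x) {i j k : Fin n}
    (h : (i, j, k) ∈ T) {a b c : ℝ} (ha : 0 ≤ a) (hb : 0 ≤ b) (hc : 0 ≤ c) :
    ∃ᶠ y' in 𝓝 (a • x i + b • x j + c • x k), Gy T x y' ∧ inC x (i, j, k) y' := by
  rw [Filter.frequently_iff]
  intro U hU
  have hcont : Tendsto (fun δ : ℝ => (a + δ) • x i + (b + δ) • x j + (c + δ) • x k) (𝓝[>] 0)
      (𝓝 (a • x i + b • x j + c • x k)) := by
    have h1 : Continuous (fun δ : ℝ => (a + δ) • x i + (b + δ) • x j + (c + δ) • x k) := by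
      fun_prop
    have h2 := (h1.tendsto 0).mono_left (nhdsWithin_le_nhds (s := Set.Ioi 0))
    simpa using h2
  obtain ⟨V, hVU, hV, hyV⟩ := mem_nhds_iff.1 hU
  have h3 := hcont.eventually (hV.mem_nhds hyV)
  obtain ⟨δ, hδV, hδ⟩ := (h3.and self_mem_nhdsWithin).exists
  have hδ' : (0 : ℝ) < δ := hδ
  have h4 := fp_L1 hx h (a := a + δ) (b := b + δ) (c := c + δ) (by linarith) (by linarith)
    (by linarith)
  have h5 := (fp_freq hx ((a + δ) • x i + (b + δ) • x j + (c + δ) • x k)).and_eventually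
    (h4.and (hV.mem_nhds hδV))
  obtain ⟨y', h6, h7, h8⟩ := h5.exists
  exact ⟨y', hVU h8, h6, h7⟩

theorem fan {T : Finset (Tri n)} (hT : Cx T) {x : Fin n → V3} (hx : x ∈ RSp T)
    {τ τ' : Tri n} (hτ : τ ∈ T) (hτ' : τ' ∈ T) {α β : Fin n → ℝ} (hα : ∀ i, 0 ≤ α i)
    (hβ : ∀ i, 0 ≤ β i) (hsα : ∀ i, α i ≠ 0 → (i = τ.1 ∨ i = τ.2.1 ∨ i = τ.2.2))
    (hsβ : ∀ i, β i ≠ 0 → (i = τ'.1 ∨ i = τ'.2.1 ∨ i = τ'.2.2))
    (he : ∑ i, α i • x i = ∑ i, β i • x i) : α = β := by
  obtain ⟨i, j, k⟩ := τ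
  obtain ⟨i', j', k'⟩ := τ'
  simp only at hsα hsβ
  obtain ⟨hP, hE⟩ := hx
  obtain ⟨hij, hjk, hki⟩ := fp_ne hT hτ
  obtain ⟨hij', hjk', hki'⟩ := fp_ne hT hτ'
  have hD := hP i j k hτ
  have hD' := hP i' j' k' hτ'
  have key : ∀ m, α m ≠ 0 → m = i' ∨ m = j' ∨ m = k' := by
    by_cases hy : ∑ m, α m • x m = 0
    · have h1 := fp_sum x hij hjk hki α hsα
      rw [hy] at h1
      have h2 : α i • x i + α j • x j + α k • x k = (0 : ℝ) • x i + (0 : ℝ) • x j +
          (0 : ℝ) • x k := by rw [← h1]; simp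
      obtain ⟨h3, h4, h5⟩ := indep hD h2
      intro m hm
      rcases hsα m hm with rfl | rfl | rfl
      · exact absurd h3 hm
      · exact absurd h4 hm
      · exact absurd h5 hm
    · have h1 := fp_L hT hP hτ hα hsα hy
      have h2 := fp_near hP hτ' (hβ i') (hβ j') (hβ k')
      rw [← fp_sum x hij' hjk' hki' β hsβ, ← he] at h2
      obtain ⟨y', ⟨h3, h4⟩, h5⟩ := (h2.and_eventually h1).exists
      obtain ⟨σ, hσ, h6, h7⟩ := h5 h3
      intro m hm
      have h8 := h6 m hm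
      rcases hE _ hτ' σ hσ y' h4 h7 with h9 | h9 | h9
      · rw [h9] at h8
        exact h8
      · rw [h9] at h8
        simp only [rot3] at h8
        tauto
      · rw [h9] at h8
        simp only [rot3] at h8
        tauto
  have h1 := fp_sum x hij' hjk' hki' α key
  have h2 := fp_sum x hij' hjk' hki' β hsβ
  rw [he, h2] at h1
  obtain ⟨h3, h4, h5⟩ := indep hD' h1
  funext m
  by_cases hm : m = i' ∨ m = j' ∨ m = k'
  · rcases hm with rfl | rfl | rfl
    · exact h3.symm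
    · exact h4.symm
    · exact h5.symm
  · have h6 : α m = 0 := by
      by_contra h
      exact hm (key m h)
    have h7 : β m = 0 := by
      by_contra h
      exact hm (hsβ m h)
    rw [h6, h7]

theorem covers {T : Finset (Tri n)} (hT : Cx T) {x : Fin n → V3} (hx : x ∈ RSp T) (y : V3) :
    ∃ τ ∈ T, ∃ α : Fin n → ℝ, (∀ i, 0 ≤ α i) ∧
      (∀ i, α i ≠ 0 → (i = τ.1 ∨ i = τ.2.1 ∨ i = τ.2.2)) ∧ y = ∑ i, α i • x i := by
  obtain ⟨hP, hE⟩ := hx
  have h1 : ∀ᶠ y' in 𝓝 y, ∀ τ ∈ T, inC x τ y' →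
      (0 ≤ d3 y (x τ.2.1) (x τ.2.2) ∧ 0 ≤ d3 (x τ.1) y (x τ.2.2) ∧
        0 ≤ d3 (x τ.1) (x τ.2.1) y) := by
    rw [Filter.eventually_all_finset]
    intro τ hτ
    by_cases c1 : 0 ≤ d3 y (x τ.2.1) (x τ.2.2)
    · by_cases c2 : 0 ≤ d3 (x τ.1) y (x τ.2.2)
      · by_cases c3 : 0 ≤ d3 (x τ.1) (x τ.2.1) y
        · exact Filter.Eventually.of_forall fun _ _ => ⟨c1, c2, c3⟩
        · filter_upwards [((fp_c3 (x τ.1) (x τ.2.1)).tendsto y).eventually
            (gt_mem_nhds (not_le.1 c3))] with y' h2 h3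
          exact absurd h3.2.2 (not_lt.2 h2.le)
      · filter_upwards [((fp_c2 (x τ.1) (x τ.2.2)).tendsto y).eventually
          (gt_mem_nhds (not_le.1 c2))] with y' h2 h3
        exact absurd h3.2.1 (not_lt.2 h2.le)
    · filter_upwards [((fp_c1 (x τ.2.1) (x τ.2.2)).tendsto y).eventually
        (gt_mem_nhds (not_le.1 c1))] with y' h2 h3
      exact absurd h3.1 (not_lt.2 h2.le)
  obtain ⟨y', hg, h2⟩ := ((fp_freq hP y).and_eventually h1).exists
  obtain ⟨⟨i, j, k⟩, hτ, hin⟩ := GT.cnt_pos hT hP hg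
  obtain ⟨h3, h4, h5⟩ := h2 _ hτ hin
  simp only at h3 h4 h5
  obtain ⟨hij, hjk, hki⟩ := fp_ne hT hτ
  have hD := hP i j k hτ
  set α : Fin n → ℝ := fun m => if m = i then d3 y (x j) (x k) / d3 (x i) (x j) (x k) else
    if m = j then d3 (x i) y (x k) / d3 (x i) (x j) (x k) else
    if m = k then d3 (x i) (x j) y / d3 (x i) (x j) (x k) else 0 with hαd
  have ai : α i = d3 y (x j) (x k) / d3 (x i) (x j) (x k) := by
    rw [hαd]; simp
  have aj : α j = d3 (x i) y (x k) / d3 (x i) (x j) (x k) := by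
    rw [hαd]; simp [hij.symm]
  have ak : α k = d3 (x i) (x j) y / d3 (x i) (x j) (x k) := by
    rw [hαd]; simp [hki, hjk.symm]
  have hsα : ∀ m, α m ≠ 0 → m = i ∨ m = j ∨ m = k := by
    intro m hm
    by_contra hno
    push Not at hno
    apply hm
    rw [hαd]
    simp [hno.1, hno.2.1, hno.2.2]
  refine ⟨(i, j, k), hτ, α, ?_, hsα, ?_⟩
  · intro m
    by_cases hm : α m = 0
    · rw [hm]
    · rcases hsα m hm with rfl | rfl | rfl
      · rw [ai]; positivity
      · rw [aj]; positivity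
      · rw [ak]; positivity
  · rw [fp_sum x hij hjk hki α hsα, ai, aj, ak]
    have hc := cramer (x i) (x j) (x k) y
    calc y = (d3 (x i) (x j) (x k))⁻¹ • (d3 (x i) (x j) (x k) • y) := by
          rw [smul_smul, inv_mul_cancel₀ hD.ne', one_smul]
      _ = (d3 (x i) (x j) (x k))⁻¹ • (d3 y (x j) (x k) • x i + d3 (x i) y (x k) • x j +
            d3 (x i) (x j) y • x k) := by rw [hc]
      _ = _ := by simp only [smul_add, smul_smul, div_eq_inv_mul]

end GT
end

section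

set_option autoImplicit false

namespace GT
open Finset

variable {n : ℕ}

/-! ### rotations of a triple -/

private theorem rs_rot_mem {T : Finset (Tri n)} (hT : Cx T) {τ : Tri n} (h : τ ∈ T) :
    rot3 τ ∈ T := by
  obtain ⟨i, j, k⟩ := τ
  exact hT.rot i j k h

private theorem rs_card {T : Finset (Tri n)} (hT : Cx T) {τ : Tri n} (h : τ ∈ T) :
    ({τ, rot3 τ, rot3 (rot3 τ)} : Finset (Tri n)).card = 3 := by
  obtain ⟨i, j, k⟩ := τ
  have h1 : i ≠ j := hT.ne i j k h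
  have h2 : j ≠ k := hT.ne j k i (hT.rot i j k h)
  have h3 : k ≠ i := hT.ne k i j (hT.rot j k i (hT.rot i j k h))
  rw [Finset.card_eq_three]
  refine ⟨_, _, _, ?_, ?_, ?_, rfl⟩
  · simp only [rot3, ne_eq, Prod.mk.injEq, not_and]
    intro h
    exact absurd h h1
  · simp only [rot3, ne_eq, Prod.mk.injEq, not_and]
    intro h
    exact absurd h.symm h3
  · simp only [rot3, ne_eq, Prod.mk.injEq, not_and]
    intro h
    exact absurd h h2

/-! ### generic points -/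

private theorem rs_generic {T : Finset (Tri n)} {x : Fin n → V3} (hx : Pos T x) (y0 : V3) (ε : ℝ)
    (hε : 0 < ε) : ∃ y : V3, (∀ a, |y a - y0 a| < ε) ∧ Gy T x y := by
  classical
  obtain ⟨y, hy, hy'⟩ := avoid_d3 (T.image fun τ => (x τ.1, x τ.2.1)) (by
    intro q hq
    obtain ⟨τ, hτ, rfl⟩ := Finset.mem_image.1 hq
    exact ⟨x τ.2.2, (hx τ.1 τ.2.1 τ.2.2 hτ).ne'⟩) y0 ε hε
  refine ⟨y, hy, fun τ hτ => ?_⟩
  exact hy' (x τ.1, x τ.2.1) (Finset.mem_image_of_mem (fun τ => (x τ.1, x τ.2.1)) hτ)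

private theorem rs_open (x : Fin n → V3) (τ : Tri n) : IsOpen {y | inC x τ y} := by
  have h1 : Continuous fun y : V3 => d3 y (x τ.2.1) (x τ.2.2) :=
    d3_continuous continuous_id continuous_const continuous_const
  have h2 : Continuous fun y : V3 => d3 (x τ.1) y (x τ.2.2) :=
    d3_continuous continuous_const continuous_id continuous_const
  have h3 : Continuous fun y : V3 => d3 (x τ.1) (x τ.2.1) y :=
    d3_continuous continuous_const continuous_const continuous_id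
  exact (isOpen_lt continuous_const h1).inter
    ((isOpen_lt continuous_const h2).inter (isOpen_lt continuous_const h3))

/-- a filter that contains `τ` -/
private theorem rs_sub {T : Finset (Tri n)} (hT : Cx T) {x : Fin n → V3} {y : V3} {τ : Tri n}
    (hτ : τ ∈ T) (h : inC x τ y) : ∀ τ' ∈ ({τ, rot3 τ, rot3 (rot3 τ)} : Finset (Tri n)),
      τ' ∈ T ∧ inC x τ' y := by
  intro τ' hτ'
  simp only [Finset.mem_insert, Finset.mem_singleton] at hτ'
  rcases hτ' with rfl | rfl | rfl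
  · exact ⟨hτ, h⟩
  · exact ⟨rs_rot_mem hT hτ, (inC_rot3 _ _ _).2 h⟩
  · exact ⟨rs_rot_mem hT (rs_rot_mem hT hτ), (inC_rot3 _ _ _).2 ((inC_rot3 _ _ _).2 h)⟩

theorem cnt_of_emb {T : Finset (Tri n)} (hT : Cx T) {x : Fin n → V3} (hx : x ∈ RSp T) {y : V3}
    (hy : Gy T x y) : cnt T x y = 3 := by
  classical
  obtain ⟨hp, he⟩ := hx
  obtain ⟨τ, hτ, hc⟩ := GT.cnt_pos hT hp hy
  rw [← rs_card hT hτ]
  unfold cnt
  congr 1
  ext τ'
  rw [Finset.mem_filter]
  constructor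
  · rintro ⟨h1, h2⟩
    simp only [Finset.mem_insert, Finset.mem_singleton]
    exact he τ hτ τ' h1 y hc h2
  · intro h
    exact rs_sub hT hτ hc τ' h

/-- the count decides at a generic point -/
private theorem rs_emb {T : Finset (Tri n)} (hT : Cx T) {x : Fin n → V3} (hx : Pos T x) {y : V3}
    (hy : Gy T x y) (hc : cnt T x y = 3) : Emb T x := by
  classical
  intro τ hτ τ' hτ' y0 h0 h0'
  have hopen : IsOpen ({y | inC x τ y} ∩ {y | inC x τ' y}) := (rs_open x τ).inter (rs_open x τ')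
  obtain ⟨ε, hε, hb⟩ := Metric.isOpen_iff.1 hopen y0 ⟨h0, h0'⟩
  obtain ⟨y1, hy1, hg⟩ := rs_generic hx y0 ε hε
  have hy1b : y1 ∈ Metric.ball y0 ε := by
    rw [Metric.mem_ball, dist_pi_lt_iff hε]
    intro a
    rw [Real.dist_eq]
    exact hy1 a
  obtain ⟨g1, g2⟩ := hb hy1b
  have hc1 : cnt T x y1 = 3 := by rw [GT.cnt_const hT hx hg hy, hc]
  have hsub : ({τ, rot3 τ, rot3 (rot3 τ)} : Finset (Tri n)) ⊆ T.filter fun τ => inC x τ y1 := by
    intro τ'' h
    rw [Finset.mem_filter]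
    exact rs_sub hT hτ g1 τ'' h
  have heq : ({τ, rot3 τ, rot3 (rot3 τ)} : Finset (Tri n)) = T.filter fun τ => inC x τ y1 := by
    apply Finset.eq_of_subset_of_card_le hsub
    rw [rs_card hT hτ]
    unfold cnt at hc1
    exact hc1.le
  have hm : τ' ∈ ({τ, rot3 τ, rot3 (rot3 τ)} : Finset (Tri n)) := by
    rw [heq, Finset.mem_filter]
    exact ⟨hτ', g2⟩
  simpa only [Finset.mem_insert, Finset.mem_singleton] using hm

theorem emb_iff_cnt {T : Finset (Tri n)} (hT : Cx T) {x : Fin n → V3} (hx : Pos T x) :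
    Emb T x ↔ ∃ y, Gy T x y ∧ cnt T x y = 3 := by
  constructor
  · intro he
    obtain ⟨y, _, hy⟩ := rs_generic hx 0 1 one_pos
    exact ⟨y, hy, cnt_of_emb hT ⟨hx, he⟩ hy⟩
  · rintro ⟨y, hy, hc⟩
    exact rs_emb hT hx hy hc

/-- embeddedness is locally constant on positive configurations -/
private theorem rs_loc {T : Finset (Tri n)} (hT : Cx T) {x0 : Fin n → V3} (h0 : Pos T x0) :
    ∃ U : Set (Fin n → V3), IsOpen U ∧ x0 ∈ U ∧ ∀ x ∈ U, Pos T x → (Emb T x ↔ Emb T x0) := by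
  classical
  obtain ⟨y, _, hy⟩ := rs_generic h0 0 1 one_pos
  refine ⟨⋂ τ ∈ T, {x : Fin n → V3 | 0 < d3 (x τ.1) (x τ.2.1) y * d3 (x0 τ.1) (x0 τ.2.1) y},
    ?_, ?_, ?_⟩
  · apply isOpen_biInter_finset
    intro τ _
    refine isOpen_lt continuous_const (Continuous.mul ?_ continuous_const)
    exact d3_continuous (continuous_apply _) (continuous_apply _) continuous_const
  · rw [Set.mem_iInter₂]
    intro τ hτ
    exact mul_self_pos.2 (hy τ hτ)
  · intro x hx hp
    rw [Set.mem_iInter₂] at hx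
    have hpos : ∀ a b : ℝ, 0 < a * b → (0 < a ↔ 0 < b) := by
      intro a b hab
      rcases mul_pos_iff.1 hab with h | h
      · exact ⟨fun _ => h.2, fun _ => h.1⟩
      · exact ⟨fun h' => absurd h' (not_lt.2 h.1.le), fun h' => absurd h' (not_lt.2 h.2.le)⟩
    have hs : ∀ τ ∈ T, (0 < d3 (x τ.1) (x τ.2.1) y ↔ 0 < d3 (x0 τ.1) (x0 τ.2.1) y) :=
      fun τ hτ => hpos _ _ (hx τ hτ)
    have hgx : Gy T x y := by
      intro τ hτ h
      have := hx τ hτ
      simp only [Set.mem_ofPred_eq, h, zero_mul, lt_irrefl] at this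
    have hin : ∀ τ ∈ T, (inC x τ y ↔ inC x0 τ y) := by
      rintro ⟨i, j, k⟩ hτ
      have s1 := hs (i, j, k) hτ
      have s2 := hs (j, k, i) (hT.rot i j k hτ)
      have s3 := hs (k, i, j) (hT.rot j k i (hT.rot i j k hτ))
      simp only at s1 s2 s3
      simp only [inC]
      rw [← d3_rot y (x j) (x k), ← d3_rot y (x0 j) (x0 k), d3_rot (x k) (x i) y,
        d3_rot (x0 k) (x0 i) y, s1, s2, s3]
    have hcnt : cnt T x y = cnt T x0 y := by
      unfold cnt
      congr 1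
      exact Finset.filter_congr hin
    constructor
    · intro he
      exact rs_emb hT h0 hy (by rw [← hcnt]; exact cnt_of_emb hT ⟨hp, he⟩ hgx)
    · intro he
      exact rs_emb hT hp hgx (by rw [hcnt]; exact cnt_of_emb hT ⟨h0, he⟩ hy)

private theorem rs_open_pos (T : Finset (Tri n)) : IsOpen {x : Fin n → V3 | Pos T x} := by
  have h : {x : Fin n → V3 | Pos T x} =
      ⋂ τ ∈ T, {x : Fin n → V3 | 0 < d3 (x τ.1) (x τ.2.1) (x τ.2.2)} := by
    ext x
    simp only [Set.mem_iInter, Set.mem_ofPred_eq]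
    exact ⟨fun h τ hτ => h τ.1 τ.2.1 τ.2.2 hτ, fun h i j k hτ => h (i, j, k) hτ⟩
  rw [h]
  apply isOpen_biInter_finset
  intro τ _
  exact isOpen_lt continuous_const
    (d3_continuous (continuous_apply _) (continuous_apply _) (continuous_apply _))

theorem isOpen_RSp {T : Finset (Tri n)} (hT : Cx T) : IsOpen (RSp T) := by
  rw [isOpen_iff_forall_mem_open]
  rintro x0 ⟨hp, he⟩
  obtain ⟨U, hU, hxU, hUe⟩ := rs_loc hT hp
  refine ⟨U ∩ {x | Pos T x}, ?_, hU.inter (rs_open_pos T), ⟨hxU, hp⟩⟩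
  rintro x ⟨h1, h2⟩
  exact ⟨h2, (hUe x h1 h2).2 he⟩

theorem path_RSp {T : Finset (Tri n)} (hT : Cx T) (γ : ℝ → (Fin n → V3))
    (hγ : ContinuousOn γ (Set.Icc 0 1)) (hp : ∀ s ∈ Set.Icc (0 : ℝ) 1, Pos T (γ s))
    (h0 : γ 0 ∈ RSp T) : γ 1 ∈ RSp T := by
  have hcont : Continuous (Set.domRestrict (Set.Icc (0 : ℝ) 1) γ) := hγ.domRestrict
  have hlc : IsLocallyConstant (fun s : Set.Icc (0 : ℝ) 1 => Emb T (γ s)) := by
    rw [IsLocallyConstant.iff_exists_open]
    intro s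
    obtain ⟨U, hU, hsU, hUe⟩ := rs_loc hT (hp s s.2)
    refine ⟨(Set.domRestrict (Set.Icc (0 : ℝ) 1) γ) ⁻¹' U, hU.preimage hcont, hsU, ?_⟩
    intro s' hs'
    exact propext (hUe _ hs' (hp s' s'.2))
  have : PreconnectedSpace (Set.Icc (0 : ℝ) 1) := Subtype.preconnectedSpace isPreconnected_Icc
  have h1 := hlc.apply_eq_of_preconnectedSpace (⟨0, by simp⟩ : Set.Icc (0 : ℝ) 1)
    (⟨1, by simp⟩ : Set.Icc (0 : ℝ) 1)
  simp only at h1
  refine ⟨hp 1 (by simp), ?_⟩
  rw [← h1]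
  exact h0.2

end GT
end
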