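import Pool.Agent.Lib.MP_c41363_gt.Defs
import Pool.Agent.Lib.MP_c41363_gt.Cnt
import Pool.Agent.Lib.MP_c41363_gt.Rsp
import Pool.Agent.Lib.MP_c41363_gt.Cycles

section

set_option autoImplicit false

namespace GT
open Finset

variable {n : ℕ}

theorem po_neg (a b c : V3) : d3 (-a) b c = - d3 a b c := by
  simp only [d3, Pi.neg_apply]; ring

theorem po_distinct {T : Finset (Tri n)} (hT : Cx T) {i j k : Fin n} (h : (i, j, k) ∈ T) :
    i ≠ j ∧ j ≠ k ∧ i ≠ k :=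
  ⟨hT.ne _ _ _ h, hT.ne _ _ _ (hT.rot _ _ _ h),
    (hT.ne _ _ _ (hT.rot _ _ _ (hT.rot _ _ _ h))).symm⟩

theorem po_sum (x : Fin n → V3) {i j k : Fin n} (hij : i ≠ j) (hjk : j ≠ k) (hik : i ≠ k)
    (α : Fin n → ℝ) (h : ∀ l, α l ≠ 0 → (l = i ∨ l = j ∨ l = k)) :
    ∑ l, α l • x l = α i • x i + α j • x j + α k • x k := by
  classical
  have h1 : ∑ l, α l • x l = ∑ l ∈ ({i, j, k} : Finset (Fin n)), α l • x l := by
    symm
    apply Finset.sum_subset (Finset.subset_univ _)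
    intro l _ hl
    have : α l = 0 := by
      by_contra h0
      apply hl
      rcases h l h0 with h2 | h2 | h2 <;> simp [h2]
    rw [this, zero_smul]
  rw [h1, Finset.sum_insert (by simp [hij, hik]), Finset.sum_insert (by simp [hjk]),
    Finset.sum_singleton, add_assoc]

theorem po_aux {a b c : V3} (h : 0 < d3 a b c) {α β γ : ℝ} (hα : 0 ≤ α)
    (he : -a = α • a + β • b + γ • c) : False := by
  have e1 := congrArg (fun v => d3 v b c) he
  simp only [po_neg, d3_add1, d3_smul1, d3_self12,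
    d3_self13, mul_zero, add_zero] at e1
  nlinarith

theorem po_vec {a b c N : V3} {α β γ : ℝ} (he : -N = α • a + β • b + γ • c) :
    d3 N a b = -(γ * d3 a b c) ∧ d3 N b c = -(α * d3 a b c) ∧ d3 N c a = -(β * d3 a b c) := by
  have hN : ∀ u v, d3 N u v = - d3 (α • a + β • b + γ • c) u v := by
    intro u v
    rw [← he, po_neg, neg_neg]
  refine ⟨?_, ?_, ?_⟩ <;> rw [hN] <;>
    simp only [d3_add1, d3_smul1, d3_self12, d3_self13, mul_zero, add_zero, zero_add]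
  · rw [d3_rot a b c |>.symm, d3_rot b c a |>.symm]
  · rw [d3_rot a b c]

theorem s_exists {T : Finset (Tri n)} (hT : Cx T) {x : Fin n → V3} (hx : x ∈ RSp T) {N : Fin n}
    (hN : N ∈ verts T) (hg : GenN T N (fun i j => d3 (x N) (x i) (x j))) :
    ∃ τ ∈ DD T N, isS (fun i j => d3 (x N) (x i) (x j)) τ := by
  obtain ⟨⟨i, j, k⟩, hτ, α, hα, hs, he⟩ := GT.covers hT hx (-(x N))
  obtain ⟨hij, hjk, hik⟩ := po_distinct hT hτ
  rw [po_sum x hij hjk hik α hs] at he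
  have hr1 := hT.rot _ _ _ hτ
  have hr2 := hT.rot _ _ _ hr1
  have hD : 0 < d3 (x i) (x j) (x k) := hx.1 _ _ _ hτ
  have hD1 : 0 < d3 (x j) (x k) (x i) := hx.1 _ _ _ hr1
  have hD2 : 0 < d3 (x k) (x i) (x j) := hx.1 _ _ _ hr2
  have hNi : i ≠ N := by
    rintro rfl
    exact po_aux hD (hα i) he
  have hNj : j ≠ N := by
    rintro rfl
    exact po_aux hD1 (hα j) (β := α k) (γ := α i) (by rw [he]; abel)
  have hNk : k ≠ N := by
    rintro rfl
    exact po_aux hD2 (hα k) (β := α i) (γ := α j) (by rw [he]; abel)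
  obtain ⟨e1, e2, e3⟩ := po_vec he
  refine ⟨(i, j, k), by simp [DD, hτ, hNi, hNj, hNk], ?_, ?_, ?_⟩
  · have h1 : d3 (x N) (x i) (x j) ≠ 0 := hg _ hτ hNi hNj
    refine lt_of_le_of_ne ?_ h1
    show d3 (x N) (x i) (x j) ≤ 0
    rw [e1]
    have := mul_nonneg (hα k) hD.le
    linarith
  · have h1 : d3 (x N) (x j) (x k) ≠ 0 := hg _ hr1 hNj hNk
    refine lt_of_le_of_ne ?_ h1
    show d3 (x N) (x j) (x k) ≤ 0
    rw [e2]
    have := mul_nonneg (hα i) hD.le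
    linarith
  · have h1 : d3 (x N) (x k) (x i) ≠ 0 := hg _ hr2 hNk hNi
    refine lt_of_le_of_ne ?_ h1
    show d3 (x N) (x k) (x i) ≤ 0
    rw [e3]
    have := mul_nonneg (hα j) hD.le
    linarith

theorem po_inC {x : Fin n → V3} {N : Fin n} {τ : Tri n}
    (h : isS (fun i j => d3 (x N) (x i) (x j)) τ) : inC x τ (-(x N)) := by
  obtain ⟨h1, h2, h3⟩ := h
  simp only at h1 h2 h3
  refine ⟨?_, ?_, ?_⟩
  · rw [po_neg]; linarith
  · have : d3 (x τ.1) (-(x N)) (x τ.2.2) = - d3 (x N) (x τ.2.2) (x τ.1) := by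
      simp only [d3, Pi.neg_apply]; ring
    rw [this]; linarith
  · have : d3 (x τ.1) (x τ.2.1) (-(x N)) = - d3 (x N) (x τ.1) (x τ.2.1) := by
      simp only [d3, Pi.neg_apply]; ring
    rw [this]; linarith

theorem s_unique {T : Finset (Tri n)} {x : Fin n → V3} (hx : x ∈ RSp T) {N : Fin n} :
    ∀ τ ∈ DD T N, ∀ τ' ∈ DD T N, isS (fun i j => d3 (x N) (x i) (x j)) τ →
      isS (fun i j => d3 (x N) (x i) (x j)) τ' → τ' = τ ∨ τ' = rot3 τ ∨ τ' = rot3 (rot3 τ) := by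
  intro τ hτ τ' hτ' h h'
  exact hx.2 τ (Finset.mem_filter.1 hτ).1 τ' (Finset.mem_filter.1 hτ').1 _ (po_inC h) (po_inC h')

theorem no_north {T : Finset (Tri n)} (hT : Cx T) {x : Fin n → V3} (hx : x ∈ RSp T) {N : Fin n}
    (hN : N ∈ verts T) : ∀ τ ∈ DD T N, ¬ (0 ≤ d3 (x N) (x τ.1) (x τ.2.1) ∧
      0 ≤ d3 (x N) (x τ.2.1) (x τ.2.2) ∧ 0 ≤ d3 (x N) (x τ.2.2) (x τ.1)) := by
  classical
  rintro ⟨i, j, k⟩ hτ ⟨h1, h2, h3⟩
  simp only at h1 h2 h3
  obtain ⟨hτT, hNi, hNj, hNk⟩ : (i, j, k) ∈ T ∧ i ≠ N ∧ j ≠ N ∧ k ≠ N := by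
    simpa [DD] using hτ
  obtain ⟨hij, hjk, hik⟩ := po_distinct hT hτT
  have hD : 0 < d3 (x i) (x j) (x k) := hx.1 _ _ _ hτT
  set D := d3 (x i) (x j) (x k) with hDdef
  obtain ⟨τN, hτN, hτN1⟩ := Finset.mem_image.1 hN
  have hc := cramer (x i) (x j) (x k) (x N)
  have e2 : d3 (x i) (x N) (x k) = d3 (x N) (x k) (x i) := by unfold d3; ring
  have e3 : d3 (x i) (x j) (x N) = d3 (x N) (x i) (x j) := by unfold d3; ring
  rw [e2, e3] at hc
  have hxN : x N = (d3 (x N) (x j) (x k) / D) • x i + (d3 (x N) (x k) (x i) / D) • x j +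
      (d3 (x N) (x i) (x j) / D) • x k := by
    calc x N = D⁻¹ • (D • x N) := by rw [smul_smul, inv_mul_cancel₀ hD.ne', one_smul]
      _ = D⁻¹ • (d3 (x N) (x j) (x k) • x i + d3 (x N) (x k) (x i) • x j +
            d3 (x N) (x i) (x j) • x k) := by rw [← hc]
      _ = _ := by simp only [smul_add, smul_smul, div_eq_inv_mul]
  set α : Fin n → ℝ := fun l => if l = i then d3 (x N) (x j) (x k) / D else
    if l = j then d3 (x N) (x k) (x i) / D else if l = k then d3 (x N) (x i) (x j) / D else 0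
    with hα
  have hαi : α i = d3 (x N) (x j) (x k) / D := by simp [hα]
  have hαj : α j = d3 (x N) (x k) (x i) / D := by simp [hα, hij.symm]
  have hαk : α k = d3 (x N) (x i) (x j) / D := by simp [hα, hik.symm, hjk.symm]
  have hα0 : ∀ l, 0 ≤ α l := by
    intro l
    simp only [hα]
    split_ifs
    · exact div_nonneg h2 hD.le
    · exact div_nonneg h3 hD.le
    · exact div_nonneg h1 hD.le
    · exact le_refl 0
  have hαs : ∀ l, α l ≠ 0 → (l = i ∨ l = j ∨ l = k) := by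
    intro l hl
    simp only [hα] at hl
    split_ifs at hl with h4 h5 h6
    · exact Or.inl h4
    · exact Or.inr (Or.inl h5)
    · exact Or.inr (Or.inr h6)
    · exact absurd rfl hl
  set β : Fin n → ℝ := fun l => if l = N then 1 else 0 with hβ
  have key := GT.fan hT hx hτT hτN (α := α) (β := β) hα0
    (fun l => by simp only [hβ]; split_ifs <;> norm_num) hαs
    (fun l hl => by
      left
      simp only [hβ] at hl
      split_ifs at hl with h4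
      · rw [h4, ← hτN1]
      · exact absurd rfl hl)
    (by
      rw [po_sum x hij hjk hik α hαs, hαi, hαj, hαk, ← hxN]
      simp [hβ])
  have h4 : α N = 1 := by rw [key]; simp [hβ]
  have h5 : α N = 0 := by simp [hα, hNi.symm, hNj.symm, hNk.symm]
  rw [h5] at h4
  exact zero_ne_one h4

end GT
end

section

section

set_option autoImplicit false

namespace GT
open Finset

variable {n : ℕ}

private theorem dn_mem_DD {T : Finset (Tri n)} {N : Fin n} {τ : Tri n} :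
    τ ∈ DD T N ↔ τ ∈ T ∧ τ.1 ≠ N ∧ τ.2.1 ≠ N ∧ τ.2.2 ≠ N := by
  unfold DD
  rw [mem_filter]

private theorem dn_rot_mem {T : Finset (Tri n)} (hT : Cx T) {N : Fin n} {τ : Tri n}
    (h : τ ∈ DD T N) : rot3 τ ∈ DD T N := by
  rw [dn_mem_DD] at *
  obtain ⟨i, j, k⟩ := τ
  exact ⟨hT.rot i j k h.1, h.2.2.1, h.2.2.2, h.2.1⟩

private theorem dn_rot_rot_rot (τ : Tri n) : rot3 (rot3 (rot3 τ)) = τ := rfl

private theorem dn_sum_rot {T : Finset (Tri n)} (hT : Cx T) (N : Fin n) (f : Tri n → ℤ) :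
    ∑ τ ∈ DD T N, f (rot3 τ) = ∑ τ ∈ DD T N, f τ := by
  refine Finset.sum_nbij' rot3 (fun τ => rot3 (rot3 τ)) ?_ ?_ ?_ ?_ ?_
  · exact fun τ h => dn_rot_mem hT h
  · exact fun τ h => dn_rot_mem hT (dn_rot_mem hT h)
  · exact fun τ _ => rfl
  · exact fun τ _ => rfl
  · exact fun τ _ => rfl

/-- a small push of the middle vertex of a D-triple towards the south is in its open cone -/
private theorem dn_coneD {x : Fin n → V3} {N : Fin n} {b : Fin n → Fin n → ℝ}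
    (hb : ∀ i j, b i j = d3 (x N) (x i) (x j)) {i j k : Fin n}
    (h1 : b i j < 0) (h2 : b j k < 0) {ε : ℝ} (hε : 0 < ε)
    (hε2 : ε * b k i < d3 (x i) (x j) (x k)) :
    inC x (i, j, k) (x j + (-ε) • x N) := by
  have e1 : d3 (x j + (-ε) • x N) (x j) (x k) = -ε * b j k := by
    rw [d3_add1, d3_smul1, d3_self12, hb]; ring
  have e2 : d3 (x i) (x j + (-ε) • x N) (x k) = d3 (x i) (x j) (x k) - ε * b k i := by
    rw [d3_add2, d3_smul2, hb, d3_rot (x i) (x N) (x k)]; ring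
  have e3 : d3 (x i) (x j) (x j + (-ε) • x N) = -ε * b i j := by
    rw [d3_add3, d3_smul3, d3_self23, hb, ← d3_rot (x N) (x i) (x j)]; ring
  refine ⟨?_, ?_, ?_⟩
  · show 0 < d3 (x j + (-ε) • x N) (x j) (x k)
    rw [e1]; nlinarith
  · show 0 < d3 (x i) (x j + (-ε) • x N) (x k)
    rw [e2]; linarith
  · show 0 < d3 (x i) (x j) (x j + (-ε) • x N)
    rw [e3]; nlinarith

/-- a small push of a vertex of an S-triple towards the south is in its open cone -/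
private theorem dn_coneS {x : Fin n → V3} {N : Fin n} {b : Fin n → Fin n → ℝ}
    (hb : ∀ i j, b i j = d3 (x N) (x i) (x j)) {j s t : Fin n}
    (hpos : 0 < d3 (x j) (x s) (x t)) (h1 : b j s < 0) (h2 : b s t < 0) (h3 : b t j < 0)
    {ε : ℝ} (hε : 0 < ε) :
    inC x (j, s, t) (x j + (-ε) • x N) := by
  have e1 : d3 (x j + (-ε) • x N) (x s) (x t) = d3 (x j) (x s) (x t) - ε * b s t := by
    rw [d3_add1, d3_smul1, hb]; ring
  have e2 : d3 (x j) (x j + (-ε) • x N) (x t) = -ε * b t j := by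
    rw [d3_add2, d3_smul2, hb, d3_self12, d3_rot (x j) (x N) (x t)]; ring
  have e3 : d3 (x j) (x s) (x j + (-ε) • x N) = -ε * b j s := by
    rw [d3_add3, d3_smul3, d3_self13, hb, ← d3_rot (x N) (x j) (x s)]; ring
  refine ⟨?_, ?_, ?_⟩
  · show 0 < d3 (x j + (-ε) • x N) (x s) (x t)
    rw [e1]; nlinarith
  · show 0 < d3 (x j) (x j + (-ε) • x N) (x t)
    rw [e2]; nlinarith
  · show 0 < d3 (x j) (x s) (x j + (-ε) • x N)
    rw [e3]; nlinarith

private theorem dn_eps {D D' u u' : ℝ} (hD : 0 < D) (hD' : 0 < D') :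
    ∃ ε : ℝ, 0 < ε ∧ ε * u < D ∧ ε * u' < D' := by
  refine ⟨min (D / (|u| + 1)) (D' / (|u'| + 1)), ?_, ?_, ?_⟩
  · exact lt_min (by positivity) (by positivity)
  · have h1 : min (D / (|u| + 1)) (D' / (|u'| + 1)) * u ≤ D / (|u| + 1) * |u| := by
      calc _ ≤ min (D / (|u| + 1)) (D' / (|u'| + 1)) * |u| := by
            refine mul_le_mul_of_nonneg_left (le_abs_self u) (le_min (by positivity) (by positivity))
        _ ≤ _ := mul_le_mul_of_nonneg_right (min_le_left _ _) (abs_nonneg u)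
    refine lt_of_le_of_lt h1 ?_
    rw [div_mul_eq_mul_div, div_lt_iff₀ (by positivity)]
    nlinarith [abs_nonneg u]
  · have h1 : min (D / (|u| + 1)) (D' / (|u'| + 1)) * u' ≤ D' / (|u'| + 1) * |u'| := by
      calc _ ≤ min (D / (|u| + 1)) (D' / (|u'| + 1)) * |u'| := by
            refine mul_le_mul_of_nonneg_left (le_abs_self u') (le_min (by positivity) (by positivity))
        _ ≤ _ := mul_le_mul_of_nonneg_right (min_le_right _ _) (abs_nonneg u')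
    refine lt_of_le_of_lt h1 ?_
    rw [div_mul_eq_mul_div, div_lt_iff₀ (by positivity)]
    nlinarith [abs_nonneg u']

/-- D-triples with the same middle vertex are equal -/
private theorem dn_D_inj {T : Finset (Tri n)} (hT : Cx T) {x : Fin n → V3} (hx : x ∈ RSp T)
    {N : Fin n} {b : Fin n → Fin n → ℝ} (hb : ∀ i j, b i j = d3 (x N) (x i) (x j))
    {τ τ' : Tri n} (hτ : τ ∈ T) (hτ' : τ' ∈ T) (h : isD b τ) (h' : isD b τ')
    (he : τ.2.1 = τ'.2.1) : τ = τ' := by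
  obtain ⟨i, j, k⟩ := τ
  obtain ⟨i', j', k'⟩ := τ'
  simp only at he
  subst he
  obtain ⟨h1, h2, h3⟩ := h
  obtain ⟨h1', h2', h3'⟩ := h'
  simp only at h1 h2 h3 h1' h2' h3'
  have hp := hx.1 _ _ _ hτ
  have hp' := hx.1 _ _ _ hτ'
  obtain ⟨ε, hε, he1, he2⟩ := dn_eps (u := b k i) (u' := b k' i') hp hp'
  have c1 := dn_coneD hb h1 h2 hε he1
  have c2 := dn_coneD hb h1' h2' hε he2
  rcases hx.2 _ hτ _ hτ' _ c1 c2 with h | h | h
  · exact h.symm
  · exfalso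
    have h4 : (i', j, k') = (j, k, i) := h
    simp only [Prod.mk.injEq] at h4
    exact hT.ne _ _ _ (hT.rot _ _ _ hτ) h4.2.1
  · exfalso
    have h4 : (i', j, k') = (k, i, j) := h
    simp only [Prod.mk.injEq] at h4
    exact hT.ne _ _ _ hτ h4.2.1.symm

/-- the middle vertex of a D-triple is not on an S-face -/
private theorem dn_D_S {T : Finset (Tri n)} (hT : Cx T) {x : Fin n → V3} (hx : x ∈ RSp T)
    {N : Fin n} {b : Fin n → Fin n → ℝ} (hb : ∀ i j, b i j = d3 (x N) (x i) (x j))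
    {τ τ' : Tri n} (hτ : τ ∈ T) (hτ' : τ' ∈ T) (h : isD b τ) (h' : isS b τ') :
    τ.2.1 ≠ τ'.1 := by
  obtain ⟨i, j, k⟩ := τ
  obtain ⟨j', s, t⟩ := τ'
  intro he
  simp only at he
  subst he
  obtain ⟨h1, h2, h3⟩ := h
  obtain ⟨h1', h2', h3'⟩ := h'
  simp only at h1 h2 h3 h1' h2' h3'
  have hp := hx.1 _ _ _ hτ
  have hp' := hx.1 _ _ _ hτ'
  obtain ⟨ε, hε, he1, -⟩ := dn_eps (u := b k i) (u' := b k i) hp hp
  have c1 := dn_coneD hb h1 h2 hε he1
  have c2 := dn_coneS hb hp' h1' h2' h3' hε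
  rcases hx.2 _ hτ _ hτ' _ c1 c2 with h | h | h
  · have h4 : (j, s, t) = (i, j, k) := h
    simp only [Prod.mk.injEq] at h4
    exact hT.ne _ _ _ hτ h4.1.symm
  · have h4 : (j, s, t) = (j, k, i) := h
    simp only [Prod.mk.injEq] at h4
    rw [h4.2.1, h4.2.2] at h2'
    linarith
  · have h4 : (j, s, t) = (k, i, j) := h
    simp only [Prod.mk.injEq] at h4
    exact hT.ne _ _ _ (hT.rot _ _ _ hτ) h4.1

open Classical in
/-- the vertices of `P` which are the middle of a D-triple or on the S-face -/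
private theorem dn_card_P {T : Finset (Tri n)} (hT : Cx T) {x : Fin n → V3} (hx : x ∈ RSp T)
    {N : Fin n} {b : Fin n → Fin n → ℝ} (hb : ∀ i j, b i j = d3 (x N) (x i) (x j))
    (P : Finset (Fin n)) :
    ((DD T N).filter (fun τ => isD b τ ∧ τ.2.1 ∈ P)).card +
      ((DD T N).filter (fun τ => isS b τ ∧ τ.1 ∈ P)).card ≤ P.card := by
  have hbS : b = fun i j => d3 (x N) (x i) (x j) := by
    funext i j; exact hb i j
  set A := (DD T N).filter (fun τ => isD b τ ∧ τ.2.1 ∈ P) with hA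
  set B := (DD T N).filter (fun τ => isS b τ ∧ τ.1 ∈ P) with hB
  have hAinj : Set.InjOn (fun τ : Tri n => τ.2.1) A := by
    intro τ hτ τ' hτ' he
    rw [mem_coe, hA, mem_filter] at hτ hτ'
    exact dn_D_inj hT hx hb (dn_mem_DD.1 hτ.1).1 (dn_mem_DD.1 hτ'.1).1 hτ.2.1 hτ'.2.1 he
  have hBinj : Set.InjOn (fun τ : Tri n => τ.1) B := by
    intro τ hτ τ' hτ' he
    rw [mem_coe, hB, mem_filter] at hτ hτ'
    have h1 := hτ.2.1
    have h2 := hτ'.2.1
    rw [hbS] at h1 h2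
    obtain ⟨i, j, k⟩ := τ
    obtain ⟨i', j', k'⟩ := τ'
    simp only at he
    rcases GT.s_unique hx _ hτ.1 _ hτ'.1 h1 h2 with h | h | h
    · exact h.symm
    · exfalso
      have h4 : (i', j', k') = (j, k, i) := h
      simp only [Prod.mk.injEq] at h4
      exact hT.ne _ _ _ (dn_mem_DD.1 hτ.1).1 (he.trans h4.1)
    · exfalso
      have h4 : (i', j', k') = (k, i, j) := h
      simp only [Prod.mk.injEq] at h4
      exact hT.ne _ _ _ (hT.rot _ _ _ (hT.rot _ _ _ (dn_mem_DD.1 hτ.1).1)) (h4.1.symm.trans he.symm)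
  have hdisj : Disjoint (A.image (fun τ => τ.2.1)) (B.image (fun τ => τ.1)) := by
    rw [Finset.disjoint_left]
    intro v hv hv'
    rw [mem_image] at hv hv'
    obtain ⟨τ, hτ, rfl⟩ := hv
    obtain ⟨τ', hτ', he⟩ := hv'
    rw [hA, mem_filter] at hτ
    rw [hB, mem_filter] at hτ'
    exact dn_D_S hT hx hb (dn_mem_DD.1 hτ.1).1 (dn_mem_DD.1 hτ'.1).1 hτ.2.1 hτ'.2.1 he.symm
  rw [← Finset.card_image_of_injOn hAinj, ← Finset.card_image_of_injOn hBinj,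
    ← Finset.card_union_of_disjoint hdisj]
  refine Finset.card_le_card (Finset.union_subset ?_ ?_)
  · intro v hv
    rw [mem_image] at hv
    obtain ⟨τ, hτ, rfl⟩ := hv
    rw [hA, mem_filter] at hτ
    exact hτ.2.2
  · intro v hv
    rw [mem_image] at hv
    obtain ⟨τ, hτ, rfl⟩ := hv
    rw [hB, mem_filter] at hτ
    exact hτ.2.2

open Classical in
/-- darts inside `P` come in pairs with opposite signs -/
private theorem dn_pairs {T : Finset (Tri n)} (hT : Cx T) {x : Fin n → V3}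
    {N : Fin n} {b : Fin n → Fin n → ℝ} (hb : ∀ i j, b i j = d3 (x N) (x i) (x j))
    (hg : GenN T N b) (P : Finset (Fin n)) (hNP : N ∉ P) :
    (T.filter (fun τ => τ.1 ∈ P ∧ τ.2.1 ∈ P)).card =
      2 * (T.filter (fun τ => τ.1 ∈ P ∧ τ.2.1 ∈ P ∧ b τ.1 τ.2.1 < 0)).card := by
  have hanti : ∀ i j, b i j = - b j i := by
    intro i j
    rw [hb, hb, d3_swap23]
  set A := T.filter (fun τ => τ.1 ∈ P ∧ τ.2.1 ∈ P ∧ b τ.1 τ.2.1 < 0) with hA
  set B := T.filter (fun τ => τ.1 ∈ P ∧ τ.2.1 ∈ P ∧ 0 < b τ.1 τ.2.1) with hB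
  have hAB : (T.filter (fun τ => τ.1 ∈ P ∧ τ.2.1 ∈ P)) = A ∪ B := by
    ext τ
    rw [mem_union, hA, hB, mem_filter, mem_filter, mem_filter]
    constructor
    · rintro ⟨h1, h2, h3⟩
      have hne := hg τ h1 (fun h => hNP (h ▸ h2)) (fun h => hNP (h ▸ h3))
      rcases lt_or_gt_of_ne hne with h | h
      · exact Or.inl ⟨h1, h2, h3, h⟩
      · exact Or.inr ⟨h1, h2, h3, h⟩
    · rintro (⟨h1, h2, h3, -⟩ | ⟨h1, h2, h3, -⟩)
      · exact ⟨h1, h2, h3⟩
      · exact ⟨h1, h2, h3⟩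
  have hd : Disjoint A B := by
    rw [Finset.disjoint_left]
    intro τ h1 h2
    rw [hA, mem_filter] at h1
    rw [hB, mem_filter] at h2
    exact lt_asymm h1.2.2.2 h2.2.2.2
  have hcard : A.card = B.card := by
    choose! f hf using hT.sym
    refine Finset.card_bij (fun τ _ => (τ.2.1, τ.1, f τ.1 τ.2.1 τ.2.2)) ?_ ?_ ?_
    · rintro ⟨i, j, k⟩ hτ
      rw [hA, mem_filter] at hτ
      rw [hB, mem_filter]
      refine ⟨hf i j k hτ.1, hτ.2.2.1, hτ.2.1, ?_⟩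
      have h3 := hτ.2.2.2
      simp only at h3 ⊢
      rw [hanti]; linarith
    · rintro ⟨i, j, k⟩ hτ ⟨i', j', k'⟩ hτ' he
      rw [hA, mem_filter] at hτ hτ'
      simp only [Prod.mk.injEq] at he
      obtain ⟨rfl, rfl, -⟩ := he
      rw [hT.uniq _ _ _ _ hτ.1 hτ'.1]
    · rintro ⟨i, j, k⟩ hτ
      rw [hB, mem_filter] at hτ
      obtain ⟨l, hl⟩ := hT.sym _ _ _ hτ.1
      refine ⟨(j, i, l), ?_, ?_⟩
      · rw [hA, mem_filter]
        refine ⟨hl, hτ.2.2.1, hτ.2.1, ?_⟩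
        have h3 := hτ.2.2.2
        simp only at h3 ⊢
        rw [hanti]; linarith
      · have h5 := hf _ _ _ hl
        have h6 := hT.uniq _ _ _ _ hτ.1 h5
        simp only
        rw [← h6]
  rw [hAB, Finset.card_union_of_disjoint hd, ← hcard]
  ring

/-- an indicator as an integer -/
private noncomputable def dnI (p : Prop) : ℤ := by
  classical exact if p then 1 else 0

private theorem dn_card_filter {α : Type} (S : Finset α) (p : α → Prop) [DecidablePred p] :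
    ((S.filter p).card : ℤ) = ∑ τ ∈ S, dnI (p τ) := by
  rw [Finset.card_filter]
  push_cast
  refine Finset.sum_congr rfl fun τ _ => ?_
  unfold dnI
  split_ifs <;> rfl

private theorem dn_I_true {p : Prop} (h : p) : dnI p = 1 := by
  unfold dnI; rw [if_pos h]

private theorem dn_I_false {p : Prop} (h : ¬ p) : dnI p = 0 := by
  unfold dnI; rw [if_neg h]

/-- the summand -/
private noncomputable def dnG (b : Fin n → Fin n → ℝ) (P : Finset (Fin n)) (τ : Tri n) : ℤ :=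
  6 * dnI (isD b τ ∧ τ.2.1 ∈ P) + 6 * dnI (isS b τ ∧ τ.1 ∈ P)
    - 6 * dnI (τ.1 ∈ P ∧ τ.2.1 ∈ P ∧ b τ.1 τ.2.1 < 0)
    + 2 * dnI (τ.1 ∈ P ∧ τ.2.1 ∈ P ∧ τ.2.2 ∈ P)

/-- the lower bound for the summand -/
private noncomputable def dnL (b : Fin n → Fin n → ℝ) (P : Finset (Fin n)) (τ : Tri n) : ℤ :=
  6 * dnI (isD b τ ∧ τ.2.1 ∈ P ∧ τ.1 ∉ P ∧ τ.2.2 ∉ P)
    + 2 * dnI (isS b τ ∧ (τ.1 ∈ P ∨ τ.2.1 ∈ P ∨ τ.2.2 ∈ P))

private theorem dn_pointwise {b : Fin n → Fin n → ℝ}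
    {P : Finset (Fin n)} {i j k : Fin n}
    (hne1 : b i j ≠ 0) (hne2 : b j k ≠ 0) (hne3 : b k i ≠ 0)
    (hno : ¬ (0 < b i j ∧ 0 < b j k ∧ 0 < b k i))
    (hU1 : isU b (i, j, k) → i ∈ P → k ∈ P → j ∈ P)
    (hU2 : isU b (j, k, i) → j ∈ P → i ∈ P → k ∈ P)
    (hU3 : isU b (k, i, j) → k ∈ P → j ∈ P → i ∈ P) :
    dnL b P (i, j, k) + dnL b P (j, k, i) + dnL b P (k, i, j) ≤
      dnG b P (i, j, k) + dnG b P (j, k, i) + dnG b P (k, i, j) := by
  unfold dnL dnG isD isS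
  unfold isU at hU1 hU2 hU3
  simp only at *
  rcases lt_or_gt_of_ne hne1 with h1 | h1 <;> rcases lt_or_gt_of_ne hne2 with h2 | h2 <;>
    rcases lt_or_gt_of_ne hne3 with h3 | h3 <;>
    by_cases hi : i ∈ P <;> by_cases hj : j ∈ P <;> by_cases hk : k ∈ P <;>
    simp_all [dnI, lt_asymm]


theorem down_count {T : Finset (Tri n)} (hT : Cx T) {x : Fin n → V3} (hx : x ∈ RSp T) {N : Fin n}
    (hN : N ∈ verts T) (b : Fin n → Fin n → ℝ) (hb : ∀ i j, b i j = d3 (x N) (x i) (x j))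
    (hg : GenN T N b) (P : Finset (Fin n)) (hP : P ⊆ verts T) (hNP : N ∉ P)
    (hU : ∀ τ ∈ DD T N, isU b τ → τ.1 ∈ P → τ.2.2 ∈ P → τ.2.1 ∈ P)
    (Dp : Finset (Tri n)) (hDp : Dp ⊆ DD T N)
    (hD : ∀ τ ∈ Dp, isD b τ ∧ τ.2.1 ∈ P ∧ τ.1 ∉ P ∧ τ.2.2 ∉ P) :
    6 * (Dp.card : ℤ) ≤ chi6 T P ∧
      ((∃ τ ∈ DD T N, isS b τ ∧ τ.1 ∈ P) → 6 * (Dp.card : ℤ) + 6 ≤ chi6 T P) := by
  classical
  -- the basic inequality
  have hpw : ∀ τ ∈ DD T N, dnL b P τ + dnL b P (rot3 τ) + dnL b P (rot3 (rot3 τ)) ≤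
      dnG b P τ + dnG b P (rot3 τ) + dnG b P (rot3 (rot3 τ)) := by
    rintro ⟨i, j, k⟩ hτ
    have hτ1 := dn_rot_mem hT hτ
    have hτ2 := dn_rot_mem hT hτ1
    have m0 := dn_mem_DD.1 hτ
    have m1 := dn_mem_DD.1 hτ1
    have m2 := dn_mem_DD.1 hτ2
    have hno := GT.no_north hT hx hN _ hτ
    refine dn_pointwise (hg _ m0.1 m0.2.1 m0.2.2.1) (hg _ m1.1 m1.2.1 m1.2.2.1)
      (hg _ m2.1 m2.2.1 m2.2.2.1) ?_ (hU _ hτ) (hU _ hτ1) (hU _ hτ2)
    rintro ⟨h1, h2, h3⟩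
    refine hno ⟨?_, ?_, ?_⟩
    · rw [← hb]; exact h1.le
    · rw [← hb]; exact h2.le
    · rw [← hb]; exact h3.le
  have hsum := Finset.sum_le_sum hpw
  simp only [Finset.sum_add_distrib] at hsum
  rw [dn_sum_rot hT N (dnL b P), dn_sum_rot hT N (fun τ => dnL b P (rot3 τ)),
    dn_sum_rot hT N (dnL b P), dn_sum_rot hT N (dnG b P),
    dn_sum_rot hT N (fun τ => dnG b P (rot3 τ)), dn_sum_rot hT N (dnG b P)] at hsum
  have hLG : ∑ τ ∈ DD T N, dnL b P τ ≤ ∑ τ ∈ DD T N, dnG b P τ := by linarith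
  -- evaluation of the sum of dnG
  have hG : ∑ τ ∈ DD T N, dnG b P τ =
      6 * (((DD T N).filter (fun τ => isD b τ ∧ τ.2.1 ∈ P)).card : ℤ) +
      6 * (((DD T N).filter (fun τ => isS b τ ∧ τ.1 ∈ P)).card : ℤ) -
      6 * (((DD T N).filter (fun τ => τ.1 ∈ P ∧ τ.2.1 ∈ P ∧ b τ.1 τ.2.1 < 0)).card : ℤ) +
      2 * (((DD T N).filter (fun τ => τ.1 ∈ P ∧ τ.2.1 ∈ P ∧ τ.2.2 ∈ P)).card : ℤ) := by
    rw [dn_card_filter, dn_card_filter, dn_card_filter, dn_card_filter, Finset.mul_sum,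
      Finset.mul_sum, Finset.mul_sum, Finset.mul_sum, ← Finset.sum_add_distrib,
      ← Finset.sum_sub_distrib, ← Finset.sum_add_distrib]
    rfl
  have e1 : (DD T N).filter (fun τ => τ.1 ∈ P ∧ τ.2.1 ∈ P ∧ b τ.1 τ.2.1 < 0) =
      T.filter (fun τ => τ.1 ∈ P ∧ τ.2.1 ∈ P ∧ b τ.1 τ.2.1 < 0) := by
    ext ⟨i, j, k⟩
    rw [mem_filter, mem_filter, dn_mem_DD]
    constructor
    · rintro ⟨⟨h1, -⟩, h2⟩
      exact ⟨h1, h2⟩
    · rintro ⟨h1, h2, h3, h4⟩
      refine ⟨⟨h1, fun h => hNP (h ▸ h2), fun h => hNP (h ▸ h3), ?_⟩, h2, h3, h4⟩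
      intro h
      simp only at h h4
      subst h
      have h5 := hx.1 _ _ _ (hT.rot _ _ _ (hT.rot _ _ _ h1))
      rw [hb] at h4
      linarith
  have e2 : (DD T N).filter (fun τ => τ.1 ∈ P ∧ τ.2.1 ∈ P ∧ τ.2.2 ∈ P) =
      T.filter (fun τ => τ.1 ∈ P ∧ τ.2.1 ∈ P ∧ τ.2.2 ∈ P) := by
    ext ⟨i, j, k⟩
    rw [mem_filter, mem_filter, dn_mem_DD]
    constructor
    · rintro ⟨⟨h1, -⟩, h2⟩
      exact ⟨h1, h2⟩
    · rintro ⟨h1, h2, h3, h4⟩
      exact ⟨⟨h1, fun h => hNP (h ▸ h2), fun h => hNP (h ▸ h3), fun h => hNP (h ▸ h4)⟩,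
        h2, h3, h4⟩
  have hpairs := dn_pairs hT hb hg P hNP
  have hcard := dn_card_P hT hx hb P
  have hchi : ∑ τ ∈ DD T N, dnG b P τ ≤ chi6 T P := by
    rw [hG, e1, e2]
    unfold chi6
    have h1 : ((T.filter (fun τ => τ.1 ∈ P ∧ τ.2.1 ∈ P)).card : ℤ) =
        2 * ((T.filter (fun τ => τ.1 ∈ P ∧ τ.2.1 ∈ P ∧ b τ.1 τ.2.1 < 0)).card : ℤ) := by
      exact_mod_cast hpairs
    have h2 : (((DD T N).filter (fun τ => isD b τ ∧ τ.2.1 ∈ P)).card : ℤ) +
      (((DD T N).filter (fun τ => isS b τ ∧ τ.1 ∈ P)).card : ℤ) ≤ (P.card : ℤ) := by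
      exact_mod_cast hcard
    rw [h1]
    linarith
  -- evaluation of the sum of dnL
  have hL : ∑ τ ∈ DD T N, dnL b P τ =
      6 * (((DD T N).filter (fun τ => isD b τ ∧ τ.2.1 ∈ P ∧ τ.1 ∉ P ∧ τ.2.2 ∉ P)).card : ℤ) +
      2 * (((DD T N).filter (fun τ => isS b τ ∧ (τ.1 ∈ P ∨ τ.2.1 ∈ P ∨ τ.2.2 ∈ P))).card : ℤ) := by
    rw [dn_card_filter, dn_card_filter, Finset.mul_sum, Finset.mul_sum, ← Finset.sum_add_distrib]
    rfl
  have hDc : (Dp.card : ℤ) ≤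
      (((DD T N).filter (fun τ => isD b τ ∧ τ.2.1 ∈ P ∧ τ.1 ∉ P ∧ τ.2.2 ∉ P)).card : ℤ) := by
    have : Dp ⊆ (DD T N).filter (fun τ => isD b τ ∧ τ.2.1 ∈ P ∧ τ.1 ∉ P ∧ τ.2.2 ∉ P) := by
      intro τ hτ
      rw [mem_filter]
      exact ⟨hDp hτ, hD τ hτ⟩
    exact_mod_cast Finset.card_le_card this
  have hfin : 6 * (Dp.card : ℤ) +
      2 * (((DD T N).filter (fun τ => isS b τ ∧ (τ.1 ∈ P ∨ τ.2.1 ∈ P ∨ τ.2.2 ∈ P))).card : ℤ) ≤
      chi6 T P := by
    rw [hL] at hLG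
    linarith
  constructor
  · have : (0 : ℤ) ≤
      (((DD T N).filter (fun τ => isS b τ ∧ (τ.1 ∈ P ∨ τ.2.1 ∈ P ∨ τ.2.2 ∈ P))).card : ℤ) :=
      Int.natCast_nonneg _
    linarith
  · rintro ⟨⟨i, j, k⟩, hτ, hS, hτP⟩
    have hne1 : i ≠ j := hT.ne _ _ _ (dn_mem_DD.1 hτ).1
    have hne2 : j ≠ k := hT.ne _ _ _ (hT.rot _ _ _ (dn_mem_DD.1 hτ).1)
    have hne3 : k ≠ i := hT.ne _ _ _ (hT.rot _ _ _ (hT.rot _ _ _ (dn_mem_DD.1 hτ).1))
    obtain ⟨s1, s2, s3⟩ := hS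
    simp only at s1 s2 s3 hτP
    have hsub : ({(i, j, k), (j, k, i), (k, i, j)} : Finset (Tri n)) ⊆
        (DD T N).filter (fun τ => isS b τ ∧ (τ.1 ∈ P ∨ τ.2.1 ∈ P ∨ τ.2.2 ∈ P)) := by
      intro σ hσ
      simp only [mem_insert, mem_singleton] at hσ
      rw [mem_filter]
      rcases hσ with rfl | rfl | rfl
      · exact ⟨hτ, ⟨s1, s2, s3⟩, Or.inl hτP⟩
      · exact ⟨dn_rot_mem hT hτ, ⟨s2, s3, s1⟩, Or.inr (Or.inr hτP)⟩
      · exact ⟨dn_rot_mem hT (dn_rot_mem hT hτ), ⟨s3, s1, s2⟩, Or.inr (Or.inl hτP)⟩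
    have hc3 : ({(i, j, k), (j, k, i), (k, i, j)} : Finset (Tri n)).card = 3 := by
      rw [Finset.card_eq_three]
      refine ⟨_, _, _, ?_, ?_, ?_, rfl⟩
      · simp only [ne_eq, Prod.mk.injEq, not_and]
        exact fun h => absurd h hne1
      · simp only [ne_eq, Prod.mk.injEq, not_and]
        exact fun h => absurd h hne3.symm
      · simp only [ne_eq, Prod.mk.injEq, not_and]
        exact fun h => absurd h hne2
    have h3 := Finset.card_le_card hsub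
    rw [hc3] at h3
    have h4 : (3 : ℤ) ≤
      (((DD T N).filter (fun τ => isS b τ ∧ (τ.1 ∈ P ∨ τ.2.1 ∈ P ∨ τ.2.2 ∈ P))).card : ℤ) := by
      exact_mod_cast h3
    linarith

end GT
end

section

/-! # GT-7c: the upper counting inequality -/

set_option autoImplicit false

namespace GT
open Finset

variable {n : ℕ}

private theorem up_rot {T : Finset (Tri n)} (hT : Cx T) {τ : Tri n} (h : τ ∈ T) : rot3 τ ∈ T :=
  hT.rot _ _ _ h

private theorem up_rotDD {T : Finset (Tri n)} {N : Fin n} (hT : Cx T) {τ : Tri n}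
    (h : τ ∈ DD T N) : rot3 τ ∈ DD T N := by
  unfold DD at h ⊢
  rw [Finset.mem_filter] at h ⊢
  exact ⟨up_rot hT h.1, h.2.2.1, h.2.2.2, h.2.1⟩

private theorem up_sum_rot {T : Finset (Tri n)} {N : Fin n} (hT : Cx T) (f : Tri n → ℤ) :
    ∑ τ ∈ DD T N, f (rot3 τ) = ∑ τ ∈ DD T N, f τ :=
  Finset.sum_nbij' rot3 (fun τ => rot3 (rot3 τ)) (fun _ h => up_rotDD hT h)
    (fun _ h => up_rotDD hT (up_rotDD hT h)) (fun _ _ => rfl) (fun _ _ => rfl) (fun _ _ => rfl)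

private theorem up_sum_le {T : Finset (Tri n)} {N : Fin n} (hT : Cx T) (f g : Tri n → ℤ)
    (h : ∀ τ ∈ DD T N, f τ + f (rot3 τ) + f (rot3 (rot3 τ)) ≤
      g τ + g (rot3 τ) + g (rot3 (rot3 τ))) :
    ∑ τ ∈ DD T N, f τ ≤ ∑ τ ∈ DD T N, g τ := by
  have h1 := Finset.sum_le_sum h
  simp only [Finset.sum_add_distrib] at h1
  have h2 := up_sum_rot (N := N) hT (fun τ => f (rot3 τ))
  have h3 := up_sum_rot (N := N) hT (fun τ => g (rot3 τ))
  have h4 := up_sum_rot (N := N) hT f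
  have h5 := up_sum_rot (N := N) hT g
  rw [h2, h3, h4, h5] at h1
  linarith

open Filter Topology in
private theorem up_ev {D : ℝ} (hD : 0 < D) (q : ℝ) : ∀ᶠ ε in 𝓝[>] (0 : ℝ), 0 < D + ε * q := by
  have h1 : Continuous (fun ε : ℝ => D + ε * q) := by fun_prop
  have h2 : ∀ᶠ ε in 𝓝 (0 : ℝ), 0 < D + ε * q :=
    h1.continuousAt.eventually (lt_mem_nhds (by simpa using hD))
  exact h2.filter_mono nhdsWithin_le_nhds

open Filter Topology in
private theorem up_inC {x : Fin n → V3} {i j k N : Fin n} (hD : 0 < d3 (x i) (x j) (x k))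
    (h1 : 0 < d3 (x N) (x i) (x j)) (h2 : 0 < d3 (x N) (x j) (x k)) :
    ∀ᶠ ε in 𝓝[>] (0 : ℝ), inC x (i, j, k) (x j + ε • x N) := by
  filter_upwards [up_ev hD (d3 (x N) (x k) (x i)), self_mem_nhdsWithin] with ε h3 h4
  have h4' : 0 < ε := h4
  refine ⟨?_, ?_, ?_⟩
  · have : d3 (x j + ε • x N) (x j) (x k) = ε * d3 (x N) (x j) (x k) := by
      simp [d3]; ring
    simp only [this]
    positivity
  · have : d3 (x i) (x j + ε • x N) (x k) = d3 (x i) (x j) (x k) + ε * d3 (x N) (x k) (x i) := by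
      simp [d3]; ring
    simp only [this]
    exact h3
  · have : d3 (x i) (x j) (x j + ε • x N) = ε * d3 (x N) (x i) (x j) := by
      simp [d3]; ring
    simp only [this]
    positivity

open Filter Topology in
private theorem up_inC_add {x : Fin n → V3} {i j k : Fin n} {y z : V3}
    (h : inC x (i, j, k) y) : ∀ᶠ δ in 𝓝[>] (0 : ℝ), inC x (i, j, k) (y + δ • z) := by
  obtain ⟨h1, h2, h3⟩ := h
  filter_upwards [up_ev h1 (d3 z (x j) (x k)), up_ev h2 (d3 (x i) z (x k)),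
    up_ev h3 (d3 (x i) (x j) z)] with δ k1 k2 k3
  refine ⟨?_, ?_, ?_⟩
  · have : d3 (y + δ • z) (x j) (x k) = d3 y (x j) (x k) + δ * d3 z (x j) (x k) := by
      simp [d3]; ring
    simp only [this]
    exact k1
  · have : d3 (x i) (y + δ • z) (x k) = d3 (x i) y (x k) + δ * d3 (x i) z (x k) := by
      simp [d3]; ring
    simp only [this]
    exact k2
  · have : d3 (x i) (x j) (y + δ • z) = d3 (x i) (x j) y + δ * d3 (x i) (x j) z := by
      simp [d3]; ring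
    simp only [this]
    exact k3

private theorem up_inC_N {x : Fin n → V3} {j l N : Fin n} (hD : 0 < d3 (x N) (x j) (x l))
    {ε δ : ℝ} (hε : 0 < ε) (hδ : 0 < δ) : inC x (N, j, l) (x j + ε • x N + δ • x l) := by
  refine ⟨?_, ?_, ?_⟩
  · have : d3 (x j + ε • x N + δ • x l) (x j) (x l) = ε * d3 (x N) (x j) (x l) := by
      simp [d3]; ring
    simp only [this]
    positivity
  · have : d3 (x N) (x j + ε • x N + δ • x l) (x l) = d3 (x N) (x j) (x l) := by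
      simp [d3]; ring
    simp only [this]
    exact hD
  · have : d3 (x N) (x j) (x j + ε • x N + δ • x l) = δ * d3 (x N) (x j) (x l) := by
      simp [d3]; ring
    simp only [this]
    positivity

/-- U-triples with the same middle vertex are equal -/
private theorem up_mid_inj {T : Finset (Tri n)} (hT : Cx T) {x : Fin n → V3} (hx : x ∈ RSp T)
    {N : Fin n} {τ τ' : Tri n} (hτ : τ ∈ T) (hτ' : τ' ∈ T)
    (h1 : 0 < d3 (x N) (x τ.1) (x τ.2.1)) (h2 : 0 < d3 (x N) (x τ.2.1) (x τ.2.2))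
    (h1' : 0 < d3 (x N) (x τ'.1) (x τ'.2.1)) (h2' : 0 < d3 (x N) (x τ'.2.1) (x τ'.2.2))
    (hm : τ.2.1 = τ'.2.1) : τ = τ' := by
  obtain ⟨i, j, k⟩ := τ
  obtain ⟨i', j', k'⟩ := τ'
  simp only at h1 h2 h1' h2' hm
  subst hm
  have e1 := up_inC (hx.1 _ _ _ hτ) h1 h2
  have e2 := up_inC (hx.1 _ _ _ hτ') h1' h2'
  obtain ⟨ε, k1, k2⟩ := (e1.and e2).exists
  have hij : i ≠ j := hT.ne _ _ _ hτ
  have hjk : j ≠ k := hT.ne _ _ _ (hT.rot _ _ _ hτ)
  rcases hx.2 _ hτ _ hτ' _ k1 k2 with h | h | h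
  · exact h.symm
  · exfalso
    simp only [rot3, Prod.mk.injEq] at h
    exact hjk h.2.1
  · exfalso
    simp only [rot3, Prod.mk.injEq] at h
    exact hij h.2.1.symm

/-- the middle vertex of a U-triple is not in the link of the pole -/
private theorem up_mid_link {T : Finset (Tri n)} (_hT : Cx T) {x : Fin n → V3} (hx : x ∈ RSp T)
    {N : Fin n} {τ : Tri n} (hτ : τ ∈ DD T N)
    (h1 : 0 < d3 (x N) (x τ.1) (x τ.2.1)) (h2 : 0 < d3 (x N) (x τ.2.1) (x τ.2.2)) :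
    τ.2.1 ∉ link T N := by
  obtain ⟨i, j, k⟩ := τ
  simp only at h1 h2 ⊢
  intro hl
  unfold link at hl
  simp only [Finset.mem_image, Finset.mem_filter] at hl
  obtain ⟨⟨N', j', l⟩, ⟨hσ, hN'⟩, hj'⟩ := hl
  simp only at hN' hj'
  subst hN' hj'
  unfold DD at hτ
  rw [Finset.mem_filter] at hτ
  obtain ⟨hτT, hiN, hjN, hkN⟩ := hτ
  simp only at hiN hjN hkN
  have hD := hx.1 _ _ _ hσ
  obtain ⟨ε, e1, hε⟩ := ((up_inC (hx.1 _ _ _ hτT) h1 h2).and
    (self_mem_nhdsWithin : Set.Ioi (0 : ℝ) ∈ nhdsWithin 0 (Set.Ioi 0))).exists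
  obtain ⟨δ, d1, hδ⟩ := ((up_inC_add (z := x l) e1).and
    (self_mem_nhdsWithin : Set.Ioi (0 : ℝ) ∈ nhdsWithin 0 (Set.Ioi 0))).exists
  have e2 := up_inC_N hD (Set.mem_Ioi.1 hε) (Set.mem_Ioi.1 hδ)
  rcases hx.2 _ hτT _ hσ _ d1 e2 with h | h | h
  · simp only [Prod.mk.injEq] at h
    exact hiN h.1.symm
  · simp only [rot3, Prod.mk.injEq] at h
    exact hjN h.1.symm
  · simp only [rot3, Prod.mk.injEq] at h
    exact hkN h.1.symm

private theorem up_link {T : Finset (Tri n)} (hT : Cx T) {N i j : Fin n} (h : (N, i, j) ∈ T) :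
    i ∈ link T N ∧ j ∈ link T N := by
  unfold link
  simp only [Finset.mem_image, Finset.mem_filter]
  constructor
  · exact ⟨_, ⟨h, rfl⟩, rfl⟩
  · obtain ⟨l, hl⟩ := hT.sym _ _ _ (hT.rot _ _ _ (hT.rot _ _ _ h))
    exact ⟨_, ⟨hl, rfl⟩, rfl⟩

/-- the number of darts in `P` is twice the number of positive ones -/
private theorem up_darts {T : Finset (Tri n)} (hT : Cx T) {N : Fin n} (b : Fin n → Fin n → ℝ)
    (hanti : ∀ i j, b i j = - b j i) (hg : GenN T N b) (P : Finset (Fin n)) (hNP : N ∉ P) :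
    (T.filter (fun τ => τ.1 ∈ P ∧ τ.2.1 ∈ P)).card =
      2 * (T.filter (fun τ => (τ.1 ∈ P ∧ τ.2.1 ∈ P) ∧ 0 < b τ.1 τ.2.1)).card := by
  classical
  have hinj : ∀ (q : Tri n → Prop) [DecidablePred q],
      ((T.filter q).image (fun τ => (τ.1, τ.2.1))).card = (T.filter q).card := by
    intro q _
    refine Finset.card_image_of_injOn ?_
    rintro ⟨i, j, k⟩ h ⟨i', j', k'⟩ h' he
    simp only [Prod.mk.injEq] at he
    obtain ⟨rfl, rfl⟩ := he
    have h1 := (Finset.mem_filter.1 (Finset.mem_coe.1 h)).1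
    have h2 := (Finset.mem_filter.1 (Finset.mem_coe.1 h')).1
    rw [hT.uniq _ _ _ _ h1 h2]
  have hsplit : (T.filter (fun τ => τ.1 ∈ P ∧ τ.2.1 ∈ P)).card =
      (T.filter (fun τ => (τ.1 ∈ P ∧ τ.2.1 ∈ P) ∧ 0 < b τ.1 τ.2.1)).card +
      (T.filter (fun τ => (τ.1 ∈ P ∧ τ.2.1 ∈ P) ∧ ¬ 0 < b τ.1 τ.2.1)).card := by
    have h1 := Finset.card_filter_add_card_filter_not
      (s := T.filter (fun τ => τ.1 ∈ P ∧ τ.2.1 ∈ P)) (fun τ => 0 < b τ.1 τ.2.1)
    rw [Finset.filter_filter, Finset.filter_filter] at h1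
    exact h1.symm
  have hswap : (T.filter (fun τ => (τ.1 ∈ P ∧ τ.2.1 ∈ P) ∧ ¬ 0 < b τ.1 τ.2.1)).image
      (fun τ => (τ.1, τ.2.1)) =
      ((T.filter (fun τ => (τ.1 ∈ P ∧ τ.2.1 ∈ P) ∧ 0 < b τ.1 τ.2.1)).image
      (fun τ => (τ.1, τ.2.1))).image Prod.swap := by
    ext ⟨i, j⟩
    simp only [Finset.mem_image, Finset.mem_filter]
    constructor
    · rintro ⟨⟨i', j', k⟩, ⟨hτ, ⟨hi, hj⟩, hs⟩, he⟩
      simp only [Prod.mk.injEq] at he hi hj hs
      obtain ⟨rfl, rfl⟩ := he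
      obtain ⟨l, hl⟩ := hT.sym _ _ _ hτ
      have hne := hg _ hτ (fun h => hNP (h ▸ hi)) (fun h => hNP (h ▸ hj))
      simp only at hne
      refine ⟨(j', i'), ⟨(j', i', l), ⟨hl, ⟨hj, hi⟩, ?_⟩, rfl⟩, rfl⟩
      change 0 < b j' i'
      rw [hanti]
      have : b i' j' < 0 := lt_of_le_of_ne (not_lt.1 hs) hne
      linarith
    · rintro ⟨⟨i', j'⟩, ⟨⟨i'', j'', k⟩, ⟨hτ, ⟨hi, hj⟩, hs⟩, he⟩, he'⟩
      simp only [Prod.mk.injEq, Prod.swap_prod_mk] at he he' hi hj hs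
      obtain ⟨rfl, rfl⟩ := he
      obtain ⟨rfl, rfl⟩ := he'
      obtain ⟨l, hl⟩ := hT.sym _ _ _ hτ
      refine ⟨(j'', i'', l), ⟨hl, ⟨hj, hi⟩, ?_⟩, rfl⟩
      change ¬ 0 < b j'' i''
      rw [hanti]
      linarith
  have hcard : (T.filter (fun τ => (τ.1 ∈ P ∧ τ.2.1 ∈ P) ∧ ¬ 0 < b τ.1 τ.2.1)).card =
      (T.filter (fun τ => (τ.1 ∈ P ∧ τ.2.1 ∈ P) ∧ 0 < b τ.1 τ.2.1)).card := by
    rw [← hinj, hswap, Finset.card_image_of_injective _ Prod.swap_injective, hinj]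
  rw [hsplit, hcard]
  ring

theorem up_count {T : Finset (Tri n)} (hT : Cx T) {x : Fin n → V3} (hx : x ∈ RSp T) {N : Fin n}
    (hN : N ∈ verts T) (b : Fin n → Fin n → ℝ) (hb : ∀ i j, b i j = d3 (x N) (x i) (x j))
    (hg : GenN T N b) (P : Finset (Fin n)) (hP : P ⊆ verts T) (hNP : N ∉ P)
    (w : Fin n) (hw : w ∈ link T N) (hwP : w ∈ P) (hw1 : ∀ j ∈ link T N, j ∈ P → j = w)
    (hD : ∀ τ ∈ DD T N, isD b τ → τ.1 ∈ P → τ.2.2 ∈ P → τ.2.1 ∈ P)
    (Up : Finset (Tri n)) (hUp : Up ⊆ DD T N)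
    (hU : ∀ τ ∈ Up, isU b τ ∧ τ.2.1 ∈ P ∧ τ.1 ∉ P ∧ τ.2.2 ∉ P) :
    6 * (Up.card : ℤ) + 6 ≤ chi6 T P := by
  classical
  have _ := hP
  have hanti : ∀ i j, b i j = - b j i := by
    intro i j
    rw [hb, hb]
    simp only [d3]
    ring
  have hmemDD : ∀ τ, τ ∈ DD T N ↔ τ ∈ T ∧ τ.1 ≠ N ∧ τ.2.1 ≠ N ∧ τ.2.2 ≠ N := by
    intro τ
    unfold DD
    rw [Finset.mem_filter]
  -- vertices
  have hvert : (((DD T N).filter (fun τ => isU b τ ∧ τ.2.1 ∈ P)).card : ℤ) + 1 ≤ P.card := by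
    have h1 : (((DD T N).filter (fun τ => isU b τ ∧ τ.2.1 ∈ P)).image (fun τ => τ.2.1)).card =
        ((DD T N).filter (fun τ => isU b τ ∧ τ.2.1 ∈ P)).card := by
      refine Finset.card_image_of_injOn ?_
      intro τ h τ' h' he
      have k1 := Finset.mem_filter.1 (Finset.mem_coe.1 h)
      have k2 := Finset.mem_filter.1 (Finset.mem_coe.1 h')
      have u1 := k1.2.1
      have u2 := k2.2.1
      unfold isU at u1 u2
      simp only [hb] at u1 u2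
      exact up_mid_inj hT hx ((hmemDD τ).1 k1.1).1 ((hmemDD τ').1 k2.1).1 u1.1 u1.2.1 u2.1 u2.2.1 he
    have h2 : ((DD T N).filter (fun τ => isU b τ ∧ τ.2.1 ∈ P)).image (fun τ => τ.2.1) ⊆
        P.erase w := by
      intro j hj
      rw [Finset.mem_image] at hj
      obtain ⟨τ, hτ, rfl⟩ := hj
      have k1 := Finset.mem_filter.1 hτ
      have u1 := k1.2.1
      unfold isU at u1
      simp only [hb] at u1
      rw [Finset.mem_erase]
      refine ⟨?_, k1.2.2⟩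
      intro he
      apply up_mid_link hT hx k1.1 u1.1 u1.2.1
      rw [he]
      exact hw
    have h3 := Finset.card_le_card h2
    rw [h1, Finset.card_erase_of_mem hwP] at h3
    have h4 : 0 < P.card := Finset.card_pos.2 ⟨w, hwP⟩
    omega
  -- edges
  have hedge := up_darts hT b hanti hg P hNP
  have hedge2 : T.filter (fun τ => (τ.1 ∈ P ∧ τ.2.1 ∈ P) ∧ 0 < b τ.1 τ.2.1) =
      (DD T N).filter (fun τ => (τ.1 ∈ P ∧ τ.2.1 ∈ P) ∧ 0 < b τ.1 τ.2.1) := by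
    ext ⟨i, j, k⟩
    rw [Finset.mem_filter, Finset.mem_filter, hmemDD]
    constructor
    · rintro ⟨h1, ⟨h2, h3⟩, h4⟩
      refine ⟨⟨h1, fun h => hNP (h ▸ h2), fun h => hNP (h ▸ h3), ?_⟩, ⟨h2, h3⟩, h4⟩
      intro hk
      simp only at h2 h3 hk
      subst hk
      obtain ⟨l1, l2⟩ := up_link hT (hT.rot _ _ _ (hT.rot _ _ _ h1))
      have e1 := hw1 _ l1 h2
      have e2 := hw1 _ l2 h3
      exact hT.ne _ _ _ h1 (e1.trans e2.symm)
    · rintro ⟨h1, h2⟩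
      exact ⟨h1.1, h2⟩
  -- faces
  have hface : T.filter (fun τ => τ.1 ∈ P ∧ τ.2.1 ∈ P ∧ τ.2.2 ∈ P) =
      (DD T N).filter (fun τ => τ.1 ∈ P ∧ τ.2.1 ∈ P ∧ τ.2.2 ∈ P) := by
    ext ⟨i, j, k⟩
    rw [Finset.mem_filter, Finset.mem_filter, hmemDD]
    constructor
    · rintro ⟨h1, h2, h3, h4⟩
      exact ⟨⟨h1, fun h => hNP (h ▸ h2), fun h => hNP (h ▸ h3), fun h => hNP (h ▸ h4)⟩, h2, h3, h4⟩
    · rintro ⟨h1, h2⟩
      exact ⟨h1.1, h2⟩
  -- the sums
  have hUpc : (Up.card : ℤ) ≤ ∑ τ ∈ DD T N,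
      (if isU b τ ∧ τ.2.1 ∈ P ∧ τ.1 ∉ P ∧ τ.2.2 ∉ P then (1 : ℤ) else 0) := by
    rw [Finset.sum_boole]
    have : Up ⊆ (DD T N).filter (fun τ => isU b τ ∧ τ.2.1 ∈ P ∧ τ.1 ∉ P ∧ τ.2.2 ∉ P) := by
      intro τ hτ
      rw [Finset.mem_filter]
      exact ⟨hUp hτ, hU τ hτ⟩
    exact_mod_cast Finset.card_le_card this
  have hmain : ∑ τ ∈ DD T N,
      6 * (if isU b τ ∧ τ.2.1 ∈ P ∧ τ.1 ∉ P ∧ τ.2.2 ∉ P then (1 : ℤ) else 0) ≤
      ∑ τ ∈ DD T N, (6 * (if isU b τ ∧ τ.2.1 ∈ P then (1 : ℤ) else 0) -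
        6 * (if (τ.1 ∈ P ∧ τ.2.1 ∈ P) ∧ 0 < b τ.1 τ.2.1 then 1 else 0) +
        2 * (if τ.1 ∈ P ∧ τ.2.1 ∈ P ∧ τ.2.2 ∈ P then 1 else 0)) := by
    refine up_sum_le hT _ _ fun τ hτ => ?_
    have hτ1 := up_rotDD hT hτ
    have hτ2 := up_rotDD hT hτ1
    have g1 := hg τ ((hmemDD τ).1 hτ).1 ((hmemDD τ).1 hτ).2.1 ((hmemDD τ).1 hτ).2.2.1
    have g2 := hg _ ((hmemDD _).1 hτ1).1 ((hmemDD _).1 hτ1).2.1 ((hmemDD _).1 hτ1).2.2.1
    have g3 := hg _ ((hmemDD _).1 hτ2).1 ((hmemDD _).1 hτ2).2.1 ((hmemDD _).1 hτ2).2.2.1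
    have d1 := hD τ hτ
    have d2 := hD _ hτ1
    have d3 := hD _ hτ2
    have hno := GT.no_north hT hx hN τ hτ
    simp only [← hb] at hno
    obtain ⟨i, j, k⟩ := τ
    simp only [rot3, isU, isD] at *
    clear hτ hτ1 hτ2 hUpc hface hedge2 hedge hvert hU hw1 hD hmemDD
    rcases lt_or_gt_of_ne g1 with s1 | s1 <;> rcases lt_or_gt_of_ne g2 with s2 | s2 <;>
      rcases lt_or_gt_of_ne g3 with s3 | s3 <;>
      simp only [s1, s2, s3, not_lt_of_gt s1, not_lt_of_gt s2, not_lt_of_gt s3, s1.le, s2.le,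
        s3.le, true_and, false_and, and_true, and_false, if_false, not_true_eq_false,
        true_implies, and_self] at d1 d2 d3 hno ⊢ <;>
      by_cases m1 : i ∈ P <;> by_cases m2 : j ∈ P <;> by_cases m3 : k ∈ P <;>
      simp [m1, m2, m3] at d1 d2 d3 ⊢
  rw [← Finset.mul_sum] at hmain
  rw [Finset.sum_add_distrib, Finset.sum_sub_distrib, ← Finset.mul_sum, ← Finset.mul_sum,
    ← Finset.mul_sum] at hmain
  have e1 : (∑ τ ∈ DD T N, (if isU b τ ∧ τ.2.1 ∈ P then (1 : ℤ) else 0)) =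
      (((DD T N).filter (fun τ => isU b τ ∧ τ.2.1 ∈ P)).card : ℤ) := by
    rw [Finset.sum_boole]
  have e2 : (∑ τ ∈ DD T N, (if (τ.1 ∈ P ∧ τ.2.1 ∈ P) ∧ 0 < b τ.1 τ.2.1 then (1 : ℤ) else 0)) =
      (((DD T N).filter (fun τ => (τ.1 ∈ P ∧ τ.2.1 ∈ P) ∧ 0 < b τ.1 τ.2.1)).card : ℤ) := by
    rw [Finset.sum_boole]
  have e3 : (∑ τ ∈ DD T N, (if τ.1 ∈ P ∧ τ.2.1 ∈ P ∧ τ.2.2 ∈ P then (1 : ℤ) else 0)) =
      (((DD T N).filter (fun τ => τ.1 ∈ P ∧ τ.2.1 ∈ P ∧ τ.2.2 ∈ P)).card : ℤ) := by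
    rw [Finset.sum_boole]
  rw [e1, e2, e3] at hmain
  unfold chi6
  rw [hedge, hedge2, hface]
  push_cast
  linarith

end GT
end

section

/-!
# MP_c41363_gt, GT-7d: Euler characteristic and the generic bracket
-/

set_option autoImplicit false

namespace GT

open Finset

variable {n : ℕ}

theorem eg_d3_zero1 (b c : V3) : d3 0 b c = 0 := by simp [d3]

theorem eg_ne_zero {T : Finset (Tri n)} (hT : Cx T) {x : Fin n → V3} (hx : x ∈ RSp T) {N : Fin n}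
    (hN : N ∈ verts T) : x N ≠ 0 ∧ ∃ j k, (N, j, k) ∈ T := by
  obtain ⟨⟨a, b, c⟩, hτ, rfl⟩ := Finset.mem_image.mp hN
  refine ⟨?_, b, c, hτ⟩
  intro h0
  have h1 := hx.1 a b c hτ
  simp only at h0
  rw [h0, eg_d3_zero1] at h1
  exact lt_irrefl _ h1

/-- generic perturbation -/
theorem eg_perturb {T : Finset (Tri n)} (hT : Cx T) {x : Fin n → V3} (hx : x ∈ RSp T) {N : Fin n}
    (hN : N ∈ verts T) : ∃ x' ∈ RSp T,
      (∀ i j, i ≠ j → i ≠ N → j ≠ N → d3 (x' N) (x' i) (x' j) ≠ 0) ∧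
      (∀ i j, 0 < d3 (x N) (x i) (x j) → 0 < d3 (x' N) (x' i) (x' j)) ∧
      (∀ i j, d3 (x N) (x i) (x j) < 0 → d3 (x' N) (x' i) (x' j) < 0) := by
  obtain ⟨ε, hε, hball⟩ := Metric.isOpen_iff.mp (GT.isOpen_RSp hT) x hx
  obtain ⟨x', _, h1, h2, h3, h4⟩ := GT.avoid_config x N (eg_ne_zero hT hx hN).1 ε hε
  refine ⟨x', hball ?_, h2, h3, h4⟩
  rw [Metric.mem_ball, dist_pi_lt_iff hε]
  intro i
  rw [dist_pi_lt_iff hε]
  intro a
  rw [Real.dist_eq]
  exact h1 i a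

theorem eg_gen {T : Finset (Tri n)} (hT : Cx T) {x' : Fin n → V3} {N : Fin n}
    (h : ∀ i j, i ≠ j → i ≠ N → j ≠ N → d3 (x' N) (x' i) (x' j) ≠ 0) :
    GenN T N (fun i j => d3 (x' N) (x' i) (x' j)) := by
  rintro ⟨i, j, k⟩ hτ h1 h2
  exact h i j (hT.ne i j k hτ) h1 h2

theorem eg_verts {T : Finset (Tri n)} (hT : Cx T) {i j k : Fin n} (h : (i, j, k) ∈ T) :
    i ∈ verts T ∧ j ∈ verts T ∧ k ∈ verts T := by
  refine ⟨Finset.mem_image.mpr ⟨_, h, rfl⟩, Finset.mem_image.mpr ⟨_, hT.rot _ _ _ h, rfl⟩,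
    Finset.mem_image.mpr ⟨_, hT.rot _ _ _ (hT.rot _ _ _ h), rfl⟩⟩

theorem euler {T : Finset (Tri n)} (hT : Cx T) (hx : (RSp T).Nonempty) :
    chi6 T (verts T) = 12 := by
  obtain ⟨x, hx⟩ := hx
  obtain ⟨⟨N, j, k⟩, hτ⟩ := hT.nonempty
  have hN : N ∈ verts T := (eg_verts hT hτ).1
  obtain ⟨x', hx', h1, -, -⟩ := eg_perturb hT hx hN
  have hg := eg_gen hT h1
  have hlink : link T N ⊆ (verts T).erase N := by
    intro l hl
    rw [GT.mem_link] at hl
    obtain ⟨m, hm⟩ := hl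
    rw [Finset.mem_erase]
    exact ⟨(hT.ne _ _ _ hm).symm, (eg_verts hT hm).2.1⟩
  have hins := GT.chi6_insert hT N hN ((verts T).erase N) (Finset.notMem_erase _ _) hlink
  rw [Finset.insert_erase hN] at hins
  have hmemP : ∀ τ ∈ DD T N, τ.1 ∈ (verts T).erase N ∧ τ.2.1 ∈ (verts T).erase N := by
    rintro ⟨a, b, c⟩ hτ
    obtain ⟨h2, h3, h4, h5⟩ := Finset.mem_filter.mp hτ
    exact ⟨Finset.mem_erase.mpr ⟨h3, (eg_verts hT h2).1⟩,
      Finset.mem_erase.mpr ⟨h4, (eg_verts hT h2).2.1⟩⟩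
  have hge : 6 ≤ chi6 T ((verts T).erase N) := by
    have h2 := GT.down_count hT hx' hN (fun i j => d3 (x' N) (x' i) (x' j))
      (fun _ _ => rfl) hg ((verts T).erase N) (Finset.erase_subset _ _)
      (Finset.notMem_erase _ _) (fun τ hτ _ _ _ => (hmemP τ hτ).2) ∅ (Finset.empty_subset _)
      (by simp)
    obtain ⟨τ, hτD, hτS⟩ := GT.s_exists hT hx' hN hg
    have h3 := h2.2 ⟨τ, hτD, hτS, (hmemP τ hτD).1⟩
    simpa using h3
  have hle : chi6 T ((verts T).erase N) ≤ 6 := by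
    apply GT.chi6_conn hT (GT.strong_of hT hx)
    · exact ⟨j, Finset.mem_erase.mpr ⟨(hT.ne _ _ _ hτ).symm, (eg_verts hT hτ).2.1⟩⟩
    · exact Finset.erase_subset _ _
    · intro h2
      have := Finset.notMem_erase N (verts T)
      rw [h2] at this
      exact this hN
    · exact GT.conn_erase hT (GT.strong_of hT hx) (GT.linkCyc_of hT hx) N hN
  omega

theorem eg_nd {p : Fin n → ℝ × ℝ} {a b j : Fin n} (hab : 0 < br p a b) (h1 : br p j a = 0)
    (h2 : br p j b = 0) : p j = 0 := by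
  unfold br at *
  have e1 : (p j).1 * ((p a).1 * (p b).2 - (p a).2 * (p b).1) = 0 := by
    linear_combination (p a).1 * h2 - (p b).1 * h1
  have e2 : (p j).2 * ((p a).1 * (p b).2 - (p a).2 * (p b).1) = 0 := by
    linear_combination (p a).2 * h2 - (p b).2 * h1
  have h3 := (mul_eq_zero.mp e1).resolve_right hab.ne'
  have h4 := (mul_eq_zero.mp e2).resolve_right hab.ne'
  exact Prod.ext h3 h4

/-- the south pole as a combination over a face -/
theorem eg_comb {T : Finset (Tri n)} (hT : Cx T) {x : Fin n → V3} (hx : x ∈ RSp T) {N : Fin n}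
    (p : Fin n → ℝ × ℝ) (hp : ∀ i j, br p i j = d3 (x N) (x i) (x j)) {i j k : Fin n}
    (hτ : (i, j, k) ∈ T) (h1 : br p i j ≤ 0) (h2 : br p j k ≤ 0) (h3 : br p k i ≤ 0) :
    ∃ α : Fin n → ℝ, (∀ l, 0 ≤ α l) ∧ (∀ l, α l ≠ 0 → (l = i ∨ l = j ∨ l = k)) ∧
      ∑ l, α l • x l = -(x N) ∧ (α i = 0 → br p j k = 0) ∧ (α j = 0 → br p k i = 0) := by
  classical
  have hD := hx.1 i j k hτ
  set D := d3 (x i) (x j) (x k) with hDdef
  have hij : i ≠ j := hT.ne _ _ _ hτ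
  have hjk : j ≠ k := hT.ne _ _ _ (hT.rot _ _ _ hτ)
  have hki : k ≠ i := hT.ne _ _ _ (hT.rot _ _ _ (hT.rot _ _ _ hτ))
  have hc := GT.cramer (x i) (x j) (x k) (x N)
  have e1 : d3 (x N) (x j) (x k) = br p j k := (hp j k).symm
  have e2 : d3 (x i) (x N) (x k) = br p k i := by
    rw [hp, ← GT.d3_rot (x i) (x N) (x k)]
  have e3 : d3 (x i) (x j) (x N) = br p i j := by
    rw [hp, GT.d3_rot (x N) (x i) (x j)]
  rw [e1, e2, e3, ← hDdef] at hc
  refine ⟨Pi.single i (-(br p j k) / D) + Pi.single j (-(br p k i) / D) +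
    Pi.single k (-(br p i j) / D), ?_, ?_, ?_, ?_, ?_⟩
  · intro l
    have p1 : ∀ (m : Fin n) (r : ℝ), 0 ≤ r → 0 ≤ (Pi.single m r : Fin n → ℝ) l := by
      intro m r hr
      rw [Pi.single_apply]
      split_ifs
      · exact hr
      · exact le_rfl
    simp only [Pi.add_apply]
    have q1 := p1 i _ (div_nonneg (neg_nonneg.mpr h2) hD.le)
    have q2 := p1 j _ (div_nonneg (neg_nonneg.mpr h3) hD.le)
    have q3 := p1 k _ (div_nonneg (neg_nonneg.mpr h1) hD.le)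
    linarith
  · intro l hl
    by_contra hcon
    push Not at hcon
    apply hl
    simp [Pi.single_apply, hcon.1, hcon.2.1, hcon.2.2]
  · have s1 : ∀ (m : Fin n) (r : ℝ), ∑ l, (Pi.single m r : Fin n → ℝ) l • x l = r • x m := by
      intro m r
      rw [Finset.sum_eq_single m]
      · simp
      · intro l _ hl
        simp [Pi.single_apply, hl]
      · simp
    simp only [Pi.add_apply, add_smul, Finset.sum_add_distrib, s1]
    have hD' : D ≠ 0 := hD.ne'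
    have h4 : x N = D⁻¹ • (br p j k • x i + br p k i • x j + br p i j • x k) := by
      rw [← hc, smul_smul, inv_mul_cancel₀ hD', one_smul]
    rw [h4]
    simp only [smul_add, smul_smul]
    ext a
    simp only [Pi.add_apply, Pi.smul_apply, Pi.neg_apply, smul_eq_mul]
    ring
  · intro h4
    simp [Pi.single_apply, hij, hki.symm] at h4
    rcases h4 with h4 | h4
    · exact h4
    · exact absurd h4 hD.ne'
  · intro h4
    simp [Pi.single_apply, hij.symm, hjk] at h4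
    rcases h4 with h4 | h4
    · exact h4
    · exact absurd h4 hD.ne'

theorem eg_bot {T : Finset (Tri n)} (hT : Cx T) {x : Fin n → V3} (hx : x ∈ RSp T) {N : Fin n}
    (hN : N ∈ verts T) (p : Fin n → ℝ × ℝ) (hp : ∀ i j, br p i j = d3 (x N) (x i) (x j))
    (hp0 : ∀ i, i ≠ N → p i ≠ 0) {i j k : Fin n} (hτ : (i, j, k) ∈ DD T N)
    (h1 : br p i j = 0) (h2 : br p j k ≤ 0) (h3 : br p k i ≤ 0) {τ' : Tri n} (hτ' : τ' ∈ T)
    (h1' : br p τ'.1 τ'.2.1 ≤ 0) (h2' : br p τ'.2.1 τ'.2.2 ≤ 0) (h3' : br p τ'.2.2 τ'.1 ≤ 0) :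
    (i = τ'.1 ∨ i = τ'.2.1 ∨ i = τ'.2.2) ∧ (j = τ'.1 ∨ j = τ'.2.1 ∨ j = τ'.2.2) := by
  obtain ⟨hτT, hiN, hjN, hkN⟩ := Finset.mem_filter.mp hτ
  simp only at hiN hjN hkN
  obtain ⟨α, hα0, hαs, hαe, hαi, hαj⟩ := eg_comb hT hx p hp hτT h1.le h2 h3
  obtain ⟨β, hβ0, hβs, hβe, -, -⟩ := eg_comb hT hx p hp (i := τ'.1) (j := τ'.2.1) (k := τ'.2.2)
    hτ' h1' h2' h3'
  have hαβ : α = β := GT.fan hT hx hτT hτ' hα0 hβ0 hαs hβs (by rw [hαe, hβe])
  obtain ⟨-, a, b, hab⟩ := eg_ne_zero hT hx hN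
  have habp : 0 < br p a b := by
    rw [hp]
    exact hx.1 _ _ _ hab
  have hD := hx.1 i j k hτT
  have hc := GT.cramer (x i) (x j) (x k) (x N)
  have e1 : d3 (x N) (x j) (x k) = br p j k := (hp j k).symm
  have e2 : d3 (x i) (x N) (x k) = br p k i := by
    rw [hp, ← GT.d3_rot (x i) (x N) (x k)]
  have e3 : d3 (x i) (x j) (x N) = br p i j := by
    rw [hp, GT.d3_rot (x N) (x i) (x j)]
  rw [e1, e2, e3, h1, zero_smul, add_zero] at hc
  have hpar : ∀ m l, d3 (x i) (x j) (x k) • x N = br p k i • x m ∨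
      d3 (x i) (x j) (x k) • x N = br p j k • x m → br p m l = 0 := by
    intro m l hm
    have h4 : d3 (x i) (x j) (x k) * br p m l = 0 := by
      rw [hp, ← GT.d3_smul1]
      rcases hm with hm | hm
      · rw [hm, GT.d3_smul1, GT.d3_self12, mul_zero]
      · rw [hm, GT.d3_smul1, GT.d3_self12, mul_zero]
    exact (mul_eq_zero.mp h4).resolve_left hD.ne'
  have hαi' : α i ≠ 0 := by
    intro h4
    have h5 := hαi h4
    rw [h5, zero_smul, zero_add] at hc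
    exact hp0 j hjN (eg_nd habp (hpar j a (Or.inl hc)) (hpar j b (Or.inl hc)))
  have hαj' : α j ≠ 0 := by
    intro h4
    have h5 := hαj h4
    rw [h5, zero_smul, add_zero] at hc
    exact hp0 i hiN (eg_nd habp (hpar i a (Or.inr hc)) (hpar i b (Or.inr hc)))
  rw [hαβ] at hαi' hαj'
  exact ⟨hβs i hαi', hβs j hαj'⟩

/-- assembling `GenB` -/
theorem exists_genB {T : Finset (Tri n)} (hT : Cx T) {x : Fin n → V3} (hx : x ∈ RSp T) {N : Fin n}
    (hN : N ∈ verts T) (p : Fin n → ℝ × ℝ) (hp : ∀ i j, br p i j = d3 (x N) (x i) (x j))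
    (hp0 : ∀ i, i ≠ N → p i ≠ 0) : ∃ b, GenB T N p b := by
  obtain ⟨x', hx', h1, h2, h3⟩ := eg_perturb hT hx hN
  have hg := eg_gen hT h1
  have hneg : ∀ i j, d3 (x' N) (x' i) (x' j) < 0 → br p i j ≤ 0 := by
    intro i j hij
    by_contra hcon
    push Not at hcon
    rw [hp] at hcon
    exact absurd (h2 i j hcon) (not_lt.mpr hij.le)
  refine ⟨fun i j => d3 (x' N) (x' i) (x' j), ?_⟩
  refine
    { anti := fun i j => ?_
      gen := hg
      pos := fun i j hij => h2 i j (by rw [← hp]; exact hij)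
      neg := fun i j hij => h3 i j (by rw [← hp]; exact hij)
      noP := fun τ hτ h => GT.no_north hT hx' hN τ hτ ⟨h.1.le, h.2.1.le, h.2.2.le⟩
      sEx := GT.s_exists hT hx' hN hg
      sUn := GT.s_unique hx'
      bot := ?_
      dc := ?_
      uc := ?_ }
  · show d3 (x' N) (x' i) (x' j) = -d3 (x' N) (x' j) (x' i)
    rw [GT.d3_swap23 (x' N) (x' j) (x' i)]
  · rintro ⟨i, j, k⟩ hτ h4 h5 h6 τ' hτ' hS
    exact eg_bot hT hx hN p hp hp0 hτ h4 h5 h6 (Finset.mem_filter.mp hτ').1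
      (hneg _ _ hS.1) (hneg _ _ hS.2.1) (hneg _ _ hS.2.2)
  · intro P hP hNP hU Dp hDp hD
    exact GT.down_count hT hx' hN _ (fun _ _ => rfl) hg P hP hNP hU Dp hDp hD
  · intro P hP hNP w hw hwP hw1 hD Up hUp hU
    exact GT.up_count hT hx' hN _ (fun _ _ => rfl) hg P hP hNP w hw hwP hw1 hD Up hUp hU

end GT
end

section

set_option autoImplicit false

namespace GT

open Finset

variable {n : ℕ}

private lemma mc_inC_scale (x : Fin n → V3) (c : Fin n → ℝ) (hc : ∀ i, 0 < c i) (τ : Tri n)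
    (y : V3) : inC (fun i => c i • x i) τ y ↔ inC x τ y := by
  have h1 := hc τ.1
  have h2 := hc τ.2.1
  have h3 := hc τ.2.2
  unfold inC
  simp only [d3_smul1, d3_smul2, d3_smul3]
  constructor
  · rintro ⟨ha, hb, hc'⟩
    refine ⟨?_, ?_, ?_⟩
    · exact pos_of_mul_pos_right (pos_of_mul_pos_right ha h3.le) h2.le
    · exact pos_of_mul_pos_right (pos_of_mul_pos_right hb h3.le) h1.le
    · exact pos_of_mul_pos_right (pos_of_mul_pos_right hc' h2.le) h1.le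
  · rintro ⟨ha, hb, hc'⟩
    refine ⟨by positivity, by positivity, by positivity⟩

theorem scale_RSp {T : Finset (Tri n)} {x : Fin n → V3} (hx : x ∈ RSp T) (c : Fin n → ℝ)
    (hc : ∀ i, 0 < c i) : (fun i => c i • x i) ∈ RSp T := by
  obtain ⟨hP, hE⟩ := hx
  refine ⟨?_, ?_⟩
  · intro i j k h
    have h0 := hP i j k h
    have h1 := hc i
    have h2 := hc j
    have h3 := hc k
    simp only [d3_smul1, d3_smul2, d3_smul3]
    positivity
  · intro τ hτ τ' hτ' y hy hy'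
    rw [mc_inC_scale x c hc] at hy hy'
    exact hE τ hτ τ' hτ' y hy hy'

private lemma mc_pos {T : Finset (Tri n)} (hT : Cx T) (x : Fin n → V3) (N : Fin n)
    (t0 t1 : Fin n → ℝ) (h0 : Pos T (mv N x t0)) (h1 : Pos T (mv N x t1)) (s : ℝ) (hs : 0 ≤ s)
    (hs1 : s ≤ 1) : Pos T (mv N x (t0 + s • (t1 - t0))) := by
  intro i j k hijk
  have hjki := hT.rot _ _ _ hijk
  have hkij := hT.rot _ _ _ hjki
  by_cases hi : i = N
  · subst hi
    have := h0 _ _ _ hijk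
    rw [d3_mvN] at this ⊢
    exact this
  by_cases hj : j = N
  · subst hj
    have := h0 _ _ _ hjki
    rw [d3_mvN] at this
    rw [← d3_rot, d3_mvN]
    exact this
  by_cases hk : k = N
  · subst hk
    have := h0 _ _ _ hkij
    rw [d3_mvN] at this
    rw [← d3_rot, ← d3_rot, d3_mvN]
    exact this
  have a0 := h0 _ _ _ hijk
  have a1 := h1 _ _ _ hijk
  rw [d3_mv _ _ _ _ _ _ hi hj hk] at a0 a1 ⊢
  simp only [Pi.add_apply, Pi.smul_apply, Pi.sub_apply, smul_eq_mul]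
  have key : ∀ A B C D : ℝ, D + ((t0 i + s * (t1 i - t0 i)) * A + (t0 j + s * (t1 j - t0 j)) * B +
      (t0 k + s * (t1 k - t0 k)) * C) = (1 - s) * (D + (t0 i * A + t0 j * B + t0 k * C)) +
        s * (D + (t1 i * A + t1 j * B + t1 k * C)) := by
    intro A B C D
    ring
  rw [key]
  rcases eq_or_lt_of_le hs with h | h
  · rw [← h]
    simpa using a0
  · have h2 : 0 ≤ 1 - s := by linarith
    have h3 := mul_nonneg h2 a0.le
    have h4 := mul_pos h a1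
    linarith

theorem mv_convex {T : Finset (Tri n)} (hT : Cx T) (x : Fin n → V3) (N : Fin n) :
    Convex ℝ {t : Fin n → ℝ | mv N x t ∈ RSp T} := by
  intro t0 h0 t1 h1 a b ha hb hab
  have h0' : mv N x t0 ∈ RSp T := h0
  have h1' : mv N x t1 ∈ RSp T := h1
  have hb1 : b ≤ 1 := by linarith
  have hend : a • t0 + b • t1 = t0 + (1 * b) • (t1 - t0) := by
    have : a = 1 - b := by linarith
    rw [this]
    funext i
    simp only [Pi.add_apply, Pi.smul_apply, Pi.sub_apply, smul_eq_mul]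
    ring
  have hstart : t0 = t0 + ((0 : ℝ) * b) • (t1 - t0) := by simp
  show mv N x (a • t0 + b • t1) ∈ RSp T
  rw [hend]
  refine GT.path_RSp hT (fun r => mv N x (t0 + (r * b) • (t1 - t0))) ?_ ?_ ?_
  · apply Continuous.continuousOn
    refine continuous_pi fun i => ?_
    unfold mv
    by_cases hi : i = N
    · simp only [hi, if_true]
      exact continuous_const
    · simp only [hi, if_false, Pi.add_apply, Pi.smul_apply, Pi.sub_apply, smul_eq_mul]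
      fun_prop
  · intro s hs
    obtain ⟨hs0, hs1⟩ := hs
    exact mc_pos hT x N t0 t1 h0'.1 h1'.1 (s * b) (by positivity)
      (by calc s * b ≤ 1 * 1 := by gcongr
            _ = 1 := one_mul 1)
  · show mv N x (t0 + ((0 : ℝ) * b) • (t1 - t0)) ∈ RSp T
    rw [← hstart]
    exact h0'

end GT
end
end
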