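import Pool.Agent.Lib.MP_c41363_gt.Defs
import Pool.Agent.Lib.MP_c41363_gt.Cnt
import Pool.Agent.Lib.MP_c41363_gt.Rsp
import Pool.Agent.Lib.MP_c41363_gt.Cycles

section

/-! # GT-10a: a homotopy equivalence from convex moves -/

set_option autoImplicit false

namespace GT
open Finset

variable {n : ℕ}

theorem he_moves {E M : Type} [NormedAddCommGroup E] [NormedSpace ℝ E] [NormedAddCommGroup M]
    [NormedSpace ℝ M] (X O : Set E) (hOX : O ⊆ X) (hO : IsOpen O) (f : E → M → E)
    (hf : Continuous (fun q : E × M => f q.1 q.2)) (hf0 : ∀ x, f x 0 = x)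
    (hX : ∀ x ∈ X, Convex ℝ {t | f x t ∈ X}) (hOc : ∀ x ∈ X, Convex ℝ {t | f x t ∈ O})
    (hne : ∀ x ∈ X, ∃ t, f x t ∈ O) :
    Nonempty (ContinuousMap.HomotopyEquiv O X) := by
  classical
  obtain ⟨g, hg⟩ := exists_continuous_forall_mem_convex_of_local_const (X := X) (E := M)
    (t := fun x => {t | f x t ∈ O}) (fun x => hOc x x.2) (fun x => by
      obtain ⟨t, ht⟩ := hne x x.2
      refine ⟨t, ?_⟩
      have hc : Continuous (fun y : X => f y t) :=
        hf.comp (continuous_subtype_val.prodMk continuous_const)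
      exact hc.continuousAt.eventually (hO.mem_nhds ht))
  have hseg : ∀ (s : unitInterval) (x : E) (C : Set M), Convex ℝ C → (0 : M) ∈ C → ∀ y : M, y ∈ C →
      (s : ℝ) • y ∈ C := by
    intro s x C hC h0 y hy
    exact hC.smul_mem_of_zero_mem h0 hy s.2
  have hcont : Continuous (fun q : unitInterval × X => f q.2 ((q.1 : ℝ) • g q.2)) := by
    have h1 : Continuous (fun q : unitInterval × X => ((q.2 : E), ((q.1 : ℝ) • g q.2))) := by
      fun_prop
    exact hf.comp h1
  have hHX : ∀ (s : unitInterval) (x : X), f x ((s : ℝ) • g x) ∈ X := by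
    intro s x
    have := hseg s x {t | f x t ∈ X} (hX x x.2) (by simp [hf0]) (g x) (hOX (hg x))
    exact this
  have hHO : ∀ (s : unitInterval) (x : X), (x : E) ∈ O → f x ((s : ℝ) • g x) ∈ O := by
    intro s x hx
    have := hseg s x {t | f x t ∈ O} (hOc x x.2) (by simpa [hf0] using hx) (g x) (hg x)
    exact this
  let incl : C(O, X) := ⟨fun x => ⟨x, hOX x.2⟩, by fun_prop⟩
  let r : C(X, O) := ⟨fun x => ⟨f x (g x), hg x⟩, by
    refine Continuous.subtype_mk ?_ _
    exact hf.comp (by fun_prop : Continuous (fun x : X => ((x : E), g x)))⟩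
  refine ⟨⟨incl, r, ⟨ContinuousMap.Homotopy.symm ⟨⟨fun q => ⟨f q.2 ((q.1 : ℝ) • g (incl q.2)),
    hHO q.1 (incl q.2) q.2.2⟩, ?_⟩, ?_, ?_⟩⟩,
    ⟨ContinuousMap.Homotopy.symm ⟨⟨fun q => ⟨f q.2 ((q.1 : ℝ) • g q.2), hHX q.1 q.2⟩, ?_⟩,
      ?_, ?_⟩⟩⟩⟩
  · refine Continuous.subtype_mk ?_ _
    have h1 : Continuous (fun q : unitInterval × O => (q.1, incl q.2)) := by fun_prop
    exact hcont.comp h1
  · intro x
    apply Subtype.ext
    simp [hf0]
  · intro x
    apply Subtype.ext
    simp [incl, r]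
  · exact Continuous.subtype_mk hcont _
  · intro x
    apply Subtype.ext
    simp [hf0]
  · intro x
    apply Subtype.ext
    simp [incl, r]

end GT
end

section

section

/-! GT-12a: the oriented complex of a frozen realization. -/

set_option autoImplicit false

namespace GT
open Finset

variable {n : ℕ}

/-- coefficients concentrated on three vertices -/
private def fzt (i j k : Fin n) (α β γ : ℝ) (m : Fin n) : ℝ :=
  (if m = i then α else 0) + (if m = j then β else 0) + (if m = k then γ else 0)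

private theorem fzt_smul (i j k : Fin n) (α β γ : ℝ) (v : Fin n → V3) :
    ∑ m, fzt i j k α β γ m • v m = α • v i + β • v j + γ • v k := by
  simp only [fzt, add_smul, Finset.sum_add_distrib, ite_smul, zero_smul,
    Finset.sum_ite_eq', Finset.mem_univ, if_true]

private theorem fzt_nonneg (i j k : Fin n) {α β γ : ℝ} (hα : 0 ≤ α) (hβ : 0 ≤ β) (hγ : 0 ≤ γ)
    (m : Fin n) : 0 ≤ fzt i j k α β γ m := by
  unfold fzt
  split_ifs <;> positivity

private theorem fzt_supp (i j k : Fin n) (α β γ : ℝ) (m : Fin n)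
    (h : fzt i j k α β γ m ≠ 0) : m ∈ ({i, j, k} : Finset (Fin n)) := by
  by_contra hm
  simp only [Finset.mem_insert, Finset.mem_singleton, not_or] at hm
  apply h
  simp [fzt, hm.1, hm.2.1, hm.2.2]

/-- uniqueness of nonnegative representations over faces -/
private theorem fz_fan {K : Finset (Tri n)} {v : Fin n → V3} (hv : Frz K v)
    {τ σ : Tri n} (hτ : τ ∈ K) (hσ : σ ∈ K) {α β : Fin n → ℝ} (hα : ∀ i, 0 ≤ α i)
    (hβ : ∀ i, 0 ≤ β i) (hsα : ∀ i, α i ≠ 0 → i ∈ ({τ.1, τ.2.1, τ.2.2} : Finset (Fin n)))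
    (hsβ : ∀ i, β i ≠ 0 → i ∈ ({σ.1, σ.2.1, σ.2.2} : Finset (Fin n)))
    (he : ∑ i, α i • v i = ∑ i, β i • v i) : α = β := by
  obtain ⟨-, h2, h3, -⟩ := hv
  -- normalised functions
  have norm : ∀ {ρ : Tri n} (_ : ρ ∈ K) {a : Fin n → ℝ} (_ : ∀ i, 0 ≤ a i)
      (_ : ∀ i, a i ≠ 0 → i ∈ ({ρ.1, ρ.2.1, ρ.2.2} : Finset (Fin n))) (_ : 0 < ∑ i, a i),
      Simp K (fun i => (∑ i, a i)⁻¹ * a i) := by
    intro ρ hρ a ha hs hpos
    refine ⟨fun i => mul_nonneg (inv_nonneg.mpr hpos.le) (ha i), ?_, ρ, hρ, ?_⟩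
    · rw [← Finset.mul_sum, inv_mul_cancel₀ hpos.ne']
    · intro i hi
      have := hs i (fun h0 => hi (by simp [h0]))
      simpa using this
  have nsum : ∀ (a : Fin n → ℝ), ∑ i, ((∑ i, a i)⁻¹ * a i) • v i =
      (∑ i, a i)⁻¹ • ∑ i, a i • v i := by
    intro a
    rw [Finset.smul_sum]
    exact Finset.sum_congr rfl fun i _ => by rw [mul_smul]
  have zero : ∀ {a : Fin n → ℝ} (_ : ∀ i, 0 ≤ a i), ∑ i, a i = 0 → ∀ i, a i = 0 := by
    intro a ha h0 i
    exact (Finset.sum_eq_zero_iff_of_nonneg (fun i _ => ha i)).mp h0 i (Finset.mem_univ i)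
  rcases (Finset.sum_nonneg (fun i (_ : i ∈ Finset.univ) => hα i)).lt_or_eq with hA | hA
  · rcases (Finset.sum_nonneg (fun i (_ : i ∈ Finset.univ) => hβ i)).lt_or_eq with hB | hB
    · have s1 := norm hτ hα hsα hA
      have s2 := norm hσ hβ hsβ hB
      have n1 := nsum α
      have n2 := nsum β
      set A := ∑ i, α i with hAdef
      set B := ∑ i, β i with hBdef
      have hV : ∑ i, α i • v i ≠ 0 := by
        intro h0
        apply h2 _ s1
        rw [n1, h0, smul_zero]
      have hts := h3 _ _ s1 s2 (B / A) (by positivity) (by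
        rw [n1, n2, he, smul_smul]
        congr 1
        field_simp)
      have hts' : ∀ i, A⁻¹ * α i = B⁻¹ * β i := fun i => congrFun hts i
      have hab : ∀ i, α i = (A / B) * β i := by
        intro i
        have := hts' i
        field_simp at this ⊢
        linarith
      have hVV : ∑ i, α i • v i = (A / B) • ∑ i, α i • v i := by
        conv_rhs => rw [he]
        rw [Finset.smul_sum]
        exact Finset.sum_congr rfl fun i _ => by rw [hab i, mul_smul]
      have hAB : A / B = 1 := by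
        by_contra hne
        apply hV
        have : (A / B - 1) • ∑ i, α i • v i = 0 := by
          rw [sub_smul, one_smul, ← hVV, sub_self]
        rcases smul_eq_zero.mp this with h | h
        · exact absurd (sub_eq_zero.mp h) hne
        · exact h
      funext i
      rw [hab i, hAB, one_mul]
    · exfalso
      have hb := zero hβ hB.symm
      have s1 := norm hτ hα hsα hA
      apply h2 _ s1
      rw [nsum α, he]
      simp [hb]
  · have ha := zero hα hA.symm
    rcases (Finset.sum_nonneg (fun i (_ : i ∈ Finset.univ) => hβ i)).lt_or_eq with hB | hB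
    · exfalso
      have s2 := norm hσ hβ hsβ hB
      apply h2 _ s2
      rw [nsum β, ← he]
      simp [ha]
    · have hb := zero hβ hB.symm
      funext i
      rw [ha i, hb i]

private theorem fz_cov {K : Finset (Tri n)} {v : Fin n → V3} (hv : Frz K v) (x : V3)
    (hx : x ≠ 0) : ∃ τ ∈ K, ∃ α : Fin n → ℝ, (∀ i, 0 ≤ α i) ∧
      (∀ i, α i ≠ 0 → i ∈ ({τ.1, τ.2.1, τ.2.2} : Finset (Fin n))) ∧ ∑ i, α i • v i = x := by
  obtain ⟨t, ht, c, hc, he⟩ := hv.2.2.2 x hx
  obtain ⟨h1, -, τ, hτ, h2⟩ := ht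
  refine ⟨τ, hτ, fun i => c⁻¹ * t i, fun i => mul_nonneg (inv_nonneg.mpr hc.le) (h1 i), ?_, ?_⟩
  · intro i hi
    have := h2 i (fun h0 => hi (by simp [h0]))
    simpa using this
  · have : ∑ i, (c⁻¹ * t i) • v i = c⁻¹ • ∑ i, t i • v i := by
      rw [Finset.smul_sum]
      exact Finset.sum_congr rfl fun i _ => by rw [mul_smul]
    rw [this, he, smul_smul, inv_mul_cancel₀ hc.ne', one_smul]

private theorem fz_dep {a b c : V3} (h : d3 a b c = 0) :
    ∃ α β γ : ℝ, ¬ (α = 0 ∧ β = 0 ∧ γ = 0) ∧ α • a + β • b + γ • c = 0 := by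
  have hdet : (Matrix.of ![a, b, c]).det = 0 := by
    rw [Matrix.det_fin_three]
    simp only [Matrix.of_apply, Matrix.cons_val_zero, Matrix.cons_val_one, Matrix.cons_val]
    unfold d3 at h
    linarith
  obtain ⟨w, hw, hw0⟩ := Matrix.exists_vecMul_eq_zero_iff.mpr hdet
  refine ⟨w 0, w 1, w 2, ?_, ?_⟩
  · rintro ⟨h0, h1, h2⟩
    apply hw
    funext i
    fin_cases i <;> simp [h0, h1, h2]
  · funext i
    have := congrFun hw0 i
    simp only [Matrix.vecMul, dotProduct, Fin.sum_univ_three, Matrix.of_apply,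
      Matrix.cons_val_zero, Matrix.cons_val_one, Matrix.cons_val, Pi.zero_apply] at this
    simp only [Pi.add_apply, Pi.smul_apply, smul_eq_mul, Pi.zero_apply]
    linarith

theorem frz_nondeg {K : Finset (Tri n)} (hK : ∀ τ ∈ K, τ.1 ≠ τ.2.1 ∧ τ.1 ≠ τ.2.2 ∧ τ.2.1 ≠ τ.2.2)
    {v : Fin n → V3} (hv : Frz K v) : ∀ τ ∈ K, d3 (v τ.1) (v τ.2.1) (v τ.2.2) ≠ 0 := by
  intro τ hτ h0
  obtain ⟨h12, h13, h23⟩ := hK τ hτ
  obtain ⟨α, β, γ, hne, hsum⟩ := fz_dep h0
  have he : ∑ m, fzt τ.1 τ.2.1 τ.2.2 (max α 0) (max β 0) (max γ 0) m • v m =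
      ∑ m, fzt τ.1 τ.2.1 τ.2.2 (max (-α) 0) (max (-β) 0) (max (-γ) 0) m • v m := by
    rw [fzt_smul, fzt_smul]
    have e1 : ∀ r : ℝ, max r 0 = r + max (-r) 0 := by
      intro r
      rcases le_total 0 r with hr | hr
      · rw [max_eq_left hr, max_eq_right (by linarith)]; ring
      · rw [max_eq_right hr, max_eq_left (by linarith)]; ring
    rw [e1 α, e1 β, e1 γ]
    have : (α + max (-α) 0) • v τ.1 + (β + max (-β) 0) • v τ.2.1 + (γ + max (-γ) 0) • v τ.2.2 =
        (α • v τ.1 + β • v τ.2.1 + γ • v τ.2.2) +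
        (max (-α) 0 • v τ.1 + max (-β) 0 • v τ.2.1 + max (-γ) 0 • v τ.2.2) := by
      simp only [add_smul]; abel
    rw [this, hsum, zero_add]
  have hf := fz_fan hv hτ hτ
    (fzt_nonneg _ _ _ (le_max_right _ _) (le_max_right _ _) (le_max_right _ _))
    (fzt_nonneg _ _ _ (le_max_right _ _) (le_max_right _ _) (le_max_right _ _))
    (fzt_supp _ _ _ _ _ _) (fzt_supp _ _ _ _ _ _) he
  have key : ∀ r : ℝ, max r 0 = max (-r) 0 → r = 0 := by
    intro r hr
    rcases le_total 0 r with h | h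
    · rw [max_eq_left h, max_eq_right (by linarith)] at hr; exact hr
    · rw [max_eq_right h, max_eq_left (by linarith)] at hr; linarith
  apply hne
  refine ⟨?_, ?_, ?_⟩
  · have := congrFun hf τ.1
    simp only [fzt, if_true, h12, h13, if_false, add_zero] at this
    exact key _ this
  · have := congrFun hf τ.2.1
    simp only [fzt, if_true, h12.symm, h23, if_false, add_zero, zero_add] at this
    exact key _ this
  · have := congrFun hf τ.2.2
    simp only [fzt, if_true, h13.symm, h23.symm, if_false, zero_add] at this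
    exact key _ this

private theorem fz_mem {K : Finset (Tri n)} {v : Fin n → V3} {i j k : Fin n} :
    (i, j, k) ∈ TK K v ↔ 0 < d3 (v i) (v j) (v k) ∧
      ∃ σ ∈ K, ({i, j, k} : Finset (Fin n)) = {σ.1, σ.2.1, σ.2.2} := by
  unfold TK
  simp

private theorem fz_rotset (i j k : Fin n) : ({j, k, i} : Finset (Fin n)) = {i, j, k} := by
  ext m; simp only [Finset.mem_insert, Finset.mem_singleton]; tauto

private theorem fz_swapset (i j k : Fin n) : ({j, i, k} : Finset (Fin n)) = {i, j, k} := by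
  ext m; simp only [Finset.mem_insert, Finset.mem_singleton]; tauto

private theorem fz_lim {p q : ℝ} {S : Set ℕ} (hS : S.Infinite)
    (h : ∀ m ∈ S, 0 ≤ p - q / ((m : ℝ) + 1)) : 0 ≤ p := by
  by_contra hp
  push Not at hp
  obtain ⟨N, hN⟩ := exists_nat_gt (|q| / (-p))
  obtain ⟨m, hm, hmN⟩ := hS.exists_gt N
  have h1 := h m hm
  have hm' : (N : ℝ) < m := by exact_mod_cast hmN
  have h2 : |q| / (-p) < (m : ℝ) + 1 := by linarith
  have hp' : 0 < -p := by linarith
  rw [div_lt_iff₀ hp'] at h2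
  have hm1 : (0 : ℝ) < (m : ℝ) + 1 := by positivity
  have h3 : -(|q|) ≤ q := neg_abs_le q
  have h4 : -q / ((m : ℝ) + 1) < -p := by
    rw [div_lt_iff₀ hm1]
    nlinarith
  have h5 : -q / ((m : ℝ) + 1) = -(q / ((m : ℝ) + 1)) := by ring
  linarith

theorem frz_cx {K : Finset (Tri n)} (hK : ∀ τ ∈ K, τ.1 ≠ τ.2.1 ∧ τ.1 ≠ τ.2.2 ∧ τ.2.1 ≠ τ.2.2)
    (hK' : ∀ i : Fin n, ∃ τ ∈ K, i = τ.1 ∨ i = τ.2.1 ∨ i = τ.2.2) {v : Fin n → V3}
    (hv : Frz K v) : Cx (TK K v) ∧ verts (TK K v) = Finset.univ := by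
  have hnd := frz_nondeg hK hv
  have hor : ∀ τ ∈ K, (τ.1, τ.2.1, τ.2.2) ∈ TK K v ∨ (τ.2.1, τ.1, τ.2.2) ∈ TK K v := by
    intro τ hτ
    rcases lt_or_gt_of_ne (hnd τ hτ) with h | h
    · right
      rw [fz_mem]
      refine ⟨?_, τ, hτ, fz_swapset _ _ _⟩
      rw [d3_swap12]; linarith
    · left
      rw [fz_mem]
      exact ⟨h, τ, hτ, rfl⟩
  have hrot : ∀ i j k, (i, j, k) ∈ TK K v → (j, k, i) ∈ TK K v := by
    intro i j k h
    rw [fz_mem] at h ⊢
    obtain ⟨h1, σ, hσ, h2⟩ := h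
    refine ⟨by rw [d3_rot]; exact h1, σ, hσ, ?_⟩
    rw [fz_rotset]; exact h2
  have hne : ∀ i j k, (i, j, k) ∈ TK K v → i ≠ j := by
    intro i j k h hij
    rw [fz_mem] at h
    subst hij
    rw [d3_self12] at h
    exact lt_irrefl _ h.1
  refine ⟨⟨?_, hrot, hne, ?_, ?_⟩, ?_⟩
  · -- nonempty
    obtain ⟨τ, hτ, -⟩ := fz_cov hv (fun _ => 1) (by
      intro h
      have := congrFun h 0
      simp at this)
    rcases hor τ hτ with h | h
    · exact ⟨_, h⟩
    · exact ⟨_, h⟩
  · -- uniqueness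
    intro i j k l hk hl
    by_contra hkl
    have hij := hne _ _ _ hk
    have hjk := hne _ _ _ (hrot _ _ _ hk)
    have hki := hne _ _ _ (hrot _ _ _ (hrot _ _ _ hk))
    have hjl := hne _ _ _ (hrot _ _ _ hl)
    have hli := hne _ _ _ (hrot _ _ _ (hrot _ _ _ hl))
    rw [fz_mem] at hk hl
    obtain ⟨pk, σ, hσ, hσs⟩ := hk
    obtain ⟨pl, ρ, hρ, hρs⟩ := hl
    have hc := cramer (v i) (v j) (v l) (v k)
    set a := d3 (v k) (v j) (v l) with ha
    set b := d3 (v i) (v k) (v l) with hb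
    set D := d3 (v i) (v j) (v l) with hD
    set g := d3 (v i) (v j) (v k) with hg
    have hM1 : 0 ≤ (|a| + |b| + 1) + a := by
      have := neg_abs_le a
      have := abs_nonneg b
      linarith
    have hM2 : 0 ≤ (|a| + |b| + 1) + b := by
      have := neg_abs_le b
      have := abs_nonneg a
      linarith
    have he : ∑ m, fzt i j k (|a| + |b| + 1) (|a| + |b| + 1) D m • v m =
        ∑ m, fzt i j l ((|a| + |b| + 1) + a) ((|a| + |b| + 1) + b) g m • v m := by
      rw [fzt_smul, fzt_smul, hc]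
      simp only [add_smul]
      abel
    have hf := fz_fan hv hσ hρ (fzt_nonneg _ _ _ (by positivity) (by positivity) pl.le)
      (fzt_nonneg _ _ _ hM1 hM2 pk.le)
      (fun m hm => by rw [← hσs]; exact fzt_supp _ _ _ _ _ _ m hm)
      (fun m hm => by rw [← hρs]; exact fzt_supp _ _ _ _ _ _ m hm) he
    have := congrFun hf k
    simp only [fzt, if_true, hki, hjk.symm, hkl, if_false, zero_add, add_zero] at this
    linarith
  · -- the face on the other side
    intro i j k hk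
    have hij := hne _ _ _ hk
    have hjk := hne _ _ _ (hrot _ _ _ hk)
    have hki := hne _ _ _ (hrot _ _ _ (hrot _ _ _ hk))
    rw [fz_mem] at hk
    obtain ⟨pk, σ, hσ, hσs⟩ := hk
    -- the points
    have hy : ∀ m : ℕ, v i + v j - ((m : ℝ) + 1)⁻¹ • v k ≠ 0 := by
      intro m h0
      have h1 : d3 (v i + v j - ((m : ℝ) + 1)⁻¹ • v k) (v j) (v k) = d3 (v i) (v j) (v k) := by
        have e : v i + v j - ((m : ℝ) + 1)⁻¹ • v k = v i + v j + (-((m : ℝ) + 1)⁻¹) • v k := by
          rw [neg_smul, sub_eq_add_neg]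
        rw [e, d3_add1, d3_add1, d3_smul1, d3_self12, d3_self13]
        ring
      rw [h0] at h1
      have h2 : d3 (0 : V3) (v j) (v k) = 0 := by simp [d3]
      linarith
    choose τ hτ α hα hsα hαs using fun m : ℕ => fz_cov hv _ (hy m)
    -- pigeonhole
    obtain ⟨ρ, hρ⟩ := Finite.exists_infinite_fiber (fun m : ℕ => (⟨τ m, hτ m⟩ : K))
    have hS : ((fun m : ℕ => (⟨τ m, hτ m⟩ : K)) ⁻¹' {ρ}).Infinite :=
      Set.infinite_coe_iff.mp hρ
    set S := ((fun m : ℕ => (⟨τ m, hτ m⟩ : K)) ⁻¹' {ρ}) with hSdef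
    have hSm : ∀ m ∈ S, τ m = ρ.1 := by
      intro m hm
      have : (⟨τ m, hτ m⟩ : K) = ρ := hm
      exact congrArg Subtype.val this
    obtain ⟨σ', hσ'⟩ := ρ
    simp only at hSm
    set A := σ'.1 with hA
    set B := σ'.2.1 with hB
    set C := σ'.2.2 with hC
    have hD := hnd σ' hσ'
    rw [← hA, ← hB, ← hC] at hD
    obtain ⟨hAB, hAC, hBC⟩ := hK σ' hσ'
    rw [← hA, ← hB] at hAB
    rw [← hA, ← hC] at hAC
    rw [← hB, ← hC] at hBC
    -- coordinates
    have hco : ∀ m ∈ S, v i + v j - ((m : ℝ) + 1)⁻¹ • v k =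
        α m A • v A + α m B • v B + α m C • v C := by
      intro m hm
      rw [← hαs m]
      have e : ∀ x, α m x = fzt A B C (α m A) (α m B) (α m C) x := by
        intro x
        by_cases hx : x ∈ ({A, B, C} : Finset (Fin n))
        · simp only [Finset.mem_insert, Finset.mem_singleton] at hx
          rcases hx with hx | hx | hx
          · rw [hx]; simp [fzt, hAB, hAC]
          · rw [hx]; simp [fzt, hAB.symm, hBC]
          · rw [hx]; simp [fzt, hAC.symm, hBC.symm]
        · have h0 : α m x = 0 := by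
            by_contra h0
            have := hsα m x h0
            rw [hSm m hm] at this
            exact hx this
          rw [h0]
          simp only [Finset.mem_insert, Finset.mem_singleton, not_or] at hx
          simp [fzt, hx.1, hx.2.1, hx.2.2]
      calc ∑ x, α m x • v x = ∑ x, fzt A B C (α m A) (α m B) (α m C) x • v x :=
            Finset.sum_congr rfl fun x _ => by rw [← e x]
        _ = _ := fzt_smul _ _ _ _ _ _ _
    set D := d3 (v A) (v B) (v C) with hDdef
    set y := v i + v j with hydef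
    have d3sub : ∀ (r : ℝ) (p q b c : V3), d3 (p - r • q) b c = d3 p b c - r * d3 q b c := by
      intro r p q b c
      simp only [d3, Pi.sub_apply, Pi.smul_apply, smul_eq_mul]
      ring
    have c1 : 0 ≤ d3 y (v B) (v C) / D := by
      refine fz_lim (q := d3 (v k) (v B) (v C) / D) hS ?_
      intro m hm
      have h1 : d3 (y - ((m : ℝ) + 1)⁻¹ • v k) (v B) (v C) = α m A * D := by
        rw [hco m hm, d3_add1, d3_add1, d3_smul1, d3_smul1, d3_smul1, d3_self12, d3_self13]
        ring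
      rw [d3sub] at h1
      have h2 : d3 y (v B) (v C) / D - d3 (v k) (v B) (v C) / D / ((m : ℝ) + 1) = α m A := by
        have hm1 : (m : ℝ) + 1 ≠ 0 := by positivity
        field_simp
        field_simp at h1
        linarith
      rw [h2]
      exact hα m A
    have c2 : 0 ≤ d3 (v A) y (v C) / D := by
      refine fz_lim (q := d3 (v A) (v k) (v C) / D) hS ?_
      intro m hm
      have h1 : d3 (v A) (y - ((m : ℝ) + 1)⁻¹ • v k) (v C) = α m B * D := by
        rw [hco m hm, d3_add2, d3_add2, d3_smul2, d3_smul2, d3_smul2, d3_self12, d3_self23]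
        ring
      have h1' : d3 (v A) (y - ((m : ℝ) + 1)⁻¹ • v k) (v C) =
          d3 (v A) y (v C) - ((m : ℝ) + 1)⁻¹ * d3 (v A) (v k) (v C) := by
        simp only [d3, Pi.sub_apply, Pi.smul_apply, smul_eq_mul]
        ring
      rw [h1'] at h1
      have h2 : d3 (v A) y (v C) / D - d3 (v A) (v k) (v C) / D / ((m : ℝ) + 1) = α m B := by
        have hm1 : (m : ℝ) + 1 ≠ 0 := by positivity
        field_simp
        field_simp at h1
        linarith
      rw [h2]
      exact hα m B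
    have c3 : 0 ≤ d3 (v A) (v B) y / D := by
      refine fz_lim (q := d3 (v A) (v B) (v k) / D) hS ?_
      intro m hm
      have h1 : d3 (v A) (v B) (y - ((m : ℝ) + 1)⁻¹ • v k) = α m C * D := by
        rw [hco m hm, d3_add3, d3_add3, d3_smul3, d3_smul3, d3_smul3, d3_self13, d3_self23]
        ring
      have h1' : d3 (v A) (v B) (y - ((m : ℝ) + 1)⁻¹ • v k) =
          d3 (v A) (v B) y - ((m : ℝ) + 1)⁻¹ * d3 (v A) (v B) (v k) := by
        simp only [d3, Pi.sub_apply, Pi.smul_apply, smul_eq_mul]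
        ring
      rw [h1'] at h1
      have h2 : d3 (v A) (v B) y / D - d3 (v A) (v B) (v k) / D / ((m : ℝ) + 1) = α m C := by
        have hm1 : (m : ℝ) + 1 ≠ 0 := by positivity
        field_simp
        field_simp at h1
        linarith
      rw [h2]
      exact hα m C
    -- the limit representation
    have he : ∑ m, fzt i j k 1 1 0 m • v m = ∑ m, fzt A B C (d3 y (v B) (v C) / D)
        (d3 (v A) y (v C) / D) (d3 (v A) (v B) y / D) m • v m := by
      rw [fzt_smul, fzt_smul]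
      have hc := cramer (v A) (v B) (v C) y
      rw [one_smul, one_smul, zero_smul, add_zero, ← hydef]
      have h1 : D⁻¹ • (D • y) = y := by rw [smul_smul, inv_mul_cancel₀ hD, one_smul]
      rw [← hDdef] at hc
      rw [hc] at h1
      have e : ∀ r : ℝ, r / D = D⁻¹ * r := fun r => by rw [div_eq_mul_inv, mul_comm]
      rw [e, e, e, mul_smul, mul_smul, mul_smul, ← smul_add, ← smul_add]
      exact h1.symm
    have hf := fz_fan hv hσ hσ' (fzt_nonneg _ _ _ zero_le_one zero_le_one le_rfl)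
      (fzt_nonneg _ _ _ c1 c2 c3)
      (fun m hm => by rw [← hσs]; exact fzt_supp _ _ _ _ _ _ m hm)
      (fun m hm => fzt_supp _ _ _ _ _ _ m hm) he
    have hi : i ∈ ({A, B, C} : Finset (Fin n)) := by
      apply fzt_supp A B C _ _ _ i
      rw [← congrFun hf i]
      simp [fzt, hij, hki.symm]
    have hj : j ∈ ({A, B, C} : Finset (Fin n)) := by
      apply fzt_supp A B C _ _ _ j
      rw [← congrFun hf j]
      simp [fzt, hij.symm, hjk]
    -- the third vertex
    have hcard : ({A, B, C} : Finset (Fin n)).card = 3 := by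
      rw [Finset.card_eq_three]
      exact ⟨A, B, C, hAB, hAC, hBC, rfl⟩
    have hsub : ({i, j} : Finset (Fin n)) ⊆ {A, B, C} := by
      intro m hm
      simp only [Finset.mem_insert, Finset.mem_singleton] at hm
      rcases hm with hm | hm
      · rw [hm]; exact hi
      · rw [hm]; exact hj
    have hcard2 : (({A, B, C} : Finset (Fin n)) \ {i, j}).card = 1 := by
      rw [Finset.card_sdiff_of_subset hsub, hcard, Finset.card_pair hij]
    obtain ⟨l, hl⟩ := Finset.card_eq_one.mp hcard2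
    have hset : ({j, i, l} : Finset (Fin n)) = {A, B, C} := by
      have h1 := Finset.sdiff_union_of_subset hsub
      rw [hl] at h1
      rw [← h1]
      ext m
      simp only [Finset.mem_insert, Finset.mem_singleton, Finset.mem_union]
      tauto
    have hlm : l ∈ (({A, B, C} : Finset (Fin n)) \ {i, j}) := by rw [hl]; simp
    rw [Finset.mem_sdiff] at hlm
    simp only [Finset.mem_insert, Finset.mem_singleton, not_or] at hlm
    obtain ⟨-, hli, hlj⟩ := hlm
    refine ⟨l, ?_⟩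
    rw [fz_mem]
    refine ⟨?_, σ', hσ', hset⟩
    obtain ⟨m, hm⟩ := hS.nonempty
    have e : ∀ x, α m x = fzt i j l (α m i) (α m j) (α m l) x := by
      intro x
      by_cases hx : x ∈ ({j, i, l} : Finset (Fin n))
      · simp only [Finset.mem_insert, Finset.mem_singleton] at hx
        rcases hx with hx | hx | hx
        · rw [hx]; simp [fzt, hij.symm, Ne.symm hlj]
        · rw [hx]; simp [fzt, hij, Ne.symm hli]
        · rw [hx]; simp [fzt, hli, hlj]
      · have h0 : α m x = 0 := by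
          by_contra h0
          have := hsα m x h0
          rw [hSm m hm] at this
          rw [hset] at hx
          exact hx this
        rw [h0]
        simp only [Finset.mem_insert, Finset.mem_singleton, not_or] at hx
        simp [fzt, hx.1, hx.2.1, hx.2.2]
    have hym : α m i • v i + α m j • v j + α m l • v l = y - ((m : ℝ) + 1)⁻¹ • v k := by
      rw [← hαs m, ← fzt_smul i j l]
      exact Finset.sum_congr rfl fun x _ => by rw [← e x]
    have h1 : d3 (v i) (v j) (α m i • v i + α m j • v j + α m l • v l) =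
        α m l * d3 (v i) (v j) (v l) := by
      rw [d3_add3, d3_add3, d3_smul3, d3_smul3, d3_smul3, d3_self13, d3_self23]
      ring
    have h2 : d3 (v i) (v j) (y - ((m : ℝ) + 1)⁻¹ • v k) =
        -(((m : ℝ) + 1)⁻¹ * d3 (v i) (v j) (v k)) := by
      simp only [hydef, d3, Pi.sub_apply, Pi.smul_apply, smul_eq_mul, Pi.add_apply]
      ring
    rw [hym, h2] at h1
    have h3 : 0 < ((m : ℝ) + 1)⁻¹ * d3 (v i) (v j) (v k) := by positivity
    rw [d3_swap12]
    by_contra h4
    push Not at h4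
    have h5 : 0 ≤ d3 (v i) (v j) (v l) := by linarith
    have h6 := mul_nonneg (hα m l) h5
    linarith
  · -- vertices
    ext i
    simp only [Finset.mem_univ, iff_true]
    obtain ⟨τ, hτ, hi⟩ := hK' i
    have key : ∀ a b c, (a, b, c) ∈ TK K v → (i = a ∨ i = b ∨ i = c) → i ∈ verts (TK K v) := by
      intro a b c h hc
      unfold verts
      rw [Finset.mem_image]
      rcases hc with hc | hc | hc
      · exact ⟨_, h, hc.symm⟩
      · exact ⟨_, hrot _ _ _ h, hc.symm⟩
      · exact ⟨_, hrot _ _ _ (hrot _ _ _ h), hc.symm⟩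
    rcases hor τ hτ with h | h
    · exact key _ _ _ h hi
    · exact key _ _ _ h (by tauto)

end GT
end

section

/-! # GT-12b: frz_iff -/

set_option autoImplicit false

namespace GT
open Finset

variable {n : ℕ}

private lemma fi_perm {i j k p q r : Fin n} (h : ({p, q, r} : Finset (Fin n)) = {i, j, k})
    (hpq : p ≠ q) (hpr : p ≠ r) (hqr : q ≠ r) :
    (((p, q, r) : Tri n) = (i, j, k) ∨ ((p, q, r) : Tri n) = (j, k, i) ∨
      ((p, q, r) : Tri n) = (k, i, j)) ∨
      ∀ w : Fin n → V3, d3 (w p) (w q) (w r) = - d3 (w i) (w j) (w k) := by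
  have hp : p ∈ ({i, j, k} : Finset (Fin n)) := by rw [← h]; simp
  have hq : q ∈ ({i, j, k} : Finset (Fin n)) := by rw [← h]; simp
  have hr : r ∈ ({i, j, k} : Finset (Fin n)) := by rw [← h]; simp
  simp only [mem_insert, mem_singleton] at hp hq hr
  rcases hp with hp | hp | hp <;> rcases hq with hq | hq | hq <;> rcases hr with hr | hr | hr <;>
    subst hp <;> subst hq <;> subst hr <;>
    first
      | exact absurd rfl hpq
      | exact absurd rfl hpr
      | exact absurd rfl hqr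
      | exact Or.inl (Or.inl rfl)
      | exact Or.inl (Or.inr (Or.inl rfl))
      | exact Or.inl (Or.inr (Or.inr rfl))
      | exact Or.inr fun w => by unfold d3; ring

private lemma fi_memTK {K : Finset (Tri n)} {v : Fin n → V3} {τ : Tri n} :
    τ ∈ TK K v ↔ 0 < d3 (v τ.1) (v τ.2.1) (v τ.2.2) ∧
      ∃ σ ∈ K, ({τ.1, τ.2.1, τ.2.2} : Finset (Fin n)) = {σ.1, σ.2.1, σ.2.2} := by
  unfold TK
  simp

private lemma fi_ne {i j k : Fin n} {v : Fin n → V3} (h : 0 < d3 (v i) (v j) (v k)) :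
    i ≠ j ∧ i ≠ k ∧ j ≠ k := by
  refine ⟨?_, ?_, ?_⟩
  · rintro rfl
    rw [d3_self12] at h
    exact lt_irrefl _ h
  · rintro rfl
    rw [d3_self13] at h
    exact lt_irrefl _ h
  · rintro rfl
    rw [d3_self23] at h
    exact lt_irrefl _ h

private lemma fi_sum {α β γ : ℝ} (i j k : Fin n) (w : Fin n → V3) :
    ∑ l, (Pi.single i α + Pi.single j β + Pi.single k γ : Fin n → ℝ) l • w l =
      α • w i + β • w j + γ • w k := by
  have h : ∀ (m : Fin n) (δ : ℝ), ∑ l, (Pi.single m δ : Fin n → ℝ) l • w l = δ • w m := by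
    intro m δ
    rw [Fintype.sum_eq_single m]
    · simp
    · intro l hl
      simp [Pi.single_eq_of_ne hl]
  simp only [Pi.add_apply, add_smul, sum_add_distrib, h]

private lemma fi_sum1 {α β γ : ℝ} (i j k : Fin n) :
    ∑ l, (Pi.single i α + Pi.single j β + Pi.single k γ : Fin n → ℝ) l = α + β + γ := by
  simp [sum_add_distrib]

private lemma fi_nn (m : Fin n) {δ : ℝ} (h : 0 < δ) (l : Fin n) :
    0 ≤ (Pi.single m δ : Fin n → ℝ) l := by
  by_cases hl : l = m
  · subst hl
    simpa using h.le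
  · rw [Pi.single_eq_of_ne hl]

private lemma fi_supp {α β γ : ℝ} (hα : 0 < α) (hβ : 0 < β) (hγ : 0 < γ) (i j k l : Fin n) :
    (Pi.single i α + Pi.single j β + Pi.single k γ : Fin n → ℝ) l ≠ 0 ↔
      l ∈ ({i, j, k} : Finset (Fin n)) := by
  simp only [Pi.add_apply, mem_insert, mem_singleton]
  have h1 := fi_nn i hα l
  have h2 := fi_nn j hβ l
  have h3 := fi_nn k hγ l
  constructor
  · intro h
    by_contra hcon
    push Not at hcon
    apply h
    rw [Pi.single_eq_of_ne hcon.1, Pi.single_eq_of_ne hcon.2.1, Pi.single_eq_of_ne hcon.2.2]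
    simp
  · rintro (rfl | rfl | rfl)
    · rw [Pi.single_eq_same]
      positivity
    · rw [Pi.single_eq_same]
      positivity
    · rw [Pi.single_eq_same]
      positivity

private lemma fi_simp {K : Finset (Tri n)} {σ : Tri n} (hσ : σ ∈ K) {i j k : Fin n}
    (h : ({i, j, k} : Finset (Fin n)) = {σ.1, σ.2.1, σ.2.2}) {α β γ : ℝ} (hα : 0 < α) (hβ : 0 < β)
    (hγ : 0 < γ) : Simp K fun l => (α + β + γ)⁻¹ *
      (Pi.single i α + Pi.single j β + Pi.single k γ : Fin n → ℝ) l := by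
  refine ⟨fun l => ?_, ?_, σ, hσ, fun l hl => ?_⟩
  · have h1 := fi_nn i hα l
    have h2 := fi_nn j hβ l
    have h3 := fi_nn k hγ l
    simp only [Pi.add_apply]
    positivity
  · rw [← mul_sum, fi_sum1]
    exact inv_mul_cancel₀ (by positivity)
  · have h1 : (Pi.single i α + Pi.single j β + Pi.single k γ : Fin n → ℝ) l ≠ 0 := by
      intro h0
      apply hl
      simp only
      rw [h0, mul_zero]
    rw [fi_supp hα hβ hγ, h] at h1
    simpa using h1

private lemma fi_pos {K : Finset (Tri n)}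
    (hK : ∀ τ ∈ K, τ.1 ≠ τ.2.1 ∧ τ.1 ≠ τ.2.2 ∧ τ.2.1 ≠ τ.2.2)
    {v : Fin n → V3} (hv : Frz K v) (w : Fin n → V3) :
    (∀ τ ∈ K, 0 < d3 (w τ.1) (w τ.2.1) (w τ.2.2) * d3 (v τ.1) (v τ.2.1) (v τ.2.2)) ↔
      Pos (TK K v) w := by
  constructor
  · intro h i j k hijk
    rw [fi_memTK] at hijk
    obtain ⟨h1, ⟨p, q, r⟩, hσ, h2⟩ := hijk
    simp only at h1 h2
    have h3 := h _ hσ
    simp only at h3
    obtain ⟨hij, hik, hjk⟩ := fi_ne h1
    rcases fi_perm h2 hij hik hjk with h4 | h4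
    · have e : ∀ w : Fin n → V3, d3 (w i) (w j) (w k) = d3 (w p) (w q) (w r) := by
        intro w
        rcases h4 with h4 | h4 | h4 <;> simp only [Prod.mk.injEq] at h4 <;>
          obtain ⟨rfl, rfl, rfl⟩ := h4 <;> unfold d3 <;> ring
      rw [← e, ← e] at h3
      exact pos_of_mul_pos_left h3 h1.le
    · rw [h4 v] at h1
      have e : d3 (w i) (w j) (w k) * (-d3 (v p) (v q) (v r)) > 0 := by
        rw [h4 w]
        linarith
      by_contra hcon
      push Not at hcon
      have := mul_nonneg (neg_nonneg.2 hcon) h1.le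
      linarith
  · intro h τ hτ
    have hnz := GT.frz_nondeg hK hv τ hτ
    obtain ⟨i, j, k⟩ := τ
    simp only at hnz ⊢
    rcases lt_or_gt_of_ne hnz with h1 | h1
    · have hmem : (j, i, k) ∈ TK K v := by
        rw [fi_memTK]
        refine ⟨?_, (i, j, k), hτ, ?_⟩
        · simp only
          rw [d3_swap12]
          linarith
        · simp only
          ext l
          simp only [mem_insert, mem_singleton]
          tauto
      have h2 := h _ _ _ hmem
      rw [d3_swap12] at h2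
      exact mul_pos_of_neg_of_neg (by linarith) h1
    · have hmem : (i, j, k) ∈ TK K v := by
        rw [fi_memTK]
        exact ⟨h1, (i, j, k), hτ, rfl⟩
      exact mul_pos (h _ _ _ hmem) h1

private lemma fi_exT {K : Finset (Tri n)}
    (hK : ∀ τ ∈ K, τ.1 ≠ τ.2.1 ∧ τ.1 ≠ τ.2.2 ∧ τ.2.1 ≠ τ.2.2)
    {v : Fin n → V3} (hv : Frz K v) {τ : Tri n} (hτ : τ ∈ K) :
    ∃ τ' ∈ TK K v, ∀ l, (l = τ.1 ∨ l = τ.2.1 ∨ l = τ.2.2) →
      (l = τ'.1 ∨ l = τ'.2.1 ∨ l = τ'.2.2) := by
  have hnz := GT.frz_nondeg hK hv τ hτ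
  obtain ⟨i, j, k⟩ := τ
  simp only at hnz ⊢
  rcases lt_or_gt_of_ne hnz with h1 | h1
  · refine ⟨(j, i, k), ?_, fun l hl => by simp only; tauto⟩
    rw [fi_memTK]
    refine ⟨?_, (i, j, k), hτ, ?_⟩
    · simp only
      rw [d3_swap12]
      linarith
    · simp only
      ext l
      simp only [mem_insert, mem_singleton]
      tauto
  · refine ⟨(i, j, k), ?_, fun l hl => hl⟩
    rw [fi_memTK]
    exact ⟨h1, (i, j, k), hτ, rfl⟩

private lemma fi_emb {K : Finset (Tri n)} {v : Fin n → V3} {w : Fin n → V3} (hw : Frz K w)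
    (hp : Pos (TK K v) w) : Emb (TK K v) w := by
  rintro ⟨i, j, k⟩ hτ ⟨i', j', k'⟩ hτ' y hy hy'
  have d1 := hp _ _ _ hτ
  have d2 := hp _ _ _ hτ'
  rw [inC_iff d1] at hy
  rw [inC_iff d2] at hy'
  obtain ⟨α, β, γ, hα, hβ, hγ, e1⟩ := hy
  obtain ⟨α', β', γ', hα', hβ', hγ', e2⟩ := hy'
  obtain ⟨_, σ, hσ, hs⟩ := fi_memTK.1 hτ
  obtain ⟨_, σ', hσ', hs'⟩ := fi_memTK.1 hτ'
  simp only at hs hs'
  have S1 := fi_simp hσ hs hα hβ hγ
  have S2 := fi_simp hσ' hs' hα' hβ' hγ'
  obtain ⟨_, _, hinj, _⟩ := hw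
  have hc : 0 < (α + β + γ)⁻¹ * (α' + β' + γ') := by positivity
  have key := hinj _ _ S1 S2 _ hc (by
    have f1 : ∑ l, ((α + β + γ)⁻¹ *
        (Pi.single i α + Pi.single j β + Pi.single k γ : Fin n → ℝ) l) • w l =
        (α + β + γ)⁻¹ • y := by
      rw [e1, ← fi_sum i j k w, smul_sum]
      exact sum_congr rfl fun l _ => by rw [smul_smul]
    have f2 : ∑ l, ((α' + β' + γ')⁻¹ *
        (Pi.single i' α' + Pi.single j' β' + Pi.single k' γ' : Fin n → ℝ) l) • w l =
        (α' + β' + γ')⁻¹ • y := by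
      rw [e2, ← fi_sum i' j' k' w, smul_sum]
      exact sum_congr rfl fun l _ => by rw [smul_smul]
    rw [f1, f2, smul_smul]
    congr 1
    have : α' + β' + γ' ≠ 0 := by positivity
    field_simp)
  have hset : ({i', j', k'} : Finset (Fin n)) = {i, j, k} := by
    ext l
    rw [← fi_supp hα hβ hγ i j k l, ← fi_supp hα' hβ' hγ' i' j' k' l]
    have hl : (α + β + γ)⁻¹ * (Pi.single i α + Pi.single j β + Pi.single k γ : Fin n → ℝ) l =
      (α' + β' + γ')⁻¹ * (Pi.single i' α' + Pi.single j' β' + Pi.single k' γ' : Fin n → ℝ) l :=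
      congrFun key l
    have n1 : (α + β + γ)⁻¹ ≠ 0 := by positivity
    have n2 : (α' + β' + γ')⁻¹ ≠ 0 := by positivity
    constructor
    · intro h0 h1
      rw [h1, mul_zero] at hl
      exact h0 ((mul_eq_zero.1 hl.symm).resolve_left n2)
    · intro h0 h1
      rw [h1, mul_zero] at hl
      exact h0 ((mul_eq_zero.1 hl).resolve_left n1)
  obtain ⟨a1, a2, a3⟩ := fi_ne d2
  rcases fi_perm hset a1 a2 a3 with h | h
  · rcases h with h | h | h
    · exact Or.inl h
    · exact Or.inr (Or.inl h)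
    · exact Or.inr (Or.inr h)
  · have := h w
    linarith

theorem frz_iff {K : Finset (Tri n)} (hK : ∀ τ ∈ K, τ.1 ≠ τ.2.1 ∧ τ.1 ≠ τ.2.2 ∧ τ.2.1 ≠ τ.2.2)
    (hK' : ∀ i : Fin n, ∃ τ ∈ K, i = τ.1 ∨ i = τ.2.1 ∨ i = τ.2.2) {v : Fin n → V3}
    (hv : Frz K v) (w : Fin n → V3) :
    (Frz K w ∧ ∀ τ ∈ K, 0 < d3 (w τ.1) (w τ.2.1) (w τ.2.2) * d3 (v τ.1) (v τ.2.1) (v τ.2.2)) ↔
      ((∀ i, (∑ a, w i a ^ 2) = 1) ∧ w ∈ RSp (TK K v)) := by
  have hT : Cx (TK K v) := (GT.frz_cx hK hK' hv).1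
  rw [fi_pos hK hv w]
  constructor
  · rintro ⟨hw, hp⟩
    exact ⟨hw.1, hp, fi_emb hw hp⟩
  · rintro ⟨hu, hw⟩
    refine ⟨⟨hu, ?_, ?_, ?_⟩, hw.1⟩
    · intro t ht h0
      obtain ⟨ht0, ht1, τ, hτ, hts⟩ := ht
      obtain ⟨τ', hτ', hs'⟩ := fi_exT hK hv hτ
      have := GT.fan hT hw hτ' hτ' (α := t) (β := fun _ => 0) ht0 (fun _ => le_rfl)
        (fun l hl => hs' l (hts l hl)) (fun l hl => absurd rfl hl) (by rw [h0]; simp)
      rw [this] at ht1
      simp at ht1
    · intro t s ht hs c hc he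
      obtain ⟨ht0, ht1, τ, hτ, hts⟩ := ht
      obtain ⟨hs0, hs1, τ₂, hτ₂, hss⟩ := hs
      obtain ⟨τ', hτ', hs'⟩ := fi_exT hK hv hτ
      obtain ⟨τ₂', hτ₂', hs₂'⟩ := fi_exT hK hv hτ₂
      have := GT.fan hT hw hτ' hτ₂' (α := t) (β := fun l => c * s l) ht0
        (fun l => mul_nonneg hc.le (hs0 l)) (fun l hl => hs' l (hts l hl))
        (fun l hl => hs₂' l (hss l (fun h0 => hl (by rw [h0, mul_zero])))) (by
          rw [he, smul_sum]
          exact sum_congr rfl fun l _ => by rw [smul_smul])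
      have hc1 : c = 1 := by
        have h1 : ∑ l, t l = ∑ l, c * s l := by rw [this]
        rw [← mul_sum, ht1, hs1, mul_one] at h1
        exact h1.symm
      rw [this, hc1]
      funext l
      rw [one_mul]
    · intro x hx
      obtain ⟨τ, hτ, α, hα0, hαs, he⟩ := GT.covers hT hw x
      obtain ⟨_, σ, hσ, hset⟩ := fi_memTK.1 hτ
      have hS0 : 0 ≤ ∑ l, α l := sum_nonneg fun l _ => hα0 l
      have hS : 0 < ∑ l, α l := by
        rcases hS0.eq_or_lt with h | h
        · exfalso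
          apply hx
          rw [he]
          have : ∀ l ∈ (univ : Finset (Fin n)), α l = 0 :=
            (sum_eq_zero_iff_of_nonneg fun l _ => hα0 l).1 h.symm
          exact sum_eq_zero fun l hl => by rw [this l hl, zero_smul]
        · exact h
      refine ⟨fun l => (∑ l, α l)⁻¹ * α l, ⟨fun l => by have := hα0 l; positivity, ?_, σ, hσ,
        fun l hl => ?_⟩, (∑ l, α l)⁻¹, by positivity, ?_⟩
      · rw [← mul_sum]
        exact inv_mul_cancel₀ hS.ne'
      · have h1 : α l ≠ 0 := fun h0 => hl (by simp only; rw [h0, mul_zero])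
        have h2 := hαs l h1
        have h3 : l ∈ ({τ.1, τ.2.1, τ.2.2} : Finset (Fin n)) := by simpa using h2
        rw [hset] at h3
        simpa using h3
      · conv_rhs => rw [he]
        rw [smul_sum]
        exact sum_congr rfl fun l _ => by rw [smul_smul]

end GT
end
end

section

section

/-! # GT-10b: frames deform to rotations (Gram-Schmidt) -/

set_option autoImplicit false

namespace GT
open Finset

variable {n : ℕ}

/-- dot product -/
private def ba_dot (p q : V3) : ℝ := p 0 * q 0 + p 1 * q 1 + p 2 * q 2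

/-- cross product -/
private def ba_cr (p q : V3) : V3 :=
  ![p 1 * q 2 - p 2 * q 1, p 2 * q 0 - p 0 * q 2, p 0 * q 1 - p 1 * q 0]

private theorem ba_dot_comm (p q : V3) : ba_dot p q = ba_dot q p := by
  unfold ba_dot; ring

private theorem ba_dot_smul (r : ℝ) (p q : V3) : ba_dot (r • p) q = r * ba_dot p q := by
  simp [ba_dot]; ring

private theorem ba_dot_smul' (r : ℝ) (p q : V3) : ba_dot p (r • q) = r * ba_dot p q := by
  simp [ba_dot]; ring

private theorem ba_dot_add (p p' q : V3) : ba_dot (p + p') q = ba_dot p q + ba_dot p' q := by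
  simp [ba_dot]; ring

private theorem ba_dot_cr (p q r : V3) : ba_dot (ba_cr p q) r = d3 p q r := by
  simp [ba_dot, ba_cr, d3]; ring

private theorem ba_lagrange (p q : V3) : ba_dot (ba_cr p q) (ba_cr p q) =
    ba_dot p p * ba_dot q q - ba_dot p q ^ 2 := by
  simp [ba_dot, ba_cr]; ring

private theorem ba_cr_self (p q : V3) : ba_dot (ba_cr p q) p = 0 := by
  simp [ba_dot, ba_cr]; ring

private theorem ba_cr_self' (p q : V3) : ba_dot (ba_cr p q) q = 0 := by
  simp [ba_dot, ba_cr]; ring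

private theorem ba_eq {p q : V3} (hp : ba_dot p p = 1) (hq : ba_dot q q = 1)
    (hpq : ba_dot p q = 1) : p = q := by
  have h1 : (p 0 - q 0) ^ 2 + (p 1 - q 1) ^ 2 + (p 2 - q 2) ^ 2 = 0 := by
    unfold ba_dot at hp hq hpq
    nlinarith
  have h5 := sq_nonneg (p 0 - q 0)
  have h6 := sq_nonneg (p 1 - q 1)
  have h7 := sq_nonneg (p 2 - q 2)
  have h2 : (p 0 - q 0) ^ 2 = 0 := by linarith
  have h3 : (p 1 - q 1) ^ 2 = 0 := by linarith
  have h4 : (p 2 - q 2) ^ 2 = 0 := by linarith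
  rw [sq_eq_zero_iff, sub_eq_zero] at h2 h3 h4
  ext i
  fin_cases i
  · exact h2
  · exact h3
  · exact h4

/-- `det (P Eᵀ) = det P det E` -/
private theorem ba_det (p q r e f g : V3) : d3 p q r * d3 e f g =
    ba_dot p e * (ba_dot q f * ba_dot r g - ba_dot q g * ba_dot r f) -
    ba_dot p f * (ba_dot q e * ba_dot r g - ba_dot q g * ba_dot r e) +
    ba_dot p g * (ba_dot q e * ba_dot r f - ba_dot q f * ba_dot r e) := by
  unfold d3 ba_dot; ring

private noncomputable def ba_e1 (u : V3) : V3 := (Real.sqrt (ba_dot u u))⁻¹ • u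

private noncomputable def ba_e3 (u v : V3) : V3 :=
  (Real.sqrt (ba_dot (ba_cr u v) (ba_cr u v)))⁻¹ • ba_cr u v

private noncomputable def ba_e2 (u v : V3) : V3 := ba_cr (ba_e3 u v) (ba_e1 u)

private theorem ba_dot_nonneg (u : V3) : 0 ≤ ba_dot u u := by
  unfold ba_dot
  nlinarith [mul_self_nonneg (u 0), mul_self_nonneg (u 1), mul_self_nonneg (u 2)]

private theorem ba_cr_pos {u v w : V3} (h : 0 < d3 u v w) :
    0 < ba_dot (ba_cr u v) (ba_cr u v) := by
  rcases (ba_dot_nonneg (ba_cr u v)).eq_or_lt with h0 | h0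
  · exfalso
    have h1 : ba_cr u v 0 = 0 ∧ ba_cr u v 1 = 0 ∧ ba_cr u v 2 = 0 := by
      unfold ba_dot at h0
      refine ⟨?_, ?_, ?_⟩ <;> nlinarith [sq_nonneg (ba_cr u v 0), sq_nonneg (ba_cr u v 1),
        sq_nonneg (ba_cr u v 2)]
    rw [← ba_dot_cr] at h
    unfold ba_dot at h
    rw [h1.1, h1.2.1, h1.2.2] at h
    simp at h
  · exact h0

private theorem ba_u_pos {u v : V3} (h : 0 < ba_dot (ba_cr u v) (ba_cr u v)) :
    0 < ba_dot u u := by
  rcases (ba_dot_nonneg u).eq_or_lt with h0 | h0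
  · exfalso
    rw [ba_lagrange, ← h0] at h
    nlinarith [sq_nonneg (ba_dot u v)]
  · exact h0

/-- unit vectors -/
private theorem ba_unit {u : V3} (h : 0 < ba_dot u u) :
    ba_dot ((Real.sqrt (ba_dot u u))⁻¹ • u) ((Real.sqrt (ba_dot u u))⁻¹ • u) = 1 := by
  rw [ba_dot_smul, ba_dot_smul']
  have h1 := Real.mul_self_sqrt h.le
  have h2 : 0 < Real.sqrt (ba_dot u u) := Real.sqrt_pos.2 h
  field_simp
  nlinarith

private structure ba_Fr (e f g : V3) : Prop where
  ee : ba_dot e e = 1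
  ff : ba_dot f f = 1
  gg : ba_dot g g = 1
  ef : ba_dot e f = 0
  eg : ba_dot e g = 0
  fg : ba_dot f g = 0
  det : d3 e f g = 1

private theorem ba_frame {u v : V3} (h : 0 < ba_dot (ba_cr u v) (ba_cr u v)) :
    ba_Fr (ba_e1 u) (ba_e2 u v) (ba_e3 u v) := by
  have hu := ba_u_pos h
  have h11 : ba_dot (ba_e1 u) (ba_e1 u) = 1 := ba_unit hu
  have h33 : ba_dot (ba_e3 u v) (ba_e3 u v) = 1 := ba_unit h
  have h31 : ba_dot (ba_e3 u v) (ba_e1 u) = 0 := by
    unfold ba_e3 ba_e1
    rw [ba_dot_smul, ba_dot_smul', ba_cr_self]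
    ring
  have h22 : ba_dot (ba_e2 u v) (ba_e2 u v) = 1 := by
    unfold ba_e2
    rw [ba_lagrange, h33, h11, h31]
    ring
  refine ⟨h11, h22, h33, ?_, ?_, ?_, ?_⟩
  · rw [ba_dot_comm]
    exact ba_cr_self' _ _
  · rw [ba_dot_comm]
    exact h31
  · exact ba_cr_self _ _
  · have h1 : d3 (ba_e1 u) (ba_e2 u v) (ba_e3 u v) = ba_dot (ba_e2 u v) (ba_e2 u v) := by
      conv_rhs => rw [show ba_e2 u v = ba_cr (ba_e3 u v) (ba_e1 u) from rfl]
      rw [ba_dot_cr]
      unfold d3
      rw [show ba_cr (ba_e3 u v) (ba_e1 u) = ba_e2 u v from rfl]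
      ring
    rw [h1, h22]

private theorem ba_orth {M : Matrix (Fin 3) (Fin 3) ℝ}
    (hM : M ∈ Matrix.specialOrthogonalGroup (Fin 3) ℝ) : ba_Fr (M 0) (M 1) (M 2) := by
  rw [Matrix.mem_specialOrthogonalGroup_iff, Matrix.mem_orthogonalGroup_iff] at hM
  obtain ⟨h1, h2⟩ := hM
  have h3 : ∀ i j, ba_dot (M i) (M j) = (1 : Matrix (Fin 3) (Fin 3) ℝ) i j := by
    intro i j
    rw [← h1]
    simp [Matrix.mul_apply, Fin.sum_univ_three, ba_dot]
  refine ⟨?_, ?_, ?_, ?_, ?_, ?_, ?_⟩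
  · rw [h3]; simp
  · rw [h3]; simp
  · rw [h3]; simp
  · rw [h3]; simp
  · rw [h3]; simp
  · rw [h3]; simp
  · rw [← h2, Matrix.det_fin_three]
    unfold d3
    ring

private theorem ba_mem {e f g : V3} (h : ba_Fr e f g) :
    (Matrix.of ![e, f, g] : Matrix (Fin 3) (Fin 3) ℝ) ∈
      Matrix.specialOrthogonalGroup (Fin 3) ℝ := by
  rw [Matrix.mem_specialOrthogonalGroup_iff, Matrix.mem_orthogonalGroup_iff]
  have h1 := h.ee
  have h2 := h.ff
  have h3 := h.gg
  have h4 := h.ef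
  have h5 := h.eg
  have h6 := h.fg
  have h7 := h.det
  unfold ba_dot at h1 h2 h3 h4 h5 h6
  constructor
  · ext i j
    fin_cases i <;> fin_cases j <;>
      simp [Matrix.mul_apply, Fin.sum_univ_three] <;> linarith
  · rw [Matrix.det_fin_three]
    unfold d3 at h7
    simp
    linarith

theorem base_he (a b c : Fin n) (hab : a ≠ b) (hbc : b ≠ c) (hac : a ≠ c) :
    Nonempty (ContinuousMap.HomotopyEquiv {x : Fin n → V3 | 0 < d3 (x a) (x b) (x c)}
      ↥(Matrix.specialOrthogonalGroup (Fin 3) ℝ)) := by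
  classical
  set X : Set (Fin n → V3) := {x | 0 < d3 (x a) (x b) (x c)} with hX
  have hcr : ∀ x : X, 0 < ba_dot (ba_cr (x.1 a) (x.1 b)) (ba_cr (x.1 a) (x.1 b)) :=
    fun x => ba_cr_pos x.2
  have hfr : ∀ x : X, ba_Fr (ba_e1 (x.1 a)) (ba_e2 (x.1 a) (x.1 b)) (ba_e3 (x.1 a) (x.1 b)) :=
    fun x => ba_frame (hcr x)
  have hdotc : ∀ {Y : Type} [TopologicalSpace Y] (p q : Y → V3), Continuous p → Continuous q →
      Continuous (fun y => ba_dot (p y) (q y)) := by
    intro Y _ p q hp hq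
    unfold ba_dot
    fun_prop
  have hcrc : ∀ {Y : Type} [TopologicalSpace Y] (p q : Y → V3), Continuous p → Continuous q →
      Continuous (fun y => ba_cr (p y) (q y)) := by
    intro Y _ p q hp hq
    refine continuous_pi fun i => ?_
    unfold ba_cr
    fin_cases i <;> simp <;> fun_prop
  have hxc : ∀ i, Continuous (fun x : X => x.1 i) := fun i =>
    (continuous_apply i).comp continuous_subtype_val
  have he1 : Continuous (fun x : X => ba_e1 (x.1 a)) := by
    unfold ba_e1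
    refine Continuous.smul (Continuous.inv₀ (Real.continuous_sqrt.comp
      (hdotc _ _ (hxc a) (hxc a))) fun x => ?_) (hxc a)
    exact (Real.sqrt_pos.2 (ba_u_pos (hcr x))).ne'
  have he3 : Continuous (fun x : X => ba_e3 (x.1 a) (x.1 b)) := by
    unfold ba_e3
    have hc := hcrc _ _ (hxc a) (hxc b)
    refine Continuous.smul (Continuous.inv₀ (Real.continuous_sqrt.comp
      (hdotc _ _ hc hc)) fun x => ?_) hc
    exact (Real.sqrt_pos.2 (hcr x)).ne'
  have he2 : Continuous (fun x : X => ba_e2 (x.1 a) (x.1 b)) := hcrc _ _ he3 he1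
  let R : C(X, ↥(Matrix.specialOrthogonalGroup (Fin 3) ℝ)) :=
    ⟨fun x => ⟨Matrix.of ![ba_e1 (x.1 a), ba_e2 (x.1 a) (x.1 b), ba_e3 (x.1 a) (x.1 b)],
      ba_mem (hfr x)⟩, by
      refine Continuous.subtype_mk ?_ _
      refine continuous_pi fun i => ?_
      fin_cases i
      · exact he1
      · exact he2
      · exact he3⟩
  let S : Matrix (Fin 3) (Fin 3) ℝ → (Fin n → V3) := fun M i =>
    if i = a then M 0 else if i = b then M 1 else if i = c then M 2 else 0
  have hSa : ∀ M, S M a = M 0 := fun M => by simp [S]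
  have hSb : ∀ M, S M b = M 1 := fun M => by simp [S, hab.symm]
  have hSc : ∀ M, S M c = M 2 := fun M => by simp [S, hac.symm, hbc.symm]
  have hScont : Continuous S := by
    refine continuous_pi fun i => ?_
    simp only [S]
    split_ifs
    · exact continuous_apply 0
    · exact continuous_apply 1
    · exact continuous_apply 2
    · exact continuous_const
  have hSX : ∀ M : ↥(Matrix.specialOrthogonalGroup (Fin 3) ℝ), S M.1 ∈ X := by
    intro M
    change 0 < d3 (S M.1 a) (S M.1 b) (S M.1 c)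
    rw [hSa, hSb, hSc, (ba_orth M.2).det]
    exact one_pos
  let s : C(↥(Matrix.specialOrthogonalGroup (Fin 3) ℝ), X) :=
    ⟨fun M => ⟨S M.1, hSX M⟩,
      Continuous.subtype_mk (hScont.comp continuous_subtype_val) hSX⟩
  have hRs : R.comp s = ContinuousMap.id _ := by
    ext1 M
    apply Subtype.ext
    obtain ⟨h11, h22, h33, h12, h13, h23, hd⟩ := ba_orth M.2
    have k1 : ba_e1 (M.1 0) = M.1 0 := by
      unfold ba_e1
      rw [h11]
      simp
    have kc : ba_dot (ba_cr (M.1 0) (M.1 1)) (ba_cr (M.1 0) (M.1 1)) = 1 := by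
      rw [ba_lagrange, h11, h22, h12]
      ring
    have k3 : ba_e3 (M.1 0) (M.1 1) = M.1 2 := by
      unfold ba_e3
      rw [kc]
      simp only [Real.sqrt_one, inv_one, one_smul]
      refine ba_eq kc h33 ?_
      rw [ba_dot_cr, hd]
    have k2 : ba_e2 (M.1 0) (M.1 1) = M.1 1 := by
      unfold ba_e2
      rw [k3, k1]
      refine ba_eq ?_ h22 ?_
      · rw [ba_lagrange, h33, h11, ba_dot_comm, h13]
        ring
      · rw [ba_dot_cr, ← hd]
        unfold d3
        ring
    change Matrix.of ![ba_e1 (S M.1 a), ba_e2 (S M.1 a) (S M.1 b), ba_e3 (S M.1 a) (S M.1 b)] =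
      M.1
    rw [hSa, hSb, k1, k2, k3]
    ext i j
    fin_cases i <;> rfl
  have hH : ∀ (t : unitInterval) (x : X),
      (fun i => (1 - (t : ℝ)) • x.1 i + (t : ℝ) • S (R x).1 i) ∈ X := by
    intro t x
    change 0 < d3 ((1 - (t : ℝ)) • x.1 a + (t : ℝ) • S (R x).1 a)
      ((1 - (t : ℝ)) • x.1 b + (t : ℝ) • S (R x).1 b)
      ((1 - (t : ℝ)) • x.1 c + (t : ℝ) • S (R x).1 c)
    rw [hSa, hSb, hSc]
    obtain ⟨h11, h22, h33, h12, h13, h23, hd⟩ := hfr x
    have hx : 0 < d3 (x.1 a) (x.1 b) (x.1 c) := x.2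
    set u := x.1 a with hu
    set v := x.1 b with hv
    set w := x.1 c with hw
    have r0 : (R x).1 0 = ba_e1 u := rfl
    have r1 : (R x).1 1 = ba_e2 u v := rfl
    have r2 : (R x).1 2 = ba_e3 u v := rfl
    rw [r0, r1, r2]
    have hc0 := hcr x
    rw [← hu, ← hv] at hc0
    have hu0 := ba_u_pos hc0
    have hsu : 0 < Real.sqrt (ba_dot u u) := Real.sqrt_pos.2 hu0
    have hsc : 0 < Real.sqrt (ba_dot (ba_cr u v) (ba_cr u v)) := Real.sqrt_pos.2 hc0
    -- the coordinates
    have a1 : 0 < ba_dot u (ba_e1 u) := by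
      unfold ba_e1
      rw [ba_dot_smul']
      positivity
    have a2 : ba_dot u (ba_e2 u v) = 0 := by
      unfold ba_e2
      rw [ba_dot_comm]
      have : ba_dot (ba_cr (ba_e3 u v) (ba_e1 u)) u =
          Real.sqrt (ba_dot u u) * ba_dot (ba_cr (ba_e3 u v) (ba_e1 u)) (ba_e1 u) := by
        conv_rhs => rw [show ba_dot (ba_cr (ba_e3 u v) (ba_e1 u)) (ba_e1 u) =
          ba_dot (ba_cr (ba_e3 u v) (ba_e1 u)) ((Real.sqrt (ba_dot u u))⁻¹ • u) from rfl]
        rw [ba_dot_smul']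
        field_simp
      rw [this, ba_cr_self', mul_zero]
    have a3 : ba_dot u (ba_e3 u v) = 0 := by
      unfold ba_e3
      rw [ba_dot_smul', ba_dot_comm u, ba_cr_self, mul_zero]
    have b2 : 0 < ba_dot v (ba_e2 u v) := by
      have h1 : ba_dot v (ba_e2 u v) = (Real.sqrt (ba_dot (ba_cr u v) (ba_cr u v)))⁻¹ *
          ((Real.sqrt (ba_dot u u))⁻¹ * ba_dot (ba_cr u v) (ba_cr u v)) := by
        unfold ba_e2
        rw [ba_dot_comm, ba_dot_cr]
        unfold ba_e3 ba_e1
        rw [ba_dot_cr u v (ba_cr u v)]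
        unfold d3
        simp only [Pi.smul_apply, smul_eq_mul]
        ring
      rw [h1]
      positivity
    have b3 : ba_dot v (ba_e3 u v) = 0 := by
      unfold ba_e3
      rw [ba_dot_smul', ba_dot_comm v, ba_cr_self', mul_zero]
    have c3 : 0 < ba_dot w (ba_e3 u v) := by
      unfold ba_e3
      rw [ba_dot_smul', ba_dot_comm w, ba_dot_cr u v w]
      exact mul_pos (inv_pos.2 hsc) hx
    have ht0 : 0 ≤ (t : ℝ) := t.2.1
    have ht1 : 0 ≤ 1 - (t : ℝ) := sub_nonneg.2 t.2.2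
    have hpos : ∀ y : ℝ, 0 < y → 0 < (1 - (t : ℝ)) * y + (t : ℝ) * 1 := by
      intro y hy
      rcases ht0.eq_or_lt with h0 | h0
      · rw [← h0]
        linarith
      · have : 0 ≤ (1 - (t : ℝ)) * y := mul_nonneg ht1 hy.le
        linarith
    have key := ba_det ((1 - (t : ℝ)) • u + (t : ℝ) • ba_e1 u)
      ((1 - (t : ℝ)) • v + (t : ℝ) • ba_e2 u v) ((1 - (t : ℝ)) • w + (t : ℝ) • ba_e3 u v)
      (ba_e1 u) (ba_e2 u v) (ba_e3 u v)
    simp only [ba_dot_add, ba_dot_smul] at key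
    rw [hd, mul_one, h11, h12, h13, h23, h22, h33, a2, a3, b3] at key
    have key2 : d3 ((1 - (t : ℝ)) • u + (t : ℝ) • ba_e1 u)
      ((1 - (t : ℝ)) • v + (t : ℝ) • ba_e2 u v) ((1 - (t : ℝ)) • w + (t : ℝ) • ba_e3 u v) =
        ((1 - (t : ℝ)) * ba_dot u (ba_e1 u) + (t : ℝ) * 1) *
        (((1 - (t : ℝ)) * ba_dot v (ba_e2 u v) + (t : ℝ) * 1) *
        ((1 - (t : ℝ)) * ba_dot w (ba_e3 u v) + (t : ℝ) * 1)) := by
      rw [key]
      ring
    rw [key2]
    exact mul_pos (hpos _ a1) (mul_pos (hpos _ b2) (hpos _ c3))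
  refine ⟨⟨R, s, ⟨ContinuousMap.Homotopy.symm ⟨⟨fun q =>
    ⟨fun i => (1 - (q.1 : ℝ)) • q.2.1 i + (q.1 : ℝ) • S (R q.2).1 i, hH q.1 q.2⟩, ?_⟩, ?_, ?_⟩⟩,
    ?_⟩⟩
  · refine Continuous.subtype_mk ?_ _
    have h1 : Continuous (fun q : unitInterval × X => S (R q.2).1) := by
      exact hScont.comp (continuous_subtype_val.comp (R.continuous.comp continuous_snd))
    refine continuous_pi fun i => ?_
    have h2 : Continuous (fun q : unitInterval × X => S (R q.2).1 i) :=
      (continuous_apply i).comp h1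
    have h3 : Continuous (fun q : unitInterval × X => (q.1 : ℝ)) :=
      continuous_subtype_val.comp continuous_fst
    exact ((continuous_const.sub h3).smul ((hxc i).comp continuous_snd)).add (h3.smul h2)
  · intro x
    apply Subtype.ext
    funext i
    simp
  · intro x
    apply Subtype.ext
    funext i
    simp [s]
  · rw [hRs]

end GT
end

section

/-! GT-11e: the tetrahedron -/

set_option autoImplicit false

namespace GT
open Finset

variable {n : ℕ}

/-- the twelve triples of the tetrahedron -/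
def tt_S (N a w c : Fin n) : Finset (Tri n) :=
  {(N, a, w), (a, w, N), (w, N, a), (N, w, c), (w, c, N), (c, N, w),
    (N, c, a), (c, a, N), (a, N, c), (a, c, w), (c, w, a), (w, a, c)}

lemma tt_mem {N a w c : Fin n} {τ : Tri n} : τ ∈ tt_S N a w c ↔
    τ = (N, a, w) ∨ τ = (a, w, N) ∨ τ = (w, N, a) ∨ τ = (N, w, c) ∨ τ = (w, c, N) ∨
    τ = (c, N, w) ∨ τ = (N, c, a) ∨ τ = (c, a, N) ∨ τ = (a, N, c) ∨ τ = (a, c, w) ∨
    τ = (c, w, a) ∨ τ = (w, a, c) := by
  simp only [tt_S, Finset.mem_insert, Finset.mem_singleton]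

lemma tt_T {T : Finset (Tri n)} (hT : Cx T) {N a w c : Fin n} (h1 : (N, a, w) ∈ T)
    (h2 : (N, w, c) ∈ T) (h3 : (N, c, a) ∈ T) (h4 : (a, c, w) ∈ T) (hs : Strong T) :
    tt_S N a w c = T := by
  have r1 := hT.rot _ _ _ h1
  have r1' := hT.rot _ _ _ r1
  have r2 := hT.rot _ _ _ h2
  have r2' := hT.rot _ _ _ r2
  have r3 := hT.rot _ _ _ h3
  have r3' := hT.rot _ _ _ r3
  have r4 := hT.rot _ _ _ h4
  have r4' := hT.rot _ _ _ r4
  have m1 : (N, a, w) ∈ tt_S N a w c := by simp [tt_S]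
  have m2 : (a, w, N) ∈ tt_S N a w c := by simp [tt_S]
  have m3 : (w, N, a) ∈ tt_S N a w c := by simp [tt_S]
  have m4 : (N, w, c) ∈ tt_S N a w c := by simp [tt_S]
  have m5 : (w, c, N) ∈ tt_S N a w c := by simp [tt_S]
  have m6 : (c, N, w) ∈ tt_S N a w c := by simp [tt_S]
  have m7 : (N, c, a) ∈ tt_S N a w c := by simp [tt_S]
  have m8 : (c, a, N) ∈ tt_S N a w c := by simp [tt_S]
  have m9 : (a, N, c) ∈ tt_S N a w c := by simp [tt_S]
  have m10 : (a, c, w) ∈ tt_S N a w c := by simp [tt_S]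
  have m11 : (c, w, a) ∈ tt_S N a w c := by simp [tt_S]
  have m12 : (w, a, c) ∈ tt_S N a w c := by simp [tt_S]
  refine hs _ ?_ ⟨(N, a, w), m1⟩ ?_ ?_
  · intro τ hτ
    rcases tt_mem.1 hτ with h | h | h | h | h | h | h | h | h | h | h | h <;> rw [h] <;> assumption
  · intro i j k h
    rw [tt_mem] at h
    simp only [Prod.mk.injEq] at h
    rcases h with ⟨rfl, rfl, rfl⟩ | ⟨rfl, rfl, rfl⟩ | ⟨rfl, rfl, rfl⟩ | ⟨rfl, rfl, rfl⟩ |
      ⟨rfl, rfl, rfl⟩ | ⟨rfl, rfl, rfl⟩ | ⟨rfl, rfl, rfl⟩ | ⟨rfl, rfl, rfl⟩ | ⟨rfl, rfl, rfl⟩ |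
      ⟨rfl, rfl, rfl⟩ | ⟨rfl, rfl, rfl⟩ | ⟨rfl, rfl, rfl⟩
    exacts [m2, m3, m1, m5, m6, m4, m8, m9, m7, m11, m12, m10]
  · intro i j k l h hl
    rw [tt_mem] at h
    simp only [Prod.mk.injEq] at h
    rcases h with ⟨rfl, rfl, rfl⟩ | ⟨rfl, rfl, rfl⟩ | ⟨rfl, rfl, rfl⟩ | ⟨rfl, rfl, rfl⟩ |
      ⟨rfl, rfl, rfl⟩ | ⟨rfl, rfl, rfl⟩ | ⟨rfl, rfl, rfl⟩ | ⟨rfl, rfl, rfl⟩ | ⟨rfl, rfl, rfl⟩ |
      ⟨rfl, rfl, rfl⟩ | ⟨rfl, rfl, rfl⟩ | ⟨rfl, rfl, rfl⟩
    · rw [hT.uniq _ _ _ _ hl r3']; exact m9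
    · rw [hT.uniq _ _ _ _ hl r4']; exact m12
    · rw [hT.uniq _ _ _ _ hl h2]; exact m4
    · rw [hT.uniq _ _ _ _ hl r1']; exact m3
    · rw [hT.uniq _ _ _ _ hl r4]; exact m11
    · rw [hT.uniq _ _ _ _ hl h3]; exact m7
    · rw [hT.uniq _ _ _ _ hl r2']; exact m6
    · rw [hT.uniq _ _ _ _ hl h4]; exact m10
    · rw [hT.uniq _ _ _ _ hl h1]; exact m1
    · rw [hT.uniq _ _ _ _ hl r3]; exact m8
    · rw [hT.uniq _ _ _ _ hl r2]; exact m5
    · rw [hT.uniq _ _ _ _ hl r1]; exact m2

lemma tt_pos {T : Finset (Tri n)} {N a w c : Fin n} (hTS : tt_S N a w c = T) (x : Fin n → V3) :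
    Pos T x ↔ 0 < d3 (x N) (x a) (x w) ∧ 0 < d3 (x N) (x w) (x c) ∧ 0 < d3 (x N) (x c) (x a) ∧
      0 < d3 (x a) (x c) (x w) := by
  subst hTS
  constructor
  · intro h
    exact ⟨h _ _ _ (tt_mem.2 (by tauto)), h _ _ _ (tt_mem.2 (by tauto)),
      h _ _ _ (tt_mem.2 (by tauto)), h _ _ _ (tt_mem.2 (by tauto))⟩
  · rintro ⟨h1, h2, h3, h4⟩ i j k h
    rw [tt_mem] at h
    simp only [Prod.mk.injEq] at h
    rcases h with ⟨rfl, rfl, rfl⟩ | ⟨rfl, rfl, rfl⟩ | ⟨rfl, rfl, rfl⟩ | ⟨rfl, rfl, rfl⟩ |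
      ⟨rfl, rfl, rfl⟩ | ⟨rfl, rfl, rfl⟩ | ⟨rfl, rfl, rfl⟩ | ⟨rfl, rfl, rfl⟩ | ⟨rfl, rfl, rfl⟩ |
      ⟨rfl, rfl, rfl⟩ | ⟨rfl, rfl, rfl⟩ | ⟨rfl, rfl, rfl⟩
    · exact h1
    · rwa [d3_rot]
    · rwa [d3_rot, d3_rot]
    · exact h2
    · rwa [d3_rot]
    · rwa [d3_rot, d3_rot]
    · exact h3
    · rwa [d3_rot]
    · rwa [d3_rot, d3_rot]
    · exact h4
    · rwa [d3_rot]
    · rwa [d3_rot, d3_rot]

lemma tt_emb {T : Finset (Tri n)} (hT : Cx T) {N a w c : Fin n} (hTS : tt_S N a w c = T)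
    (hac : a ≠ c) (hcw : c ≠ w) (hwa : w ≠ a)
    {x : Fin n → V3} (hp : Pos T x) : Emb T x := by
  classical
  obtain ⟨h1, h2, h3, h4⟩ := (tt_pos hTS x).1 hp
  rw [GT.emb_iff_cnt hT hp]
  set y0 : V3 := x a + x c + x w with hy0
  have hc : ∀ (u v : V3), Continuous (fun y : V3 => d3 y u v) := fun u v =>
    d3_continuous continuous_id continuous_const continuous_const
  have hc2 : ∀ (u v : V3), Continuous (fun y : V3 => d3 u y v) := fun u v =>
    d3_continuous continuous_const continuous_id continuous_const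
  have hc3 : ∀ (u v : V3), Continuous (fun y : V3 => d3 u v y) := fun u v =>
    d3_continuous continuous_const continuous_const continuous_id
  have hopen : IsOpen {y : V3 | inC x (a, c, w) y} := by
    have : {y : V3 | inC x (a, c, w) y} = {y | 0 < d3 y (x c) (x w)} ∩
        ({y | 0 < d3 (x a) y (x w)} ∩ {y | 0 < d3 (x a) (x c) y}) := rfl
    rw [this]
    exact (isOpen_lt continuous_const (hc _ _)).inter
      ((isOpen_lt continuous_const (hc2 _ _)).inter (isOpen_lt continuous_const (hc3 _ _)))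
  have hmem : y0 ∈ {y : V3 | inC x (a, c, w) y} := by
    show inC x (a, c, w) y0
    rw [inC_iff h4]
    exact ⟨1, 1, 1, one_pos, one_pos, one_pos, by rw [hy0]; simp⟩
  obtain ⟨ε, hε, hball⟩ := Metric.isOpen_iff.1 hopen y0 hmem
  obtain ⟨y, hy1, hy2⟩ := avoid_d3 (T.image (fun τ => (x τ.1, x τ.2.1))) (by
    intro q hq
    obtain ⟨τ, hτ, rfl⟩ := Finset.mem_image.1 hq
    exact ⟨x τ.2.2, (hp τ.1 τ.2.1 τ.2.2 hτ).ne'⟩) y0 ε hε
  have hyC : inC x (a, c, w) y := by
    apply hball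
    rw [Metric.mem_ball, dist_pi_lt_iff hε]
    intro i
    rw [Real.dist_eq]
    exact hy1 i
  have hyG : Gy T x y := fun τ hτ =>
    hy2 (x τ.1, x τ.2.1) (Finset.mem_image.2 ⟨τ, hτ, rfl⟩)
  refine ⟨y, hyG, ?_⟩
  have hyC' := hyC
  obtain ⟨c1, c2, c3⟩ := hyC'
  simp only at c1 c2 c3
  have key : T.filter (fun τ => inC x τ y) = {(a, c, w), (c, w, a), (w, a, c)} := by
    ext τ
    rw [Finset.mem_filter]
    simp only [Finset.mem_insert, Finset.mem_singleton]
    constructor
    · rintro ⟨hτ, hC⟩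
      have n1 : ¬ inC x (N, a, w) y := by
        rintro ⟨q, -, -⟩
        simp only at q
        rw [d3_swap12] at q
        linarith
      have n2 : ¬ inC x (N, w, c) y := by
        rintro ⟨q, -, -⟩
        simp only at q
        rw [d3_swap23] at q
        linarith
      have n3 : ¬ inC x (N, c, a) y := by
        rintro ⟨q, -, -⟩
        simp only at q
        rw [← d3_rot, d3_swap12] at q
        linarith
      rw [← hTS, tt_mem] at hτ
      rcases hτ with h | h | h | h | h | h | h | h | h | h | h | h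
      · exact absurd (h ▸ hC) n1
      · rw [h] at hC
        exact absurd ((inC_rot3 x (N, a, w) y).1 hC) n1
      · rw [h] at hC
        exact absurd ((inC_rot3 x (N, a, w) y).1 ((inC_rot3 x (rot3 (N, a, w)) y).1 hC)) n1
      · exact absurd (h ▸ hC) n2
      · rw [h] at hC
        exact absurd ((inC_rot3 x (N, w, c) y).1 hC) n2
      · rw [h] at hC
        exact absurd ((inC_rot3 x (N, w, c) y).1 ((inC_rot3 x (rot3 (N, w, c)) y).1 hC)) n2
      · exact absurd (h ▸ hC) n3
      · rw [h] at hC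
        exact absurd ((inC_rot3 x (N, c, a) y).1 hC) n3
      · rw [h] at hC
        exact absurd ((inC_rot3 x (N, c, a) y).1 ((inC_rot3 x (rot3 (N, c, a)) y).1 hC)) n3
      · exact Or.inl h
      · exact Or.inr (Or.inl h)
      · exact Or.inr (Or.inr h)
    · rw [← hTS, tt_mem]
      rintro (h | h | h)
      · exact ⟨by tauto, h ▸ hyC⟩
      · refine ⟨by tauto, ?_⟩
        rw [h]
        exact (inC_rot3 x (a, c, w) y).2 hyC
      · refine ⟨by tauto, ?_⟩
        rw [h]
        exact (inC_rot3 x (c, w, a) y).2 ((inC_rot3 x (a, c, w) y).2 hyC)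
  have : cnt T x y = (T.filter (fun τ => inC x τ y)).card := by
    unfold cnt
    congr
  rw [this, key, Finset.card_insert_of_notMem, Finset.card_insert_of_notMem,
    Finset.card_singleton]
  · simp only [Finset.mem_singleton, Prod.mk.injEq, not_and]
    intro h
    exact absurd h hcw
  · simp only [Finset.mem_insert, Finset.mem_singleton, Prod.mk.injEq, not_or, not_and]
    exact ⟨fun h => absurd h hac, fun h => absurd h.symm hwa⟩

theorem tetra_he {T : Finset (Tri n)} (hT : Cx T) {N a w c : Fin n} (h1 : (N, a, w) ∈ T)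
    (h2 : (N, w, c) ∈ T) (h3 : (N, c, a) ∈ T) (h4 : (a, c, w) ∈ T) (hx : (RSp T).Nonempty) :
    Nonempty (ContinuousMap.HomotopyEquiv (RSp T)
      ↥(Matrix.specialOrthogonalGroup (Fin 3) ℝ)) := by
  classical
  obtain ⟨x0, hx0⟩ := hx
  have hTS := tt_T hT h1 h2 h3 h4 (GT.strong_of hT hx0)
  have hNa : a ≠ N := (hT.ne _ _ _ h1).symm
  have hNw : w ≠ N := (hT.ne _ _ _ h2).symm
  have hNc : c ≠ N := (hT.ne _ _ _ h3).symm
  have hac : a ≠ c := hT.ne _ _ _ h4
  have hcw : c ≠ w := hT.ne _ _ _ (hT.rot _ _ _ h4)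
  have hwa : w ≠ a := hT.ne _ _ _ (hT.rot _ _ _ (hT.rot _ _ _ h4))
  have hR : ∀ x : Fin n → V3, x ∈ RSp T ↔ 0 < d3 (x N) (x a) (x w) ∧ 0 < d3 (x N) (x w) (x c) ∧
      0 < d3 (x N) (x c) (x a) ∧ 0 < d3 (x a) (x c) (x w) := by
    intro x
    constructor
    · intro h
      exact (tt_pos hTS x).1 h.1
    · intro h
      have hp := (tt_pos hTS x).2 h
      exact ⟨hp, tt_emb hT hTS hac hcw hwa hp⟩
  obtain ⟨e1⟩ := he_moves (E := Fin n → V3) (M := V3)
    {x : Fin n → V3 | 0 < d3 (x a) (x c) (x w)} (RSp T)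
    (fun x h => ((hR x).1 h).2.2.2) (GT.isOpen_RSp hT)
    (fun x t => Function.update x N (x N + t))
    (by
      apply Continuous.update continuous_fst
      exact ((continuous_apply N).comp continuous_fst).add continuous_snd)
    (fun x => by simp)
    (fun x hx => by
      have : {t : V3 | Function.update x N (x N + t) ∈
          {x : Fin n → V3 | 0 < d3 (x a) (x c) (x w)}} = Set.univ := by
        ext t
        simp only [Set.mem_ofPred_eq, Set.mem_univ, iff_true, Function.update_of_ne hNa,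
          Function.update_of_ne hNw, Function.update_of_ne hNc]
        exact hx
      rw [this]
      exact convex_univ)
    (fun x hx => by
      have : {t : V3 | Function.update x N (x N + t) ∈ RSp T} =
          {t : V3 | 0 < d3 (x N + t) (x a) (x w)} ∩ ({t : V3 | 0 < d3 (x N + t) (x w) (x c)} ∩
            {t : V3 | 0 < d3 (x N + t) (x c) (x a)}) := by
        ext t
        simp only [Set.mem_ofPred_eq, hR, Function.update_self, Function.update_of_ne hNa,
          Function.update_of_ne hNw, Function.update_of_ne hNc, Set.mem_inter_iff]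
        constructor
        · rintro ⟨q1, q2, q3, -⟩
          exact ⟨q1, q2, q3⟩
        · rintro ⟨q1, q2, q3⟩
          exact ⟨q1, q2, q3, hx⟩
      rw [this]
      have hcv : ∀ u v : V3, Convex ℝ {t : V3 | 0 < d3 (x N + t) u v} := by
        intro u v s hs t ht α β hα hβ hαβ
        simp only [Set.mem_ofPred_eq] at hs ht ⊢
        have e : d3 (x N + (α • s + β • t)) u v =
            α * d3 (x N + s) u v + β * d3 (x N + t) u v := by
          rw [d3_add1, d3_add1, d3_add1, d3_add1, d3_smul1, d3_smul1]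
          have : d3 (x N) u v = (α + β) * d3 (x N) u v := by rw [hαβ, one_mul]
          nlinarith
        rw [e]
        rcases hα.eq_or_lt with h0 | h0
        · have : β = 1 := by linarith
          rw [← h0, this]
          linarith
        · have := mul_pos h0 hs
          have := mul_nonneg hβ ht.le
          linarith
      exact (hcv _ _).inter ((hcv _ _).inter (hcv _ _)))
    (fun x hx => by
      have hx' : 0 < d3 (x a) (x c) (x w) := hx
      refine ⟨-(x a + x c + x w) - x N, ?_⟩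
      rw [hR]
      simp only [Function.update_self, Function.update_of_ne hNa,
          Function.update_of_ne hNw, Function.update_of_ne hNc]
      have e : x N + (-(x a + x c + x w) - x N) = (-1 : ℝ) • (x a + x c + x w) := by
        rw [neg_one_smul]; abel
      rw [e]
      simp only [d3_smul1, d3_add1, d3_self12, d3_self13]
      refine ⟨?_, ?_, ?_, hx'⟩
      · have : d3 (x c) (x a) (x w) = - d3 (x a) (x c) (x w) := d3_swap12 _ _ _
        linarith
      · have : d3 (x a) (x w) (x c) = - d3 (x a) (x c) (x w) := d3_swap23 _ _ _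
        linarith
      · have h5 : d3 (x w) (x c) (x a) = d3 (x a) (x w) (x c) := d3_rot _ _ _
        have : d3 (x a) (x w) (x c) = - d3 (x a) (x c) (x w) := d3_swap23 _ _ _
        linarith)
  obtain ⟨e2⟩ := base_he a c w hac hcw hwa.symm
  exact ⟨e1.trans e2⟩

end GT
end
end
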