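import Pool.Agent.Lib.MP_c41363_gt.Defs
import Pool.Agent.Lib.MP_c41363_gt.Cnt
import Pool.Agent.Lib.MP_c41363_gt.Rsp
import Pool.Agent.Lib.MP_c41363_gt.Cycles
import Pool.Agent.Lib.MP_c41363_gt.Mv

section

set_option autoImplicit false

namespace GT
open Finset

variable {n : ℕ}

theorem fc_mem0 {T : Finset (Tri n)} {N a w c i j k : Fin n} :
    (i, j, k) ∈ flip T N a w c ↔
      ((i, j, k) ∈ T ∧ ¬(i = N ∧ j = a ∧ k = w) ∧ ¬(i = a ∧ j = w ∧ k = N) ∧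
        ¬(i = w ∧ j = N ∧ k = a) ∧ ¬(i = N ∧ j = w ∧ k = c) ∧ ¬(i = w ∧ j = c ∧ k = N) ∧
        ¬(i = c ∧ j = N ∧ k = w)) ∨
      ((i = N ∧ j = a ∧ k = c) ∨ (i = a ∧ j = c ∧ k = N) ∨ (i = c ∧ j = N ∧ k = a) ∨
        (i = a ∧ j = w ∧ k = c) ∨ (i = w ∧ j = c ∧ k = a) ∨ (i = c ∧ j = a ∧ k = w)) := by
  simp only [flip, mem_union, mem_sdiff, mem_insert, mem_singleton, Prod.mk.injEq, not_or]

/-- the six removed darts -/
def fcD (N a w c i j : Fin n) : Prop :=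
  (i = N ∧ j = a) ∨ (i = a ∧ j = w) ∨ (i = w ∧ j = N) ∨ (i = N ∧ j = w) ∨ (i = w ∧ j = c) ∨
    (i = c ∧ j = N)

/-- the six new triples -/
def fcN (N a w c i j k : Fin n) : Prop :=
  (i = N ∧ j = a ∧ k = c) ∨ (i = a ∧ j = c ∧ k = N) ∨ (i = c ∧ j = N ∧ k = a) ∨
    (i = a ∧ j = w ∧ k = c) ∨ (i = w ∧ j = c ∧ k = a) ∨ (i = c ∧ j = a ∧ k = w)

theorem fc_mem {T : Finset (Tri n)} (hT : Cx T) {N a w c : Fin n} (h1 : (N, a, w) ∈ T)
    (h2 : (N, w, c) ∈ T) {i j k : Fin n} :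
    (i, j, k) ∈ flip T N a w c ↔ ((i, j, k) ∈ T ∧ ¬ fcD N a w c i j) ∨ fcN N a w c i j k := by
  have m2 := hT.rot _ _ _ h1
  have m3 := hT.rot _ _ _ m2
  have m5 := hT.rot _ _ _ h2
  have m6 := hT.rot _ _ _ m5
  have u := hT.uniq
  rw [fc_mem0]
  refine or_congr ?_ Iff.rfl
  constructor
  · rintro ⟨h, g1, g2, g3, g4, g5, g6⟩
    refine ⟨h, ?_⟩
    rintro (⟨e1, e2⟩ | ⟨e1, e2⟩ | ⟨e1, e2⟩ | ⟨e1, e2⟩ | ⟨e1, e2⟩ | ⟨e1, e2⟩)
    · rw [e1, e2] at h; exact g1 ⟨e1, e2, u _ _ _ _ h h1⟩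
    · rw [e1, e2] at h; exact g2 ⟨e1, e2, u _ _ _ _ h m2⟩
    · rw [e1, e2] at h; exact g3 ⟨e1, e2, u _ _ _ _ h m3⟩
    · rw [e1, e2] at h; exact g4 ⟨e1, e2, u _ _ _ _ h h2⟩
    · rw [e1, e2] at h; exact g5 ⟨e1, e2, u _ _ _ _ h m5⟩
    · rw [e1, e2] at h; exact g6 ⟨e1, e2, u _ _ _ _ h m6⟩
  · rintro ⟨h, g⟩
    exact ⟨h, fun e => g (Or.inl ⟨e.1, e.2.1⟩), fun e => g (Or.inr (Or.inl ⟨e.1, e.2.1⟩)),
      fun e => g (Or.inr (Or.inr (Or.inl ⟨e.1, e.2.1⟩))),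
      fun e => g (Or.inr (Or.inr (Or.inr (Or.inl ⟨e.1, e.2.1⟩)))),
      fun e => g (Or.inr (Or.inr (Or.inr (Or.inr (Or.inl ⟨e.1, e.2.1⟩))))),
      fun e => g (Or.inr (Or.inr (Or.inr (Or.inr (Or.inr ⟨e.1, e.2.1⟩)))))⟩

/-- the six new triples have different darts -/
theorem fcN_uniq {N a w c i j k l : Fin n} (n1 : N ≠ a) (n2 : a ≠ w) (n3 : w ≠ N) (n5 : w ≠ c)
    (n6 : c ≠ N) (hac : a ≠ c) (hk : fcN N a w c i j k) (hl : fcN N a w c i j l) : k = l := by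
  rcases hk with ⟨e1, e2, e3⟩ | ⟨e1, e2, e3⟩ | ⟨e1, e2, e3⟩ | ⟨e1, e2, e3⟩ | ⟨e1, e2, e3⟩ |
    ⟨e1, e2, e3⟩ <;>
  rcases hl with ⟨f1, f2, f3⟩ | ⟨f1, f2, f3⟩ | ⟨f1, f2, f3⟩ | ⟨f1, f2, f3⟩ | ⟨f1, f2, f3⟩ |
    ⟨f1, f2, f3⟩ <;>
  first
    | exact e3.trans f3.symm
    | (exfalso; have q := e1.symm.trans f1; first
        | exact n1 q | exact n1 q.symm | exact n2 q | exact n2 q.symm | exact n3 q
        | exact n3 q.symm | exact n5 q | exact n5 q.symm | exact n6 q | exact n6 q.symm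
        | exact hac q | exact hac q.symm)
    | (exfalso; have q := e2.symm.trans f2; first
        | exact n1 q | exact n1 q.symm | exact n2 q | exact n2 q.symm | exact n3 q
        | exact n3 q.symm | exact n5 q | exact n5 q.symm | exact n6 q | exact n6 q.symm
        | exact hac q | exact hac q.symm)

theorem fcN_dart {N a w c i j k : Fin n} (h : fcN N a w c i j k) :
    fcD N a w c i j ∨ (i = a ∧ j = c) ∨ (i = c ∧ j = a) := by
  rcases h with ⟨e1, e2, e3⟩ | ⟨e1, e2, e3⟩ | ⟨e1, e2, e3⟩ | ⟨e1, e2, e3⟩ | ⟨e1, e2, e3⟩ |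
    ⟨e1, e2, e3⟩
  · exact Or.inl (Or.inl ⟨e1, e2⟩)
  · exact Or.inr (Or.inl ⟨e1, e2⟩)
  · exact Or.inl (Or.inr (Or.inr (Or.inr (Or.inr (Or.inr ⟨e1, e2⟩)))))
  · exact Or.inl (Or.inr (Or.inl ⟨e1, e2⟩))
  · exact Or.inl (Or.inr (Or.inr (Or.inr (Or.inr (Or.inl ⟨e1, e2⟩)))))
  · exact Or.inr (Or.inr ⟨e1, e2⟩)

theorem fc_notD {N a w c i j : Fin n} (h1 : ¬(i = N ∧ j = a)) (h2 : ¬(i = a ∧ j = w))
    (h3 : ¬(i = w ∧ j = N)) (h4 : ¬(i = N ∧ j = w)) (h5 : ¬(i = w ∧ j = c))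
    (h6 : ¬(i = c ∧ j = N)) : ¬ fcD N a w c i j := by
  rintro (h | h | h | h | h | h)
  exacts [h1 h, h2 h, h3 h, h4 h, h5 h, h6 h]

theorem flip_cx {T : Finset (Tri n)} (hT : Cx T) {N a w c : Fin n} (h1 : (N, a, w) ∈ T)
    (h2 : (N, w, c) ∈ T) (hac : a ≠ c) (hna : ¬ Adj T a c) : Cx (flip T N a w c) := by
  have m2 := hT.rot _ _ _ h1
  have m3 := hT.rot _ _ _ m2
  have m5 := hT.rot _ _ _ h2
  have m6 := hT.rot _ _ _ m5
  have n1 := hT.ne _ _ _ h1
  have n2 := hT.ne _ _ _ m2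
  have n3 := hT.ne _ _ _ m3
  have n5 := hT.ne _ _ _ m5
  have n6 := hT.ne _ _ _ m6
  have u := hT.uniq
  have k1 : ∀ k, (a, c, k) ∉ T := fun k hk => hna ⟨k, hk⟩
  have k2 : ∀ k, (c, a, k) ∉ T := fun k hk => by
    obtain ⟨l, hl⟩ := hT.sym _ _ _ hk
    exact k1 l hl
  have mem := fun {i j k : Fin n} => fc_mem hT h1 h2 (i := i) (j := j) (k := k)
  refine ⟨⟨(N, a, c), mem.2 (Or.inr (Or.inl ⟨rfl, rfl, rfl⟩))⟩, ?_, ?_, ?_, ?_⟩
  · intro i j k h
    rw [fc_mem0] at h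
    rcases h with ⟨h, g1, g2, g3, g4, g5, g6⟩ | h
    · rw [fc_mem0]
      left
      exact ⟨hT.rot _ _ _ h, fun e => g3 ⟨e.2.2, e.1, e.2.1⟩, fun e => g1 ⟨e.2.2, e.1, e.2.1⟩,
        fun e => g2 ⟨e.2.2, e.1, e.2.1⟩, fun e => g6 ⟨e.2.2, e.1, e.2.1⟩,
        fun e => g4 ⟨e.2.2, e.1, e.2.1⟩, fun e => g5 ⟨e.2.2, e.1, e.2.1⟩⟩
    · rw [mem]
      right
      rcases h with ⟨e1, e2, e3⟩ | ⟨e1, e2, e3⟩ | ⟨e1, e2, e3⟩ | ⟨e1, e2, e3⟩ | ⟨e1, e2, e3⟩ |
        ⟨e1, e2, e3⟩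
      · exact Or.inr (Or.inl ⟨e2, e3, e1⟩)
      · exact Or.inr (Or.inr (Or.inl ⟨e2, e3, e1⟩))
      · exact Or.inl ⟨e2, e3, e1⟩
      · exact Or.inr (Or.inr (Or.inr (Or.inr (Or.inl ⟨e2, e3, e1⟩))))
      · exact Or.inr (Or.inr (Or.inr (Or.inr (Or.inr ⟨e2, e3, e1⟩))))
      · exact Or.inr (Or.inr (Or.inr (Or.inl ⟨e2, e3, e1⟩)))
  · intro i j k h
    rw [mem] at h
    rcases h with h | h
    · exact hT.ne _ _ _ h.1
    · rcases h with ⟨rfl, rfl, rfl⟩ | ⟨rfl, rfl, rfl⟩ | ⟨rfl, rfl, rfl⟩ | ⟨rfl, rfl, rfl⟩ |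
        ⟨rfl, rfl, rfl⟩ | ⟨rfl, rfl, rfl⟩
      · exact n1
      · exact hac
      · exact n6
      · exact n2
      · exact n5
      · exact hac.symm
  · intro i j k l hk hl
    rw [mem] at hk hl
    have key : ∀ k l, ((i, j, k) ∈ T ∧ ¬ fcD N a w c i j) → fcN N a w c i j l → False := by
      rintro k l ⟨h, g⟩ h'
      rcases fcN_dart h' with h3 | ⟨rfl, rfl⟩ | ⟨rfl, rfl⟩
      · exact g h3
      · exact k1 k h
      · exact k2 k h
    rcases hk with hk | hk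
    · rcases hl with hl | hl
      · exact u _ _ _ _ hk.1 hl.1
      · exact (key k l hk hl).elim
    · rcases hl with hl | hl
      · exact (key l k hl hk).elim
      · exact fcN_uniq n1 n2 n3 n5 n6 hac hk hl
  · intro i j k h
    rw [mem] at h
    rcases h with ⟨h, g⟩ | h
    · obtain ⟨l, hl⟩ := hT.sym _ _ _ h
      by_cases q : fcD N a w c j i
      · rcases q with ⟨e1, e2⟩ | ⟨e1, e2⟩ | ⟨e1, e2⟩ | ⟨e1, e2⟩ | ⟨e1, e2⟩ | ⟨e1, e2⟩
        · exact ⟨c, mem.2 (Or.inr (Or.inl ⟨e1, e2, rfl⟩))⟩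
        · exact ⟨c, mem.2 (Or.inr (Or.inr (Or.inr (Or.inr (Or.inl ⟨e1, e2, rfl⟩)))))⟩
        · exact absurd (Or.inr (Or.inr (Or.inr (Or.inl ⟨e2, e1⟩)))) g
        · exact absurd (Or.inr (Or.inr (Or.inl ⟨e2, e1⟩))) g
        · exact ⟨a, mem.2 (Or.inr (Or.inr (Or.inr (Or.inr (Or.inr (Or.inl ⟨e1, e2, rfl⟩))))))⟩
        · exact ⟨a, mem.2 (Or.inr (Or.inr (Or.inr (Or.inl ⟨e1, e2, rfl⟩))))⟩
      · exact ⟨l, mem.2 (Or.inl ⟨hl, q⟩)⟩
    · rcases h with ⟨rfl, rfl, rfl⟩ | ⟨rfl, rfl, rfl⟩ | ⟨rfl, rfl, rfl⟩ | ⟨rfl, rfl, rfl⟩ |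
        ⟨rfl, rfl, rfl⟩ | ⟨rfl, rfl, rfl⟩
      · obtain ⟨l, hl⟩ := hT.sym _ _ _ h1
        exact ⟨l, mem.2 (Or.inl ⟨hl, fc_notD (fun e => n1 e.1.symm) (fun e => n3 e.2.symm)
          (fun e => n2 e.1) (fun e => n1 e.1.symm) (fun e => n2 e.1) (fun e => hac e.1)⟩)⟩
      · exact ⟨w, mem.2 (Or.inr (Or.inr (Or.inr (Or.inr (Or.inr (Or.inr ⟨rfl, rfl, rfl⟩))))))⟩
      · obtain ⟨l, hl⟩ := hT.sym _ _ _ m6
        exact ⟨l, mem.2 (Or.inl ⟨hl, fc_notD (fun e => hac e.2.symm) (fun e => n1 e.1)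
          (fun e => n6 e.2) (fun e => n5 e.2.symm) (fun e => n3 e.1.symm) (fun e => n6 e.2)⟩)⟩
      · obtain ⟨l, hl⟩ := hT.sym _ _ _ m2
        exact ⟨l, mem.2 (Or.inl ⟨hl, fc_notD (fun e => n3 e.1) (fun e => n2 e.1.symm)
          (fun e => n1 e.2.symm) (fun e => n3 e.1) (fun e => hac e.2) (fun e => n5 e.1)⟩)⟩
      · obtain ⟨l, hl⟩ := hT.sym _ _ _ m5
        exact ⟨l, mem.2 (Or.inl ⟨hl, fc_notD (fun e => n6 e.1) (fun e => hac e.1.symm)
          (fun e => n5 e.1.symm) (fun e => n6 e.1) (fun e => n5 e.2) (fun e => n3 e.2)⟩)⟩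
      · exact ⟨N, mem.2 (Or.inr (Or.inr (Or.inl ⟨rfl, rfl, rfl⟩)))⟩

theorem flip_flip {T : Finset (Tri n)} (hT : Cx T) {N a w c : Fin n} (h1 : (N, a, w) ∈ T)
    (h2 : (N, w, c) ∈ T) (hac : a ≠ c) (hna : ¬ Adj T a c) :
    (a, w, c) ∈ flip T N a w c ∧ (a, c, N) ∈ flip T N a w c ∧ ¬ Adj (flip T N a w c) w N ∧
      verts (flip T N a w c) = verts T ∧
      ((flip T N a w c).filter (fun τ => τ.1 = N)).card + 1 =
        (T.filter (fun τ => τ.1 = N)).card := by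
  have m2 := hT.rot _ _ _ h1
  have m3 := hT.rot _ _ _ m2
  have m5 := hT.rot _ _ _ h2
  have m6 := hT.rot _ _ _ m5
  have n1 := hT.ne _ _ _ h1
  have n2 := hT.ne _ _ _ m2
  have n3 := hT.ne _ _ _ m3
  have n5 := hT.ne _ _ _ m5
  have n6 := hT.ne _ _ _ m6
  have u := hT.uniq
  have mem := fun {i j k : Fin n} => fc_mem hT h1 h2 (i := i) (j := j) (k := k)
  refine ⟨?_, ?_, ?_, ?_, ?_⟩
  · exact mem.2 (Or.inr (Or.inr (Or.inr (Or.inr (Or.inl ⟨rfl, rfl, rfl⟩)))))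
  · exact mem.2 (Or.inr (Or.inr (Or.inl ⟨rfl, rfl, rfl⟩)))
  · rintro ⟨k, hk⟩
    rw [mem] at hk
    rcases hk with ⟨hk, g⟩ | hk
    · exact g (Or.inr (Or.inr (Or.inl ⟨rfl, rfl⟩)))
    · rcases hk with ⟨e1, e2, e3⟩ | ⟨e1, e2, e3⟩ | ⟨e1, e2, e3⟩ | ⟨e1, e2, e3⟩ | ⟨e1, e2, e3⟩ |
        ⟨e1, e2, e3⟩
      · exact n3 e1
      · exact n2 e1.symm
      · exact n5 e1
      · exact n2 e1.symm
      · exact n6 e2.symm
      · exact n5 e1
  · ext v
    simp only [verts, mem_image, Prod.exists]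
    constructor
    · rintro ⟨i, j, k, h, rfl⟩
      rw [mem] at h
      rcases h with h | ⟨rfl, rfl, rfl⟩ | ⟨rfl, rfl, rfl⟩ | ⟨rfl, rfl, rfl⟩ | ⟨rfl, rfl, rfl⟩ |
        ⟨rfl, rfl, rfl⟩ | ⟨rfl, rfl, rfl⟩
      · exact ⟨i, j, k, h.1, rfl⟩
      · exact ⟨_, _, _, h1, rfl⟩
      · exact ⟨_, _, _, m2, rfl⟩
      · exact ⟨_, _, _, m6, rfl⟩
      · exact ⟨_, _, _, m2, rfl⟩
      · exact ⟨_, _, _, m3, rfl⟩
      · exact ⟨_, _, _, m6, rfl⟩
    · rintro ⟨i, j, k, h, rfl⟩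
      by_cases q1 : i = N
      · exact ⟨N, a, c, mem.2 (Or.inr (Or.inl ⟨rfl, rfl, rfl⟩)), q1.symm⟩
      by_cases q2 : i = a
      · exact ⟨a, c, N, mem.2 (Or.inr (Or.inr (Or.inl ⟨rfl, rfl, rfl⟩))), q2.symm⟩
      by_cases q3 : i = c
      · exact ⟨c, N, a, mem.2 (Or.inr (Or.inr (Or.inr (Or.inl ⟨rfl, rfl, rfl⟩)))), q3.symm⟩
      by_cases q4 : i = w
      · exact ⟨w, c, a, mem.2 (Or.inr (Or.inr (Or.inr (Or.inr (Or.inr (Or.inl
          ⟨rfl, rfl, rfl⟩)))))), q4.symm⟩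
      exact ⟨i, j, k, mem.2 (Or.inl ⟨h, fc_notD (fun e => q1 e.1) (fun e => q2 e.1)
        (fun e => q4 e.1) (fun e => q1 e.1) (fun e => q4 e.1) (fun e => q3 e.1)⟩), rfl⟩
  · have e : (flip T N a w c).filter (fun τ => τ.1 = N) =
        insert (N, a, c) (((T.filter (fun τ => τ.1 = N)).erase (N, a, w)).erase (N, w, c)) := by
      ext ⟨i, j, k⟩
      simp only [mem_filter, mem_insert, mem_erase, Prod.mk.injEq, ne_eq]
      constructor
      · rintro ⟨h, rfl⟩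
        rw [mem] at h
        rcases h with ⟨h, g⟩ | h
        · right
          exact ⟨fun e => g (Or.inr (Or.inr (Or.inr (Or.inl ⟨rfl, e.2.1⟩)))),
            fun e => g (Or.inl ⟨rfl, e.2.1⟩), h, rfl⟩
        · rcases h with ⟨e1, e2, e3⟩ | ⟨e1, e2, e3⟩ | ⟨e1, e2, e3⟩ | ⟨e1, e2, e3⟩ |
            ⟨e1, e2, e3⟩ | ⟨e1, e2, e3⟩
          · exact Or.inl ⟨rfl, e2, e3⟩
          · exact absurd e1 n1
          · exact absurd e1.symm n6
          · exact absurd e1 n1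
          · exact absurd e1.symm n3
          · exact absurd e1.symm n6
      · rintro (⟨rfl, rfl, rfl⟩ | ⟨g1, g2, h, rfl⟩)
        · exact ⟨mem.2 (Or.inr (Or.inl ⟨rfl, rfl, rfl⟩)), rfl⟩
        · refine ⟨mem.2 (Or.inl ⟨h, fc_notD (fun e => ?_) (fun e => n1 e.1) (fun e => n3 e.1.symm)
            (fun e => ?_) (fun e => n3 e.1.symm) (fun e => n6 e.1.symm)⟩), rfl⟩
          · rw [e.2] at h
            exact g2 ⟨rfl, e.2, u _ _ _ _ h h1⟩
          · rw [e.2] at h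
            exact g1 ⟨rfl, e.2, u _ _ _ _ h h2⟩
    have hne : ¬((N : Fin n) = N ∧ w = a ∧ c = w) := fun e => n2 e.2.1.symm
    rw [e, card_insert_of_notMem, card_erase_of_mem, card_erase_of_mem]
    · have h3 : 2 ≤ (T.filter (fun τ => τ.1 = N)).card := by
        have h4 : ({(N, w, c), (N, a, w)} : Finset (Tri n)) ⊆ T.filter (fun τ => τ.1 = N) := by
          intro τ hτ
          simp only [mem_insert, mem_singleton] at hτ
          rcases hτ with rfl | rfl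
          · exact mem_filter.2 ⟨h2, rfl⟩
          · exact mem_filter.2 ⟨h1, rfl⟩
        have h5 := card_le_card h4
        rw [card_pair (by simpa only [ne_eq, Prod.mk.injEq] using hne)] at h5
        exact h5
      omega
    · exact mem_filter.2 ⟨h1, rfl⟩
    · rw [mem_erase]
      exact ⟨by simpa only [ne_eq, Prod.mk.injEq] using hne, mem_filter.2 ⟨h2, rfl⟩⟩
    · simp only [mem_erase, mem_filter, not_and]
      intro _ _ h6
      exact absurd (u _ _ _ _ h6 h1) (fun e => n5 e.symm)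

end GT
end

section

/-!
# Gordan's alternative
-/

set_option autoImplicit false

namespace GT

open Finset

variable {n : ℕ}

/-- Gordan's theorem: a finite nonempty family of vectors without a common positive functional has
a nontrivial nonnegative relation. -/
theorem go_gordan {ι : Type} [Fintype ι] (v : ι → Fin n → ℝ)
    (h : ¬ ∃ z : Fin n → ℝ, ∀ i, 0 < ∑ j, z j * v i j) :
    ∃ c : ι → ℝ, (∀ i, 0 ≤ c i) ∧ (∃ i, c i ≠ 0) ∧ ∀ j, ∑ i, c i * v i j = 0 := by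
  classical
  set L : (ι → ℝ) →ₗ[ℝ] (Fin n → ℝ) := ∑ i, (LinearMap.proj i).smulRight (v i) with hL
  have hLa : ∀ c : ι → ℝ, ∀ j, L c j = ∑ i, c i * v i j := by
    intro c j
    simp [hL, LinearMap.sum_apply, Finset.sum_apply]
  by_cases h0 : (0 : Fin n → ℝ) ∈ L '' (stdSimplex ℝ ι)
  · obtain ⟨c, ⟨hc0, hc1⟩, hc⟩ := h0
    refine ⟨c, hc0, ?_, fun j => ?_⟩
    · by_contra hne
      push Not at hne
      simp [hne] at hc1
    · rw [← hLa, hc]
      rfl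
  · exfalso
    apply h
    have hcomp : IsCompact (L '' (stdSimplex ℝ ι)) :=
      (isCompact_stdSimplex ℝ ι).image L.continuous_of_finiteDimensional
    have hconv : Convex ℝ (L '' (stdSimplex ℝ ι)) := (convex_stdSimplex ℝ ι).linear_image L
    obtain ⟨f, u, hf1, hf2⟩ := geometric_hahn_banach_point_closed hconv hcomp.isClosed h0
    rw [map_zero] at hf1
    refine ⟨fun j => f (Pi.single j 1), fun i => ?_⟩
    have hmem : v i ∈ L '' (stdSimplex ℝ ι) := by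
      refine ⟨Pi.single i 1, single_mem_stdSimplex ℝ i, ?_⟩
      funext j
      rw [hLa, Finset.sum_eq_single i]
      · simp
      · intro k _ hk
        simp [Pi.single_eq_of_ne hk]
      · simp
    have h1 := hf2 _ hmem
    have h2 : f (v i) = ∑ j, f (Pi.single j 1) * v i j := by
      conv_lhs => rw [pi_eq_sum_univ' (v i)]
      rw [map_sum]
      refine Finset.sum_congr rfl fun j _ => ?_
      rw [map_smul, smul_eq_mul, mul_comm]
    rw [← h2]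
    exact hf1.trans h1

theorem go_rot {T : Finset (Tri n)} (hT : Cx T) {N : Fin n} {τ : Tri n} (h : τ ∈ DD T N) :
    rot3 τ ∈ DD T N := by
  obtain ⟨i, j, k⟩ := τ
  simp only [DD, mem_filter, rot3] at h ⊢
  exact ⟨hT.rot _ _ _ h.1, h.2.2.1, h.2.2.2, h.2.1⟩

theorem go_rot3 (τ : Tri n) : rot3 (rot3 (rot3 τ)) = τ := rfl

theorem go_sum_rot {T : Finset (Tri n)} (hT : Cx T) {N : Fin n} (l g : Tri n → ℝ) :
    ∑ τ ∈ DD T N, l τ * g (rot3 τ) = ∑ τ ∈ DD T N, l (rot3 (rot3 τ)) * g τ :=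
  Finset.sum_nbij' (fun τ => rot3 τ) (fun τ => rot3 (rot3 τ)) (fun _ h => go_rot hT h)
    (fun _ h => go_rot hT (go_rot hT h)) (fun _ _ => rfl) (fun _ _ => rfl) (fun _ _ => rfl)

/-- Gordan's alternative for the finite system -/
theorem gordan {T : Finset (Tri n)} (hT : Cx T) (N : Fin n) (b : Fin n → Fin n → ℝ)
    {a w c : Fin n} (haN : a ≠ N) (hwN : w ≠ N) (hcN : c ≠ N) (haw : a ≠ w) (hwc : w ≠ c)
    (hac : a ≠ c)
    (h : ¬ ∃ z : Fin n → ℝ, (∀ τ ∈ DD T N, 0 < z τ.1 * b τ.2.1 τ.2.2 + z τ.2.1 * b τ.2.2 τ.1 +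
      z τ.2.2 * b τ.1 τ.2.1) ∧ 0 < z a * b w c + z w * b c a + z c * b a w) :
    ∃ (μ : Tri n → ℝ) (μ0 : ℝ), (∀ τ ∈ DD T N, 0 ≤ μ τ) ∧ (∀ τ ∈ DD T N, μ (rot3 τ) = μ τ) ∧
      0 ≤ μ0 ∧ (μ0 ≠ 0 ∨ ∃ τ ∈ DD T N, μ τ ≠ 0) ∧ Bal T N b μ (load b a w c μ0) := by
  classical
  set g : Fin n → Tri n → ℝ := fun i τ => if i = τ.1 then b τ.2.1 τ.2.2 else 0 with hg
  set vv : Option {τ // τ ∈ DD T N} → Fin n → ℝ := fun o i =>
    match o with
    | none => g i (a, w, c) + g i (rot3 (a, w, c)) + g i (rot3 (rot3 (a, w, c)))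
    | some τ => g i τ.1 + g i (rot3 τ.1) + g i (rot3 (rot3 τ.1)) with hvv
  have hsum : ∀ (z : Fin n → ℝ) (τ : Tri n),
      ∑ j, z j * (g j τ + g j (rot3 τ) + g j (rot3 (rot3 τ))) =
      z τ.1 * b τ.2.1 τ.2.2 + z τ.2.1 * b τ.2.2 τ.1 + z τ.2.2 * b τ.1 τ.2.1 := by
    intro z τ
    simp only [hg, rot3, mul_add, mul_ite, mul_zero, Finset.sum_add_distrib, Finset.sum_ite_eq',
      Finset.mem_univ, if_true]
  obtain ⟨d, hd0, hd1, hd2⟩ := go_gordan vv (by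
    rintro ⟨z, hz⟩
    apply h
    refine ⟨z, fun τ hτ => ?_, ?_⟩
    · have := hz (some ⟨τ, hτ⟩)
      simp only [hvv] at this
      rwa [hsum] at this
    · have := hz none
      simp only [hvv] at this
      rwa [hsum] at this)
  set l : Tri n → ℝ := fun τ => if hτ : τ ∈ DD T N then d (some ⟨τ, hτ⟩) else 0 with hl
  have hl0 : ∀ τ, 0 ≤ l τ := by
    intro τ
    simp only [hl]
    split_ifs
    · exact hd0 _
    · exact le_refl _
  refine ⟨fun τ => l τ + l (rot3 τ) + l (rot3 (rot3 τ)), d none, fun τ _ => ?_, fun τ _ => ?_,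
    hd0 none, ?_, ?_⟩
  · have h1 := hl0 τ
    have h2 := hl0 (rot3 τ)
    have h3 := hl0 (rot3 (rot3 τ))
    positivity
  · simp only [go_rot3]
    ring
  · obtain ⟨o, ho⟩ := hd1
    rcases o with _ | ⟨τ, hτ⟩
    · exact Or.inl ho
    · right
      refine ⟨τ, hτ, ?_⟩
      have h1 : l τ = d (some ⟨τ, hτ⟩) := by simp only [hl, dif_pos hτ]
      have h1' : 0 < l τ := by
        rw [h1]
        exact lt_of_le_of_ne (hd0 _) (Ne.symm ho)
      have h2 := hl0 (rot3 τ)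
      have h3 := hl0 (rot3 (rot3 τ))
      have : 0 < l τ + l (rot3 τ) + l (rot3 (rot3 τ)) := by positivity
      exact this.ne'
  · intro i _
    have h1 := hd2 i
    rw [Fintype.sum_option] at h1
    have h2 : ∑ o : {τ // τ ∈ DD T N}, d (some o) * vv (some o) i =
        ∑ τ ∈ DD T N, l τ * (g i τ + g i (rot3 τ) + g i (rot3 (rot3 τ))) := by
      rw [← Finset.sum_coe_sort (DD T N)]
      refine Finset.sum_congr rfl fun o _ => ?_
      have : l o.1 = d (some o) := by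
        simp only [hl, dif_pos o.2]
      rw [this]
    rw [h2] at h1
    simp only [mul_add, Finset.sum_add_distrib] at h1
    rw [go_sum_rot hT l (g i), go_sum_rot hT l (fun τ => g i (rot3 τ)),
      go_sum_rot hT (fun τ => l (rot3 (rot3 τ))) (g i)] at h1
    simp only [go_rot3] at h1
    have h3 : ∑ τ ∈ (DD T N).filter (fun τ => τ.1 = i),
        (l τ + l (rot3 τ) + l (rot3 (rot3 τ))) * b τ.2.1 τ.2.2 =
        ∑ τ ∈ DD T N, l τ * g i τ + ∑ τ ∈ DD T N, l (rot3 (rot3 τ)) * g i τ +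
        ∑ τ ∈ DD T N, l (rot3 τ) * g i τ := by
      rw [Finset.sum_filter, ← Finset.sum_add_distrib, ← Finset.sum_add_distrib]
      refine Finset.sum_congr rfl fun τ _ => ?_
      simp only [hg]
      by_cases e : τ.1 = i
      · rw [if_pos e, if_pos e.symm]
        ring
      · rw [if_neg e, if_neg (Ne.symm e)]
        ring
    have h4 : load b a w c (d none) i = d none * vv none i := by
      simp only [load, hvv, hg, rot3, mul_add, mul_ite, mul_zero]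
    rw [h3, h4]
    simp only [hvv, mul_add]
    linarith

end GT
end

section

set_option autoImplicit false

namespace GT
open Finset

variable {n : ℕ}

/-- the counting identity for the two cuts of a convex quadrilateral -/
theorem fe_count {α β γ δ A1 A2 A3 A4 A5 A6 : ℝ} (hα : 0 < α) (hβ : 0 < β) (hγ : 0 < γ)
    (hδ : 0 < δ) (R1 : β * A1 = γ * A5 + δ * A4) (R2 : β * A2 = α * A5 + δ * A3)
    (R3 : γ * A2 = α * A1 + δ * A6) (R4 : γ * A3 = α * A4 + β * A6) (h5 : A5 ≠ 0)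
    (h6 : A6 ≠ 0) :
    (((0 < A2 ∧ 0 < -A5 ∧ 0 < A1) ∨ (0 < A3 ∧ 0 < A4 ∧ 0 < A5)) ↔
      ((0 < A6 ∧ 0 < A4 ∧ 0 < A1) ∨ (0 < A3 ∧ 0 < -A6 ∧ 0 < A2))) := by
  have p : ∀ {u v : ℝ}, 0 < u → 0 < u * v → 0 < v := fun hu h => (mul_pos_iff_of_pos_left hu).1 h
  rcases lt_or_gt_of_ne h5 with h5 | h5
  · have q5 : 0 < -A5 := by linarith
    rcases lt_or_gt_of_ne h6 with h6 | h6
    · have q6 : 0 < -A6 := by linarith
      constructor
      · rintro (⟨g2, -, g1⟩ | ⟨-, -, g⟩)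
        · right
          exact ⟨p hδ (by nlinarith [mul_pos hβ g2, mul_pos hα q5]), q6, g2⟩
        · linarith
      · rintro (⟨g, -, -⟩ | ⟨g3, -, g2⟩)
        · linarith
        · left
          exact ⟨g2, q5, p hα (by nlinarith [mul_pos hγ g2, mul_pos hδ q6])⟩
    · constructor
      · rintro (⟨g2, -, g1⟩ | ⟨-, -, g⟩)
        · left
          exact ⟨h6, p hδ (by nlinarith [mul_pos hβ g1, mul_pos hγ q5]), g1⟩
        · linarith
      · rintro (⟨-, g4, g1⟩ | ⟨-, g, -⟩)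
        · left
          exact ⟨p hγ (by nlinarith [mul_pos hα g1, mul_pos hδ h6]), q5, g1⟩
        · linarith
  · rcases lt_or_gt_of_ne h6 with h6 | h6
    · have q6 : 0 < -A6 := by linarith
      constructor
      · rintro (⟨-, g, -⟩ | ⟨g3, g4, -⟩)
        · linarith
        · right
          exact ⟨g3, q6, p hβ (by nlinarith [mul_pos hα h5, mul_pos hδ g3])⟩
      · rintro (⟨g, -, -⟩ | ⟨g3, -, g2⟩)
        · linarith
        · right
          exact ⟨g3, p hα (by nlinarith [mul_pos hγ g3, mul_pos hβ q6]), h5⟩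
    · constructor
      · rintro (⟨-, g, -⟩ | ⟨g3, g4, -⟩)
        · linarith
        · left
          exact ⟨h6, g4, p hβ (by nlinarith [mul_pos hγ h5, mul_pos hδ g4])⟩
      · rintro (⟨-, g4, g1⟩ | ⟨-, g, -⟩)
        · right
          exact ⟨p hγ (by nlinarith [mul_pos hα g4, mul_pos hβ h6]), g4, h5⟩
        · linarith

theorem fe_inC {x : Fin n → V3} {i j k : Fin n} {y : V3} : inC x (i, j, k) y ↔
    0 < d3 (x j) (x k) y ∧ 0 < d3 (x k) (x i) y ∧ 0 < d3 (x i) (x j) y := by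
  simp only [inC]
  rw [← d3_rot y (x j) (x k), ← d3_rot (x i) y (x k), ← d3_rot y (x k) (x i)]

open Classical in
/-- the sum of the indicators over the three rotations of two faces -/
theorem fe_sum (x : Fin n → V3) (y : V3) {i j k l m q : Fin n} (h : (i, j, k) ≠ (j, k, i))
    (h' : (j, k, i) ≠ (k, i, j)) (h'' : (i, j, k) ≠ (k, i, j)) (g : (l, m, q) ≠ (m, q, l))
    (g' : (m, q, l) ≠ (q, l, m)) (g'' : (l, m, q) ≠ (q, l, m))
    (d : ∀ τ ∈ ({(i, j, k), (j, k, i), (k, i, j)} : Finset (Tri n)),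
      τ ∉ ({(l, m, q), (m, q, l), (q, l, m)} : Finset (Tri n))) :
    ∑ τ ∈ ({(i, j, k), (j, k, i), (k, i, j)} : Finset (Tri n)) ∪ {(l, m, q), (m, q, l), (q, l, m)},
      (if inC x τ y then 1 else 0) =
      3 * (if inC x (i, j, k) y then 1 else 0) + 3 * (if inC x (l, m, q) y then 1 else 0) := by
  have e1 : inC x (j, k, i) y ↔ inC x (i, j, k) y := inC_rot3 x (i, j, k) y
  have e2 : inC x (k, i, j) y ↔ inC x (i, j, k) y := (inC_rot3 x (j, k, i) y).trans e1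
  have e3 : inC x (m, q, l) y ↔ inC x (l, m, q) y := inC_rot3 x (l, m, q) y
  have e4 : inC x (q, l, m) y ↔ inC x (l, m, q) y := (inC_rot3 x (m, q, l) y).trans e3
  rw [sum_union (disjoint_left.2 d), sum_insert (by simp [h, h'']), sum_insert (by simp [h']),
    sum_singleton, sum_insert (by simp [g, g'']), sum_insert (by simp [g']), sum_singleton]
  simp only [e1, e2, e3, e4]
  ring

open Classical in
theorem fe_ite {P Q P' Q' : Prop} (h : (P ∨ Q) ↔ (P' ∨ Q')) (h1 : ¬(P ∧ Q)) (h2 : ¬(P' ∧ Q')) :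
    3 * (if P then 1 else 0) + 3 * (if Q then 1 else 0) =
      3 * (if P' then 1 else 0) + 3 * (if Q' then 1 else 0) := by
  by_cases b1 : P <;> by_cases b2 : Q <;> by_cases b3 : P' <;> by_cases b4 : Q' <;>
    simp [b1, b2, b3, b4] at h h1 h2 ⊢

open Classical in
theorem fe_cnt {T : Finset (Tri n)} (hT : Cx T) {N a w c : Fin n} (h1 : (N, a, w) ∈ T)
    (h2 : (N, w, c) ∈ T) (hac : a ≠ c) (hna : ¬ Adj T a c) {x : Fin n → V3}
    (hα : 0 < d3 (x a) (x w) (x c)) (hβ : 0 < d3 (x N) (x w) (x c))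
    (hγ : 0 < d3 (x N) (x a) (x c)) (hδ : 0 < d3 (x N) (x a) (x w)) {y : V3}
    (hy : d3 (x N) (x w) y ≠ 0) (hy' : d3 (x a) (x c) y ≠ 0) :
    cnt T x y = cnt (flip T N a w c) x y := by
  have m2 := hT.rot _ _ _ h1
  have m3 := hT.rot _ _ _ m2
  have m5 := hT.rot _ _ _ h2
  have m6 := hT.rot _ _ _ m5
  have n1 := hT.ne _ _ _ h1
  have n2 := hT.ne _ _ _ m2
  have n3 := hT.ne _ _ _ m3
  have n5 := hT.ne _ _ _ m5
  have n6 := hT.ne _ _ _ m6
  have u := hT.uniq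
  have k1 : ∀ k, (a, c, k) ∉ T := fun k hk => hna ⟨k, hk⟩
  have k2 : ∀ k, (c, a, k) ∉ T := fun k hk => by
    obtain ⟨l, hl⟩ := hT.sym _ _ _ hk
    exact k1 l hl
  have t1 : (N, a, c) ∉ T := fun h => n5 (u _ _ _ _ h1 h)
  have t2 : (a, w, c) ∉ T := fun h => n6 (u _ _ _ _ m2 h).symm
  set R : Finset (Tri n) := {(N, a, w), (a, w, N), (w, N, a)} ∪ {(N, w, c), (w, c, N), (c, N, w)}
    with hR
  set S : Finset (Tri n) := {(N, a, c), (a, c, N), (c, N, a)} ∪ {(a, w, c), (w, c, a), (c, a, w)}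
    with hS
  have hflip : flip T N a w c = (T \ R) ∪ S := by
    ext τ
    simp only [flip, hR, hS, mem_union, mem_sdiff, mem_insert, mem_singleton, or_assoc]
  have hRT : R ⊆ T := by
    intro τ hτ
    simp only [hR, mem_union, mem_insert, mem_singleton] at hτ
    rcases hτ with (rfl | rfl | rfl) | (rfl | rfl | rfl) <;> assumption
  have hST : ∀ τ ∈ S, τ ∉ T := by
    intro τ hτ
    simp only [hS, mem_union, mem_insert, mem_singleton] at hτ
    rcases hτ with (rfl | rfl | rfl) | (rfl | rfl | rfl)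
    · exact t1
    · exact k1 N
    · exact fun h => t1 (hT.rot _ _ _ h)
    · exact t2
    · exact fun h => k2 w (hT.rot _ _ _ h)
    · exact k2 w
  have hdisj : Disjoint (T \ R) S := by
    rw [disjoint_right]
    intro τ hτ h
    exact hST τ hτ (mem_sdiff.1 h).1
  have c1 : cnt T x y = ∑ τ ∈ T \ R, (if inC x τ y then 1 else 0) +
      ∑ τ ∈ R, (if inC x τ y then 1 else 0) := by
    rw [sum_sdiff hRT, cnt, card_filter]
  have c2 : cnt (flip T N a w c) x y = ∑ τ ∈ T \ R, (if inC x τ y then 1 else 0) +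
      ∑ τ ∈ S, (if inC x τ y then 1 else 0) := by
    rw [← sum_union hdisj, ← hflip, cnt, card_filter]
  have s1 := fe_sum x y (i := N) (j := a) (k := w) (l := N) (m := w) (q := c)
    (by simp [n1]) (by simp [n2]) (by simp [n3.symm]) (by simp [n3.symm]) (by simp [n5])
    (by simp [n6.symm])
    (by
      intro τ hτ
      simp only [mem_insert, mem_singleton] at hτ
      rcases hτ with rfl | rfl | rfl <;>
        simp [n1, n1.symm, n2, n2.symm, n3, n3.symm, n5, n5.symm, n6, n6.symm, hac, hac.symm])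
  have s2 := fe_sum x y (i := N) (j := a) (k := c) (l := a) (m := w) (q := c)
    (by simp [n1]) (by simp [hac]) (by simp [n6.symm]) (by simp [n2]) (by simp [n5])
    (by simp [hac])
    (by
      intro τ hτ
      simp only [mem_insert, mem_singleton] at hτ
      rcases hτ with rfl | rfl | rfl <;>
        simp [n1, n1.symm, n2, n2.symm, n3, n3.symm, n5, n5.symm, n6, n6.symm, hac, hac.symm])
  rw [c1, c2, hR, hS, s1, s2]
  -- the identity for the indicators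
  have R1 : d3 (x N) (x w) (x c) * d3 (x N) (x a) y =
      d3 (x N) (x a) (x c) * d3 (x N) (x w) y + d3 (x N) (x a) (x w) * d3 (x c) (x N) y := by
    unfold d3; ring
  have R2 : d3 (x N) (x w) (x c) * d3 (x a) (x w) y =
      d3 (x a) (x w) (x c) * d3 (x N) (x w) y + d3 (x N) (x a) (x w) * d3 (x w) (x c) y := by
    unfold d3; ring
  have R3 : d3 (x N) (x a) (x c) * d3 (x a) (x w) y =
      d3 (x a) (x w) (x c) * d3 (x N) (x a) y + d3 (x N) (x a) (x w) * d3 (x a) (x c) y := by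
    unfold d3; ring
  have R4 : d3 (x N) (x a) (x c) * d3 (x w) (x c) y =
      d3 (x a) (x w) (x c) * d3 (x c) (x N) y + d3 (x N) (x w) (x c) * d3 (x a) (x c) y := by
    unfold d3; ring
  have key := fe_count hα hβ hγ hδ R1 R2 R3 R4 hy hy'
  have f1 : d3 (x w) (x N) y = -d3 (x N) (x w) y := d3_swap12 _ _ _
  have f2 : d3 (x c) (x a) y = -d3 (x a) (x c) y := d3_swap12 _ _ _
  have i1 : inC x (N, a, w) y ↔
      (0 < d3 (x a) (x w) y ∧ 0 < -d3 (x N) (x w) y ∧ 0 < d3 (x N) (x a) y) := by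
    rw [fe_inC, f1]
  have i2 : inC x (N, w, c) y ↔
      (0 < d3 (x w) (x c) y ∧ 0 < d3 (x c) (x N) y ∧ 0 < d3 (x N) (x w) y) := fe_inC
  have i3 : inC x (N, a, c) y ↔
      (0 < d3 (x a) (x c) y ∧ 0 < d3 (x c) (x N) y ∧ 0 < d3 (x N) (x a) y) := fe_inC
  have i4 : inC x (a, w, c) y ↔
      (0 < d3 (x w) (x c) y ∧ 0 < -d3 (x a) (x c) y ∧ 0 < d3 (x a) (x w) y) := by
    rw [fe_inC, f2]
  have j1 : ¬ (inC x (N, a, w) y ∧ inC x (N, w, c) y) := by
    rw [i1, i2]; rintro ⟨⟨_, g, _⟩, _, _, g'⟩; linarith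
  have j2 : ¬ (inC x (N, a, c) y ∧ inC x (a, w, c) y) := by
    rw [i3, i4]; rintro ⟨⟨g, _⟩, _, g', _⟩; linarith
  rw [← i1, ← i2, ← i3, ← i4] at key
  rw [fe_ite key j1 j2]

theorem flip_eq {T : Finset (Tri n)} (hT : Cx T) {N a w c : Fin n} (h1 : (N, a, w) ∈ T)
    (h2 : (N, w, c) ∈ T) (hac : a ≠ c) (hna : ¬ Adj T a c) :
    {x | x ∈ RSp T ∧ 0 < d3 (x a) (x w) (x c) ∧ 0 < d3 (x N) (x a) (x c)} =
    {x | x ∈ RSp (flip T N a w c) ∧ 0 < d3 (x w) (x c) (x N) ∧ 0 < d3 (x a) (x w) (x N)} := by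
  have hT' := flip_cx hT h1 h2 hac hna
  have hmem := fun {i j k : Fin n} => fc_mem hT h1 h2 (i := i) (j := j) (k := k)
  have m2 := hT.rot _ _ _ h1
  have m3 := hT.rot _ _ _ m2
  have m5 := hT.rot _ _ _ h2
  have m6 := hT.rot _ _ _ m5
  have p1 : (N, a, c) ∈ flip T N a w c := hmem.2 (Or.inr (Or.inl ⟨rfl, rfl, rfl⟩))
  have p2 : (a, c, N) ∈ flip T N a w c := hT'.rot _ _ _ p1
  have p3 : (c, N, a) ∈ flip T N a w c := hT'.rot _ _ _ p2
  have p4 : (a, w, c) ∈ flip T N a w c :=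
    hmem.2 (Or.inr (Or.inr (Or.inr (Or.inr (Or.inl ⟨rfl, rfl, rfl⟩)))))
  have p5 : (w, c, a) ∈ flip T N a w c := hT'.rot _ _ _ p4
  have p6 : (c, a, w) ∈ flip T N a w c := hT'.rot _ _ _ p5
  -- positivity of both families
  have hPos : ∀ x : Fin n → V3, (Pos T x ∧ 0 < d3 (x a) (x w) (x c) ∧ 0 < d3 (x N) (x a) (x c)) ↔
      (Pos (flip T N a w c) x ∧ 0 < d3 (x w) (x c) (x N) ∧ 0 < d3 (x a) (x w) (x N)) := by
    intro x
    constructor
    · rintro ⟨hP, g1, g2⟩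
      refine ⟨?_, hP _ _ _ m5, hP _ _ _ m2⟩
      intro i j k h
      rw [hmem] at h
      rcases h with h | ⟨rfl, rfl, rfl⟩ | ⟨rfl, rfl, rfl⟩ | ⟨rfl, rfl, rfl⟩ | ⟨rfl, rfl, rfl⟩ |
        ⟨rfl, rfl, rfl⟩ | ⟨rfl, rfl, rfl⟩
      · exact hP _ _ _ h.1
      · exact g2
      · rw [d3_rot]; exact g2
      · rw [d3_rot, d3_rot]; exact g2
      · exact g1
      · rw [d3_rot]; exact g1
      · rw [d3_rot, d3_rot]; exact g1
    · rintro ⟨hP, g1, g2⟩
      refine ⟨?_, hP _ _ _ p4, hP _ _ _ p1⟩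
      intro i j k h
      by_cases q : fcD N a w c i j
      · have u := hT.uniq
        rcases q with ⟨rfl, rfl⟩ | ⟨rfl, rfl⟩ | ⟨rfl, rfl⟩ | ⟨rfl, rfl⟩ | ⟨rfl, rfl⟩ | ⟨rfl, rfl⟩
        · rw [u _ _ _ _ h h1, ← d3_rot]; exact g2
        · rw [u _ _ _ _ h m2]; exact g2
        · rw [u _ _ _ _ h m3, d3_rot]; exact g2
        · rw [u _ _ _ _ h h2, ← d3_rot]; exact g1
        · rw [u _ _ _ _ h m5]; exact g1
        · rw [u _ _ _ _ h m6, d3_rot]; exact g1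
      · exact hP _ _ _ (hmem.2 (Or.inl ⟨h, q⟩))
  -- embeddedness
  have hEmb : ∀ x : Fin n → V3, Pos T x → Pos (flip T N a w c) x →
      (Emb T x ↔ Emb (flip T N a w c) x) := by
    intro x hP hP'
    obtain ⟨y, -, hy⟩ := avoid_d3 ((T ∪ flip T N a w c).image fun τ => (x τ.1, x τ.2.1)) (by
      intro q hq
      obtain ⟨τ, hτ, rfl⟩ := mem_image.1 hq
      refine ⟨x τ.2.2, ?_⟩
      rcases mem_union.1 hτ with h | h
      · exact (hP _ _ _ h).ne'
      · exact (hP' _ _ _ h).ne') 0 1 one_pos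
    have hy1 : Gy T x y := fun τ hτ => hy _ (mem_image.2 ⟨τ, mem_union_left _ hτ, rfl⟩)
    have hy2 : Gy (flip T N a w c) x y := fun τ hτ =>
      hy _ (mem_image.2 ⟨τ, mem_union_right _ hτ, rfl⟩)
    have hc : cnt T x y = cnt (flip T N a w c) x y :=
      fe_cnt hT h1 h2 hac hna (hP' _ _ _ p4) (hP _ _ _ h2) (hP' _ _ _ p1) (hP _ _ _ h1)
        (hy1 _ h2) (hy2 _ p2)
    rw [emb_iff_cnt hT hP, emb_iff_cnt hT' hP']
    constructor
    · rintro ⟨y0, hy0, h0⟩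
      exact ⟨y, hy2, by rw [← hc, cnt_const hT hP hy1 hy0, h0]⟩
    · rintro ⟨y0, hy0, h0⟩
      exact ⟨y, hy1, by rw [hc, cnt_const hT' hP' hy2 hy0, h0]⟩
  ext x
  simp only [Set.mem_setOf_eq, RSp]
  constructor
  · rintro ⟨⟨hP, hE⟩, g⟩
    obtain ⟨hP', g'⟩ := (hPos x).1 ⟨hP, g⟩
    exact ⟨⟨hP', (hEmb x hP hP').1 hE⟩, g'⟩
  · rintro ⟨⟨hP', hE⟩, g'⟩
    obtain ⟨hP, g⟩ := (hPos x).2 ⟨hP', g'⟩
    exact ⟨⟨hP, (hEmb x hP hP').2 hE⟩, g⟩

end GT
end

section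

/-!
# GT-11f : existence of a flippable edge at a vertex of degree at least four
-/

set_option autoImplicit false

namespace GT
open Finset

variable {n : ℕ}

theorem ef_ne {T : Finset (Tri n)} (hT : Cx T) {i j k : Fin n} (h : (i, j, k) ∈ T) :
    i ≠ j ∧ j ≠ k ∧ k ≠ i := by
  have h1 := hT.rot _ _ _ h
  have h2 := hT.rot _ _ _ h1
  exact ⟨hT.ne _ _ _ h, hT.ne _ _ _ h1, hT.ne _ _ _ h2⟩

theorem ef_next {T : Finset (Tri n)} (hT : Cx T) {i j k : Fin n} (h : (i, j, k) ∈ T) :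
    ∃ l, (i, k, l) ∈ T :=
  hT.sym _ _ _ (hT.rot _ _ _ (hT.rot _ _ _ h))

theorem ef_pos {T : Finset (Tri n)} (hx : (RSp T).Nonempty) {N i j : Fin n}
    (h : (N, i, j) ∈ T) (h' : (N, j, i) ∈ T) : False := by
  obtain ⟨x, hp, _⟩ := hx
  have h1 := hp _ _ _ h
  have h2 := hp _ _ _ h'
  have h3 := GT.d3_swap23 (x N) (x i) (x j)
  linarith

/-- four consecutive triples at a vertex -/
theorem ef_four {T : Finset (Tri n)} (hT : Cx T) (hx : (RSp T).Nonempty) {N : Fin n}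
    (hN : N ∈ verts T) : ∃ u1 u2 u3 u4 u5, (N, u1, u2) ∈ T ∧ (N, u2, u3) ∈ T ∧
      (N, u3, u4) ∈ T ∧ (N, u4, u5) ∈ T ∧ u1 ≠ u2 ∧ u2 ≠ u3 ∧ u3 ≠ u4 ∧ u1 ≠ u3 ∧ u2 ≠ u4 ∧
      u1 ≠ N ∧ u2 ≠ N ∧ u3 ≠ N ∧ u4 ≠ N := by
  unfold verts at hN
  rw [Finset.mem_image] at hN
  obtain ⟨⟨N', u1, u2⟩, h1, hN'⟩ := hN
  simp only at hN'
  subst hN'
  obtain ⟨u3, h2⟩ := ef_next hT h1
  obtain ⟨u4, h3⟩ := ef_next hT h2
  obtain ⟨u5, h4⟩ := ef_next hT h3
  have e1 := ef_ne hT h1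
  have e2 := ef_ne hT h2
  have e3 := ef_ne hT h3
  refine ⟨u1, u2, u3, u4, u5, h1, h2, h3, h4, e1.2.1, e2.2.1, e3.2.1, ?_, ?_, e1.1.symm, e1.2.2,
    e2.2.2, e3.2.2⟩
  · rintro rfl
    exact ef_pos hx h1 h2
  · rintro rfl
    exact ef_pos hx h2 h3

theorem deg3 {T : Finset (Tri n)} (hT : Cx T) (hx : (RSp T).Nonempty) {N : Fin n}
    (hN : N ∈ verts T) (hd : (T.filter (fun τ => τ.1 = N)).card < 4) :
    ∃ a w c, (N, a, w) ∈ T ∧ (N, w, c) ∈ T ∧ (N, c, a) ∈ T := by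
  obtain ⟨u1, u2, u3, u4, u5, h1, h2, h3, h4, e12, e23, e34, e13, e24, -, -, -, -⟩ :=
    ef_four hT hx hN
  by_cases e14 : u4 = u1
  · subst e14
    exact ⟨u4, u2, u3, h1, h2, h3⟩
  · exfalso
    have hsub : ({(N, u1, u2), (N, u2, u3), (N, u3, u4), (N, u4, u5)} : Finset (Tri n)) ⊆
        T.filter (fun τ => τ.1 = N) := by
      intro τ hτ
      simp only [Finset.mem_insert, Finset.mem_singleton] at hτ
      rw [Finset.mem_filter]
      rcases hτ with rfl | rfl | rfl | rfl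
      · exact ⟨h1, rfl⟩
      · exact ⟨h2, rfl⟩
      · exact ⟨h3, rfl⟩
      · exact ⟨h4, rfl⟩
    have hcard : ({(N, u1, u2), (N, u2, u3), (N, u3, u4), (N, u4, u5)} : Finset (Tri n)).card = 4 := by
      have e14' : u1 ≠ u4 := fun h => e14 h.symm
      rw [Finset.card_insert_of_notMem, Finset.card_insert_of_notMem,
        Finset.card_insert_of_notMem, Finset.card_singleton]
      · simp [e34]
      · simp [e23, e24]
      · simp [e12, e13, e14']
    have := Finset.card_le_card hsub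
    omega

/-- the Euler characteristic of an edge -/
theorem ef_chi_pair {T : Finset (Tri n)} (hT : Cx T) {a c : Fin n} (hac : a ≠ c)
    (h : Adj T a c) : chi6 T {a, c} = 6 := by
  obtain ⟨k, hk⟩ := h
  obtain ⟨l, hl⟩ := hT.sym _ _ _ hk
  have h1 : T.filter (fun τ => τ.1 ∈ ({a, c} : Finset (Fin n)) ∧
      τ.2.1 ∈ ({a, c} : Finset (Fin n))) = {(a, c, k), (c, a, l)} := by
    ext ⟨i, j, m⟩
    simp only [Finset.mem_filter, Finset.mem_insert, Finset.mem_singleton, Prod.mk.injEq]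
    constructor
    · rintro ⟨hm, rfl | rfl, rfl | rfl⟩
      · exact absurd rfl (ef_ne hT hm).1
      · exact Or.inl ⟨rfl, rfl, hT.uniq _ _ _ _ hm hk⟩
      · exact Or.inr ⟨rfl, rfl, hT.uniq _ _ _ _ hm hl⟩
      · exact absurd rfl (ef_ne hT hm).1
    · rintro (⟨rfl, rfl, rfl⟩ | ⟨rfl, rfl, rfl⟩)
      · exact ⟨hk, Or.inl rfl, Or.inr rfl⟩
      · exact ⟨hl, Or.inr rfl, Or.inl rfl⟩
  have h2 : T.filter (fun τ => τ.1 ∈ ({a, c} : Finset (Fin n)) ∧
      τ.2.1 ∈ ({a, c} : Finset (Fin n)) ∧ τ.2.2 ∈ ({a, c} : Finset (Fin n))) = ∅ := by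
    rw [Finset.filter_eq_empty_iff]
    rintro ⟨i, j, m⟩ hm
    simp only [Finset.mem_insert, Finset.mem_singleton]
    rintro ⟨hi, hj, hmm⟩
    have e := ef_ne hT hm
    rcases hi with rfl | rfl <;> rcases hj with rfl | rfl <;> rcases hmm with rfl | rfl <;>
      simp_all
  unfold chi6
  rw [h1, h2, Finset.card_pair hac, Finset.card_pair (by simp [hac]), Finset.card_empty]
  norm_num

/-- the Euler characteristic of an empty triangle -/
theorem ef_chi_tri {T : Finset (Tri n)} (hT : Cx T) {a b c : Fin n} (hab : a ≠ b) (hbc : b ≠ c)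
    (hac : a ≠ c) (h1 : Adj T a b) (h2 : Adj T b c) (h3 : Adj T a c)
    (h4 : (a, b, c) ∉ T) (h5 : (a, c, b) ∉ T) : chi6 T {a, b, c} = 0 := by
  obtain ⟨k1, hk1⟩ := h1
  obtain ⟨l1, hl1⟩ := hT.sym _ _ _ hk1
  obtain ⟨k2, hk2⟩ := h2
  obtain ⟨l2, hl2⟩ := hT.sym _ _ _ hk2
  obtain ⟨k3, hk3⟩ := h3
  obtain ⟨l3, hl3⟩ := hT.sym _ _ _ hk3
  have hp : ({a, b, c} : Finset (Fin n)).card = 3 := by
    rw [Finset.card_eq_three]
    exact ⟨a, b, c, hab, hac, hbc, rfl⟩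
  have hf1 : T.filter (fun τ => τ.1 ∈ ({a, b, c} : Finset (Fin n)) ∧
      τ.2.1 ∈ ({a, b, c} : Finset (Fin n))) =
      {(a, b, k1), (b, a, l1), (b, c, k2), (c, b, l2), (a, c, k3), (c, a, l3)} := by
    ext ⟨i, j, m⟩
    simp only [Finset.mem_filter, Finset.mem_insert, Finset.mem_singleton, Prod.mk.injEq]
    constructor
    · rintro ⟨hm, rfl | rfl | rfl, rfl | rfl | rfl⟩
      · exact absurd rfl (ef_ne hT hm).1
      · exact Or.inl ⟨rfl, rfl, hT.uniq _ _ _ _ hm hk1⟩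
      · exact Or.inr (Or.inr (Or.inr (Or.inr (Or.inl ⟨rfl, rfl, hT.uniq _ _ _ _ hm hk3⟩))))
      · exact Or.inr (Or.inl ⟨rfl, rfl, hT.uniq _ _ _ _ hm hl1⟩)
      · exact absurd rfl (ef_ne hT hm).1
      · exact Or.inr (Or.inr (Or.inl ⟨rfl, rfl, hT.uniq _ _ _ _ hm hk2⟩))
      · exact Or.inr (Or.inr (Or.inr (Or.inr (Or.inr ⟨rfl, rfl, hT.uniq _ _ _ _ hm hl3⟩))))
      · exact Or.inr (Or.inr (Or.inr (Or.inl ⟨rfl, rfl, hT.uniq _ _ _ _ hm hl2⟩)))
      · exact absurd rfl (ef_ne hT hm).1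
    · rintro (⟨rfl, rfl, rfl⟩ | ⟨rfl, rfl, rfl⟩ | ⟨rfl, rfl, rfl⟩ | ⟨rfl, rfl, rfl⟩ |
        ⟨rfl, rfl, rfl⟩ | ⟨rfl, rfl, rfl⟩)
      · exact ⟨hk1, Or.inl rfl, Or.inr (Or.inl rfl)⟩
      · exact ⟨hl1, Or.inr (Or.inl rfl), Or.inl rfl⟩
      · exact ⟨hk2, Or.inr (Or.inl rfl), Or.inr (Or.inr rfl)⟩
      · exact ⟨hl2, Or.inr (Or.inr rfl), Or.inr (Or.inl rfl)⟩
      · exact ⟨hk3, Or.inl rfl, Or.inr (Or.inr rfl)⟩
      · exact ⟨hl3, Or.inr (Or.inr rfl), Or.inl rfl⟩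
  have hf2 : T.filter (fun τ => τ.1 ∈ ({a, b, c} : Finset (Fin n)) ∧
      τ.2.1 ∈ ({a, b, c} : Finset (Fin n)) ∧ τ.2.2 ∈ ({a, b, c} : Finset (Fin n))) = ∅ := by
    rw [Finset.filter_eq_empty_iff]
    rintro ⟨i, j, m⟩ hm
    simp only [Finset.mem_insert, Finset.mem_singleton]
    have hm1 := hT.rot _ _ _ hm
    have hm2 := hT.rot _ _ _ hm1
    have e := ef_ne hT hm
    rintro ⟨rfl | rfl | rfl, rfl | rfl | rfl, rfl | rfl | rfl⟩ <;>
      first
        | exact e.1 rfl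
        | exact e.2.1 rfl
        | exact e.2.2 rfl
        | exact h4 hm
        | exact h4 hm1
        | exact h4 hm2
        | exact h5 hm
        | exact h5 hm1
        | exact h5 hm2
  have hc6 : ({(a, b, k1), (b, a, l1), (b, c, k2), (c, b, l2), (a, c, k3), (c, a, l3)} :
      Finset (Tri n)).card = 6 := by
    rw [Finset.card_insert_of_notMem, Finset.card_insert_of_notMem,
        Finset.card_insert_of_notMem, Finset.card_insert_of_notMem,
        Finset.card_insert_of_notMem, Finset.card_singleton]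
    · simp [hac]
    · simp [hac.symm, hab.symm]
    · simp [hab.symm, hbc, hbc.symm]
    · simp [hac, hac.symm, hbc, hbc.symm, hab, hab.symm]
    · simp [hac, hac.symm, hbc, hbc.symm, hab, hab.symm]
  unfold chi6
  rw [hf1, hf2, hp, hc6, Finset.card_empty]
  norm_num

theorem exists_flip {T : Finset (Tri n)} (hT : Cx T) (hx : (RSp T).Nonempty) {N : Fin n}
    (hN : N ∈ verts T) (hd : 4 ≤ (T.filter (fun τ => τ.1 = N)).card) :
    ∃ a w c, (N, a, w) ∈ T ∧ (N, w, c) ∈ T ∧ a ≠ c ∧ ¬ Adj T a c := by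
  classical
  by_contra hcon
  push Not at hcon
  obtain ⟨u1, u2, u3, u4, u5, h1, h2, h3, h4, e12, e23, e34, e13, e24, n1, n2, n3, n4⟩ :=
    ef_four hT hx hN
  obtain ⟨x, hxx⟩ := hx
  have hLC := GT.linkCyc_of hT hxx
  have hSt := GT.strong_of hT hxx
  have hEu := GT.euler hT ⟨x, hxx⟩
  have e14 : u1 ≠ u4 := by
    rintro rfl
    have hlink : ∀ j, Adj T N j → j ∈ ({u1, u2, u3} : Finset (Fin n)) := by
      refine hLC N {u1, u2, u3} ⟨u1, by simp, u2, h1⟩ ?_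
      intro j k hjk hj
      simp only [Finset.mem_insert, Finset.mem_singleton] at hj ⊢
      rcases hj with rfl | rfl | rfl
      · exact Or.inr (Or.inl (hT.uniq _ _ _ _ hjk h1))
      · exact Or.inr (Or.inr (hT.uniq _ _ _ _ hjk h2))
      · exact Or.inl (hT.uniq _ _ _ _ hjk h3)
    have hsub : T.filter (fun τ => τ.1 = N) ⊆
        ({(N, u1, u2), (N, u2, u3), (N, u3, u1)} : Finset (Tri n)) := by
      rintro ⟨i, j, k⟩ hτ
      rw [Finset.mem_filter] at hτ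
      obtain ⟨hm, hi⟩ := hτ
      simp only at hi
      subst hi
      have hj := hlink j ⟨k, hm⟩
      simp only [Finset.mem_insert, Finset.mem_singleton] at hj ⊢
      rcases hj with rfl | rfl | rfl
      · exact Or.inl (by rw [hT.uniq _ _ _ _ hm h1])
      · exact Or.inr (Or.inl (by rw [hT.uniq _ _ _ _ hm h2]))
      · exact Or.inr (Or.inr (by rw [hT.uniq _ _ _ _ hm h3]))
    have hc := (Finset.card_le_card hsub).trans Finset.card_le_three
    omega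
  have a13 : Adj T u1 u3 := hcon _ _ _ h1 h2 e13
  have a24 : Adj T u2 u4 := hcon _ _ _ h2 h3 e24
  have aN1 : Adj T N u1 := ⟨u2, h1⟩
  have aN2 : Adj T N u2 := ⟨u3, h2⟩
  have aN3 : Adj T N u3 := ⟨u4, h3⟩
  have aN4 : Adj T N u4 := ⟨u5, h4⟩
  have v1 := (GT.adj_verts hT aN1).2
  have v2 := (GT.adj_verts hT aN2).2
  have v3 := (GT.adj_verts hT aN3).2
  have v4 := (GT.adj_verts hT aN4).2
  -- the empty triangle
  have hchiP : chi6 T {N, u1, u3} = 0 := by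
    refine ef_chi_tri hT n1.symm e13 n3.symm aN1 a13 aN3 ?_ ?_
    · intro hm
      exact e23 (hT.uniq _ _ _ _ h1 hm)
    · intro hm
      exact e14 (hT.uniq _ _ _ _ h3 hm).symm
  have hPV : ({N, u1, u3} : Finset (Fin n)) ⊆ verts T := by
    intro i hi
    simp only [Finset.mem_insert, Finset.mem_singleton] at hi
    rcases hi with rfl | rfl | rfl
    · exact hN
    · exact v1
    · exact v3
  have hchiA : chi6 T (verts T \ {N, u1, u3}) = 12 := by
    have := GT.chi6_compl hT _ hPV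
    rw [hchiP, hEu] at this
    linarith
  have hA : ∀ i, i ∈ verts T \ ({N, u1, u3} : Finset (Fin n)) ↔
      i ∈ verts T ∧ i ≠ N ∧ i ≠ u1 ∧ i ≠ u3 := by
    intro i
    simp only [Finset.mem_sdiff, Finset.mem_insert, Finset.mem_singleton, not_or]
  have hu2A : u2 ∈ verts T \ ({N, u1, u3} : Finset (Fin n)) :=
    (hA u2).2 ⟨v2, n2, e12.symm, e23⟩
  have hu4A : u4 ∈ verts T \ ({N, u1, u3} : Finset (Fin n)) :=
    (hA u4).2 ⟨v4, n4, e14.symm, e34.symm⟩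
  obtain ⟨Q0, hQ0A, hu2Q0, hQ0c, hQ0cl⟩ := GT.exists_comp hT
    (verts T \ ({N, u1, u3} : Finset (Fin n))) {u2} (Finset.singleton_subset_iff.2 hu2A)
    (Finset.singleton_nonempty _) (by
      intro Q hQ hQn _
      rcases Finset.subset_singleton_iff.1 hQ with h | h
      · rw [h] at hQn
        exact absurd hQn (by simp)
      · exact h)
  have hu2 : u2 ∈ Q0 := hu2Q0 (Finset.mem_singleton_self _)
  have hu4 : u4 ∈ Q0 := hQ0cl u2 hu2 u4 hu4A a24
  -- the neighbours of N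
  have hNn : ∀ j, Adj T N j → j ∈ Q0 ∨ j = u1 ∨ j = u3 := by
    have h := hLC N (Q0 ∪ {u1, u3}) ⟨u1, by simp, aN1⟩ (by
      intro j k hjk hj
      simp only [Finset.mem_union, Finset.mem_insert, Finset.mem_singleton] at hj ⊢
      rcases hj with hj | rfl | rfl
      · have hjk' : Adj T j k := ⟨N, hT.rot _ _ _ hjk⟩
        have hkN : k ≠ N := (ef_ne hT hjk).2.2
        have hkV := (GT.adj_verts hT hjk').2
        by_cases hk1 : k = u1
        · exact Or.inr (Or.inl hk1)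
        by_cases hk3 : k = u3
        · exact Or.inr (Or.inr hk3)
        exact Or.inl (hQ0cl j hj k ((hA k).2 ⟨hkV, hkN, hk1, hk3⟩) hjk')
      · rw [hT.uniq _ _ _ _ hjk h1]
        exact Or.inl hu2
      · rw [hT.uniq _ _ _ _ hjk h3]
        exact Or.inl hu4)
    intro j hj
    have := h j hj
    simpa only [Finset.mem_union, Finset.mem_insert, Finset.mem_singleton] using this
  have hNQ0 : N ∉ Q0 := fun h => ((hA N).1 (hQ0A h)).2.1 rfl
  have hu1Q0 : u1 ∉ Q0 := fun h => ((hA u1).1 (hQ0A h)).2.2.1 rfl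
  have hu3Q0 : u3 ∉ Q0 := fun h => ((hA u3).1 (hQ0A h)).2.2.2 rfl
  set Q1 : Finset (Fin n) := (verts T \ ({N, u1, u3} : Finset (Fin n))) \ Q0 with hQ1
  have hQ1m : ∀ i, i ∈ Q1 ↔ (i ∈ verts T ∧ i ≠ N ∧ i ≠ u1 ∧ i ≠ u3) ∧ i ∉ Q0 := by
    intro i
    rw [hQ1, Finset.mem_sdiff, hA]
  have hno01 : ∀ i ∈ Q0, ∀ j ∈ Q1, ¬ Adj T i j := by
    intro i hi j hj h
    rw [hQ1, Finset.mem_sdiff] at hj
    exact hj.2 (hQ0cl i hi j hj.1 h)
  have hnoN1 : ∀ j ∈ Q1, ¬ Adj T N j := by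
    intro j hj h
    rw [hQ1m] at hj
    rcases hNn j h with h' | h' | h'
    · exact hj.2 h'
    · exact hj.1.2.2.1 h'
    · exact hj.1.2.2.2 h'
  have hQ0V : Q0 ⊆ verts T := hQ0A.trans Finset.sdiff_subset
  have hQ1V : Q1 ⊆ verts T := fun i hi => ((hQ1m i).1 hi).1.1
  have hchi0 : chi6 T Q0 ≤ 6 :=
    GT.chi6_conn hT hSt Q0 ⟨u2, hu2⟩ hQ0V (fun h => hNQ0 (h ▸ hN)) hQ0c
  have hchi01 : chi6 T Q0 + chi6 T Q1 = 12 := by
    have h := GT.chi6_union hT Q0 Q1 Finset.disjoint_sdiff (fun i hi j hj =>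
      ⟨hno01 i hi j hj, fun h => hno01 i hi j hj (GT.adj_symm hT h)⟩)
    rw [← h, hQ1, Finset.union_sdiff_of_subset hQ0A, hchiA]
  -- the pair u1, u3
  have hchiB : chi6 T {u1, u3} = 6 := ef_chi_pair hT e13 a13
  have hBV : ({u1, u3} : Finset (Fin n)) ⊆ verts T := by
    intro i hi
    simp only [Finset.mem_insert, Finset.mem_singleton] at hi
    rcases hi with rfl | rfl
    · exact v1
    · exact v3
  have hchiVB : chi6 T (verts T \ {u1, u3}) = 6 := by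
    have := GT.chi6_compl hT _ hBV
    rw [hchiB, hEu] at this
    linarith
  have hVB : insert N Q0 ∪ Q1 = verts T \ {u1, u3} := by
    ext i
    simp only [Finset.mem_union, Finset.mem_insert, Finset.mem_sdiff, Finset.mem_singleton,
      hQ1m, not_or]
    constructor
    · rintro ((rfl | hi) | hi)
      · exact ⟨hN, n1.symm, n3.symm⟩
      · have := (hA i).1 (hQ0A hi)
        exact ⟨this.1, this.2.2⟩
      · exact ⟨hi.1.1, hi.1.2.2⟩
    · rintro ⟨hi, hi1, hi3⟩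
      by_cases hiN : i = N
      · exact Or.inl (Or.inl hiN)
      by_cases hi0 : i ∈ Q0
      · exact Or.inl (Or.inr hi0)
      · exact Or.inr ⟨⟨hi, hiN, hi1, hi3⟩, hi0⟩
  have hchiN0 : chi6 T (insert N Q0) + chi6 T Q1 = 6 := by
    have h := GT.chi6_union hT (insert N Q0) Q1 (by
      rw [Finset.disjoint_left]
      intro i hi hi1
      rw [hQ1m] at hi1
      rcases Finset.mem_insert.1 hi with rfl | hi
      · exact hi1.1.2.1 rfl
      · exact hi1.2 hi) (by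
      intro i hi j hj
      rcases Finset.mem_insert.1 hi with rfl | hi
      · exact ⟨hnoN1 j hj, fun h => hnoN1 j hj (GT.adj_symm hT h)⟩
      · exact ⟨hno01 i hi j hj, fun h => hno01 i hi j hj (GT.adj_symm hT h)⟩)
    rw [← h, hVB, hchiVB]
  -- the complement of insert N Q0
  have hX1 : verts T \ insert N Q0 = {u1, u3} ∪ Q1 := by
    ext i
    simp only [Finset.mem_union, Finset.mem_insert, Finset.mem_sdiff, Finset.mem_singleton,
      hQ1m, not_or]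
    constructor
    · rintro ⟨hi, hiN, hi0⟩
      by_cases hi1 : i = u1
      · exact Or.inl (Or.inl hi1)
      by_cases hi3 : i = u3
      · exact Or.inl (Or.inr hi3)
      · exact Or.inr ⟨⟨hi, hiN, hi1, hi3⟩, hi0⟩
    · rintro ((rfl | rfl) | hi)
      · exact ⟨v1, n1, hu1Q0⟩
      · exact ⟨v3, n3, hu3Q0⟩
      · exact ⟨hi.1.1, hi.1.2.1, hi.2⟩
  have hNV : insert N Q0 ⊆ verts T := by
    intro i hi
    rcases Finset.mem_insert.1 hi with rfl | hi
    · exact hN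
    · exact hQ0V hi
  have hcV := GT.conn_verts hT hSt
  -- no edge from Q1 to insert N Q0
  have hno : ∀ i ∈ Q1, ∀ j ∈ verts T, Adj T i j → j ∈ ({u1, u3} ∪ Q1 : Finset (Fin n)) := by
    intro i hi j hj hij
    rw [← hX1, Finset.mem_sdiff]
    refine ⟨hj, fun h => ?_⟩
    rcases Finset.mem_insert.1 h with rfl | h
    · exact hnoN1 i hi (GT.adj_symm hT hij)
    · exact hno01 j h i hi (GT.adj_symm hT hij)
  have hNX : N ∉ ({u1, u3} ∪ Q1 : Finset (Fin n)) := by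
    rw [← hX1, Finset.mem_sdiff]
    exact fun h => h.2 (Finset.mem_insert_self _ _)
  have hX1c : Conn T ({u1, u3} ∪ Q1) := by
    intro Y hY hYn hYc
    have hB : u1 ∈ Y ∨ u3 ∈ Y := by
      by_contra hno13
      push Not at hno13
      have hYQ : Y ⊆ Q1 := by
        intro i hi
        have := hY hi
        simp only [Finset.mem_union, Finset.mem_insert, Finset.mem_singleton] at this
        rcases this with (rfl | rfl) | h
        · exact absurd hi hno13.1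
        · exact absurd hi hno13.2
        · exact h
      have := hcV Y (hYQ.trans hQ1V) hYn (fun i hi j hj hij => hYc i hi j
        (hno i (hYQ hi) j hj hij) hij)
      exact hNX (hY (this ▸ hN))
    have m1 : u1 ∈ ({u1, u3} ∪ Q1 : Finset (Fin n)) := by simp
    have m3 : u3 ∈ ({u1, u3} ∪ Q1 : Finset (Fin n)) := by simp
    have hB1 : u1 ∈ Y := by
      rcases hB with h | h
      · exact h
      · exact hYc u3 h u1 m1 (GT.adj_symm hT a13)
    have hB3 : u3 ∈ Y := hYc u1 hB1 u3 m3 a13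
    refine Finset.Subset.antisymm hY ?_
    rw [← Finset.sdiff_eq_empty_iff_subset]
    by_contra hZ
    have hZn : (({u1, u3} ∪ Q1) \ Y : Finset (Fin n)).Nonempty :=
      Finset.nonempty_iff_ne_empty.2 hZ
    have hZQ : (({u1, u3} ∪ Q1) \ Y : Finset (Fin n)) ⊆ Q1 := by
      intro i hi
      simp only [Finset.mem_sdiff, Finset.mem_union, Finset.mem_insert,
        Finset.mem_singleton] at hi
      rcases hi with ⟨(rfl | rfl) | h, hiY⟩
      · exact absurd hB1 hiY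
      · exact absurd hB3 hiY
      · exact h
    have := hcV _ (hZQ.trans hQ1V) hZn (by
      intro i hi j hj hij
      rw [Finset.mem_sdiff] at hi ⊢
      refine ⟨hno i (hZQ (Finset.mem_sdiff.2 hi)) j hj hij, fun hjY => ?_⟩
      exact hi.2 (hYc j hjY i hi.1 (GT.adj_symm hT hij)))
    have hN' := this ▸ hN
    exact hNX (Finset.mem_sdiff.1 hN').1
  have hX1V : ({u1, u3} ∪ Q1 : Finset (Fin n)) ⊆ verts T := by
    rw [← hX1]
    exact Finset.sdiff_subset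
  have hchiX1 : chi6 T ({u1, u3} ∪ Q1) ≤ 6 :=
    GT.chi6_conn hT hSt _ ⟨u1, by simp⟩ hX1V (fun h => hNX (h ▸ hN)) hX1c
  have hfin := GT.chi6_compl hT _ hNV
  rw [hX1, hEu] at hfin
  linarith

end GT
end

section

/-! # GT-10c: normalization of the vertices -/

set_option autoImplicit false

namespace GT
open Finset

variable {n : ℕ}

private noncomputable def ut_nu (x : Fin n → V3) (i : Fin n) : ℝ :=
  (Real.sqrt (∑ a, x i a ^ 2))⁻¹

private theorem ut_pos {T : Finset (Tri n)} (hv : verts T = Finset.univ) {x : Fin n → V3}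
    (hx : x ∈ RSp T) (i : Fin n) : 0 < ∑ a, x i a ^ 2 := by
  have hi : i ∈ verts T := by rw [hv]; exact Finset.mem_univ i
  unfold verts at hi
  rw [Finset.mem_image] at hi
  obtain ⟨⟨i', j, k⟩, hτ, rfl⟩ := hi
  have hd := hx.1 i' j k hτ
  have h0 : 0 ≤ ∑ a, x i' a ^ 2 := Finset.sum_nonneg fun a _ => sq_nonneg _
  rcases h0.eq_or_lt with h1 | h1
  · exfalso
    have h2 : ∀ a, x i' a = 0 := by
      intro a
      have h3 := (Finset.sum_eq_zero_iff_of_nonneg (fun a _ => sq_nonneg (x i' a))).1 h1.symm a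
        (Finset.mem_univ a)
      exact pow_eq_zero_iff (two_ne_zero) |>.1 h3
    unfold d3 at hd
    rw [h2 0, h2 1, h2 2] at hd
    simp at hd
  · exact h1

theorem unit_he {T : Finset (Tri n)} (hT : Cx T) (hv : verts T = Finset.univ) :
    Nonempty (ContinuousMap.HomotopyEquiv
      {x : Fin n → V3 | (∀ i, (∑ a, x i a ^ 2) = 1) ∧ x ∈ RSp T} (RSp T)) := by
  classical
  have _ := hT
  set U : Set (Fin n → V3) := {x : Fin n → V3 | (∀ i, (∑ a, x i a ^ 2) = 1) ∧ x ∈ RSp T} with hU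
  have hUX : ∀ x : U, x.1 ∈ RSp T := fun x => x.2.2
  have hU1 : ∀ (x : U) (i : Fin n), ut_nu x.1 i = 1 := by
    intro x i
    unfold ut_nu
    rw [x.2.1 i]
    simp
  have hnu : ∀ (x : RSp T) (i : Fin n), 0 < ut_nu x.1 i := by
    intro x i
    have := ut_pos hv x.2 i
    unfold ut_nu
    positivity
  have hcont : ∀ i, Continuous (fun x : RSp T => ut_nu x.1 i) := by
    intro i
    unfold ut_nu
    have h1 : Continuous (fun x : RSp T => ∑ a, x.1 i a ^ 2) := by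
      refine continuous_finsetSum _ fun a _ => ?_
      have h2 : Continuous (fun x : RSp T => x.1 i a) :=
        (continuous_apply a).comp ((continuous_apply i).comp continuous_subtype_val)
      exact h2.pow 2
    refine Continuous.inv₀ (Real.continuous_sqrt.comp h1) fun x => ?_
    exact (Real.sqrt_pos.2 (ut_pos hv x.2 i)).ne'
  have hxi : ∀ i, Continuous (fun x : RSp T => x.1 i) := fun i =>
    (continuous_apply i).comp continuous_subtype_val
  have hrU : ∀ x : RSp T, (fun i => ut_nu x.1 i • x.1 i) ∈ U := by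
    intro x
    refine ⟨fun i => ?_, GT.scale_RSp x.2 _ (hnu x)⟩
    have hp := ut_pos hv x.2 i
    have h1 : ∀ a, (ut_nu x.1 i • x.1 i) a ^ 2 = ut_nu x.1 i ^ 2 * x.1 i a ^ 2 := by
      intro a
      rw [Pi.smul_apply, smul_eq_mul, mul_pow]
    rw [Finset.sum_congr rfl (fun a _ => h1 a), ← Finset.mul_sum]
    unfold ut_nu
    rw [inv_pow, Real.sq_sqrt hp.le]
    exact inv_mul_cancel₀ hp.ne'
  have hH : ∀ (t : unitInterval) (x : RSp T),
      (fun i => ((1 - (t : ℝ)) + (t : ℝ) * ut_nu x.1 i) • x.1 i) ∈ RSp T := by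
    intro t x
    refine GT.scale_RSp x.2 _ fun i => ?_
    have ht0 : 0 ≤ (t : ℝ) := t.2.1
    have ht1 : 0 ≤ 1 - (t : ℝ) := sub_nonneg.2 t.2.2
    have hν := hnu x i
    rcases ht0.eq_or_lt with h0 | h0
    · rw [← h0]
      norm_num
    · have : 0 < (t : ℝ) * ut_nu x.1 i := mul_pos h0 hν
      linarith
  let incl : C(U, RSp T) := ⟨fun x => ⟨x.1, hUX x⟩, Continuous.subtype_mk continuous_subtype_val _⟩
  let r : C(RSp T, U) := ⟨fun x => ⟨fun i => ut_nu x.1 i • x.1 i, hrU x⟩, by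
    refine Continuous.subtype_mk ?_ _
    exact continuous_pi fun i => (hcont i).smul (hxi i)⟩
  have hri : r.comp incl = ContinuousMap.id _ := by
    ext1 x
    apply Subtype.ext
    funext i
    change ut_nu x.1 i • x.1 i = x.1 i
    rw [hU1 x i, one_smul]
  refine ⟨⟨incl, r, by rw [hri], ⟨ContinuousMap.Homotopy.symm ⟨⟨fun q =>
    ⟨fun i => ((1 - (q.1 : ℝ)) + (q.1 : ℝ) * ut_nu q.2.1 i) • q.2.1 i, hH q.1 q.2⟩, ?_⟩,
      ?_, ?_⟩⟩⟩⟩
  · refine Continuous.subtype_mk ?_ _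
    refine continuous_pi fun i => ?_
    have h3 : Continuous (fun q : unitInterval × RSp T => (q.1 : ℝ)) :=
      continuous_subtype_val.comp continuous_fst
    exact ((continuous_const.sub h3).add (h3.mul ((hcont i).comp continuous_snd))).smul
      ((hxi i).comp continuous_snd)
  · intro x
    apply Subtype.ext
    funext i
    simp
  · intro x
    apply Subtype.ext
    funext i
    simp [incl, r]

end GT
end
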