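import Pool.Agent.Lib.MP_c41363_gt.Defs
import Pool.Agent.Lib.MP_c41363_gt.Cnt
import Pool.Agent.Lib.MP_c41363_gt.Cycles
import Pool.Agent.Lib.MP_c41363_gt.Rsp
import Pool.Agent.Lib.MP_c41363_gt.Mv
import Pool.Agent.Lib.MP_c41363_gt.Unit
import Pool.Agent.Lib.MP_c41363_gt.Fstar
import Pool.Agent.Lib.MP_c41363_gt.Tetra

section

/-!
# MP_c41363_gt : removing vertices on the south ray, and the setting of the core argument
-/

set_option autoImplicit false

namespace GT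
open Finset

variable {n : ℕ}

private theorem un_pole_ne {T : Finset (Tri n)} {x : Fin n → V3} (hx : Pos T x) {N : Fin n}
    (hN : N ∈ verts T) : x N ≠ 0 := by
  intro h0
  rw [verts, Finset.mem_image] at hN
  obtain ⟨⟨i, j, k⟩, hτ, hi⟩ := hN
  simp only at hi
  subst hi
  have h := hx _ _ _ hτ
  rw [h0] at h
  simp [d3] at h

private theorem un_rot_mem {T : Finset (Tri n)} (hT : Cx T) {N : Fin n} {τ : Tri n}
    (h : τ ∈ DD T N) : rot3 τ ∈ DD T N := by
  obtain ⟨i, j, k⟩ := τ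
  rw [DD, Finset.mem_filter] at h ⊢
  obtain ⟨h1, h2, h3, h4⟩ := h
  exact ⟨hT.rot _ _ _ h1, h3, h4, h2⟩

/-- the stress vanishes on the faces at a vertex on the line of the pole -/
private theorem un_zero {T : Finset (Tri n)} {x : Fin n → V3} (hx : Pos T x)
    {N : Fin n} (μ : Tri n → ℝ) (hμ : ∀ τ ∈ DD T N, 0 ≤ μ τ) {i0 : Fin n} {r : ℝ}
    (hr : x i0 = r • x N)
    (hbal : (∑ τ ∈ (DD T N).filter (fun τ => τ.1 = i0),
      μ τ * d3 (x N) (x τ.2.1) (x τ.2.2)) = 0) :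
    ∀ τ ∈ DD T N, τ.1 = i0 → μ τ = 0 := by
  have hpos : ∀ τ ∈ (DD T N).filter (fun τ => τ.1 = i0),
      0 < r * d3 (x N) (x τ.2.1) (x τ.2.2) := by
    rintro ⟨i, j, k⟩ hτ
    rw [Finset.mem_filter, DD, Finset.mem_filter] at hτ
    obtain ⟨⟨h1, -⟩, h2⟩ := hτ
    simp only at h2
    subst h2
    have h3 := hx _ _ _ h1
    rw [hr, GT.d3_smul1] at h3
    exact h3
  have hsum : (∑ τ ∈ (DD T N).filter (fun τ => τ.1 = i0),
      μ τ * (r * d3 (x N) (x τ.2.1) (x τ.2.2))) = 0 := by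
    have h1 : (∑ τ ∈ (DD T N).filter (fun τ => τ.1 = i0),
        μ τ * (r * d3 (x N) (x τ.2.1) (x τ.2.2))) =
        r * ∑ τ ∈ (DD T N).filter (fun τ => τ.1 = i0),
          μ τ * d3 (x N) (x τ.2.1) (x τ.2.2) := by
      rw [Finset.mul_sum]
      refine Finset.sum_congr rfl fun τ _ => ?_
      ring
    rw [h1, hbal, mul_zero]
  rw [Finset.sum_eq_zero_iff_of_nonneg (fun τ hτ =>
    mul_nonneg (hμ τ (Finset.mem_filter.mp hτ).1) (hpos τ hτ).le)] at hsum
  intro τ hτ h1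
  have hm : τ ∈ (DD T N).filter (fun τ => τ.1 = i0) := Finset.mem_filter.mpr ⟨hτ, h1⟩
  rcases mul_eq_zero.mp (hsum τ hm) with h2 | h2
  · exact h2
  · exact absurd h2 (hpos τ hm).ne'

/-- removing vertices on the south ray without changing the stress -/
theorem unpole {T : Finset (Tri n)} (hT : Cx T) {x : Fin n → V3} (hx : x ∈ RSp T) {N : Fin n}
    (hN : N ∈ verts T) (μ : Tri n → ℝ) (hμ : ∀ τ ∈ DD T N, 0 ≤ μ τ)
    (hr : ∀ τ ∈ DD T N, μ (rot3 τ) = μ τ) (μ0 : ℝ) {a w c : Fin n} (h1 : (N, a, w) ∈ T)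
    (h2 : (N, w, c) ∈ T)
    (hbal : Bal T N (fun i j => d3 (x N) (x i) (x j)) μ
      (load (fun i j => d3 (x N) (x i) (x j)) a w c μ0)) :
    ∃ x' ∈ RSp T, (∀ i, i ≠ N → ¬ ∃ r : ℝ, x' i = r • x' N) ∧
      Bal T N (fun i j => d3 (x' N) (x' i) (x' j)) μ
        (load (fun i j => d3 (x' N) (x' i) (x' j)) a w c μ0) := by
  classical
  have hxN := un_pole_ne hx.1 hN
  have p1 := hx.1 _ _ _ h1
  have p2 := hx.1 _ _ _ h2
  have ga : ¬ ∃ r : ℝ, x a = r • x N := by
    rintro ⟨r, h⟩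
    rw [h, GT.d3_smul2, GT.d3_self12, mul_zero] at p1
    exact lt_irrefl _ p1
  have gw : ¬ ∃ r : ℝ, x w = r • x N := by
    rintro ⟨r, h⟩
    rw [h, GT.d3_smul3, GT.d3_self13, mul_zero] at p1
    exact lt_irrefl _ p1
  have gc : ¬ ∃ r : ℝ, x c = r • x N := by
    rintro ⟨r, h⟩
    rw [h, GT.d3_smul3, GT.d3_self13, mul_zero] at p2
    exact lt_irrefl _ p2
  -- the stress vanishes near bad vertices
  have hz1 : ∀ i0, i0 ≠ N → (∃ r : ℝ, x i0 = r • x N) → ∀ τ ∈ DD T N, τ.1 = i0 → μ τ = 0 := by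
    rintro i0 hi0 ⟨r, hr0⟩
    have hb := hbal i0 hi0
    have ha : i0 ≠ a := by
      rintro rfl
      exact ga ⟨r, hr0⟩
    have hw : i0 ≠ w := by
      rintro rfl
      exact gw ⟨r, hr0⟩
    have hc : i0 ≠ c := by
      rintro rfl
      exact gc ⟨r, hr0⟩
    simp only [load, if_neg ha, if_neg hw, if_neg hc, add_zero] at hb
    exact un_zero hx.1 μ hμ hr0 hb
  have hz2 : ∀ i0, i0 ≠ N → (∃ r : ℝ, x i0 = r • x N) → ∀ τ ∈ DD T N, τ.2.1 = i0 → μ τ = 0 := by
    intro i0 hi0 hb τ hτ h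
    rw [← hr τ hτ]
    exact hz1 i0 hi0 hb (rot3 τ) (un_rot_mem hT hτ) h
  have hz3 : ∀ i0, i0 ≠ N → (∃ r : ℝ, x i0 = r • x N) → ∀ τ ∈ DD T N, τ.2.2 = i0 → μ τ = 0 := by
    intro i0 hi0 hb τ hτ h
    rw [← hr τ hτ]
    exact hz2 i0 hi0 hb (rot3 τ) (un_rot_mem hT hτ) h
  -- the perturbation
  let γ : ℝ → (Fin n → V3) := fun ε i =>
    if i ≠ N ∧ ∃ r : ℝ, x i = r • x N then x i + ε • x a else x i
  have hγ0 : γ 0 = x := by
    funext i
    simp only [γ, zero_smul, add_zero, ite_self]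
  have hγc : Continuous γ := by
    apply continuous_pi
    intro i
    by_cases hi : i ≠ N ∧ ∃ r : ℝ, x i = r • x N
    · simp only [γ, if_pos hi]
      fun_prop
    · simp only [γ, if_neg hi]
      fun_prop
  have hev : ∀ᶠ ε in nhds (0 : ℝ), γ ε ∈ RSp T := by
    apply hγc.continuousAt.eventually
    rw [hγ0]
    exact (GT.isOpen_RSp hT).mem_nhds hx
  obtain ⟨ε, hε, hε0⟩ := ((hev.filter_mono (nhdsWithin_le_nhds (s := Set.Ioi 0))).and
    self_mem_nhdsWithin).exists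
  have hε0' : (0 : ℝ) < ε := hε0
  have hgood : ∀ i, (¬ ∃ r : ℝ, x i = r • x N) → γ ε i = x i := by
    intro i hi
    simp only [γ]
    rw [if_neg]
    exact fun h => hi h.2
  have hγN : γ ε N = x N := by
    simp only [γ]
    rw [if_neg]
    exact fun h => h.1 rfl
  refine ⟨γ ε, hε, ?_, ?_⟩
  · rintro i hi ⟨r', hr'⟩
    rw [hγN] at hr'
    by_cases hb : ∃ r : ℝ, x i = r • x N
    · have h3 : γ ε i = x i + ε • x a := by
        simp only [γ]
        rw [if_pos ⟨hi, hb⟩]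
      obtain ⟨r, hr0⟩ := hb
      rw [h3, hr0] at hr'
      apply ga
      refine ⟨(r' - r) / ε, ?_⟩
      have h4 : ε • x a = (r' - r) • x N := by
        rw [sub_smul, ← hr']
        abel
      rw [div_eq_inv_mul, mul_smul, ← h4, smul_smul, inv_mul_cancel₀ hε0'.ne', one_smul]
    · rw [hgood i hb] at hr'
      exact hb ⟨r', hr'⟩
  · intro i hi
    have hb := hbal i hi
    have hload : load (fun i j => d3 (γ ε N) (γ ε i) (γ ε j)) a w c μ0 i =
        load (fun i j => d3 (x N) (x i) (x j)) a w c μ0 i := by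
      simp only [load, hγN, hgood a ga, hgood w gw, hgood c gc]
    rw [hload, ← hb]
    congr 1
    refine Finset.sum_congr rfl fun τ hτ => ?_
    have hτD := (Finset.mem_filter.mp hτ).1
    have hτD' := hτD
    rw [DD, Finset.mem_filter] at hτD'
    obtain ⟨-, -, hj, hk⟩ := hτD'
    simp only
    by_cases hbj : ∃ r : ℝ, x τ.2.1 = r • x N
    · rw [hz2 _ hj hbj τ hτD rfl, zero_mul, zero_mul]
    · by_cases hbk : ∃ r : ℝ, x τ.2.2 = r • x N
      · rw [hz3 _ hk hbk τ hτD rfl, zero_mul, zero_mul]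
      · rw [hγN, hgood _ hbj, hgood _ hbk]

theorem setting_of {T : Finset (Tri n)} (hT : Cx T) {x : Fin n → V3} (hx : x ∈ RSp T) {N : Fin n}
    (hN : N ∈ verts T) (hx0 : ∀ i, i ≠ N → ¬ ∃ r : ℝ, x i = r • x N) :
    ∃ p z, Setting T N p z ∧ ∀ i j, br p i j = d3 (x N) (x i) (x j) := by
  have hxN := un_pole_ne hx.1 hN
  obtain ⟨p, hp, hp0⟩ := GT.exists_planar (x N) hxN x
  obtain ⟨z, hz⟩ := GT.exists_height (x N) hxN x
  refine ⟨p, z, ?_, hp⟩
  exact {
    cx := hT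
    strong := GT.strong_of hT hx
    lc := GT.linkCyc_of hT hx
    mem := hN
    pole := fun i j h => by
      rw [hp]
      exact hx.1 _ _ _ h
    pnz := fun i hi h0 => hx0 i hi ((hp0 i).1 h0)
    hz := fun τ hτ => by
      have h := hx.1 τ.1 τ.2.1 τ.2.2 (Finset.mem_filter.mp hτ).1
      rw [hz] at h
      rw [hp, hp, hp]
      exact h
    excl := fun τ hτ => by
      rw [hp, hp, hp]
      exact GT.no_north hT hx hN τ hτ }

end GT
end

section

/-!
# MP_c41363_gt : every fibre of the moves along a vertex meets the good half space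
-/

set_option autoImplicit false

namespace GT
open Finset

variable {n : ℕ}

private theorem st_mem_DD {T : Finset (Tri n)} {N i j k : Fin n} (h : (i, j, k) ∈ T)
    (hi : i ≠ N) (hj : j ≠ N) (hk : k ≠ N) : (i, j, k) ∈ DD T N := by
  rw [DD, Finset.mem_filter]
  exact ⟨h, hi, hj, hk⟩

/-- the distinctness facts for a face -/
private theorem st_ne {T : Finset (Tri n)} (hT : Cx T) {i j k : Fin n} (h : (i, j, k) ∈ T) :
    i ≠ j ∧ j ≠ k ∧ k ≠ i :=
  ⟨hT.ne _ _ _ h, hT.ne _ _ _ (hT.rot _ _ _ h), hT.ne _ _ _ (hT.rot _ _ _ (hT.rot _ _ _ h))⟩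

/-- heights with positive values give a move into the good half space -/
private theorem st_of_height {T : Finset (Tri n)} (hT : Cx T) {x : Fin n → V3} (hx : x ∈ RSp T)
    {N a w c : Fin n} (h1 : (N, a, w) ∈ T) (h2 : (N, w, c) ∈ T) (z : Fin n → ℝ)
    (hz : ∀ τ ∈ DD T N, 0 < z τ.1 * d3 (x N) (x τ.2.1) (x τ.2.2) +
      z τ.2.1 * d3 (x N) (x τ.2.2) (x τ.1) + z τ.2.2 * d3 (x N) (x τ.1) (x τ.2.1))
    (hz' : 0 < z a * d3 (x N) (x w) (x c) + z w * d3 (x N) (x c) (x a) +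
      z c * d3 (x N) (x a) (x w)) :
    ∃ t : Fin n → ℝ, mv N x t ∈ RSp T ∧ 0 < d3 (mv N x t a) (mv N x t w) (mv N x t c) := by
  have hxN : x N ≠ 0 := by
    intro h0
    have h := hx.1 _ _ _ h1
    rw [h0] at h
    simp [d3] at h
  obtain ⟨z0, hz0⟩ := GT.exists_height (x N) hxN x
  obtain ⟨hNa, haw, hwN⟩ := st_ne hT h1
  obtain ⟨hNw, hwc, hcN⟩ := st_ne hT h2
  have hmv : ∀ (s : ℝ) (i j k : Fin n), i ≠ N → j ≠ N → k ≠ N →
      d3 (mv N x (s • (z - z0)) i) (mv N x (s • (z - z0)) j) (mv N x (s • (z - z0)) k) =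
        (1 - s) * d3 (x i) (x j) (x k) + s * (z i * d3 (x N) (x j) (x k) +
          z j * d3 (x N) (x k) (x i) + z k * d3 (x N) (x i) (x j)) := by
    intro s i j k hi hj hk
    rw [GT.d3_mv x N _ i j k hi hj hk, hz0 i j k]
    simp only [Pi.smul_apply, Pi.sub_apply, smul_eq_mul]
    ring
  refine ⟨z - z0, ?_, ?_⟩
  · have hγ := GT.path_RSp hT (fun s : ℝ => mv N x (s • (z - z0))) ?_ ?_ ?_
    · simpa using hγ
    · apply Continuous.continuousOn
      apply continuous_pi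
      intro i
      by_cases hi : i = N
      · simp only [mv, hi, if_true]
        exact continuous_const
      · simp only [mv, hi, if_false, Pi.smul_apply]
        fun_prop
    · intro s hs i j k hτ
      have hpos := hx.1 _ _ _ hτ
      by_cases hi : i = N
      · subst hi
        rw [GT.d3_mvN]
        exact hpos
      · by_cases hj : j = N
        · subst hj
          rw [← GT.d3_rot, GT.d3_mvN, GT.d3_rot]
          exact hpos
        · by_cases hk : k = N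
          · subst hk
            rw [GT.d3_rot, GT.d3_mvN, ← GT.d3_rot]
            exact hpos
          · rw [hmv s i j k hi hj hk]
            have h3 := hz _ (st_mem_DD hτ hi hj hk)
            simp only at h3
            obtain ⟨hs0, hs1⟩ := hs
            rcases hs0.eq_or_lt with h4 | h4
            · rw [← h4]
              linarith
            · have h5 : 0 ≤ (1 - s) * d3 (x i) (x j) (x k) :=
                mul_nonneg (by linarith) hpos.le
              have h6 := mul_pos h4 h3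
              linarith
    · have h0 : mv N x ((0 : ℝ) • (z - z0)) = x := by
        funext i
        by_cases hi : i = N
        · simp [mv, hi]
        · simp [mv, hi]
      rw [h0]
      exact hx
  · have h3 := hmv 1 a w c hNa.symm hNw.symm hcN
    rw [one_smul] at h3
    rw [h3]
    linarith

/-- the certificate of the opposite case -/
private theorem st_cert {T : Finset (Tri n)} (hT : Cx T) {x : Fin n → V3} (hx : x ∈ RSp T)
    {N a w c : Fin n} (h1 : (N, a, w) ∈ T) (h2 : (N, w, c) ∈ T) (hac : a ≠ c)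
    (hno : ¬ ∃ t : Fin n → ℝ, mv N x t ∈ RSp T ∧
      0 < d3 (mv N x t a) (mv N x t w) (mv N x t c)) :
    ∃ (p : Fin n → ℝ × ℝ) (z : Fin n → ℝ) (b : Fin n → Fin n → ℝ) (μ : Tri n → ℝ) (μ0 : ℝ),
      Setting T N p z ∧ GenB T N p b ∧ 12 ≤ chi6 T (verts T) ∧ (∀ τ ∈ DD T N, 0 ≤ μ τ) ∧
      (∀ τ ∈ DD T N, μ (rot3 τ) = μ τ) ∧ 0 ≤ μ0 ∧ (μ0 ≠ 0 ∨ ∃ τ ∈ DD T N, μ τ ≠ 0) ∧
      Bal T N (br p) μ (load (br p) a w c μ0) := by
  obtain ⟨hNa, haw, hwN⟩ := st_ne hT h1
  obtain ⟨hNw, hwc, hcN⟩ := st_ne hT h2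
  have hN : N ∈ verts T := by
    rw [verts, Finset.mem_image]
    exact ⟨_, h1, rfl⟩
  obtain ⟨μ, μ0, hμ, hr, hμ0, hnz, hbal⟩ := GT.gordan hT N
    (fun i j => d3 (x N) (x i) (x j)) hNa.symm hwN hcN haw hwc hac (by
      rintro ⟨z, hz, hz'⟩
      exact hno (st_of_height hT hx h1 h2 z hz hz'))
  obtain ⟨x', hx', hx0, hbal'⟩ := GT.unpole hT hx hN μ hμ hr μ0 h1 h2 hbal
  obtain ⟨p, z, hS, hp⟩ := GT.setting_of hT hx' hN hx0
  obtain ⟨b, hb⟩ := GT.exists_genB hT hx' hN p hp hS.pnz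
  have hfun : (fun i j => d3 (x' N) (x' i) (x' j)) = br p := by
    funext i j
    exact (hp i j).symm
  rw [hfun] at hbal'
  exact ⟨p, z, b, μ, μ0, hS, hb, (GT.euler hT ⟨x', hx'⟩).ge, hμ, hr, hμ0, hnz, hbal'⟩

private theorem st_ac {T : Finset (Tri n)} {x : Fin n → V3} (hx : x ∈ RSp T)
    {N a w c : Fin n} (h1 : (N, a, w) ∈ T) (h2 : (N, w, c) ∈ T) : a ≠ c := by
  rintro rfl
  have h3 := hx.1 _ _ _ h1
  have h4 := hx.1 _ _ _ h2
  rw [GT.d3_swap23] at h4
  linarith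

/-- two different vertices of a face are adjacent -/
private theorem st_adj {T : Finset (Tri n)} (hT : Cx T) {τ : Tri n} (hτ : τ ∈ T) {a c : Fin n}
    (hac : a ≠ c) (ha : a = τ.1 ∨ a = τ.2.1 ∨ a = τ.2.2) (hc : c = τ.1 ∨ c = τ.2.1 ∨ c = τ.2.2) :
    Adj T a c := by
  obtain ⟨i, j, k⟩ := τ
  simp only at ha hc
  have e1 := hτ
  have e2 := hT.rot _ _ _ e1
  have e3 := hT.rot _ _ _ e2
  rcases ha with rfl | rfl | rfl <;> rcases hc with rfl | rfl | rfl
  · exact absurd rfl hac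
  · exact ⟨_, e1⟩
  · exact hT.sym _ _ _ e3
  · exact hT.sym _ _ _ e1
  · exact absurd rfl hac
  · exact ⟨_, e2⟩
  · exact ⟨_, e3⟩
  · exact hT.sym _ _ _ e2
  · exact absurd rfl hac

/-- (star-star) -/
theorem star {T : Finset (Tri n)} (hT : Cx T) {x : Fin n → V3} (hx : x ∈ RSp T) {N a w c : Fin n}
    (h1 : (N, a, w) ∈ T) (h2 : (N, w, c) ∈ T) (hac : ¬ Adj T a c) :
    ∃ t : Fin n → ℝ, mv N x t ∈ RSp T ∧ 0 < d3 (mv N x t a) (mv N x t w) (mv N x t c) := by
  by_contra hno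
  have hne := st_ac hx h1 h2
  obtain ⟨p, z, b, μ, μ0, hS, hb, h12, hμ, hr, hμ0, hnz, hbal⟩ := st_cert hT hx h1 h2 hne hno
  obtain ⟨τ, hτ, -, ha, hc⟩ := GT.core hS hb h12 μ hμ hr μ0 hμ0 hnz h1 h2 hbal
  exact hac (st_adj hT (Finset.mem_filter.mp hτ).1 hne ha hc)

/-- a face with a common D- or S-vertex pattern over a link edge is an S-face -/
private theorem st_isS {T : Finset (Tri n)} {N : Fin n} {p : Fin n → ℝ × ℝ} {z : Fin n → ℝ}
    (hS : Setting T N p z) {b : Fin n → Fin n → ℝ} (hb : GenB T N p b) {u v : Fin n}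
    (h3 : (N, u, v) ∈ T) {τ : Tri n} (hτ : τ ∈ DD T N)
    (h : isS b τ ∨ (isD b τ ∧ τ.2.1 ≠ v ∧ τ.2.1 ≠ u))
    (hv : v = τ.1 ∨ v = τ.2.1 ∨ v = τ.2.2) (hu : u = τ.1 ∨ u = τ.2.1 ∨ u = τ.2.2) :
    isS b τ := by
  rcases h with h | ⟨hD, hmv, hmu⟩
  · exact h
  · exfalso
    have hT := hS.cx
    obtain ⟨i, m, k⟩ := τ
    rw [DD, Finset.mem_filter] at hτ
    obtain ⟨hτ, hi, hm, hk⟩ := hτ
    simp only at hv hu hmv hmu hi hm hk
    have huv : u ≠ v := (st_ne hT h3).2.1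
    rcases hv with rfl | rfl | rfl <;> rcases hu with rfl | rfl | rfl
    · exact huv rfl
    · exact hmu rfl
    · -- `τ = (v, m, u)`
      have e1 := hT.rot _ _ _ (hT.rot _ _ _ hτ)
      have e2 := hT.rot _ _ _ h3
      exact hm (hT.uniq _ _ _ _ e1 e2)
    · exact hmv rfl
    · exact hmv rfl
    · exact hmv rfl
    · -- `τ = (u, m, v)`
      have e1 := hb.pos _ _ (hS.pole _ _ h3)
      have e2 := hD.2.2
      simp only at e2
      rw [hb.anti] at e2
      linarith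
    · exact hmu rfl
    · exact huv rfl

private theorem st_perm {i j k a w c : Fin n} (hac : a ≠ c) (haw : a ≠ w) (hwc : w ≠ c)
    (ha : a = i ∨ a = j ∨ a = k) (hc : c = i ∨ c = j ∨ c = k) (hw : w = i ∨ w = j ∨ w = k) :
    (i = a ∧ j = c ∧ k = w) ∨ (i = c ∧ j = w ∧ k = a) ∨ (i = w ∧ j = a ∧ k = c) ∨
      (i = a ∧ j = w ∧ k = c) ∨ (i = w ∧ j = c ∧ k = a) ∨ (i = c ∧ j = a ∧ k = w) := by
  rcases ha with rfl | rfl | rfl <;> rcases hc with rfl | rfl | rfl <;>
    rcases hw with rfl | rfl | rfl <;> simp_all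

/-- the degree three case -/
theorem star3 {T : Finset (Tri n)} (hT : Cx T) {x : Fin n → V3} (hx : x ∈ RSp T) {N a w c : Fin n}
    (h1 : (N, a, w) ∈ T) (h2 : (N, w, c) ∈ T) (h3 : (N, c, a) ∈ T) (h4 : (a, c, w) ∉ T) :
    ∃ t : Fin n → ℝ, mv N x t ∈ RSp T ∧ 0 < d3 (mv N x t a) (mv N x t w) (mv N x t c) := by
  by_contra hno
  have hne := st_ac hx h1 h2
  obtain ⟨p, z, b, μ, μ0, hS, hb, h12, hμ, hr, hμ0, hnz, hbal⟩ := st_cert hT hx h1 h2 hne hno
  obtain ⟨τ, hτ, hor, ha, hc⟩ := GT.core hS hb h12 μ hμ hr μ0 hμ0 hnz h1 h2 hbal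
  have hbal' : Bal T N (br p) μ (load (br p) w c a μ0) := by
    have hl : load (br p) w c a μ0 = load (br p) a w c μ0 := by
      funext i
      simp only [load]
      ring
    rw [hl]
    exact hbal
  obtain ⟨τ', hτ', hor', hw, ha'⟩ := GT.core hS hb h12 μ hμ hr μ0 hμ0 hnz h2 h3 hbal'
  have hs : isS b τ := st_isS hS hb h3 hτ hor ha hc
  have hs' : isS b τ' := st_isS hS hb h1 hτ' hor' hw ha'
  have hw2 : w = τ.1 ∨ w = τ.2.1 ∨ w = τ.2.2 := by
    rcases hb.sUn τ hτ τ' hτ' hs hs' with h | h | h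
    · rw [h] at hw
      exact hw
    · rw [h] at hw
      rcases hw with h | h | h
      · exact Or.inr (Or.inl h)
      · exact Or.inr (Or.inr h)
      · exact Or.inl h
    · rw [h] at hw
      rcases hw with h | h | h
      · exact Or.inr (Or.inr h)
      · exact Or.inl h
      · exact Or.inr (Or.inl h)
  have hbaw : 0 < b a w := hb.pos _ _ (hS.pole _ _ h1)
  have hτT := (Finset.mem_filter.mp hτ).1
  obtain ⟨haw', hwc', -⟩ : a ≠ w ∧ w ≠ c ∧ True := ⟨(st_ne hT h1).2.1, (st_ne hT h2).2.1, trivial⟩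
  obtain ⟨i, j, k⟩ := τ
  simp only at ha hc hw2
  simp only [isS] at hs
  have e1 := hτT
  have e2 := hT.rot _ _ _ e1
  have e3 := hT.rot _ _ _ e2
  obtain ⟨s1, s2, s3⟩ := hs
  rcases st_perm hne haw' hwc' ha hc hw2 with ⟨rfl, rfl, rfl⟩ | ⟨rfl, rfl, rfl⟩ |
    ⟨rfl, rfl, rfl⟩ | ⟨rfl, rfl, rfl⟩ | ⟨rfl, rfl, rfl⟩ | ⟨rfl, rfl, rfl⟩
  · exact h4 e1
  · exact h4 e3
  · exact h4 e2
  · linarith
  · linarith
  · linarith

end GT
end

section

/-!
# GT-11d: removal of a vertex of degree three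
-/

set_option autoImplicit false

namespace GT
open Finset

variable {n : ℕ}

/-! ### Combinatorics -/

/-- Facts about the three faces at the vertex `N`. -/
private structure rm_F (T : Finset (Tri n)) (N a w c : Fin n) : Prop where
  Na : N ≠ a
  Nw : N ≠ w
  Nc : N ≠ c
  aw : a ≠ w
  wc : w ≠ c
  ca : c ≠ a
  awN : (a, w, N) ∈ T
  wNa : (w, N, a) ∈ T
  wcN : (w, c, N) ∈ T
  cNw : (c, N, w) ∈ T
  caN : (c, a, N) ∈ T
  aNc : (a, N, c) ∈ T

private lemma rm_facts {T : Finset (Tri n)} (hT : Cx T) {N a w c : Fin n}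
    (h1 : (N, a, w) ∈ T) (h2 : (N, w, c) ∈ T) (h3 : (N, c, a) ∈ T) : rm_F T N a w c := by
  have r1 := hT.rot _ _ _ h1
  have r1' := hT.rot _ _ _ r1
  have r2 := hT.rot _ _ _ h2
  have r2' := hT.rot _ _ _ r2
  have r3 := hT.rot _ _ _ h3
  have r3' := hT.rot _ _ _ r3
  exact ⟨hT.ne _ _ _ h1, hT.ne _ _ _ h2, hT.ne _ _ _ h3, hT.ne _ _ _ r1, hT.ne _ _ _ r2,
    hT.ne _ _ _ r3, r1, r1', r2, r2', r3, r3'⟩

private lemma rm_mem {T : Finset (Tri n)} {N a w c i j k : Fin n} :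
    (i, j, k) ∈ rmv T N a w c ↔ ((i, j, k) ∈ T ∧
      ¬ ((i, j, k) = (N, a, w) ∨ (i, j, k) = (a, w, N) ∨ (i, j, k) = (w, N, a) ∨
        (i, j, k) = (N, w, c) ∨ (i, j, k) = (w, c, N) ∨ (i, j, k) = (c, N, w) ∨
        (i, j, k) = (N, c, a) ∨ (i, j, k) = (c, a, N) ∨ (i, j, k) = (a, N, c))) ∨
      ((i, j, k) = (a, w, c) ∨ (i, j, k) = (w, c, a) ∨ (i, j, k) = (c, a, w)) := by
  simp only [rmv, mem_union, mem_sdiff, mem_insert, mem_singleton]

/-- the triples starting at `N` -/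
private lemma rm_N {T : Finset (Tri n)} (hT : Cx T) (hl : LinkCyc T) {N a w c : Fin n}
    (h1 : (N, a, w) ∈ T) (h2 : (N, w, c) ∈ T) (h3 : (N, c, a) ∈ T) {j k : Fin n}
    (h : (N, j, k) ∈ T) : (j = a ∧ k = w) ∨ (j = w ∧ k = c) ∨ (j = c ∧ k = a) := by
  have hj := hl N {a, w, c} ⟨a, by simp, w, h1⟩ (by
    intro j k hjk hj
    simp only [mem_insert, mem_singleton] at hj ⊢
    rcases hj with rfl | rfl | rfl
    · right; left; exact hT.uniq _ _ _ _ hjk h1
    · right; right; exact hT.uniq _ _ _ _ hjk h2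
    · left; exact hT.uniq _ _ _ _ hjk h3) j ⟨k, h⟩
  simp only [mem_insert, mem_singleton] at hj
  rcases hj with rfl | rfl | rfl
  · left; exact ⟨rfl, hT.uniq _ _ _ _ h h1⟩
  · right; left; exact ⟨rfl, hT.uniq _ _ _ _ h h2⟩
  · right; right; exact ⟨rfl, hT.uniq _ _ _ _ h h3⟩

private lemma rm_mem' {T : Finset (Tri n)} (hT : Cx T) (hl : LinkCyc T) {N a w c : Fin n}
    (h1 : (N, a, w) ∈ T) (h2 : (N, w, c) ∈ T) (h3 : (N, c, a) ∈ T) {i j k : Fin n} :
    (i, j, k) ∈ rmv T N a w c ↔ ((i, j, k) ∈ T ∧ i ≠ N ∧ j ≠ N ∧ k ≠ N) ∨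
      ((i, j, k) = (a, w, c) ∨ (i, j, k) = (w, c, a) ∨ (i, j, k) = (c, a, w)) := by
  rw [rm_mem]
  apply or_congr_left
  constructor
  · rintro ⟨h, hn⟩
    refine ⟨h, ?_, ?_, ?_⟩
    · rintro rfl
      apply hn
      rcases rm_N hT hl h1 h2 h3 h with ⟨rfl, rfl⟩ | ⟨rfl, rfl⟩ | ⟨rfl, rfl⟩ <;> simp
    · rintro rfl
      apply hn
      rcases rm_N hT hl h1 h2 h3 (hT.rot _ _ _ h) with ⟨rfl, rfl⟩ | ⟨rfl, rfl⟩ | ⟨rfl, rfl⟩ <;>
        simp
    · rintro rfl
      apply hn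
      rcases rm_N hT hl h1 h2 h3 (hT.rot _ _ _ (hT.rot _ _ _ h)) with
        ⟨rfl, rfl⟩ | ⟨rfl, rfl⟩ | ⟨rfl, rfl⟩ <;> simp
  · rintro ⟨h, hi, hj, hk⟩
    refine ⟨h, ?_⟩
    simp only [Prod.mk.injEq]
    tauto

theorem rmv_cx {T : Finset (Tri n)} (hT : Cx T) (hl : LinkCyc T) {N a w c : Fin n}
    (h1 : (N, a, w) ∈ T) (h2 : (N, w, c) ∈ T) (h3 : (N, c, a) ∈ T) :
    Cx (rmv T N a w c) ∧ verts (rmv T N a w c) = (verts T).erase N := by
  have F := rm_facts hT h1 h2 h3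
  have hm : ∀ {i j k : Fin n}, (i, j, k) ∈ rmv T N a w c ↔
      ((i, j, k) ∈ T ∧ i ≠ N ∧ j ≠ N ∧ k ≠ N) ∨
      ((i, j, k) = (a, w, c) ∨ (i, j, k) = (w, c, a) ∨ (i, j, k) = (c, a, w)) :=
    fun {i j k} => rm_mem' hT hl h1 h2 h3
  refine ⟨⟨?_, ?_, ?_, ?_, ?_⟩, ?_⟩
  · exact ⟨(a, w, c), hm.mpr (Or.inr (Or.inl rfl))⟩
  · intro i j k h
    rw [hm] at h ⊢
    rcases h with ⟨h, hi, hj, hk⟩ | h | h | h
    · exact Or.inl ⟨hT.rot _ _ _ h, hj, hk, hi⟩
    · simp only [Prod.mk.injEq] at h ⊢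
      tauto
    · simp only [Prod.mk.injEq] at h ⊢
      tauto
    · simp only [Prod.mk.injEq] at h ⊢
      tauto
  · intro i j k h
    rw [hm] at h
    rcases h with ⟨h, hi, hj, hk⟩ | h | h | h
    · exact hT.ne _ _ _ h
    · simp only [Prod.mk.injEq] at h
      rw [h.1, h.2.1]; exact F.aw
    · simp only [Prod.mk.injEq] at h
      rw [h.1, h.2.1]; exact F.wc
    · simp only [Prod.mk.injEq] at h
      rw [h.1, h.2.1]; exact F.ca
  · -- uniqueness
    have hS : ∀ {i j k l : Fin n}, ((i, j, l) ∈ T ∧ i ≠ N ∧ j ≠ N ∧ l ≠ N) →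
        ((i, j, k) = (a, w, c) ∨ (i, j, k) = (w, c, a) ∨ (i, j, k) = (c, a, w)) → False := by
      intro i j k l h h'
      simp only [Prod.mk.injEq] at h'
      rcases h' with ⟨rfl, rfl, rfl⟩ | ⟨rfl, rfl, rfl⟩ | ⟨rfl, rfl, rfl⟩
      · exact h.2.2.2 (hT.uniq _ _ _ _ h.1 F.awN)
      · exact h.2.2.2 (hT.uniq _ _ _ _ h.1 F.wcN)
      · exact h.2.2.2 (hT.uniq _ _ _ _ h.1 F.caN)
    intro i j k l h h'
    rw [hm] at h h'
    rcases h with h | h <;> rcases h' with h' | h'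
    · exact hT.uniq _ _ _ _ h.1 h'.1
    · exact (hS h h').elim
    · exact (hS h' h).elim
    · simp only [Prod.mk.injEq] at h h'
      have f1 := F.aw
      have f2 := F.wc
      have f3 := F.ca
      rcases h with ⟨rfl, rfl, rfl⟩ | ⟨rfl, rfl, rfl⟩ | ⟨rfl, rfl, rfl⟩ <;>
        rcases h' with ⟨h4, h5, h6⟩ | ⟨h4, h5, h6⟩ | ⟨h4, h5, h6⟩ <;>
        first
          | exact h6.symm
          | (exfalso; first | exact f1 h4 | exact f2 h4 | exact f3 h4 | exact f1 h4.symm |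
              exact f2 h4.symm | exact f3 h4.symm)
  · -- symmetry
    intro i j k h
    rw [hm] at h
    rcases h with ⟨h, hi, hj, hk⟩ | h | h | h
    · obtain ⟨l, hl'⟩ := hT.sym _ _ _ h
      by_cases hlN : l = N
      · subst hlN
        rcases rm_N hT hl h1 h2 h3 (hT.rot _ _ _ (hT.rot _ _ _ hl')) with
          ⟨rfl, rfl⟩ | ⟨rfl, rfl⟩ | ⟨rfl, rfl⟩
        · exact ⟨c, hm.mpr (Or.inr (Or.inl rfl))⟩
        · exact ⟨a, hm.mpr (Or.inr (Or.inr (Or.inl rfl)))⟩
        · exact ⟨w, hm.mpr (Or.inr (Or.inr (Or.inr rfl)))⟩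
      · exact ⟨l, hm.mpr (Or.inl ⟨hl', hj, hi, hlN⟩)⟩
    · simp only [Prod.mk.injEq] at h
      obtain ⟨rfl, rfl, rfl⟩ := h
      obtain ⟨l, hl'⟩ := hT.sym _ _ _ F.awN
      refine ⟨l, hm.mpr (Or.inl ⟨hl', F.Nw.symm, F.Na.symm, ?_⟩)⟩
      rintro rfl
      exact F.ca (hT.uniq _ _ _ _ h2 (hT.rot _ _ _ (hT.rot _ _ _ hl')))
    · simp only [Prod.mk.injEq] at h
      obtain ⟨rfl, rfl, rfl⟩ := h
      obtain ⟨l, hl'⟩ := hT.sym _ _ _ F.wcN
      refine ⟨l, hm.mpr (Or.inl ⟨hl', F.Nc.symm, F.Nw.symm, ?_⟩)⟩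
      rintro rfl
      exact F.aw (hT.uniq _ _ _ _ h3 (hT.rot _ _ _ (hT.rot _ _ _ hl')))
    · simp only [Prod.mk.injEq] at h
      obtain ⟨rfl, rfl, rfl⟩ := h
      obtain ⟨l, hl'⟩ := hT.sym _ _ _ F.caN
      refine ⟨l, hm.mpr (Or.inl ⟨hl', F.Na.symm, F.Nc.symm, ?_⟩)⟩
      rintro rfl
      exact F.wc (hT.uniq _ _ _ _ h1 (hT.rot _ _ _ (hT.rot _ _ _ hl')))
  · -- vertices
    have hv : ∀ (S : Finset (Tri n)) (i : Fin n), i ∈ verts S ↔ ∃ j k, (i, j, k) ∈ S := by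
      intro S i
      simp only [verts, mem_image, Prod.exists]
      constructor
      · rintro ⟨i', j, k, h, rfl⟩
        exact ⟨j, k, h⟩
      · rintro ⟨j, k, h⟩
        exact ⟨i, j, k, h, rfl⟩
    ext i
    rw [mem_erase, hv, hv]
    constructor
    · rintro ⟨j, k, h⟩
      rw [hm] at h
      rcases h with ⟨h, hi, hj, hk⟩ | h | h | h
      · exact ⟨hi, j, k, h⟩
      · simp only [Prod.mk.injEq] at h
        obtain ⟨rfl, rfl, rfl⟩ := h
        exact ⟨F.Na.symm, _, _, F.awN⟩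
      · simp only [Prod.mk.injEq] at h
        obtain ⟨rfl, rfl, rfl⟩ := h
        exact ⟨F.Nw.symm, _, _, F.wcN⟩
      · simp only [Prod.mk.injEq] at h
        obtain ⟨rfl, rfl, rfl⟩ := h
        exact ⟨F.Nc.symm, _, _, F.caN⟩
    · rintro ⟨hi, j, k, h⟩
      by_cases hjN : j = N
      · subst hjN
        rcases rm_N hT hl h1 h2 h3 (hT.rot _ _ _ h) with ⟨-, rfl⟩ | ⟨-, rfl⟩ | ⟨-, rfl⟩
        · exact ⟨c, a, hm.mpr (Or.inr (Or.inr (Or.inl rfl)))⟩
        · exact ⟨a, w, hm.mpr (Or.inr (Or.inr (Or.inr rfl)))⟩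
        · exact ⟨w, c, hm.mpr (Or.inr (Or.inl rfl))⟩
      · by_cases hkN : k = N
        · subst hkN
          rcases rm_N hT hl h1 h2 h3 (hT.rot _ _ _ (hT.rot _ _ _ h)) with
            ⟨rfl, -⟩ | ⟨rfl, -⟩ | ⟨rfl, -⟩
          · exact ⟨w, c, hm.mpr (Or.inr (Or.inl rfl))⟩
          · exact ⟨c, a, hm.mpr (Or.inr (Or.inr (Or.inl rfl)))⟩
          · exact ⟨a, w, hm.mpr (Or.inr (Or.inr (Or.inr rfl)))⟩
        · exact ⟨j, k, hm.mpr (Or.inl ⟨h, hi, hjN, hkN⟩)⟩

/-! ### Realizations -/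

private lemma rm_split {y1 y2 y3 α β γ : ℝ} (hα : 0 < α) (hβ : 0 < β) (hγ : 0 < γ)
    (hp : γ * y1 - α * y3 ≠ 0) (hq : γ * y2 - β * y3 ≠ 0) (hr : β * y1 - α * y2 ≠ 0) :
    (if 0 < y1 ∧ 0 < y2 ∧ 0 < y3 then (1 : ℕ) else 0) =
      (if 0 < y3 ∧ 0 < γ * y1 - α * y3 ∧ 0 < γ * y2 - β * y3 then 1 else 0) +
      (if 0 < y1 ∧ 0 < α * y2 - β * y1 ∧ 0 < α * y3 - γ * y1 then 1 else 0) +
      (if 0 < y2 ∧ 0 < β * y3 - γ * y2 ∧ 0 < β * y1 - α * y2 then 1 else 0) := by
  have hrel : γ * (β * y1 - α * y2) = β * (γ * y1 - α * y3) - α * (γ * y2 - β * y3) := by ring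
  by_cases hy : 0 < y1 ∧ 0 < y2 ∧ 0 < y3
  · obtain ⟨a1, a2, a3⟩ := hy
    rw [if_pos ⟨a1, a2, a3⟩]
    rcases lt_or_gt_of_ne hp with hp' | hp' <;> rcases lt_or_gt_of_ne hq with hq' | hq' <;>
      rcases lt_or_gt_of_ne hr with hr' | hr'
    · rw [if_neg (by intro h; linarith [h.2.1]), if_pos ⟨a1, by linarith, by linarith⟩,
        if_neg (by intro h; linarith [h.2.2])]
    · rw [if_neg (by intro h; linarith [h.2.1]), if_neg (by intro h; linarith [h.2.1]),
        if_pos ⟨a2, by linarith, by linarith⟩]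
    · rw [if_neg (by intro h; linarith [h.2.1]), if_pos ⟨a1, by linarith, by linarith⟩,
        if_neg (by intro h; linarith [h.2.2])]
    · exfalso; nlinarith
    · exfalso; nlinarith
    · rw [if_neg (by intro h; linarith [h.2.2]), if_neg (by intro h; linarith [h.2.1]),
        if_pos ⟨a2, by linarith, by linarith⟩]
    · rw [if_pos ⟨a3, by linarith, by linarith⟩, if_neg (by intro h; linarith [h.2.2]),
        if_neg (by intro h; linarith [h.2.1])]
    · rw [if_pos ⟨a3, by linarith, by linarith⟩, if_neg (by intro h; linarith [h.2.2]),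
        if_neg (by intro h; linarith [h.2.1])]
  · rw [if_neg hy, if_neg, if_neg, if_neg]
    · rintro ⟨b1, b2, b3⟩
      apply hy
      have c1 : 0 < α * y2 := by positivity
      have c2 : 0 < γ * y2 := by positivity
      exact ⟨(mul_pos_iff_of_pos_left hβ).mp (by linarith : 0 < β * y1), b1,
        (mul_pos_iff_of_pos_left hβ).mp (by linarith : 0 < β * y3)⟩
    · rintro ⟨b1, b2, b3⟩
      apply hy
      have c1 : 0 < β * y1 := by positivity
      have c2 : 0 < γ * y1 := by positivity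
      exact ⟨b1, (mul_pos_iff_of_pos_left hα).mp (by linarith : 0 < α * y2),
        (mul_pos_iff_of_pos_left hα).mp (by linarith : 0 < α * y3)⟩
    · rintro ⟨b1, b2, b3⟩
      apply hy
      have c1 : 0 < α * y3 := by positivity
      have c2 : 0 < β * y3 := by positivity
      exact ⟨(mul_pos_iff_of_pos_left hγ).mp (by linarith : 0 < γ * y1),
        (mul_pos_iff_of_pos_left hγ).mp (by linarith : 0 < γ * y2), b1⟩

open Classical in
private lemma rm_cnt (S : Finset (Tri n)) (x : Fin n → V3) (y : V3) :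
    cnt S x y = ∑ τ ∈ S, if inC x τ y then 1 else 0 := by
  rw [cnt, card_filter]

private lemma rm_card {T : Finset (Tri n)} (hT : Cx T) {x : Fin n → V3} {N a w c : Fin n}
    (h1 : (N, a, w) ∈ T) (h2 : (N, w, c) ∈ T) (h3 : (N, c, a) ∈ T) (hD : 0 < d3 (x a) (x w) (x c))
    (hN : inC x (a, w, c) (x N)) {y : V3} (hy : Gy T x y) :
    cnt (rmv T N a w c) x y = cnt T x y := by
  classical
  have F := rm_facts hT h1 h2 h3
  obtain ⟨hα, hβ, hγ⟩ := hN
  simp only at hα hβ hγ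
  set R : Finset (Tri n) := {(N, a, w), (a, w, N), (w, N, a), (N, w, c), (w, c, N), (c, N, w),
      (N, c, a), (c, a, N), (a, N, c)} with hR
  set S : Finset (Tri n) := {(a, w, c), (w, c, a), (c, a, w)} with hS
  have hRT : R ⊆ T := by
    intro τ hτ
    simp only [hR, mem_insert, mem_singleton] at hτ
    rcases hτ with rfl | rfl | rfl | rfl | rfl | rfl | rfl | rfl | rfl
    · exact h1
    · exact F.awN
    · exact F.wNa
    · exact h2
    · exact F.wcN
    · exact F.cNw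
    · exact h3
    · exact F.caN
    · exact F.aNc
  have hSd : Disjoint (T \ R) S := by
    rw [disjoint_left]
    intro τ hτ hτS
    rw [mem_sdiff] at hτ
    simp only [hS, mem_insert, mem_singleton] at hτS
    rcases hτS with rfl | rfl | rfl
    · exact F.Nc (hT.uniq _ _ _ _ F.awN hτ.1)
    · exact F.Na (hT.uniq _ _ _ _ F.wcN hτ.1)
    · exact F.Nw (hT.uniq _ _ _ _ F.caN hτ.1)
  have hrm : rmv T N a w c = (T \ R) ∪ S := rfl
  rw [rm_cnt, rm_cnt, hrm, sum_union hSd, ← sum_sdiff hRT]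
  congr 1
  -- the three rotations
  have rr : ∀ i j k : Fin n, inC x (j, k, i) y ↔ inC x (i, j, k) y := fun i j k =>
    inC_rot3 x (i, j, k) y
  have hsS : ∑ τ ∈ S, (if inC x τ y then 1 else 0) = 3 * (if inC x (a, w, c) y then 1 else 0) := by
    rw [hS, sum_insert, sum_insert, sum_singleton]
    · rw [if_congr (rr a w c) rfl rfl, if_congr ((rr w c a).trans (rr a w c)) rfl rfl]
      ring
    · simp only [mem_singleton, Prod.mk.injEq, not_and]
      intro h; exact (F.wc h).elim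
    · simp only [mem_insert, mem_singleton, Prod.mk.injEq, not_or, not_and]
      exact ⟨fun h => (F.aw h).elim, fun h => (F.ca h.symm).elim⟩
  have hsR : ∑ τ ∈ R, (if inC x τ y then 1 else 0) = 3 * ((if inC x (N, a, w) y then 1 else 0) +
      (if inC x (N, w, c) y then 1 else 0) + (if inC x (N, c, a) y then 1 else 0)) := by
    have f1 := F.Na
    have f2 := F.Nw
    have f3 := F.Nc
    have f4 := F.aw
    have f5 := F.wc
    have f6 := F.ca
    rw [hR]
    repeat rw [sum_insert (by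
      simp only [mem_insert, mem_singleton, Prod.mk.injEq]
      tauto)]
    rw [sum_singleton]
    rw [if_congr (rr N a w) rfl rfl, if_congr ((rr a w N).trans (rr N a w)) rfl rfl,
      if_congr (rr N w c) rfl rfl, if_congr ((rr w c N).trans (rr N w c)) rfl rfl,
      if_congr (rr N c a) rfl rfl, if_congr ((rr c a N).trans (rr N c a)) rfl rfl]
    ring
  rw [hsS, hsR]
  congr 1
  -- coordinates
  set D := d3 (x a) (x w) (x c) with hDdef
  set α := d3 (x N) (x w) (x c) with hαdef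
  set β := d3 (x a) (x N) (x c) with hβdef
  set γ := d3 (x a) (x w) (x N) with hγdef
  set y1 := d3 y (x w) (x c) with hy1
  set y2 := d3 (x a) y (x c) with hy2
  set y3 := d3 (x a) (x w) y with hy3
  have eNa : D * d3 (x N) (x a) y = γ * y2 - β * y3 := by
    simp only [hDdef, hβdef, hγdef, hy2, hy3, d3]; ring
  have eNw : D * d3 (x N) (x w) y = α * y3 - γ * y1 := by
    simp only [hDdef, hαdef, hγdef, hy1, hy3, d3]; ring
  have eNc : D * d3 (x N) (x c) y = β * y1 - α * y2 := by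
    simp only [hDdef, hαdef, hβdef, hy1, hy2, d3]; ring
  have gNa : d3 (x N) (x a) y ≠ 0 := hy _ h1
  have gNw : d3 (x N) (x w) y ≠ 0 := hy _ h2
  have gNc : d3 (x N) (x c) y ≠ 0 := hy _ h3
  have hD0 := hD.ne'
  have key := rm_split (y1 := y1) (y2 := y2) (y3 := y3) hα hβ hγ
    (by
      intro h
      exact (mul_ne_zero hD0 gNw) (by linarith))
    (by
      intro h
      exact (mul_ne_zero hD0 gNa) (by linarith))
    (by
      intro h
      exact (mul_ne_zero hD0 gNc) (by linarith))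
  have i1 : inC x (a, w, c) y ↔ 0 < y1 ∧ 0 < y2 ∧ 0 < y3 := Iff.rfl
  have i2 : inC x (N, a, w) y ↔ 0 < y3 ∧ 0 < γ * y1 - α * y3 ∧ 0 < γ * y2 - β * y3 := by
    have e1 : d3 y (x a) (x w) = y3 := by rw [hy3]; exact (d3_rot y (x a) (x w)).symm
    have e2 : d3 (x N) y (x w) = - d3 (x N) (x w) y := d3_swap23 _ _ _
    show 0 < d3 y (x a) (x w) ∧ 0 < d3 (x N) y (x w) ∧ 0 < d3 (x N) (x a) y ↔ _
    rw [e1, e2]
    refine and_congr_right fun _ => and_congr ?_ ?_
    · rw [← mul_pos_iff_of_pos_left hD]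
      constructor <;> intro h <;> linarith
    · rw [← mul_pos_iff_of_pos_left hD, eNa]
  have i3 : inC x (N, w, c) y ↔ 0 < y1 ∧ 0 < α * y2 - β * y1 ∧ 0 < α * y3 - γ * y1 := by
    have e2 : d3 (x N) y (x c) = - d3 (x N) (x c) y := d3_swap23 _ _ _
    show 0 < d3 y (x w) (x c) ∧ 0 < d3 (x N) y (x c) ∧ 0 < d3 (x N) (x w) y ↔ _
    rw [e2]
    refine and_congr_right fun _ => and_congr ?_ ?_
    · rw [← mul_pos_iff_of_pos_left hD]
      constructor <;> intro h <;> linarith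
    · rw [← mul_pos_iff_of_pos_left hD, eNw]
  have i4 : inC x (N, c, a) y ↔ 0 < y2 ∧ 0 < β * y3 - γ * y2 ∧ 0 < β * y1 - α * y2 := by
    have e1 : d3 y (x c) (x a) = y2 := by
      rw [hy2, ← d3_rot (x a) y (x c)]
    have e2 : d3 (x N) y (x a) = - d3 (x N) (x a) y := d3_swap23 _ _ _
    show 0 < d3 y (x c) (x a) ∧ 0 < d3 (x N) y (x a) ∧ 0 < d3 (x N) (x c) y ↔ _
    rw [e1, e2]
    refine and_congr_right fun _ => and_congr ?_ ?_
    · rw [← mul_pos_iff_of_pos_left hD]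
      constructor <;> intro h <;> linarith
    · rw [← mul_pos_iff_of_pos_left hD, eNc]
  rw [if_congr i1 rfl rfl, if_congr i2 rfl rfl, if_congr i3 rfl rfl, if_congr i4 rfl rfl]
  exact key

private lemma rm_Gy {T : Finset (Tri n)} (hT : Cx T) {x : Fin n → V3} {N a w c : Fin n}
    (h1 : (N, a, w) ∈ T) (h2 : (N, w, c) ∈ T) (h3 : (N, c, a) ∈ T) {y : V3} (hy : Gy T x y) :
    Gy (rmv T N a w c) x y := by
  have F := rm_facts hT h1 h2 h3
  rintro ⟨i, j, k⟩ hτ
  rw [rm_mem] at hτ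
  rcases hτ with ⟨h, -⟩ | h | h | h
  · exact hy _ h
  · simp only [Prod.mk.injEq] at h
    obtain ⟨rfl, rfl, rfl⟩ := h
    exact hy (i, j, N) F.awN
  · simp only [Prod.mk.injEq] at h
    obtain ⟨rfl, rfl, rfl⟩ := h
    exact hy (i, j, N) F.wcN
  · simp only [Prod.mk.injEq] at h
    obtain ⟨rfl, rfl, rfl⟩ := h
    exact hy (i, j, N) F.caN

theorem rmv_eq {T : Finset (Tri n)} (hT : Cx T) {N a w c : Fin n} (h1 : (N, a, w) ∈ T)
    (h2 : (N, w, c) ∈ T) (h3 : (N, c, a) ∈ T) (hT' : Cx (rmv T N a w c)) :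
    {x | x ∈ RSp T ∧ 0 < d3 (x a) (x w) (x c)} =
      {x | x ∈ RSp (rmv T N a w c) ∧ inC x (a, w, c) (x N)} := by
  have F := rm_facts hT h1 h2 h3
  ext x
  simp only [Set.mem_ofPred_eq]
  constructor
  · rintro ⟨⟨hp, he⟩, hD⟩
    have hin : inC x (a, w, c) (x N) := by
      refine ⟨hp _ _ _ h2, ?_, hp _ _ _ F.awN⟩
      exact hp _ _ _ F.aNc
    have hp' : Pos (rmv T N a w c) x := by
      intro i j k h
      rw [rm_mem] at h
      rcases h with ⟨h, -⟩ | h | h | h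
      · exact hp _ _ _ h
      · simp only [Prod.mk.injEq] at h
        obtain ⟨rfl, rfl, rfl⟩ := h
        exact hD
      · simp only [Prod.mk.injEq] at h
        obtain ⟨rfl, rfl, rfl⟩ := h
        rwa [d3_rot]
      · simp only [Prod.mk.injEq] at h
        obtain ⟨rfl, rfl, rfl⟩ := h
        rwa [← d3_rot]
    refine ⟨⟨hp', ?_⟩, hin⟩
    rw [GT.emb_iff_cnt hT']
    obtain ⟨y, hy, hc⟩ := (GT.emb_iff_cnt hT hp).mp he
    · exact ⟨y, rm_Gy hT h1 h2 h3 hy, by rw [rm_card hT h1 h2 h3 hD hin hy]; exact hc⟩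
    · exact hp'
  · rintro ⟨⟨hp', he'⟩, hin⟩
    have hS1 : (a, w, c) ∈ rmv T N a w c := rm_mem.mpr (Or.inr (Or.inl rfl))
    have hD : 0 < d3 (x a) (x w) (x c) := hp' _ _ _ hS1
    obtain ⟨hα, hβ, hγ⟩ := id hin
    simp only at hα hβ hγ
    have hp : Pos T x := by
      intro i j k h
      by_cases hR : ((i, j, k) = (N, a, w) ∨ (i, j, k) = (a, w, N) ∨ (i, j, k) = (w, N, a) ∨
        (i, j, k) = (N, w, c) ∨ (i, j, k) = (w, c, N) ∨ (i, j, k) = (c, N, w) ∨
        (i, j, k) = (N, c, a) ∨ (i, j, k) = (c, a, N) ∨ (i, j, k) = (a, N, c))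
      · simp only [Prod.mk.injEq] at hR
        rcases hR with h | h | h | h | h | h | h | h | h <;> obtain ⟨rfl, rfl, rfl⟩ := h
        · rwa [← d3_rot]
        · exact hγ
        · rwa [d3_rot]
        · exact hα
        · rwa [d3_rot]
        · rwa [← d3_rot]
        · rwa [d3_rot]
        · rwa [← d3_rot]
        · exact hβ
      · exact hp' _ _ _ (rm_mem.mpr (Or.inl ⟨h, hR⟩))
    refine ⟨⟨hp, ?_⟩, hD⟩
    rw [GT.emb_iff_cnt hT hp]
    obtain ⟨y, -, hy⟩ := avoid_d3 (T.image fun τ => (x τ.1, x τ.2.1)) (by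
      intro q hq
      rw [mem_image] at hq
      obtain ⟨τ, hτ, rfl⟩ := hq
      exact ⟨x τ.2.2, (hp _ _ _ hτ).ne'⟩) 0 1 one_pos
    have hyG : Gy T x y := fun τ hτ => hy (x τ.1, x τ.2.1) (mem_image_of_mem _ hτ)
    refine ⟨y, hyG, ?_⟩
    obtain ⟨y', hy', hc'⟩ := (GT.emb_iff_cnt hT' hp').mp he'
    rw [← rm_card hT h1 h2 h3 hD hin hyG, ← hc']
    exact GT.cnt_const hT' hp' (rm_Gy hT h1 h2 h3 hyG) hy'

/-! ### Homotopy equivalence -/

private lemma rm_mv_cont (N : Fin n) :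
    Continuous (fun q : (Fin n → V3) × (Fin n → ℝ) => mv N q.1 q.2) := by
  refine continuous_pi fun i => ?_
  unfold mv
  by_cases h : i = N
  · simp only [if_pos h]; fun_prop
  · simp only [if_neg h]; fun_prop

private lemma rm_congr {S : Finset (Tri n)} {N : Fin n} (hS : ∀ i j k, (i, j, k) ∈ S →
    i ≠ N ∧ j ≠ N ∧ k ≠ N) {x x' : Fin n → V3} (hx : ∀ i, i ≠ N → x' i = x i) (h : x ∈ RSp S) :
    x' ∈ RSp S := by
  obtain ⟨hp, he⟩ := h
  have hin : ∀ τ ∈ S, ∀ y, inC x' τ y ↔ inC x τ y := by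
    rintro ⟨i, j, k⟩ hτ y
    obtain ⟨e1, e2, e3⟩ := hS _ _ _ hτ
    simp only [inC, hx _ e1, hx _ e2, hx _ e3]
  constructor
  · intro i j k hτ
    obtain ⟨e1, e2, e3⟩ := hS _ _ _ hτ
    rw [hx _ e1, hx _ e2, hx _ e3]
    exact hp _ _ _ hτ
  · intro τ hτ τ' hτ' y h1 h2
    exact he τ hτ τ' hτ' y ((hin τ hτ y).mp h1) ((hin τ' hτ' y).mp h2)

theorem rmv_he {T : Finset (Tri n)} (hT : Cx T) (hx : (RSp T).Nonempty) {N a w c : Fin n}
    (h1 : (N, a, w) ∈ T) (h2 : (N, w, c) ∈ T) (h3 : (N, c, a) ∈ T) (h4 : (a, c, w) ∉ T) :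
    Nonempty (ContinuousMap.HomotopyEquiv (RSp T) (RSp (rmv T N a w c))) := by
  have F := rm_facts hT h1 h2 h3
  obtain ⟨x0, hx0⟩ := hx
  have hl := GT.linkCyc_of hT hx0
  obtain ⟨hT', hv'⟩ := rmv_cx hT hl h1 h2 h3
  have hproj : ∀ i : Fin n, Continuous (fun x : Fin n → V3 => x i) := fun i => continuous_apply i
  -- step 1
  have hd : ∀ (x : Fin n → V3) (t : Fin n → ℝ),
      d3 (mv N x t a) (mv N x t w) (mv N x t c) = d3 (x a) (x w) (x c) +
      (t a * d3 (x N) (x w) (x c) + t w * d3 (x N) (x c) (x a) + t c * d3 (x N) (x a) (x w)) :=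
    fun x t => d3_mv x N t a w c F.Na.symm F.Nw.symm F.Nc.symm
  obtain ⟨e1⟩ := he_moves (RSp T) {x | x ∈ RSp T ∧ 0 < d3 (x a) (x w) (x c)}
    (fun x h => h.1)
    ((GT.isOpen_RSp hT).inter (isOpen_lt continuous_const
      (d3_continuous (hproj a) (hproj w) (hproj c))))
    (mv N) (rm_mv_cont N) (by
      intro x
      funext i
      unfold mv
      by_cases h : i = N
      · rw [if_pos h, h]
      · rw [if_neg h]; simp)
    (fun x _ => GT.mv_convex hT x N)
    (by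
      intro x _ t ht t' ht' r s hr hs hrs
      refine ⟨GT.mv_convex hT x N ht.1 ht'.1 hr hs hrs, ?_⟩
      have a1 := ht.2
      have a2 := ht'.2
      rw [hd] at a1 a2 ⊢
      simp only [Pi.add_apply, Pi.smul_apply, smul_eq_mul]
      have hs' : s = 1 - r := by linarith
      subst hs'
      rcases hr.eq_or_lt with rfl | hr0
      · simp only [zero_mul, zero_add, sub_zero, one_mul] at *
        exact a2
      · have b1 := mul_pos hr0 a1
        have b2 := mul_nonneg hs a2.le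
        nlinarith)
    (by
      intro x hx
      obtain ⟨t, ht1, ht2⟩ := GT.star3 hT hx h1 h2 h3 h4
      exact ⟨t, ht1, ht2⟩)
  -- step 2
  have hS : ∀ i j k, (i, j, k) ∈ rmv T N a w c → i ≠ N ∧ j ≠ N ∧ k ≠ N := by
    intro i j k h
    rw [rm_mem' hT hl h1 h2 h3] at h
    rcases h with ⟨-, e⟩ | h | h | h
    · exact e
    · simp only [Prod.mk.injEq] at h
      obtain ⟨rfl, rfl, rfl⟩ := h
      exact ⟨F.Na.symm, F.Nw.symm, F.Nc.symm⟩
    · simp only [Prod.mk.injEq] at h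
      obtain ⟨rfl, rfl, rfl⟩ := h
      exact ⟨F.Nw.symm, F.Nc.symm, F.Na.symm⟩
    · simp only [Prod.mk.injEq] at h
      obtain ⟨rfl, rfl, rfl⟩ := h
      exact ⟨F.Nc.symm, F.Na.symm, F.Nw.symm⟩
  have hup : ∀ (x : Fin n → V3) (t : V3), x ∈ RSp (rmv T N a w c) →
      Function.update x N (x N + t) ∈ RSp (rmv T N a w c) := fun x t hx =>
    rm_congr hS (fun i hi => Function.update_of_ne hi _ _) hx
  have hupd : ∀ (x : Fin n → V3) (t : V3),
      inC (Function.update x N (x N + t)) (a, w, c) (Function.update x N (x N + t) N) ↔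
      inC x (a, w, c) (x N + t) := by
    intro x t
    simp only [inC, Function.update_self, Function.update_of_ne F.Na.symm,
      Function.update_of_ne F.Nw.symm, Function.update_of_ne F.Nc.symm]
  obtain ⟨e2⟩ := he_moves (RSp (rmv T N a w c))
    {x | x ∈ RSp (rmv T N a w c) ∧ inC x (a, w, c) (x N)}
    (fun x h => h.1)
    (by
      refine (GT.isOpen_RSp hT').inter ?_
      have o1 : IsOpen {x : Fin n → V3 | 0 < d3 (x N) (x w) (x c)} :=
        isOpen_lt continuous_const (d3_continuous (hproj N) (hproj w) (hproj c))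
      have o2 : IsOpen {x : Fin n → V3 | 0 < d3 (x a) (x N) (x c)} :=
        isOpen_lt continuous_const (d3_continuous (hproj a) (hproj N) (hproj c))
      have o3 : IsOpen {x : Fin n → V3 | 0 < d3 (x a) (x w) (x N)} :=
        isOpen_lt continuous_const (d3_continuous (hproj a) (hproj w) (hproj N))
      exact o1.inter (o2.inter o3))
    (fun x (t : V3) => Function.update x N (x N + t)) (by
      refine continuous_pi fun i => ?_
      by_cases h : i = N
      · subst h; simp only [Function.update_self]; fun_prop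
      · simp only [Function.update_of_ne h]; fun_prop)
    (by intro x; simp)
    (by
      intro x hx t _ t' _ r s _ _ _
      exact hup x _ hx)
    (by
      intro x hx t ht t' ht' r s hr hs hrs
      refine ⟨hup x _ hx, ?_⟩
      have a1 := (hupd x t).mp ht.2
      have a2 := (hupd x t').mp ht'.2
      rw [hupd]
      have hxN : x N + (r • t + s • t') = r • (x N + t) + s • (x N + t') := by
        rw [smul_add, smul_add]
        have : x N = r • x N + s • x N := by rw [← add_smul, hrs, one_smul]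
        nth_rewrite 1 [this]
        abel
      obtain ⟨p1, p2, p3⟩ := a1
      obtain ⟨q1, q2, q3⟩ := a2
      have hpos : ∀ {u v : ℝ}, 0 < u → 0 < v → 0 < r * u + s * v := by
        intro u v hu hv
        rcases hr.eq_or_lt with rfl | hr0
        · have : s = 1 := by linarith
          rw [this]; linarith
        · have := mul_pos hr0 hu
          have := mul_nonneg hs hv.le
          linarith
      rw [hxN]
      refine ⟨?_, ?_, ?_⟩
      · simp only [d3_add1, d3_smul1]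
        exact hpos (by simpa only [d3_add1] using p1) (by simpa only [d3_add1] using q1)
      · simp only [d3_add2, d3_smul2]
        exact hpos (by simpa only [d3_add2] using p2) (by simpa only [d3_add2] using q2)
      · simp only [d3_add3, d3_smul3]
        exact hpos (by simpa only [d3_add3] using p3) (by simpa only [d3_add3] using q3))
    (by
      intro x hx
      refine ⟨x a + x w + x c - x N, hup x _ hx, ?_⟩
      rw [hupd, add_sub_cancel]
      have hD : 0 < d3 (x a) (x w) (x c) := hx.1 _ _ _ (rm_mem.mpr (Or.inr (Or.inl rfl)))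
      refine ⟨?_, ?_, ?_⟩
      · show 0 < d3 (x a + x w + x c) (x w) (x c)
        have : d3 (x a + x w + x c) (x w) (x c) = d3 (x a) (x w) (x c) := by
          simp only [d3, Pi.add_apply]; ring
        rwa [this]
      · show 0 < d3 (x a) (x a + x w + x c) (x c)
        have : d3 (x a) (x a + x w + x c) (x c) = d3 (x a) (x w) (x c) := by
          simp only [d3, Pi.add_apply]; ring
        rwa [this]
      · show 0 < d3 (x a) (x w) (x a + x w + x c)
        have : d3 (x a) (x w) (x a + x w + x c) = d3 (x a) (x w) (x c) := by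
          simp only [d3, Pi.add_apply]; ring
        rwa [this])
  have hset := rmv_eq hT h1 h2 h3 hT'
  exact ⟨(e1.symm.trans (Homeomorph.setCongr hset).toHomotopyEquiv).trans e2⟩

end GT
end

section

/-! # GT-11c: half_he, flip_he -/

set_option autoImplicit false

namespace GT
open Finset

variable {n : ℕ}

private lemma fh_convex (i j k : Fin n) (A α β γ : ℝ) :
    Convex ℝ {t : Fin n → ℝ | 0 < A + (t i * α + t j * β + t k * γ)} := by
  intro t ht s hs u v hu hv huv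
  simp only [Set.mem_setOf_eq] at ht hs ⊢
  simp only [Pi.add_apply, Pi.smul_apply, smul_eq_mul]
  have h1 : A + ((u * t i + v * s i) * α + (u * t j + v * s j) * β + (u * t k + v * s k) * γ) =
      u * (A + (t i * α + t j * β + t k * γ)) + v * (A + (s i * α + s j * β + s k * γ)) := by
    have : v = 1 - u := by linarith
    subst this
    ring
  rw [h1]
  rcases hu.eq_or_lt with h | h
  · have : v = 1 := by linarith
    rw [← h, this]
    linarith
  · have := mul_pos h ht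
    have := mul_nonneg hv hs.le
    linarith

private lemma fh_cont (N : Fin n) :
    Continuous (fun q : (Fin n → V3) × (Fin n → ℝ) => mv N q.1 q.2) := by
  refine continuous_pi fun i => ?_
  unfold mv
  by_cases h : i = N
  · simp only [h, if_true]
    fun_prop
  · simp only [h, if_false]
    fun_prop

private lemma fh_mv0 (N : Fin n) (x : Fin n → V3) : mv N x 0 = x := by
  funext i
  unfold mv
  by_cases h : i = N
  · simp [h]
  · simp [h]

private lemma fh_open (i j k : Fin n) : IsOpen {x : Fin n → V3 | 0 < d3 (x i) (x j) (x k)} :=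
  isOpen_lt continuous_const (d3_continuous (continuous_apply i) (continuous_apply j)
    (continuous_apply k))

theorem half_he {T : Finset (Tri n)} (hT : Cx T) {N a w c : Fin n} (h1 : (N, a, w) ∈ T)
    (h2 : (N, w, c) ∈ T) (hac : a ≠ c) (hna : ¬ Adj T a c) :
    Nonempty (ContinuousMap.HomotopyEquiv
      {x | x ∈ RSp T ∧ 0 < d3 (x a) (x w) (x c) ∧ 0 < d3 (x N) (x a) (x c)} (RSp T)) := by
  have haw : (a, w, N) ∈ T := hT.rot _ _ _ h1
  have hwN : (w, N, a) ∈ T := hT.rot _ _ _ haw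
  have hwc : (w, c, N) ∈ T := hT.rot _ _ _ h2
  have hcN : (c, N, w) ∈ T := hT.rot _ _ _ hwc
  have nNa : N ≠ a := hT.ne _ _ _ h1
  have naw : a ≠ w := hT.ne _ _ _ haw
  have nwN : w ≠ N := hT.ne _ _ _ hwN
  have nwc : w ≠ c := hT.ne _ _ _ hwc
  have ncN : c ≠ N := hT.ne _ _ _ hcN
  have hna' : ¬ Adj T c a := by
    rintro ⟨k, hk⟩
    exact hna (hT.sym _ _ _ hk)
  set O1 : Set (Fin n → V3) := {x | x ∈ RSp T ∧ 0 < d3 (x a) (x w) (x c)} with hO1
  set Y : Set (Fin n → V3) :=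
    {x | x ∈ RSp T ∧ 0 < d3 (x a) (x w) (x c) ∧ 0 < d3 (x N) (x a) (x c)} with hY
  have hO1open : IsOpen O1 := (GT.isOpen_RSp hT).inter (fh_open a w c)
  have hYopen : IsOpen Y := (GT.isOpen_RSp hT).inter ((fh_open a w c).inter (fh_open N a c))
  have s1 : Nonempty (ContinuousMap.HomotopyEquiv O1 (RSp T)) := by
    refine he_moves (RSp T) O1 (fun x hx => hx.1) hO1open (mv N) (fh_cont N) (fh_mv0 N)
      (fun x _ => GT.mv_convex hT x N) (fun x _ => ?_) (fun x hx => ?_)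
    · have e : {t : Fin n → ℝ | mv N x t ∈ O1} = {t | mv N x t ∈ RSp T} ∩
          {t | 0 < d3 (x a) (x w) (x c) + (t a * d3 (x N) (x w) (x c) + t w * d3 (x N) (x c) (x a) +
            t c * d3 (x N) (x a) (x w))} := by
        ext t
        simp only [hO1, Set.mem_setOf_eq, Set.mem_inter_iff]
        rw [d3_mv x N t a w c nNa.symm nwN ncN]
      rw [e]
      exact (GT.mv_convex hT x N).inter (fh_convex a w c _ _ _ _)
    · obtain ⟨t, ht1, ht2⟩ := GT.star hT hx h1 h2 hna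
      exact ⟨t, ht1, ht2⟩
  have s2 : Nonempty (ContinuousMap.HomotopyEquiv Y O1) := by
    have hd : ∀ (x : Fin n → V3) (t : Fin n → ℝ),
        d3 (mv w x t a) (mv w x t w) (mv w x t c) = d3 (x a) (x w) (x c) := by
      intro x t
      rw [← d3_rot (mv w x t a) (mv w x t w) (mv w x t c), d3_mvN, d3_rot]
    have hconv : ∀ x ∈ O1, {t : Fin n → ℝ | mv w x t ∈ O1} = {t | mv w x t ∈ RSp T} := by
      intro x hx
      ext t
      simp only [hO1, Set.mem_setOf_eq]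
      rw [hd]
      exact ⟨fun h => h.1, fun h => ⟨h, hx.2⟩⟩
    refine he_moves O1 Y (fun x hx => ⟨hx.1, hx.2.1⟩) hYopen (mv w) (fh_cont w) (fh_mv0 w)
      (fun x hx => ?_) (fun x hx => ?_) (fun x hx => ?_)
    · rw [hconv x hx]
      exact GT.mv_convex hT x w
    · have e : {t : Fin n → ℝ | mv w x t ∈ Y} = {t | mv w x t ∈ RSp T} ∩
          {t | 0 < d3 (x N) (x a) (x c) + (t N * d3 (x w) (x a) (x c) + t a * d3 (x w) (x c) (x N) +
            t c * d3 (x w) (x N) (x a))} := by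
        ext t
        simp only [hY, Set.mem_setOf_eq, Set.mem_inter_iff]
        rw [hd, d3_mv x w t N a c nwN.symm naw nwc.symm]
        exact ⟨fun h => ⟨h.1, h.2.2⟩, fun h => ⟨h.1, hx.2, h.2⟩⟩
      rw [e]
      exact (GT.mv_convex hT x w).inter (fh_convex N a c _ _ _ _)
    · obtain ⟨t, ht1, ht2⟩ := GT.star hT hx.1 hwc hwN hna'
      refine ⟨t, ht1, ?_, ?_⟩
      · rw [hd]
        exact hx.2
      · rw [d3_rot (mv w x t c) (mv w x t N) (mv w x t a)]
        exact ht2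
  obtain ⟨e1⟩ := s1
  obtain ⟨e2⟩ := s2
  exact ⟨e2.trans e1⟩

theorem flip_he {T : Finset (Tri n)} (hT : Cx T) {N a w c : Fin n} (h1 : (N, a, w) ∈ T)
    (h2 : (N, w, c) ∈ T) (hac : a ≠ c) (hna : ¬ Adj T a c) :
    Nonempty (ContinuousMap.HomotopyEquiv (RSp T) (RSp (flip T N a w c))) := by
  have e1 := half_he hT h1 h2 hac hna
  have hT' := GT.flip_cx hT h1 h2 hac hna
  obtain ⟨m1, m2, m3, _, _⟩ := GT.flip_flip hT h1 h2 hac hna
  have nwN : w ≠ N := hT.ne _ _ _ (hT.rot _ _ _ (hT.rot _ _ _ h1))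
  have e2 := half_he hT' m1 m2 nwN m3
  rw [GT.flip_eq hT h1 h2 hac hna] at e1
  obtain ⟨e1⟩ := e1
  obtain ⟨e2⟩ := e2
  exact ⟨e1.symm.trans e2⟩

end GT
end

section

/-! # GT-11g: the induction on the number of vertices and the degree of a vertex -/

set_option autoImplicit false

namespace GT
open Finset

variable {n : ℕ}

private lemma ii_nonempty {T T' : Finset (Tri n)}
    (h : Nonempty (ContinuousMap.HomotopyEquiv (RSp T) (RSp T'))) (hx : (RSp T).Nonempty) :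
    (RSp T').Nonempty := by
  obtain ⟨e⟩ := h
  obtain ⟨x, hx⟩ := hx
  exact ⟨_, (e.toFun ⟨x, hx⟩).2⟩

private lemma ii_trans {T T' : Finset (Tri n)}
    (h : Nonempty (ContinuousMap.HomotopyEquiv (RSp T) (RSp T')))
    (h' : Nonempty (ContinuousMap.HomotopyEquiv (RSp T')
      ↥(Matrix.specialOrthogonalGroup (Fin 3) ℝ))) :
    Nonempty (ContinuousMap.HomotopyEquiv (RSp T)
      ↥(Matrix.specialOrthogonalGroup (Fin 3) ℝ)) := by
  obtain ⟨e⟩ := h
  obtain ⟨e'⟩ := h'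
  exact ⟨e.trans e'⟩

private lemma ii_verts {T : Finset (Tri n)} {i j k : Fin n} (h : (i, j, k) ∈ T) :
    i ∈ verts T := by
  unfold verts
  exact mem_image.2 ⟨(i, j, k), h, rfl⟩

private lemma ii_main (m : ℕ) : ∀ (d : ℕ) (T : Finset (Tri n)) (N : Fin n), Cx T →
    (RSp T).Nonempty → (verts T).card = m → N ∈ verts T →
    (T.filter (fun τ => τ.1 = N)).card = d →
    Nonempty (ContinuousMap.HomotopyEquiv (RSp T)
      ↥(Matrix.specialOrthogonalGroup (Fin 3) ℝ)) := by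
  induction m using Nat.strong_induction_on with
  | _ m ihm =>
  intro d
  induction d using Nat.strong_induction_on with
  | _ d ihd =>
  intro T N hT hx hm hN hd
  by_cases h4 : 4 ≤ (T.filter (fun τ => τ.1 = N)).card
  · obtain ⟨a, w, c, h1, h2, hac, hna⟩ := GT.exists_flip hT hx hN h4
    have hcx := GT.flip_cx hT h1 h2 hac hna
    obtain ⟨_, _, _, hv, hdeg⟩ := GT.flip_flip hT h1 h2 hac hna
    have he := GT.flip_he hT h1 h2 hac hna
    refine ii_trans he (ihd _ ?_ (flip T N a w c) N hcx (ii_nonempty he hx) (by rw [hv, hm])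
      (by rw [hv]; exact hN) rfl)
    omega
  · push Not at h4
    obtain ⟨a, w, c, h1, h2, h3⟩ := GT.deg3 hT hx hN h4
    by_cases h5 : (a, c, w) ∈ T
    · exact GT.tetra_he hT h1 h2 h3 h5 hx
    · obtain ⟨x, hxx⟩ := hx
      have hl := GT.linkCyc_of hT hxx
      have hx : (RSp T).Nonempty := ⟨x, hxx⟩
      obtain ⟨hcx, hv⟩ := GT.rmv_cx hT hl h1 h2 h3
      have he := GT.rmv_he hT hx h1 h2 h3 h5
      have hmem : (a, w, c) ∈ rmv T N a w c := by
        unfold rmv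
        simp
      refine ii_trans he (ihm _ ?_ _ (rmv T N a w c) a hcx (ii_nonempty he hx) rfl
        (ii_verts hmem) rfl)
      rw [hv, card_erase_of_mem hN, hm]
      have : 0 < (verts T).card := card_pos.2 ⟨N, hN⟩
      omega

theorem main_RSp {T : Finset (Tri n)} (hT : Cx T) (hx : (RSp T).Nonempty) :
    Nonempty (ContinuousMap.HomotopyEquiv (RSp T)
      ↥(Matrix.specialOrthogonalGroup (Fin 3) ℝ)) := by
  obtain ⟨⟨i, j, k⟩, hτ⟩ := hT.nonempty
  exact ii_main _ _ T i hT hx rfl (ii_verts hτ) rfl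

end GT
end

section

set_option autoImplicit false

namespace GT
open Finset

variable {n : ℕ}

theorem fi_det (a b c : V3) : (Matrix.of ![a, b, c]).det = d3 a b c := by
  rw [Matrix.det_fin_three]; simp [d3]; ring

theorem main (K : Finset (Tri n)) (hK : ∀ τ ∈ K, τ.1 ≠ τ.2.1 ∧ τ.1 ≠ τ.2.2 ∧ τ.2.1 ≠ τ.2.2)
    (hK' : ∀ i : Fin n, ∃ τ ∈ K, i = τ.1 ∨ i = τ.2.1 ∨ i = τ.2.2) (v : Fin n → V3)
    (hv : Frz K v) :
    Nonempty (ContinuousMap.HomotopyEquiv
      {w : Fin n → Fin 3 → ℝ // Frz K w ∧ ∀ τ ∈ K, 0 < (Matrix.of ![w τ.1, w τ.2.1, w τ.2.2]).det *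
        (Matrix.of ![v τ.1, v τ.2.1, v τ.2.2]).det}
      ↥(Matrix.specialOrthogonalGroup (Fin 3) ℝ)) := by
  obtain ⟨hc, hu⟩ := GT.frz_cx hK hK' hv
  have hiff := GT.frz_iff hK hK' hv
  have hvv : v ∈ RSp (TK K v) := by
    refine ((hiff v).1 ⟨hv, fun τ hτ => ?_⟩).2
    exact mul_self_pos.2 (GT.frz_nondeg hK hv τ hτ)
  obtain ⟨e1⟩ := GT.unit_he hc hu
  obtain ⟨e2⟩ := GT.main_RSp hc ⟨v, hvv⟩
  have hp : ∀ w : Fin n → Fin 3 → ℝ, (Frz K w ∧ ∀ τ ∈ K,
      0 < (Matrix.of ![w τ.1, w τ.2.1, w τ.2.2]).det *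
        (Matrix.of ![v τ.1, v τ.2.1, v τ.2.2]).det) ↔
      w ∈ {x : Fin n → V3 | (∀ i, (∑ a, x i a ^ 2) = 1) ∧ x ∈ RSp (TK K v)} := by
    intro w
    simp only [fi_det]
    exact hiff w
  let e0 : {w : Fin n → Fin 3 → ℝ // Frz K w ∧ ∀ τ ∈ K,
      0 < (Matrix.of ![w τ.1, w τ.2.1, w τ.2.2]).det *
        (Matrix.of ![v τ.1, v τ.2.1, v τ.2.2]).det} ≃ₜ
      {x : Fin n → V3 | (∀ i, (∑ a, x i a ^ 2) = 1) ∧ x ∈ RSp (TK K v)} :=
    Homeomorph.subtype (Homeomorph.refl _) hp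
  exact ⟨e0.toHomotopyEquiv.trans (e1.trans e2)⟩

end GT
end
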